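import Pool.Agent.KWG.A1a

/-!
# [KWG-A1] Theorem A: equal numbers of words of every type

`sol_mono`: for a good type `T` and `T ⊆ Y ⊆ T ∪ Ev T`: if `Sol α Y` is nonempty then `Sol β Y` is nonempty.
Proof: let `w ∈ Sol α Y`, `X = ext w`; by `sol_of_cpt` it is enough to prove `Cpt D m Y`.  Let
`x, y ∈ Y` and `t` a letter covered by both.  By `good_union` `RT T x.1`, `RT T y.1`.  `RT_path` gives valid
lists `L1` from `X` to `st m X x.1` and `L2` from `X` to `st m X y.1`; `L1.reverse ++ L2` is valid from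
`st m X x.1` and ends at `st m X y.1` (`Val_rev`, `fin_rev`, `Val_append`, `fin_append`).  `claimP` with
`p = x.2`, `q = y.2`, `I = (Wi n m : Set ℤ)`.

`thmA`: `nT_good`/`nT_bad` and `cnt_transfer'` with `sol_mono` in both directions.
-/

namespace Pool.Agent.KWG

open Finset
open scoped symmDiff

theorem sol_mono {α β : ℕ → Bool} {m n : ℕ}
    (hper : ∀ d, d + m + 1 ≤ n → (Per α m d ↔ Per β m d))
    (hgs : ∀ g, 2 ≤ g → g + 2 * m + 1 ≤ n → Gs α m g → Gs β m g)
    {T Y : Finset (Finset ℤ × ℤ)} (hT : Good m n T) (h1 : T ⊆ Y) (h2 : Y ⊆ T ∪ Ev m n T)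
    (hne : (Sol α m n Y).Nonempty) : (Sol β m n Y).Nonempty := by
  obtain ⟨w, hw⟩ := id hne
  rw [mem_Sol] at hw
  refine sol_of_cpt (fun x hx => (good_union hT (h2 hx)).1) hne ?_
  intro x hx y hy t ht1 ht2 ht3 ht4
  have hgx := good_union hT (h2 hx)
  have hgy := good_union hT (h2 hy)
  have hTav : ∀ x ∈ T, x.2 ∈ Wi n m ∧ At α m (st m (ext w) x.1) x.2 := fun x hx =>
    ⟨(good_union hT (Finset.mem_union_left _ hx)).1, hw x (h1 hx)⟩
  obtain ⟨L1, v1, f1⟩ := RT_path hTav hgx.2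
  obtain ⟨L2, v2, f2⟩ := RT_path hTav hgy.2
  have v : Val α m (Wi n m : Set ℤ) (st m (ext w) x.1) (L1.reverse ++ L2) := by
    refine Val_append.2 ⟨?_, ?_⟩
    · rw [← f1]
      exact Val_rev v1
    · rw [← f1, fin_rev]
      exact v2
  have f : fin m (st m (ext w) x.1) (L1.reverse ++ L2) = st m (ext w) y.1 := by
    rw [fin_append, ← f1, fin_rev, f2]
  exact claimP (D := fun j => α j ^^ β j) (I := (Wi n m : Set ℤ))
    (fun Y p d hp hq a b _ _ => h1_of_per hper Y p d hp hq a b)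
    (fun Y l r q δ hl hr _ _ a b c d e f g h i j => h2_of_gs hper hgs Y l r q δ hl hr a b c d e f g h i j)
    v hgx.1 hgy.1 (hw x hx) (by rw [f]; exact hw y hy) ht1 ht2 ht3 ht4

theorem thmA {α β : ℕ → Bool} {m n : ℕ}
    (hper : ∀ d, d + m + 1 ≤ n → (Per α m d ↔ Per β m d))
    (hgs : ∀ g, 2 ≤ g → g + 2 * m + 1 ≤ n → (Gs α m g ↔ Gs β m g))
    (T : Finset (Finset ℤ × ℤ)) : nT α m n T = nT β m n T := by
  by_cases hT : Good m n T
  · rw [nT_good hT, nT_good hT]
    exact cnt_transfer' (Ev m n T) T fun Z hZ hZ' =>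
      ⟨sol_mono hper (fun g a b => (hgs g a b).1) hT hZ hZ',
        sol_mono (fun d h => (hper d h).symm) (fun g a b => (hgs g a b).2) hT hZ hZ'⟩
  · rw [nT_bad hT, nT_bad hT]

end Pool.Agent.KWG
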