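import Pool.Agent.KWG.P2b

/-!
# [KWG-P2] propagation of `D` along lists of moves

`H1`: two windows available in the same word: `D` has their distance as a period.
`H2`: corner configuration: `l, r` and `q + δ` available in `Y`, `q` available after the two far moves
`l, r`; all conflicts; `l + m + 2 ≤ r`: then `D` has the period `δ`.
Conclusion: `D (t - p) = D (t - q)` whenever `p` is available at the start, `q` at the end of a valid list
and both cover `t`.

`zeroP` (empty list): `p = q` trivial; if `p < q`, `H1` with `d = q - p` (`1 ≤ d < m` since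
`q ≤ t < p + m`) and `j = t - q`, `j + d = t - p < m`; if `q < p` symmetric.

`claimP`: fix `t` and prove `Clm α m I D t N` for all `N` by induction (strong induction on the length of
`L`).  Let `L` have length `k` and assume `Clm α m I D t k`.
(a) If some element `r` of `L` covers `t` (`r ≤ t < r + m`): `L = L1 ++ r :: L2` (`List.append_of_mem`);
    by `Val_split` `Clm` applies to (`X`, `L1`, `p`, `r`) and to (`fl m r (fin m X L1)`, `L2`, `r`, `q`)
    (`At_fl_self`): `D (t - p) = D (t - r) = D (t - q)`.
(b) Otherwise every element is of left or right type.  Let `A`, `R` be the two filtered lists (P0b):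
    `(A ++ R).Perm L`, same length, same end (`fin_perm`), `A ++ R` and `R ++ A` valid.
    Apply `left_le_one` and `right_le_one`.  Remaining cases:
    - `A = []`, `R = []`: `L = []`, `zeroP`.
    - `A = [a]`, `R = []`: `a` available in `X`, `a < p ≤ a + m`, `p` available in `X`, the end word is
      `fl m a X`, `q` is available there, `a < q ≤ a + m`: contradiction to `noRight`.
    - `A = []`, `R = [b]`: `p < b ≤ p + m`, `q < b ≤ q + m`: contradiction to `noLeft`.
    - `A = [a]`, `R = [b]`: `a + m ≤ t < b`; `a` available in `X`, and `b` too (valid order `R ++ A`);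
      the end word is `Y = fl m b (fl m a X)`.
      * `b = a + m + 1`: on the letters `q, ..., q + m - 1` the words `X` and `Y` agree: the flipped letters
        are `a - 1 < q`, `a + m` (twice: `b - 1 = a + m`) and `b + m > q + m - 1`.  So `q` is available in
        `X`: `zeroP`.
      * `b ≥ a + m + 2`, `p = q`: trivial.
      * `b ≥ a + m + 2`, `q < p`: `H2` for `Y := X`, `l = a`, `r = b`, `δ = p - q`: `D` has the period `δ`,
        `(t - p) + δ = t - q < m`.
      * `b ≥ a + m + 2`, `p < q`: `H2` for the end word `Y` (in which `a`, `b`, `q` are available, `a` and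
        `b` being far; and `fl m b (fl m a Y) = X`), `δ = q - p`.
-/

namespace Pool.Agent.KWG

theorem zeroP {α : ℕ → Bool} {m : ℕ} {I : Set ℤ} {D : ℕ → Bool}
    (H1 : ∀ (Y : ℤ → Bool) (p : ℤ) (d : ℕ), p ∈ I → p + d ∈ I → At α m Y p → At α m Y (p + d) →
      1 ≤ d → d ≤ m → Per D m d)
    {X : ℤ → Bool} {p q t : ℤ} (hp : p ∈ I) (hq : q ∈ I) (hX : At α m X p) (hY : At α m X q)
    (h3 : p ≤ t) (h4 : t < p + m) (h5 : q ≤ t) (h6 : t < q + m) :
    D (t - p).toNat = D (t - q).toNat := by
  rcases lt_trichotomy p q with hpq | hpq | hpq
  · have e1 : p + ((q - p).toNat : ℤ) = q := by omega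
    have h7 := H1 X p (q - p).toNat hp (by rw [e1]; exact hq) hX (by rw [e1]; exact hY) (by omega)
      (by omega) (t - q).toNat (by omega)
    have e2 : (t - q).toNat + (q - p).toNat = (t - p).toNat := by omega
    rw [e2] at h7
    exact h7.symm
  · rw [hpq]
  · have e1 : q + ((p - q).toNat : ℤ) = p := by omega
    have h7 := H1 X q (p - q).toNat hq (by rw [e1]; exact hp) hY (by rw [e1]; exact hX) (by omega)
      (by omega) (t - p).toNat (by omega)
    have e2 : (t - p).toNat + (p - q).toNat = (t - q).toNat := by omega
    rw [e2] at h7
    exact h7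

theorem claimP {α : ℕ → Bool} {m : ℕ} {I : Set ℤ} {D : ℕ → Bool}
    (H1 : ∀ (Y : ℤ → Bool) (p : ℤ) (d : ℕ), p ∈ I → p + d ∈ I → At α m Y p → At α m Y (p + d) →
      1 ≤ d → d ≤ m → Per D m d)
    (H2 : ∀ (Y : ℤ → Bool) (l r q : ℤ) (δ : ℕ), l ∈ I → r ∈ I → q ∈ I → q + δ ∈ I → At α m Y l →
      At α m Y r → At α m Y (q + δ) → At α m (fl m r (fl m l Y)) q → 1 ≤ δ → l < q →
      q + δ ≤ l + m → q + δ < r → r ≤ q + m → l + m + 2 ≤ r → Per D m δ)
    {X : ℤ → Bool} {L : List ℤ} (hL : Val α m I X L) {p q t : ℤ} (hp : p ∈ I) (hq : q ∈ I)
    (hX : At α m X p) (hY : At α m (fin m X L) q)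
    (h3 : p ≤ t) (h4 : t < p + m) (h5 : q ≤ t) (h6 : t < q + m) :
    D (t - p).toNat = D (t - q).toNat := by
  have main : ∀ N : ℕ, Clm α m I D t N := by
    intro N
    induction N with
    | zero =>
      intro X L p q hL
      exact absurd hL (Nat.not_lt_zero _)
    | succ k ih =>
      intro X L p q hLk hL hp hq hX hY h3 h4 h5 h6
      have hC : Clm α m I D t L.length := by
        intro X' L' p' q' hL'
        exact ih X' L' p' q' (by omega)
      by_cases hcov : ∃ r ∈ L, r ≤ t ∧ t < r + m
      · obtain ⟨r, hr, hr1, hr2⟩ := hcov
        obtain ⟨L1, L2, rfl⟩ := List.append_of_mem hr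
        obtain ⟨v1, v2, v3, v4⟩ := Val_split hL
        have e1 := hC X L1 p r (by rw [List.length_append, List.length_cons]; omega) v1 hp v2 hX v3
          h3 h4 hr1 hr2
        have e2 := hC (fl m r (fin m X L1)) L2 r q
          (by rw [List.length_append, List.length_cons]; omega) v4 v2 hq (At_fl_self.2 v3)
          (by rw [fin_append] at hY; exact hY) hr1 hr2 h5 h6
        exact e1.trans e2
      · have hLs : ∀ x ∈ L, x + m ≤ t ∨ t < x := by
          intro x hx
          by_contra hcon
          push Not at hcon
          exact hcov ⟨x, hx, hcon.2, hcon.1⟩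
        obtain ⟨h1, h2⟩ := Val_sep hL hLs
        have hperm := filter_perm hLs
        have hA : ∀ x ∈ L.filter (fun x => decide (x + m ≤ t)), x + m ≤ t := by
          intro x hx
          exact of_decide_eq_true (List.mem_filter.1 hx).2
        have hR : ∀ x ∈ L.filter (fun x => decide (t < x)), t < x := by
          intro x hx
          exact of_decide_eq_true (List.mem_filter.1 hx).2
        revert h1 h2 hperm hA hR
        generalize L.filter (fun x => decide (x + m ≤ t)) = A
        generalize L.filter (fun x => decide (t < x)) = R
        intro h1 h2 hperm hA hR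
        rw [← hperm.length_eq] at hC
        rw [← fin_perm m hperm] at hY
        rcases left_le_one hC h1 h2 hp hq hX hY hA h3 h4 h5 h6 with h7 | hA0 | ⟨a, hA1, ha1, ha2, ha3, ha4⟩
        · exact h7
        · rcases right_le_one hC h1 h2 hp hq hX hY hR h3 h4 h5 h6 with h7 | hR0 | ⟨b, hR1, hb1, hb2, hb3, hb4⟩
          · exact h7
          · rw [hA0, hR0] at hY
            exact zeroP H1 hp hq hX hY h3 h4 h5 h6
          · rw [hA0, hR1] at hY h1
            exact absurd hY (noLeft hX h1.2.1 hb1 hb2 hb3 hb4)
        · rcases right_le_one hC h1 h2 hp hq hX hY hR h3 h4 h5 h6 with h7 | hR0 | ⟨b, hR1, hb1, hb2, hb3, hb4⟩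
          · exact h7
          · rw [hA1, hR0] at hY h1
            exact absurd hY (noRight h1.2.1 hX ha1 ha2 ha3 ha4)
          · have ha5 : a + m ≤ t := hA a (by rw [hA1]; exact List.mem_singleton_self a)
            have hb5 : t < b := hR b (by rw [hR1]; exact List.mem_singleton_self b)
            rw [hA1, hR1] at h1 h2 hY
            obtain ⟨a6, a7, b6, b7, -⟩ := h1
            obtain ⟨-, b8, -, a8, -⟩ := h2
            have hY' : At α m (fl m b (fl m a X)) q := hY
            by_cases hbm : b = a + m + 1
            · have hYX : At α m X q := by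
                refine (At_congr fun s hs1 hs2 => ?_).1 hY'
                have e1 : eps m a s = eps m b s := by
                  unfold eps
                  have d1 : decide (s + 1 = a) = false := decide_eq_false (by omega)
                  have d2 : decide (s - m = b) = false := decide_eq_false (by omega)
                  have d3 : decide (s - m = a) = decide (s + 1 = b) := decide_eq_decide.2 (by omega)
                  rw [d1, d2, d3]
                  cases decide (s + 1 = b) <;> rfl
                show ((X s ^^ eps m a s) ^^ eps m b s : Bool) = X s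
                rw [e1]
                cases X s <;> cases eps m b s <;> rfl
              exact zeroP H1 hp hq hX hYX h3 h4 h5 h6
            · have hbm2 : a + m + 2 ≤ b := by omega
              rcases lt_trichotomy p q with hpq | hpq | hpq
              · have e1 : p + ((q - p).toNat : ℤ) = q := by omega
                have e3 : fl m b (fl m a (fl m b (fl m a X))) = X := by
                  rw [fl_comm m a b, fl_fl, fl_fl]
                have hYa : At α m (fl m b (fl m a X)) a :=
                  (At_fl_far (Or.inr (by omega))).2 (At_fl_self.2 a7)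
                have hYb : At α m (fl m b (fl m a X)) b := At_fl_self.2 b7
                have h8 := H2 (fl m b (fl m a X)) a b p (q - p).toNat a6 b6 hp (by rw [e1]; exact hq)
                  hYa hYb (by rw [e1]; exact hY') (by rw [e3]; exact hX) (by omega) ha1 (by omega)
                  (by omega) hb2 hbm2 (t - q).toNat (by omega)
                have e2 : (t - q).toNat + (q - p).toNat = (t - p).toNat := by omega
                rw [e2] at h8
                exact h8.symm
              · rw [hpq]
              · have e1 : q + ((p - q).toNat : ℤ) = p := by omega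
                have h8 := H2 X a b q (p - q).toNat a6 b6 hq (by rw [e1]; exact hp)
                  a7 b8 (by rw [e1]; exact hX) hY' (by omega) ha3 (by omega)
                  (by omega) hb4 hbm2 (t - p).toNat (by omega)
                have e2 : (t - p).toNat + (p - q).toNat = (t - q).toNat := by omega
                rw [e2] at h8
                exact h8
  exact main (L.length + 1) X L p q (Nat.lt_succ_self _) hL hp hq hX hY h3 h4 h5 h6

end Pool.Agent.KWG
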