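import Pool.Agent.KWG.R0

/-!
# [KWG-R1] consequences of the corner relation (pure)

`gs_largest`: for `GsAt α m a b g` and `b < b' < m`, `m - b'` is not a period.
Proof.  Suppose it is; put `d = m - b'`, so `1 ≤ d < m - b = a + g`, and `δ = b - a`, `m = 2 a + δ + g`.
The pair `(a, b)` is a mismatch: `α a ≠ α b`.  `b + d < m` so `α (a + d) = α a ≠ α b = α (b + d)`: hence
`a + d` is a mismatch index: `a + d = a` (no) or `a + d + 1 = a + g`: `d = g - 1`.
Then `α (a + g - 1) = α (a + d) = α a ≠ α b`, contradiction to `rel_letter`.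

`gs_unique`: if `α` and `β` have the same periods, `GsAt α m a b g` and `GsAt β m a' b' g`, then `a = a'` and
`b = b'`.  Proof: `m - b` is a period of `α`, hence of `β`; if `b' < b` this contradicts `gs_largest` for `β`
(`b < m` since `g ≥ 2`); symmetric if `b < b'`.  So `b = b'` and `a = m - b - g = a'`.

`gs_le`: `g ≤ d` for every period `d` with `1 ≤ d < m`: otherwise `b' = m - d > m - g ≥ b` would contradict
`gs_largest`.
`gs_le_m`: `g ≤ m`.
-/

namespace Pool.Agent.KWG

theorem gs_largest {α : ℕ → Bool} {m a b g : ℕ} (h : GsAt α m a b g) {b' : ℕ} (h1 : b < b')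
    (h2 : b' < m) : ¬ Per α m (m - b') := by
  intro hp
  obtain ⟨hg, hab, hm, -, -, hmis⟩ := id h
  obtain ⟨d, hd⟩ : ∃ d, d = m - b' := ⟨_, rfl⟩
  rw [← hd] at hp
  have e1 : α a ≠ α b := by
    have := (hmis a (by omega)).2 (Or.inl rfl)
    have e : a + (b - a) = b := by omega
    rw [e] at this
    exact this
  have e2 : α a = α (a + d) := hp a (by omega)
  have e3 : α b = α (b + d) := hp b (by omega)
  have e4 : α (a + d) ≠ α (a + d + (b - a)) := by
    have e : a + d + (b - a) = b + d := by omega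
    rw [e, ← e2, ← e3]
    exact e1
  rcases (hmis (a + d) (by omega)).1 e4 with h5 | h5
  · omega
  · have e6 := rel_letter h
    have e : a + g - 1 = a + d := by omega
    rw [e, ← e2] at e6
    exact e1 e6.symm

theorem gs_unique {α β : ℕ → Bool} {m a b a' b' g : ℕ} (hper : ∀ d, Per α m d ↔ Per β m d)
    (h : GsAt α m a b g) (h' : GsAt β m a' b' g) : a = a' ∧ b = b' := by
  obtain ⟨hg, hab, hm, -, hb, -⟩ := id h
  obtain ⟨-, hab', hm', -, hb', -⟩ := id h'
  have e : b = b' := by
    rcases lt_trichotomy b b' with h1 | h1 | h1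
    · exact absurd ((hper _).2 hb') (gs_largest h h1 (by omega))
    · exact h1
    · exact absurd ((hper _).1 hb) (gs_largest h' h1 (by omega))
  exact ⟨by omega, e⟩

theorem gs_le {α : ℕ → Bool} {m g : ℕ} (h : Gs α m g) {d : ℕ} (h1 : 1 ≤ d) (h2 : d < m)
    (h3 : Per α m d) : g ≤ d := by
  obtain ⟨a, b, h⟩ := h
  by_contra hcon
  obtain ⟨hg, hab, hm, -⟩ := id h
  refine gs_largest h (b' := m - d) (by omega) (by omega) ?_
  have e : m - (m - d) = d := by omega
  rw [e]
  exact h3

theorem gs_le_m {α : ℕ → Bool} {m g : ℕ} (h : Gs α m g) : g ≤ m := by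
  obtain ⟨a, b, h⟩ := h
  obtain ⟨hg, hab, hm, -⟩ := h
  omega

/-- with the same mismatches, `D = α xor β` has the period `b - a` -/
theorem gs_D {α β : ℕ → Bool} {m a b g : ℕ} (h : GsAt α m a b g) (h' : GsAt β m a b g) :
    Per (fun j => α j ^^ β j) m (b - a) := by
  intro j hj
  have h1 := h.2.2.2.2.2 j hj
  have h2 := h'.2.2.2.2.2 j hj
  have h3 : (α j ≠ α (j + (b - a))) ↔ (β j ≠ β (j + (b - a))) := h1.trans h2.symm
  show (α j ^^ β j) = (α (j + (b - a)) ^^ β (j + (b - a)))
  revert h3
  generalize α j = x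
  generalize β j = y
  generalize α (j + (b - a)) = z
  generalize β (j + (b - a)) = w
  revert x y z w
  decide

end Pool.Agent.KWG
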