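import Pool.Agent.KWG.W0
import Pool.Agent.KWG.R1

/-!
# [KWG-R4] corner configurations

`cfg_gs`.  `l, r, q + δ` are available in `X`, `q` is available in `Y = fl m r (fl m l X)`, `δ ≥ 1`,
`l < q`, `q + δ ≤ l + m`, `q + δ < r`, `r ≤ q + m`, `l + m + 2 ≤ r`.  Then with `p = q + δ`:
`GsAt α m (l + m - p) (l + m - q) (r - l - m)`.

Proof.  Put (natural numbers) `a = l + m - p`, `c = q + m - r`, `g = r - l - m ≥ 2`; `a + g + c + δ = m`.
* windows `l`, `q` of `Y` (`l` is available in `Y`: `At_fl_self`, `At_fl_far`): `Per α m (q - l)`,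
  `q - l = m - (a + δ)` (`per_of_At`).
* windows `p`, `r` of `X`: `Per α m (r - p)`, `r - p = m - (c + δ)`.
* windows `l`, `p` of `X`: `Per α m (p - l)`, `p - l = m - a`.
* mismatches: `Y` differs from `X` on the letters `q, ..., q + m - 1` exactly at `l + m` and `r - 1`
  (the letters `l - 1` and `r + m` are outside; `l + m < r - 1`).  For `j + δ < m` the letter
  `s = p + j = q + (j + δ)` has `X s = α j` and `Y s = α (j + δ)`, so `α j ≠ α (j + δ)` iff `s = l + m` or
  `s = r - 1`, i.e. `j = a` or `j = r - 1 - p = a + g - 1`.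
`rel_struct` gives `c = a`, so `a + (a + δ) + g = m` and `b = a + δ = l + m - q`.
-/

namespace Pool.Agent.KWG

open Finset
open scoped symmDiff

theorem cfg_gs {α : ℕ → Bool} {m : ℕ} {X : ℤ → Bool} {l r q : ℤ} {δ : ℕ} (hl : At α m X l)
    (hr : At α m X r) (hp : At α m X (q + δ)) (hq : At α m (fl m r (fl m l X)) q) (hδ : 1 ≤ δ)
    (h1 : l < q) (h2 : q + δ ≤ l + m) (h3 : q + δ < r) (h4 : r ≤ q + m) (h5 : l + m + 2 ≤ r) :
    GsAt α m (l + m - (q + δ)).toNat (l + m - q).toNat (r - l - m).toNat := by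
  obtain ⟨a, ha⟩ : ∃ a : ℕ, (a : ℤ) = l + m - (q + δ) :=
    ⟨(l + m - (q + δ)).toNat, Int.toNat_of_nonneg (by omega)⟩
  obtain ⟨b, hb⟩ : ∃ b : ℕ, (b : ℤ) = l + m - q :=
    ⟨(l + m - q).toNat, Int.toNat_of_nonneg (by omega)⟩
  obtain ⟨g, hg⟩ : ∃ g : ℕ, (g : ℤ) = r - l - m :=
    ⟨(r - l - m).toNat, Int.toNat_of_nonneg (by omega)⟩
  obtain ⟨c, hc⟩ : ∃ c : ℕ, (c : ℤ) = q + m - r :=
    ⟨(q + m - r).toNat, Int.toNat_of_nonneg (by omega)⟩
  have ea : (l + m - (q + δ)).toNat = a := by rw [← ha]; exact Int.toNat_natCast a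
  have eb : (l + m - q).toNat = b := by rw [← hb]; exact Int.toNat_natCast b
  have eg : (r - l - m).toNat = g := by rw [← hg]; exact Int.toNat_natCast g
  rw [ea, eb, eg]
  have hlY : At α m (fl m r (fl m l X)) l :=
    (At_fl_far (Or.inr (by omega))).2 (At_fl_self.2 hl)
  have P1 : Per α m (m - (a + δ)) := by
    refine per_of_At (p := l) hlY ?_
    have e : l + ((m - (a + δ) : ℕ) : ℤ) = q := by omega
    rw [e]
    exact hq
  have P2 : Per α m (m - (c + δ)) := by
    refine per_of_At (p := q + δ) hp ?_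
    have e : q + δ + ((m - (c + δ) : ℕ) : ℤ) = r := by omega
    rw [e]
    exact hr
  have P3 : Per α m (m - a) := by
    refine per_of_At (p := l) hl ?_
    have e : l + ((m - a : ℕ) : ℤ) = q + δ := by omega
    rw [e]
    exact hp
  have hmis : ∀ j, j + δ < m → (α j ≠ α (j + δ) ↔ (j = a ∨ j + 1 = a + g)) := by
    intro j hj
    have e1 : X (q + δ + j) = α j := hp j (by omega)
    have e2 : fl m r (fl m l X) (q + ((j + δ : ℕ) : ℤ)) = α (j + δ) := hq (j + δ) hj
    have e3 : q + ((j + δ : ℕ) : ℤ) = q + δ + j := by push_cast; ring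
    rw [e3] at e2
    have e4 : fl m r (fl m l X) (q + δ + j) =
        ((X (q + δ + j) ^^ (decide (q + δ + j + 1 = l) ^^ decide (q + δ + j - m = l))) ^^
          (decide (q + δ + j + 1 = r) ^^ decide (q + δ + j - m = r))) := rfl
    have f1 : decide (q + δ + j + 1 = l) = false := decide_eq_false (by omega)
    have f2 : decide (q + δ + j - m = r) = false := decide_eq_false (by omega)
    have f3 : decide (q + δ + j - m = l) = decide (j = a) := decide_eq_decide.2 (by omega)
    have f4 : decide (q + δ + j + 1 = r) = decide (j + 1 = a + g) := decide_eq_decide.2 (by omega)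
    rw [f1, f2, f3, f4, e1] at e4
    rw [e4] at e2
    rw [← e2]
    by_cases g1 : j = a
    · have g2 : ¬ j + 1 = a + g := by omega
      rw [decide_eq_true g1, decide_eq_false g2]
      refine iff_of_true ?_ (Or.inl g1)
      cases α j <;> decide
    · by_cases g2 : j + 1 = a + g
      · simp [g1, g2]
      · simp [g1, g2]
  have hca : c = a := rel_struct (α := α) (m := m) (a := a) (c := c) (g := g) (δ := δ) (by omega)
    (by omega) hδ P1 P2 hmis
  have hba : b = a + δ := by omega
  have hsub : b - a = δ := by omega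
  refine ⟨by omega, by omega, by omega, P3, ?_, ?_⟩
  · rw [hba]
    exact P1
  · rw [hsub]
    exact hmis

end Pool.Agent.KWG
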