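import Pool.Agent.KWG.S1

/-!
# [KWG-S3] from a solution for `α` to a solution for `β`

`w ∈ Sol α m n Y`, all windows of `Y` are admissible (`x.2 ∈ Wi n m`), and `D = α xor β` takes the same value
at each letter for all windows of `Y` covering it (`Cpt`).  Then `Sol β m n Y` is nonempty.

Proof.  Define `w' i = w i ^^ D (i - x.2).toNat` if some `x ∈ Y` covers the letter `i`
(`x.2 ≤ i < x.2 + m`; choose one, `Classical.choose`), `w' i = w i` otherwise.  Let `y ∈ Y`, `j < m`,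
`s = y.2 + j`; `0 ≤ s < n` as `y.2 ∈ Wi n m`.  So `ext w' s = w s ^^ D (s - x.2)` with the chosen `x`
covering `s`, and `D (s - x.2) = D (s - y.2) = D j` by `Cpt`.  Hence
`st m (ext w') y.1 s = ext w s ^^ D j ^^ epsF m y.1 s = α j ^^ (α j ^^ β j) = β j`.
-/

namespace Pool.Agent.KWG

theorem sol_of_cpt {α β : ℕ → Bool} {m n : ℕ} {Y : Finset (Finset ℤ × ℤ)}
    (hW : ∀ x ∈ Y, x.2 ∈ Wi n m) (hne : (Sol α m n Y).Nonempty)
    (hD : Cpt (fun j => α j ^^ β j) m Y) : (Sol β m n Y).Nonempty := by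
  classical
  obtain ⟨w, hw⟩ := hne
  rw [mem_Sol] at hw
  let dv : ℤ → Bool := fun s => if h : ∃ x ∈ Y, x.2 ≤ s ∧ s < x.2 + m then
    (α ((s - h.choose.2).toNat) ^^ β ((s - h.choose.2).toNat)) else false
  have hdv : ∀ y ∈ Y, ∀ j : ℕ, j < m → dv (y.2 + j) = (α j ^^ β j) := by
    intro y hy j hj
    have h : ∃ x ∈ Y, x.2 ≤ y.2 + (j : ℤ) ∧ y.2 + (j : ℤ) < x.2 + m :=
      ⟨y, hy, by omega, by omega⟩
    have h1 : dv (y.2 + j) = (α ((y.2 + (j : ℤ) - h.choose.2).toNat) ^^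
        β ((y.2 + (j : ℤ) - h.choose.2).toNat)) := dif_pos h
    rw [h1]
    have h2 := hD h.choose h.choose_spec.1 y hy (y.2 + j) h.choose_spec.2.1 h.choose_spec.2.2
      (by omega) (by omega)
    have h3 : (y.2 + (j : ℤ) - y.2).toNat = j := by omega
    rw [h3] at h2
    exact h2
  refine ⟨fun i => w i ^^ dv ((i : ℕ) : ℤ), ?_⟩
  rw [mem_Sol]
  intro y hy j hj
  have h4 := hw y hy j hj
  have hWy := hW y hy
  unfold Wi at hWy
  rw [Finset.mem_Ico] at hWy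
  have hs : 0 ≤ y.2 + (j : ℤ) ∧ y.2 + (j : ℤ) < n := by
    constructor <;> omega
  have e1 : ext (fun i : Fin n => w i ^^ dv ((i : ℕ) : ℤ)) (y.2 + j) =
      (ext w (y.2 + j) ^^ dv (y.2 + j)) := by
    unfold ext
    rw [dif_pos hs, dif_pos hs]
    have h5 : (((y.2 + (j : ℤ)).toNat : ℕ) : ℤ) = y.2 + j := by omega
    show (w _ ^^ dv (((y.2 + (j : ℤ)).toNat : ℕ) : ℤ)) = _
    rw [h5]
  change (ext w (y.2 + j) ^^ epsF m y.1 (y.2 + j)) = α j at h4
  show (ext (fun i : Fin n => w i ^^ dv ((i : ℕ) : ℤ)) (y.2 + j) ^^ epsF m y.1 (y.2 + j)) = β j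
  rw [e1, hdv y hy j hj]
  revert h4
  generalize ext w (y.2 + j) = a
  generalize epsF m y.1 (y.2 + j) = b
  generalize α j = c
  generalize β j = d
  revert a b c d
  decide

end Pool.Agent.KWG
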