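import Pool.Agent.KWG.S4
import Pool.Agent.KWG.S3
import Pool.Agent.KWG.P2
import Pool.Agent.KWG.R4

/-!
# [KWG-A1a] discharging the hypotheses of claimP

`RT_path`: if all windows of `T` are available for the word `X` (in the states given by `T`) and `RT T F`,
then there is a valid list from `X` to `st m X F`.  Induction on `RT`, `Val_append`, `fin_append`, `fl_st`.

`h1_of_per`: hypothesis `H1` of `claimP` for `D = α xor β` and `I = Wi n m`: `Per α m d` by `per_of_At`,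
`d + m + 1 ≤ n` because `p ≥ 0`, `p + d + m < n`; so `Per β m d`; so `D` has the period `d`.

`h2_of_gs`: hypothesis `H2` of `claimP`: let `p = q + δ`, `g = r - l - m ≥ 2`; `g + 2 m + 1 ≤ n` because
`l ≥ 0`, `r + m < n`.  By `cfg_gs` `GsAt α m a b g` with `a = l + m - p`, `b = l + m - q`, so `Gs α m g`, hence
`Gs β m g`: `GsAt β m a' b' g`.  As `n ≥ 2 m + 3`, the hypothesis on the periods covers all `d < m`
(`d + m + 1 ≤ n`), and for `d ≥ m` everything is a period: `∀ d, Per α m d ↔ Per β m d`.  By `gs_unique`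
`a' = a`, `b' = b`, and `gs_D` gives the period `b - a = δ` of `D`.
-/

namespace Pool.Agent.KWG

open Finset
open scoped symmDiff

theorem RT_path {α : ℕ → Bool} {m n : ℕ} {T : Finset (Finset ℤ × ℤ)} {X : ℤ → Bool}
    (hT : ∀ x ∈ T, x.2 ∈ Wi n m ∧ At α m (st m X x.1) x.2) {F : Finset ℤ} (hF : RT T F) :
    ∃ L : List ℤ, Val α m (Wi n m : Set ℤ) X L ∧ fin m X L = st m X F := by
  induction hF with
  | zero => exact ⟨[], trivial, (st_empty m X).symm⟩
  | @step F p hF' hm ih =>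
    obtain ⟨L, hv, hf⟩ := ih
    obtain ⟨k1, k2⟩ := hT (F, p) hm
    refine ⟨L ++ [p], Val_append.2 ⟨hv, ?_⟩, ?_⟩
    · refine ⟨Finset.mem_coe.2 k1, ?_, trivial⟩
      rw [hf]
      exact k2
    · rw [fin_append, hf]
      exact fl_st m X F p

theorem h1_of_per {α β : ℕ → Bool} {m n : ℕ}
    (hper : ∀ d, d + m + 1 ≤ n → (Per α m d ↔ Per β m d)) (Y : ℤ → Bool) (p : ℤ) (d : ℕ)
    (hp : p ∈ (Wi n m : Set ℤ)) (hq : p + d ∈ (Wi n m : Set ℤ)) (h1 : At α m Y p)
    (h2 : At α m Y (p + d)) : Per (fun j => α j ^^ β j) m d := by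
  have hα : Per α m d := per_of_At h1 h2
  have hp' := Finset.mem_Ico.1 (Finset.mem_coe.1 hp)
  have hq' := Finset.mem_Ico.1 (Finset.mem_coe.1 hq)
  have hβ : Per β m d := (hper d (by omega)).1 hα
  intro j hj
  dsimp only
  rw [hα j hj, hβ j hj]

theorem h2_of_gs {α β : ℕ → Bool} {m n : ℕ}
    (hper : ∀ d, d + m + 1 ≤ n → (Per α m d ↔ Per β m d))
    (hgs : ∀ g, 2 ≤ g → g + 2 * m + 1 ≤ n → Gs α m g → Gs β m g)
    (Y : ℤ → Bool) (l r q : ℤ) (δ : ℕ) (hl : l ∈ (Wi n m : Set ℤ)) (hr : r ∈ (Wi n m : Set ℤ))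
    (h1 : At α m Y l) (h2 : At α m Y r) (h3 : At α m Y (q + δ))
    (h4 : At α m (fl m r (fl m l Y)) q) (hδ : 1 ≤ δ) (h5 : l < q) (h6 : q + δ ≤ l + m)
    (h7 : q + δ < r) (h8 : r ≤ q + m) (h9 : l + m + 2 ≤ r) :
    Per (fun j => α j ^^ β j) m δ := by
  have hl' := Finset.mem_Ico.1 (Finset.mem_coe.1 hl)
  have hr' := Finset.mem_Ico.1 (Finset.mem_coe.1 hr)
  have hG := cfg_gs h1 h2 h3 h4 hδ h5 h6 h7 h8 h9
  obtain ⟨a', b', hG'⟩ := hgs (r - l - m).toNat (by omega) (by omega) ⟨_, _, hG⟩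
  have hall : ∀ d, Per α m d ↔ Per β m d := by
    intro d
    by_cases hd : d + m + 1 ≤ n
    · exact hper d hd
    · exact iff_of_true (fun j hj => absurd hj (by omega)) (fun j hj => absurd hj (by omega))
  obtain ⟨e1, e2⟩ := gs_unique hall hG hG'
  subst e1
  subst e2
  have hD := gs_D hG hG'
  have e3 : (l + m - q).toNat - (l + m - (q + δ)).toNat = δ := by omega
  rw [e3] at hD
  exact hD

end Pool.Agent.KWG
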