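import Mathlib

/-!
# keyword substitution graphs: the objects of the problem

`phi`, `KG` (the graph `G_n^(a)`) and `classCount` (number of components of a given size).
-/

namespace Pool.Agent.KWG

/-- the map `φ_i^{(a)}` on words of length `n`; the keyword `a` has length `m+1`, the positions are
`i, ..., i+m` (counted from 0) -/
noncomputable def phi (n m : ℕ) (a : Fin (m + 1) → Bool) (i : ℕ) (u : Fin n → Bool) : Fin n → Bool := by
  classical
  exact if (∀ (j : Fin (m + 1)) (h : i + j < n), u ⟨i + j, h⟩ = a j) ∨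
      (∀ (j : Fin (m + 1)) (h : i + j < n), u ⟨i + j, h⟩ = !(a j))
    then fun t => if i ≤ (t : ℕ) ∧ (t : ℕ) ≤ i + m then !(u t) else u t
    else u

theorem phi_pos (n m : ℕ) (a : Fin (m + 1) → Bool) (i : ℕ) (u : Fin n → Bool)
    (h : (∀ (j : Fin (m + 1)) (h : i + j < n), u ⟨i + j, h⟩ = a j) ∨
      (∀ (j : Fin (m + 1)) (h : i + j < n), u ⟨i + j, h⟩ = !(a j))) :
    phi n m a i u = fun t : Fin n => if i ≤ (t : ℕ) ∧ (t : ℕ) ≤ i + m then !(u t) else u t := by
  unfold phi; rw [if_pos h]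

theorem phi_neg (n m : ℕ) (a : Fin (m + 1) → Bool) (i : ℕ) (u : Fin n → Bool)
    (h : ¬ ((∀ (j : Fin (m + 1)) (h : i + j < n), u ⟨i + j, h⟩ = a j) ∨
      (∀ (j : Fin (m + 1)) (h : i + j < n), u ⟨i + j, h⟩ = !(a j)))) :
    phi n m a i u = u := by
  unfold phi; rw [if_neg h]

theorem phi_phi (n m : ℕ) (a : Fin (m + 1) → Bool) (i : ℕ) (u : Fin n → Bool) :
    phi n m a i (phi n m a i u) = u := by
  by_cases h : (∀ (j : Fin (m + 1)) (h : i + j < n), u ⟨i + j, h⟩ = a j) ∨
      (∀ (j : Fin (m + 1)) (h : i + j < n), u ⟨i + j, h⟩ = !(a j))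
  · have e := phi_pos n m a i u h
    have h' : (∀ (j : Fin (m + 1)) (h : i + j < n), (phi n m a i u) ⟨i + j, h⟩ = a j) ∨
      (∀ (j : Fin (m + 1)) (h : i + j < n), (phi n m a i u) ⟨i + j, h⟩ = !(a j)) := by
      rcases h with h | h
      · right
        intro j hj
        have hj2 : i ≤ i + (j : ℕ) ∧ i + (j : ℕ) ≤ i + m := ⟨by omega, by have := j.2; omega⟩
        rw [e]
        simp only [hj2, and_self, if_true]
        rw [h j hj]
      · left
        intro j hj
        have hj2 : i ≤ i + (j : ℕ) ∧ i + (j : ℕ) ≤ i + m := ⟨by omega, by have := j.2; omega⟩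
        rw [e]
        simp only [hj2, and_self, if_true]
        rw [h j hj, Bool.not_not]
    rw [phi_pos n m a i _ h', e]
    funext t
    by_cases ht : i ≤ (t : ℕ) ∧ (t : ℕ) ≤ i + m
    · simp [ht]
    · simp [ht]
  · rw [phi_neg n m a i u h, phi_neg n m a i u h]

/-- the graph `G_n^{(a)}` -/
def KG (n m : ℕ) (a : Fin (m + 1) → Bool) : SimpleGraph (Fin n → Bool) where
  Adj u v := u ≠ v ∧ ∃ i : ℕ, i + m < n ∧ v = phi n m a i u
  symm := ⟨by
    rintro u v ⟨h, i, hi, h'⟩
    exact ⟨h.symm, i, hi, by rw [h', phi_phi]⟩⟩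
  loopless := ⟨fun _ h => h.1 rfl⟩

/-- number of connected components with exactly `s` vertices -/
noncomputable def classCount {V : Type} (G : SimpleGraph V) (s : ℕ) : ℕ :=
  Nat.card {C : G.ConnectedComponent // Nat.card C.supp = s}

end Pool.Agent.KWG
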