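import Pool.Agent.KWG.W0

/-!
# [KWG-C1] finite words

`p ∈ Wi n m` iff `0 ≤ p` and `p + m < n`.  `ext w t = w t` for `0 ≤ t < n` and `false` otherwise.  The states
`st m (ext w) F` and `ext (stw m w F)` agree on `[0, n)` (they can differ at the letter `-1`, which no
admissible window reads).  `stw_inj`: if `stw m w F = stw m w G`, put `H = F ∆ G`; then `epsF m H t = false`
for `0 ≤ t < n`.  If `H ≠ ∅` let `p = max H`, `t = p + m`: `0 ≤ t < n`, `t - m ∈ H`, `t + 1 ∉ H` because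
`t + 1 > p`; so `epsF m H t = true`, contradiction.
-/

namespace Pool.Agent.KWG

open Finset
open scoped symmDiff

theorem c1_dec (F G : Finset ℤ) (x : ℤ) :
    decide (x ∈ F ∆ G) = (decide (x ∈ F) ^^ decide (x ∈ G)) := by
  rw [Bool.eq_iff_iff]
  by_cases h1 : x ∈ F <;> by_cases h2 : x ∈ G <;> simp [Finset.mem_symmDiff, h1, h2]

theorem c1_epsF (m : ℕ) (F G : Finset ℤ) (t : ℤ) :
    epsF m (F ∆ G) t = (epsF m F t ^^ epsF m G t) := by
  unfold epsF
  rw [c1_dec, c1_dec]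
  cases decide (t + 1 ∈ F) <;> cases decide (t + 1 ∈ G) <;> cases decide (t - m ∈ F) <;>
    cases decide (t - m ∈ G) <;> rfl

theorem mem_Wi {n m : ℕ} {p : ℤ} : p ∈ Wi n m ↔ 0 ≤ p ∧ p + m < n := by
  unfold Wi
  rw [Finset.mem_Ico]
  constructor <;> intro h <;> omega

theorem ext_in {n : ℕ} (w : Fin n → Bool) (i : Fin n) : ext w ((i : ℕ) : ℤ) = w i := by
  unfold ext
  rw [dif_pos ⟨by omega, by omega⟩]
  congr 1

theorem ext_out {n : ℕ} (w : Fin n → Bool) {t : ℤ} (h : t < 0 ∨ (n : ℤ) ≤ t) : ext w t = false := by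
  unfold ext
  rw [dif_neg (by omega)]

theorem ext_stw {n : ℕ} (m : ℕ) (w : Fin n → Bool) (F : Finset ℤ) {t : ℤ} (h0 : 0 ≤ t) (h1 : t < n) :
    ext (stw m w F) t = st m (ext w) F t := by
  have e1 : ext (stw m w F) t = stw m w F ⟨t.toNat, by omega⟩ := by
    unfold ext
    rw [dif_pos ⟨h0, h1⟩]
  have e2 : ext w t = w ⟨t.toNat, by omega⟩ := by
    unfold ext
    rw [dif_pos ⟨h0, h1⟩]
  rw [e1]
  unfold stw st
  rw [e2]
  dsimp only
  rw [Int.toNat_of_nonneg h0]

theorem At_stw {α : ℕ → Bool} {m n : ℕ} {w : Fin n → Bool} {F G : Finset ℤ} {p : ℤ}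
    (hp : p ∈ Wi n m) :
    At α m (st m (ext (stw m w F)) G) p ↔ At α m (st m (ext w) (F ∆ G)) p := by
  have hp' := mem_Wi.1 hp
  refine At_congr fun t h1 h2 => ?_
  have e1 := ext_stw m w F (t := t) (by omega) (by omega)
  unfold st at e1 ⊢
  rw [e1, c1_epsF, Bool.xor_assoc]

theorem At_stw' {α : ℕ → Bool} {m n : ℕ} {w : Fin n → Bool} {F : Finset ℤ} {p : ℤ}
    (hp : p ∈ Wi n m) : At α m (ext (stw m w F)) p ↔ At α m (st m (ext w) F) p := by
  have hp' := mem_Wi.1 hp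
  exact At_congr fun t h1 h2 => ext_stw m w F (by omega) (by omega)

theorem stw_stw {n : ℕ} (m : ℕ) (w : Fin n → Bool) (F G : Finset ℤ) :
    stw m (stw m w F) G = stw m w (F ∆ G) := by
  funext t
  unfold stw
  rw [c1_epsF, Bool.xor_assoc]

theorem stw_empty {n : ℕ} (m : ℕ) (w : Fin n → Bool) : stw m w ∅ = w := by
  funext t
  simp [stw, epsF]

theorem stw_inj {n m : ℕ} {w : Fin n → Bool} {F G : Finset ℤ} (hF : F ⊆ Wi n m) (hG : G ⊆ Wi n m)
    (h : stw m w F = stw m w G) : F = G := by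
  by_contra hne
  have hH : (F ∆ G).Nonempty := by
    rw [Finset.nonempty_iff_ne_empty]
    intro h0
    exact hne (symmDiff_eq_bot.1 h0)
  have hmem := (F ∆ G).max'_mem hH
  set p := (F ∆ G).max' hH with hp
  have hpW : p ∈ Wi n m := by
    rcases Finset.mem_symmDiff.1 hmem with h1 | h1
    · exact hF h1.1
    · exact hG h1.1
  have hp' := mem_Wi.1 hpW
  have e1 := congrFun h ⟨(p + m).toNat, by omega⟩
  have e1' : (w ⟨(p + m).toNat, by omega⟩ ^^ epsF m F (((p + m).toNat : ℕ) : ℤ)) =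
      (w ⟨(p + m).toNat, by omega⟩ ^^ epsF m G (((p + m).toNat : ℕ) : ℤ)) := e1
  rw [Int.toNat_of_nonneg (by omega)] at e1'
  have e2 : epsF m F (p + m) = epsF m G (p + m) := by
    cases w ⟨(p + m).toNat, by omega⟩ <;> simpa using e1'
  have e3 : epsF m (F ∆ G) (p + m) = false := by
    rw [c1_epsF, e2, Bool.xor_self]
  have e4 : epsF m (F ∆ G) (p + m) = true := by
    have k1 : decide (p + m + 1 ∈ F ∆ G) = false := by
      rw [decide_eq_false_iff_not]
      intro k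
      have k2 := (F ∆ G).le_max' _ k
      rw [← hp] at k2
      omega
    have k2 : decide (p + m - m ∈ F ∆ G) = true := by
      rw [decide_eq_true_eq, add_sub_cancel_right]
      exact hmem
    unfold epsF
    rw [k1, k2]
    rfl
  rw [e3] at e4
  exact Bool.false_ne_true e4

end Pool.Agent.KWG
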