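import Pool.Agent.KWG.C1

/-!
# [KWG-C2] reachable states

* `Rch_sub`: induction; `F ∆ {p} ⊆ Wi` if `F ⊆ Wi`, `p ∈ Wi`.
* `Rch_base`: both directions by induction.  (→) `Rch (st m X F) G` → `Rch X (F ∆ G)`: `G = ∅`: hypothesis;
  step `G ∆ {p}`: `F ∆ (G ∆ {p}) = (F ∆ G) ∆ {p}` and `st m (st m X F) G = st m X (F ∆ G)` (`st_st`).
  (←) First `Rch X F → Rch (st m X F) F` (go back): by induction on `Rch X F`: for `F ∆ {p}`, put
  `X' = st m X (F ∆ {p})`; the window `p` is available in `X'` (`fl_st`, `At_fl_self`), and after it the word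
  is `st m X F`, from which `F` can be reached by the induction hypothesis; so by the direction (→)
  (applied to `X'` and the state `{p}`, `st m X' {p} = st m X F`) `Rch X' ({p} ∆ F)`.  Then (→) applied to the
  word `X' = st m X F` and the state `F`: `st m X' F = X`, so `Rch X H` gives `Rch (st m X F) (F ∆ H)`; with
  `H = F ∆ G` this is `G`.
* `Rch_congr`: if `X` and `Y` agree on `[0, n)` then the same states are reachable (the windows of `Wi n m`
  read only the letters `0, ..., n - 1`).  `Rch_stw` is the special case of `ext (stw m w F)` and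
  `st m (ext w) F`.
* `mem_Ts`, `mem_Rset`: unfold; the conditions `x.1 ⊆ Wi n m` are automatic by `Rch_sub`.
* `Rset_eq_Sta`: a reachable state is `∅` or the state after a last move `p`, and then `p` is available in
  it (`At_fl_self`), so it is the first component of an element of `Ts`.
* `Ts_shift`: for `F` reachable, `Ts` of the word `stw m w F` is the shift of `Ts` of `w` by `F`
  (`Rch_stw`, `Rch_base`, `At_stw`; `F ∆ (F ∆ G) = G`).
-/

namespace Pool.Agent.KWG

open Finset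
open scoped symmDiff

theorem c2_fwd {α : ℕ → Bool} {m n : ℕ} {X : ℤ → Bool} {F : Finset ℤ} (h : Rch α m n X F)
    {G : Finset ℤ} (hG : Rch α m n (st m X F) G) : Rch α m n X (F ∆ G) := by
  induction hG with
  | zero =>
    rw [← Finset.bot_eq_empty, symmDiff_bot]
    exact h
  | @step G p hG hp hAt ih =>
    rw [← symmDiff_assoc]
    rw [st_st] at hAt
    exact Rch.step ih hp hAt

theorem c2_back {α : ℕ → Bool} {m n : ℕ} {X : ℤ → Bool} {F : Finset ℤ} (h : Rch α m n X F) :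
    Rch α m n (st m X F) F := by
  induction h with
  | zero => exact Rch.zero
  | @step F p hF hp hAt ih =>
    have h1 : At α m (st m (st m X (F ∆ {p})) ∅) p := by
      rw [st_empty, ← fl_st]
      exact At_fl_self.2 hAt
    have h2 : Rch α m n (st m X (F ∆ {p})) (∅ ∆ {p}) := Rch.step Rch.zero hp h1
    rw [← Finset.bot_eq_empty, bot_symmDiff] at h2
    have h3 : st m (st m X (F ∆ {p})) {p} = st m X F := by
      rw [st_st, symmDiff_symmDiff_cancel_right]
    have h4 := c2_fwd h2 (G := F) (by rw [h3]; exact ih)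
    have h5 : ({p} : Finset ℤ) ∆ F = F ∆ {p} := symmDiff_comm _ _
    rw [h5] at h4
    exact h4

theorem c2_At {α : ℕ → Bool} {m n : ℕ} {X Y : ℤ → Bool} (h : ∀ t : ℤ, 0 ≤ t → t < n → X t = Y t)
    {F : Finset ℤ} {p : ℤ} (hp : p ∈ Wi n m) (hAt : At α m (st m X F) p) : At α m (st m Y F) p := by
  rw [mem_Wi] at hp
  refine (At_congr fun t h1 h2 => ?_).1 hAt
  unfold st
  rw [h t (by omega) (by omega)]

theorem c2_congr {α : ℕ → Bool} {m n : ℕ} {X Y : ℤ → Bool} (h : ∀ t : ℤ, 0 ≤ t → t < n → X t = Y t)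
    {G : Finset ℤ} (hG : Rch α m n X G) : Rch α m n Y G := by
  induction hG with
  | zero => exact Rch.zero
  | @step F p hF hp hAt ih => exact Rch.step ih hp (c2_At h hp hAt)

theorem Rch_sub {α : ℕ → Bool} {m n : ℕ} {X : ℤ → Bool} {F : Finset ℤ} (h : Rch α m n X F) :
    F ⊆ Wi n m := by
  induction h with
  | zero => exact Finset.empty_subset _
  | @step F p hF hp hAt ih =>
    intro x hx
    rw [Finset.mem_symmDiff, Finset.mem_singleton] at hx
    rcases hx with ⟨h1, _⟩ | ⟨h1, _⟩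
    · exact ih h1
    · rw [h1]; exact hp

theorem Rch_base {α : ℕ → Bool} {m n : ℕ} {X : ℤ → Bool} {F : Finset ℤ} (h : Rch α m n X F)
    (G : Finset ℤ) : Rch α m n (st m X F) G ↔ Rch α m n X (F ∆ G) := by
  refine ⟨c2_fwd h, fun hG => ?_⟩
  have h1 : st m (st m X F) F = X := by
    rw [st_st, symmDiff_self, Finset.bot_eq_empty, st_empty]
  have h2 := c2_fwd (c2_back h) (G := F ∆ G) (by rw [h1]; exact hG)
  rw [symmDiff_symmDiff_cancel_left] at h2
  exact h2

theorem Rch_congr {α : ℕ → Bool} {m n : ℕ} {X Y : ℤ → Bool} (h : ∀ t : ℤ, 0 ≤ t → t < n → X t = Y t)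
    (G : Finset ℤ) : Rch α m n X G ↔ Rch α m n Y G := by
  exact ⟨c2_congr h, c2_congr fun t h0 h1 => (h t h0 h1).symm⟩

theorem Rch_stw {α : ℕ → Bool} {m n : ℕ} {w : Fin n → Bool} {F : Finset ℤ} (G : Finset ℤ) :
    Rch α m n (ext (stw m w F)) G ↔ Rch α m n (st m (ext w) F) G := by
  exact Rch_congr (fun t h0 h1 => ext_stw m w F h0 h1) G

theorem mem_Ts {α : ℕ → Bool} {m n : ℕ} {X : ℤ → Bool} {x : Finset ℤ × ℤ} :
    x ∈ Ts α m n X ↔ Rch α m n X x.1 ∧ x.2 ∈ Wi n m ∧ At α m (st m X x.1) x.2 := by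
  classical
  unfold Ts
  rw [Finset.mem_filter, Finset.mem_product, Finset.mem_powerset]
  exact ⟨fun h => ⟨h.2.1, h.1.2, h.2.2⟩, fun h => ⟨⟨Rch_sub h.1, h.2.1⟩, h.1, h.2.2⟩⟩

theorem mem_Rset {α : ℕ → Bool} {m n : ℕ} {X : ℤ → Bool} {F : Finset ℤ} :
    F ∈ Rset α m n X ↔ Rch α m n X F := by
  classical
  unfold Rset
  rw [Finset.mem_filter, Finset.mem_powerset]
  exact ⟨fun h => h.2, fun h => ⟨Rch_sub h, h⟩⟩

theorem Rset_eq_Sta (α : ℕ → Bool) (m n : ℕ) (X : ℤ → Bool) :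
    Rset α m n X = Sta (Ts α m n X) := by
  ext F
  rw [mem_Rset]
  unfold Sta
  rw [Finset.mem_insert, Finset.mem_image]
  constructor
  · intro h
    cases h with
    | zero => exact Or.inl rfl
    | @step F p hF hp hAt =>
      refine Or.inr ⟨(F ∆ {p}, p), mem_Ts.2 ⟨Rch.step hF hp hAt, hp, ?_⟩, rfl⟩
      show At α m (st m X (F ∆ {p})) p
      rw [← fl_st]
      exact At_fl_self.2 hAt
  · rintro (rfl | ⟨x, hx, rfl⟩)
    · exact Rch.zero
    · exact (mem_Ts.1 hx).1

theorem Ts_shift {α : ℕ → Bool} {m n : ℕ} {w : Fin n → Bool} {F : Finset ℤ}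
    (h : Rch α m n (ext w) F) (x : Finset ℤ × ℤ) :
    x ∈ Ts α m n (ext (stw m w F)) ↔ (F ∆ x.1, x.2) ∈ Ts α m n (ext w) := by
  rw [mem_Ts, mem_Ts]
  show _ ↔ Rch α m n (ext w) (F ∆ x.1) ∧ x.2 ∈ Wi n m ∧ At α m (st m (ext w) (F ∆ x.1)) x.2
  rw [Rch_stw, Rch_base h]
  exact ⟨fun h1 => ⟨h1.1, h1.2.1, (At_stw h1.2.1).1 h1.2.2⟩,
    fun h1 => ⟨h1.1, h1.2.1, (At_stw h1.2.1).2 h1.2.2⟩⟩

end Pool.Agent.KWG
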