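import Pool.Agent.KWG.C2

/-!
# [KWG-C3] the graph `Gr` and the reachable states

`gr_adj`: for `F` reachable from `w`, `G ⊆ Wi`: `stw m w F -- stw m w G` is an edge of `Gr α m n` iff
`∃ p ∈ Wi n m, G = F ∆ {p} ∧ At α m (st m (ext w) F) p`.
Proof.  (→) the edge is given by `p ∈ Wi` with `At α m (ext (stw m w F)) p` and
`stw m w G = stw m (stw m w F) {p} = stw m w (F ∆ {p})` (`stw_stw`), so `G = F ∆ {p}` by `stw_inj`
(`F ∆ {p} ⊆ Wi`); or by `At α m (ext (stw m w G)) p` and `stw m w F = stw m w (G ∆ {p})`: `F = G ∆ {p}`, so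
`G = F ∆ {p}`, and the window `p` is available in the state `G` iff in the state `F = G ∆ {p}`
(`fl_st`, `At_fl_self`).  `At_stw'` translates.  (←) `F ≠ F ∆ {p}`, `stw_inj`.

`gr_reach`: `w'` is reachable from `w` in `Gr` iff `w' = stw m w F` with `F` reachable (`Rch`).
(←) induction on `Rch`: adjacent or equal at each step (`gr_adj`).
(→) induction on the walk (append an edge at the end: `Relation.ReflTransGen` via
`SimpleGraph.reachable_iff_reflTransGen`): if `w' = stw m w F` and `w' -- w''` by the window `p`, then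
`w'' = stw m w (F ∆ {p})`, and `p` is available in the state `F` in both cases of the definition of `Gr`.
-/

namespace Pool.Agent.KWG

open Finset
open scoped symmDiff

theorem c3_At {α : ℕ → Bool} {m : ℕ} {X : ℤ → Bool} {F : Finset ℤ} {p : ℤ}
    (h : At α m (st m X (F ∆ {p})) p) : At α m (st m X F) p := by
  rw [← fl_st] at h
  exact At_fl_self.1 h

theorem c3_sub {m n : ℕ} {F : Finset ℤ} {p : ℤ} (hF : F ⊆ Wi n m) (hp : p ∈ Wi n m) :
    F ∆ {p} ⊆ Wi n m := by
  intro x hx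
  rw [Finset.mem_symmDiff, Finset.mem_singleton] at hx
  rcases hx with ⟨h1, _⟩ | ⟨h1, _⟩
  · exact hF h1
  · rw [h1]; exact hp

theorem gr_adj {α : ℕ → Bool} {m n : ℕ} {w : Fin n → Bool} {F G : Finset ℤ} (hF : F ⊆ Wi n m)
    (hG : G ⊆ Wi n m) :
    (Gr α m n).Adj (stw m w F) (stw m w G) ↔
      ∃ p ∈ Wi n m, G = F ∆ {p} ∧ At α m (st m (ext w) F) p := by
  constructor
  · rintro ⟨-, p, hp, ⟨h1, h2⟩ | ⟨h1, h2⟩⟩
    · rw [stw_stw] at h2
      exact ⟨p, hp, stw_inj hG (c3_sub hF hp) h2, (At_stw' hp).1 h1⟩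
    · rw [stw_stw] at h2
      have h3 : F = G ∆ {p} := stw_inj hF (c3_sub hG hp) h2
      have h4 : G = F ∆ {p} := by rw [h3, symmDiff_symmDiff_cancel_right]
      refine ⟨p, hp, h4, c3_At ?_⟩
      rw [← h4]
      exact (At_stw' hp).1 h1
  · rintro ⟨p, hp, rfl, h1⟩
    refine ⟨fun h2 => ?_, p, hp, Or.inl ⟨(At_stw' hp).2 h1, (stw_stw m w F {p}).symm⟩⟩
    have h3 := stw_inj hF hG h2
    have h4 := symmDiff_eq_left.1 h3.symm
    rw [Finset.bot_eq_empty] at h4
    exact Finset.singleton_ne_empty p h4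

theorem gr_reach {α : ℕ → Bool} {m n : ℕ} (w w' : Fin n → Bool) :
    (Gr α m n).Reachable w w' ↔ ∃ F, Rch α m n (ext w) F ∧ w' = stw m w F := by
  constructor
  · intro h
    rw [SimpleGraph.reachable_iff_reflTransGen] at h
    induction h with
    | refl => exact ⟨∅, Rch.zero, (stw_empty m w).symm⟩
    | @tail b c hab hbc ih =>
      obtain ⟨F, hF, rfl⟩ := ih
      obtain ⟨-, p, hp, ⟨h1, h2⟩ | ⟨h1, h2⟩⟩ := hbc
      · rw [stw_stw] at h2
        exact ⟨F ∆ {p}, Rch.step hF hp ((At_stw' hp).1 h1), h2⟩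
      · have h3 : c = stw m w (F ∆ {p}) := by
          rw [← stw_stw, h2, stw_stw, symmDiff_self, Finset.bot_eq_empty, stw_empty]
        rw [h3] at h1
        exact ⟨F ∆ {p}, Rch.step hF hp (c3_At ((At_stw' hp).1 h1)), h3⟩
  · rintro ⟨F, hF, rfl⟩
    induction hF with
    | zero =>
      rw [stw_empty]
    | @step F p hF hp hAt ih =>
      refine ih.trans (SimpleGraph.Adj.reachable ?_)
      exact (gr_adj (Rch_sub hF) (c3_sub (Rch_sub hF) hp)).2 ⟨p, hp, rfl, hAt⟩

end Pool.Agent.KWG
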