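import Pool.Agent.KWG.C3

/-!
# [KWG-C3b] size of the components

`comp_card`: the component of `w` is the injective image of `Rset` under `F ↦ stw m w F`.

The map is injective on `Rset` by `stw_inj`, `Rch_sub`, and its image is the component by `gr_reach`
(`SimpleGraph.ConnectedComponent.mem_supp_iff`, `SimpleGraph.ConnectedComponent.eq`).
-/

namespace Pool.Agent.KWG

open Finset
open scoped symmDiff

theorem comp_card {α : ℕ → Bool} {m n : ℕ} (w : Fin n → Bool) :
    Nat.card ((Gr α m n).connectedComponentMk w).supp = (Rset α m n (ext w)).card := by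
  classical
  have key : ((Gr α m n).connectedComponentMk w).supp =
      (((Rset α m n (ext w)).image (fun F => stw m w F) : Finset (Fin n → Bool)) :
        Set (Fin n → Bool)) := by
    ext w'
    rw [SimpleGraph.ConnectedComponent.mem_supp_iff, SimpleGraph.ConnectedComponent.eq,
      Finset.mem_coe, Finset.mem_image]
    constructor
    · intro h
      obtain ⟨F, hF, e⟩ := (gr_reach w w').1 h.symm
      exact ⟨F, mem_Rset.2 hF, e.symm⟩
    · rintro ⟨F, hF, e⟩
      exact ((gr_reach w w').2 ⟨F, mem_Rset.1 hF, e.symm⟩).symm
  rw [key, Nat.card_coe_set_eq, Set.ncard_coe_finset, Finset.card_image_of_injOn]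
  intro F hF G hG h
  exact stw_inj (Rch_sub (mem_Rset.1 hF)) (Rch_sub (mem_Rset.1 hG)) h

end Pool.Agent.KWG
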