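import Pool.Agent.KWG.Defs

/-!
# [KWG-C4a] vertices in classes of a given size (general graphs)

`class_sum` (general): for a graph `G` on a finite type, the number of vertices `v` whose component has
exactly `s` vertices is `s * classCount G s`.
Proof.  The set of these vertices is the disjoint union, over the components `C` with
`Nat.card C.supp = s`, of the sets `C.supp` (fibres of `v ↦ G.connectedComponentMk v`);
`Finset.card_eq_sum_card_fiberwise` or an equivalence with a sigma type and `Nat.card_sigma`.
-/

namespace Pool.Agent.KWG

theorem class_sum {V : Type} [Fintype V] (G : SimpleGraph V) (s : ℕ) :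
    Nat.card {v : V // Nat.card (G.connectedComponentMk v).supp = s} = s * classCount G s := by
  classical
  have hfin : Finite G.ConnectedComponent := Quot.finite _
  have hfin2 : Fintype {C : G.ConnectedComponent // Nat.card C.supp = s} := Fintype.ofFinite _
  let e : {v : V // Nat.card (G.connectedComponentMk v).supp = s} ≃
      (Σ C : {C : G.ConnectedComponent // Nat.card C.supp = s}, C.1.supp) :=
    { toFun := fun v => ⟨⟨G.connectedComponentMk v.1, v.2⟩, ⟨v.1, rfl⟩⟩
      invFun := fun x => ⟨x.2.1, by
        have h : G.connectedComponentMk x.2.1 = x.1.1 := x.2.2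
        rw [h]
        exact x.1.2⟩
      left_inv := fun v => rfl
      right_inv := by
        rintro ⟨⟨C, hC⟩, ⟨v, hv⟩⟩
        have h : G.connectedComponentMk v = C := hv
        subst h
        rfl }
  rw [Nat.card_congr e, Nat.card_sigma]
  have h : ∀ C : {C : G.ConnectedComponent // Nat.card C.supp = s}, Nat.card C.1.supp = s :=
    fun C => C.2
  rw [Finset.sum_congr rfl fun C _ => h C, Finset.sum_const, smul_eq_mul, mul_comm]
  unfold classCount
  rw [Nat.card_eq_fintype_card, Finset.card_univ]

end Pool.Agent.KWG
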