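import Pool.Agent.KWG.C3b
import Pool.Agent.KWG.C4a

/-!
# [KWG-C4] number of classes and number of words in classes

`Wn_eq`: by `comp_card` `Wn α m n s` is the number of vertices `w` of `Gr` whose component has `s` elements.

`classCount_iso`: a graph isomorphism induces a bijection of the components preserving the number of
vertices (`SimpleGraph.Iso.connectedComponentEquiv`, `SimpleGraph.ConnectedComponent.isoEquivSupp`).
-/

namespace Pool.Agent.KWG

theorem Wn_eq (α : ℕ → Bool) (m n s : ℕ) : Wn α m n s = s * classCount (Gr α m n) s := by
  classical
  rw [← class_sum]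
  unfold Wn
  rw [Nat.card_eq_fintype_card, Fintype.card_subtype]
  congr 1
  ext w
  simp only [Finset.mem_filter, Finset.mem_univ, true_and]
  rw [comp_card]

theorem classCount_iso {V W : Type} {G : SimpleGraph V} {H : SimpleGraph W} (e : G ≃g H) (s : ℕ) :
    classCount G s = classCount H s := by
  unfold classCount
  refine Nat.card_congr ?_
  refine Equiv.subtypeEquiv e.connectedComponentEquiv ?_
  intro C
  have h : Nat.card C.supp = Nat.card (e.connectedComponentEquiv C).supp :=
    Nat.card_congr (C.isoEquivSupp e)
  rw [h]

end Pool.Agent.KWG
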