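import Pool.Agent.KWG.C5a

/-!
# [KWG-C5] matching the components (general finite graphs)

Hypotheses: every label occurs equally often in `V` and `W` (`hc`), and vertices with the same label have
label preserving isomorphic components (`hi`, see `LIso` in Defs).  Conclusion: a bijection `σ` between the
components such that `C` and `σ C` contain vertices `v`, `w` with the same label.

Proof.  For a component `C` of `G` and a label `x` let `c x C` be the number of vertices of `C` with the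
label `x`, and `τ C = {x | x occurs in C} = {x | c x C ≠ 0}` (nonempty); same for `H` (`c'`, `τ'`).
(1) If `x ∈ τ C` and `x ∈ τ' C'` then `c y C = c' y C'` for all `y` (so `τ C = τ' C'`): `liso_facts` for
    `hi v w`, `v ∈ C`, `w ∈ C'` with the label `x`.
(2) If `x ∈ τ C₁` and `x ∈ τ C₂` (both in `G`) then `c y C₁ = c y C₂` for all `y`: by `hc` the label `x` also
    occurs in some component `C'` of `H`; use (1) twice.  Same for two components of `H`.
(3) For a set `S` of labels, the number of components `C` of `G` with `τ C = S` equals the number of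
    components `C'` of `H` with `τ' C' = S`.  If there is no such component in `G` nor in `H`: clear.
    Otherwise `S` is nonempty; let `x ∈ S` and let `c ≥ 1` be the common number of vertices with the label
    `x` in the components (of `G` or `H`) containing `x`; by (1), (2) the components containing `x` are
    exactly those with `τ = S` (resp. `τ' = S`).  By `label_count` the number of vertices of `G` with the
    label `x` is `c * #{C | τ C = S}`, the same for `H`, and `hc x` gives the claim (`c ≥ 1`).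
(4) Choose for every `S` a bijection between the two sets of (3) and glue them
    (`Equiv.sigmaFiberEquiv τ`, `Equiv.sigmaCongrRight`; finite types with the same `Nat.card` are
    equivalent, `Finite.card_eq`).  Then `τ C = τ' (σ C)`, and a label `x ∈ τ C` gives `v`, `w`.
-/

namespace Pool.Agent.KWG

theorem match_comps {V W Λ : Type} [Fintype V] [Fintype W] (G : SimpleGraph V) (H : SimpleGraph W)
    (ℓ : V → Λ) (ℓ' : W → Λ)
    (hc : ∀ x : Λ, Nat.card {v : V // ℓ v = x} = Nat.card {w : W // ℓ' w = x})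
    (hi : ∀ v w, ℓ v = ℓ' w → LIso G H ℓ ℓ' v w) :
    ∃ σ : G.ConnectedComponent ≃ H.ConnectedComponent, ∀ C, ∃ v w, G.connectedComponentMk v = C ∧
      H.connectedComponentMk w = σ C ∧ ℓ v = ℓ' w := by
  classical
  have hfG : Finite G.ConnectedComponent := Quot.finite _
  have hfH : Finite H.ConnectedComponent := Quot.finite _
  have hex : ∀ {U : Type} [Fintype U] (P : U → Prop), (∃ v, P v) ↔ Nat.card {v // P v} ≠ 0 := by
    intro U _ P
    rw [Nat.card_ne_zero, nonempty_subtype]
    exact ⟨fun h => ⟨h, inferInstance⟩, fun h => h.1⟩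
  obtain ⟨τ, hτ⟩ : ∃ τ : G.ConnectedComponent → Set Λ, ∀ C x, x ∈ τ C ↔
      ∃ v, G.connectedComponentMk v = C ∧ ℓ v = x :=
    ⟨fun C => {x | ∃ v, G.connectedComponentMk v = C ∧ ℓ v = x}, fun _ _ => Iff.rfl⟩
  obtain ⟨τ', hτ'⟩ : ∃ τ' : H.ConnectedComponent → Set Λ, ∀ C x, x ∈ τ' C ↔
      ∃ v, H.connectedComponentMk v = C ∧ ℓ' v = x :=
    ⟨fun C => {x | ∃ v, H.connectedComponentMk v = C ∧ ℓ' v = x}, fun _ _ => Iff.rfl⟩
  have k1 : ∀ (C : G.ConnectedComponent) (C' : H.ConnectedComponent) (x : Λ), x ∈ τ C → x ∈ τ' C' →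
      ∀ y, Nat.card {v : V // G.connectedComponentMk v = C ∧ ℓ v = y} =
        Nat.card {w : W // H.connectedComponentMk w = C' ∧ ℓ' w = y} := by
    intro C C' x hx hx' y
    obtain ⟨v, rfl, rfl⟩ := (hτ C x).1 hx
    obtain ⟨w, rfl, hw⟩ := (hτ' C' _).1 hx'
    exact liso_facts (hi v w hw.symm) y
  have k1' : ∀ (C : G.ConnectedComponent) (C' : H.ConnectedComponent) (x : Λ), x ∈ τ C → x ∈ τ' C' →
      τ C = τ' C' := by
    intro C C' x hx hx'
    ext y
    rw [hτ, hτ', hex, hex, k1 C C' x hx hx' y]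
  have hocc : ∀ x, (∃ v, ℓ v = x) ↔ ∃ w, ℓ' w = x := by
    intro x
    rw [hex, hex, hc x]
  have k2 : ∀ (C : G.ConnectedComponent) (x : Λ), x ∈ τ C → ∃ C', x ∈ τ' C' := by
    intro C x hx
    obtain ⟨v, -, hv⟩ := (hτ C x).1 hx
    obtain ⟨w, hw⟩ := (hocc x).1 ⟨v, hv⟩
    exact ⟨H.connectedComponentMk w, (hτ' _ x).2 ⟨w, rfl, hw⟩⟩
  have k2' : ∀ (C' : H.ConnectedComponent) (x : Λ), x ∈ τ' C' → ∃ C, x ∈ τ C := by
    intro C' x hx
    obtain ⟨w, -, hw⟩ := (hτ' C' x).1 hx
    obtain ⟨v, hv⟩ := (hocc x).2 ⟨w, hw⟩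
    exact ⟨G.connectedComponentMk v, (hτ _ x).2 ⟨v, rfl, hv⟩⟩
  have main : ∀ (C0 : G.ConnectedComponent) (x : Λ), x ∈ τ C0 →
      Nat.card {C // τ C = τ C0} = Nat.card {C' // τ' C' = τ C0} := by
    intro C0 x hx
    obtain ⟨C0', hx'⟩ := k2 C0 x hx
    have hG : ∀ C : G.ConnectedComponent, (∃ v, G.connectedComponentMk v = C ∧ ℓ v = x) →
        Nat.card {v : V // G.connectedComponentMk v = C ∧ ℓ v = x} =
          Nat.card {v : V // G.connectedComponentMk v = C0 ∧ ℓ v = x} := fun C hC =>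
      (k1 C C0' x ((hτ C x).2 hC) hx' x).trans (k1 C0 C0' x hx hx' x).symm
    have hH : ∀ C' : H.ConnectedComponent, (∃ v, H.connectedComponentMk v = C' ∧ ℓ' v = x) →
        Nat.card {w : W // H.connectedComponentMk w = C' ∧ ℓ' w = x} =
          Nat.card {v : V // G.connectedComponentMk v = C0 ∧ ℓ v = x} := fun C' hC' =>
      (k1 C0 C' x hx ((hτ' C' x).2 hC') x).symm
    have e1 := label_count G ℓ x _ hG
    have e2 := label_count H ℓ' x _ hH
    rw [hc x, e2] at e1
    have hc0 : Nat.card {v : V // G.connectedComponentMk v = C0 ∧ ℓ v = x} ≠ 0 :=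
      (hex _).1 ((hτ C0 x).1 hx)
    have e3 := Nat.eq_of_mul_eq_mul_left (Nat.pos_of_ne_zero hc0) e1
    have e4 : Nat.card {C // τ C = τ C0} =
        Nat.card {C : G.ConnectedComponent // ∃ v, G.connectedComponentMk v = C ∧ ℓ v = x} := by
      refine Nat.card_congr (Equiv.subtypeEquivRight fun C => ?_)
      rw [← hτ]
      constructor
      · intro h
        rw [h]
        exact hx
      · intro h
        exact (k1' C C0' x h hx').trans (k1' C0 C0' x hx hx').symm
    have e5 : Nat.card {C' // τ' C' = τ C0} =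
        Nat.card {C : H.ConnectedComponent // ∃ v, H.connectedComponentMk v = C ∧ ℓ' v = x} := by
      refine Nat.card_congr (Equiv.subtypeEquivRight fun C' => ?_)
      rw [← hτ']
      constructor
      · intro h
        rw [h]
        exact hx
      · intro h
        exact (k1' C0 C' x hx h).symm
    rw [e4, e5, e3]
  have k3 : ∀ S : Set Λ, Nat.card {C // τ C = S} = Nat.card {C' // τ' C' = S} := by
    intro S
    by_cases h : ∃ C0, τ C0 = S
    · obtain ⟨C0, rfl⟩ := h
      obtain ⟨v, rfl⟩ := Quot.exists_rep C0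
      exact main _ (ℓ v) ((hτ _ _).2 ⟨v, rfl, rfl⟩)
    · have h' : ¬ ∃ C0', τ' C0' = S := by
        rintro ⟨C0', rfl⟩
        obtain ⟨w, rfl⟩ := Quot.exists_rep C0'
        have hx : ℓ' w ∈ τ' (Quot.mk _ w) := (hτ' _ _).2 ⟨w, rfl, rfl⟩
        obtain ⟨C, hC⟩ := k2' _ _ hx
        exact h ⟨C, k1' _ _ _ hC hx⟩
      have i1 : IsEmpty {C // τ C = S} := ⟨fun C => h ⟨C.1, C.2⟩⟩
      have i2 : IsEmpty {C' // τ' C' = S} := ⟨fun C => h' ⟨C.1, C.2⟩⟩
      rw [Nat.card_of_isEmpty, Nat.card_of_isEmpty]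
  have he : ∀ S : Set Λ, Nonempty ({C // τ C = S} ≃ {C' // τ' C' = S}) := fun S =>
    Finite.card_eq.1 (k3 S)
  have e : ∀ S : Set Λ, {C // τ C = S} ≃ {C' // τ' C' = S} := fun S => (he S).some
  refine ⟨(Equiv.sigmaFiberEquiv τ).symm.trans
    ((Equiv.sigmaCongrRight e).trans (Equiv.sigmaFiberEquiv τ')), fun C => ?_⟩
  obtain ⟨v, hv⟩ := Quot.exists_rep C
  have h1 : τ' (((Equiv.sigmaFiberEquiv τ).symm.trans
    ((Equiv.sigmaCongrRight e).trans (Equiv.sigmaFiberEquiv τ'))) C) = τ C := (e (τ C) ⟨C, rfl⟩).2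
  have h2 : ℓ v ∈ τ C := (hτ _ _).2 ⟨v, hv, rfl⟩
  rw [← h1, hτ'] at h2
  obtain ⟨w, hw1, hw2⟩ := h2
  exact ⟨v, w, hv, hw1, hw2.symm⟩

end Pool.Agent.KWG
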