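import Pool.Agent.KWG.Defs

/-!
# [KWG-C5a] counting the vertices with a given label (general finite graphs)

`label_count`: if every component containing the label `x` contains it exactly `c` times then the number
of vertices with the label `x` is `c` times the number of components containing `x`.
Proof.  The vertices with the label `x` are partitioned according to their component; the components
that occur are exactly those containing `x` (`Nat.card_sigma` / `Nat.card_congr` with the equivalence
`{v // ℓ v = x} ≃ Σ C : {C // ∃ v, v ∈ C ∧ ℓ v = x}, {v // v ∈ C ∧ ℓ v = x}`).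

`liso_facts`: `LIso` between the component of `v` in `G` and the component of `w` in `H`: for every label `x`
the two components contain the label `x` equally often.  Proof: the map `φ` of `LIso` restricts to a
bijection `{v' // v' in the component of v, ℓ v' = x} → {w' // w' in the component of w, ℓ' w' = x}`
(`G.connectedComponentMk v' = G.connectedComponentMk v` iff `G.Reachable v v'`,
`SimpleGraph.ConnectedComponent.eq`; `Nat.card_congr (Equiv.ofBijective ..)`).
-/

namespace Pool.Agent.KWG

theorem label_count {V Λ : Type} [Fintype V] (G : SimpleGraph V) (ℓ : V → Λ) (x : Λ) (c : ℕ)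
    (h : ∀ C : G.ConnectedComponent, (∃ v, G.connectedComponentMk v = C ∧ ℓ v = x) →
      Nat.card {v : V // G.connectedComponentMk v = C ∧ ℓ v = x} = c) :
    Nat.card {v : V // ℓ v = x} =
      c * Nat.card {C : G.ConnectedComponent // ∃ v, G.connectedComponentMk v = C ∧ ℓ v = x} := by
  classical
  have hfc : Finite G.ConnectedComponent := Quot.finite _
  have e : {v : V // ℓ v = x} ≃
      (Σ C : {C : G.ConnectedComponent // ∃ v, G.connectedComponentMk v = C ∧ ℓ v = x},
        {v : V // G.connectedComponentMk v = C.1 ∧ ℓ v = x}) :=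
    { toFun := fun v => ⟨⟨G.connectedComponentMk v.1, v.1, rfl, v.2⟩, ⟨v.1, rfl, v.2⟩⟩
      invFun := fun s => ⟨s.2.1, s.2.2.2⟩
      left_inv := fun v => rfl
      right_inv := fun s => Sigma.subtype_ext (Subtype.ext s.2.2.1) rfl }
  have hft : Fintype {C : G.ConnectedComponent // ∃ v, G.connectedComponentMk v = C ∧ ℓ v = x} :=
    Fintype.ofFinite _
  rw [Nat.card_congr e, Nat.card_sigma, Finset.sum_congr rfl (fun C _ => h C.1 C.2),
    Finset.sum_const, Finset.card_univ, Nat.card_eq_fintype_card, smul_eq_mul, mul_comm]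

theorem liso_facts {V W Λ : Type} [Fintype V] [Fintype W] {G : SimpleGraph V} {H : SimpleGraph W}
    {ℓ : V → Λ} {ℓ' : W → Λ} {v : V} {w : W} (h : LIso G H ℓ ℓ' v w) (x : Λ) :
    Nat.card {v' : V // G.connectedComponentMk v' = G.connectedComponentMk v ∧ ℓ v' = x} =
      Nat.card {w' : W // H.connectedComponentMk w' = H.connectedComponentMk w ∧ ℓ' w' = x} := by
  obtain ⟨φ, hφ, h1, h2, h3, -⟩ := h
  have hr : ∀ v' : V, G.connectedComponentMk v' = G.connectedComponentMk v ↔ G.Reachable v v' :=
    fun v' => by
      rw [SimpleGraph.ConnectedComponent.eq]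
      exact ⟨fun h => h.symm, fun h => h.symm⟩
  have hr' : ∀ w' : W, H.connectedComponentMk w' = H.connectedComponentMk w ↔ H.Reachable w w' :=
    fun w' => by
      rw [SimpleGraph.ConnectedComponent.eq]
      exact ⟨fun h => h.symm, fun h => h.symm⟩
  refine Nat.card_congr (Equiv.ofBijective (fun v' => ⟨φ v'.1, ?_, ?_⟩) ⟨?_, ?_⟩)
  · exact (hr' _).2 (h1 _ ((hr _).1 v'.2.1)).1
  · rw [(h1 _ ((hr _).1 v'.2.1)).2]
    exact v'.2.2
  · rintro ⟨a, ha, ha'⟩ ⟨b, hb, hb'⟩ hab
    have hab' : φ a = φ b := congrArg Subtype.val hab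
    exact Subtype.ext (h2 a b ((hr a).1 ha) ((hr b).1 hb) hab')
  · rintro ⟨z, hz, hz'⟩
    obtain ⟨y, hy, hyz⟩ := h3 z ((hr' z).1 hz)
    refine ⟨⟨y, (hr y).2 hy, ?_⟩, Subtype.ext hyz⟩
    rw [← (h1 y hy).2, hyz]
    exact hz'

end Pool.Agent.KWG
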