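import Pool.Agent.KWG.Defs

/-!
# [KWG-C6] gluing isomorphisms of components (general graphs)

`σ` is a bijection of the components of `G` and `H`, and for every component `C` there are `v ∈ C`,
`w ∈ σ C` with `LIso G H ℓ ℓ' v w`.  Then `G ≃g H`.

Proof.  Choose `v C`, `w C`, and the map `φ C : V → W` of `LIso`.  Define `Φ x = φ (C x) x`,
`C x = G.connectedComponentMk x` (`x` is reachable from `v (C x)`).
* `Φ x` lies in the component `σ (C x)` (first property of `φ`).
* injective: `Φ x = Φ y` implies `σ (C x) = σ (C y)`, so `C x = C y`, and injectivity of `φ (C x)` on the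
  component.
* surjective: `z : W`, let `C` with `σ C = H.connectedComponentMk z`; `z` is reachable from `w C`, so
  `z = φ C x` with `x` reachable from `v C`, i.e. `C x = C`.
* adjacency: if `x`, `y` are adjacent in `G` they are in the same component, use `φ`; if `Φ x`, `Φ y` are
  adjacent in `H` then `σ (C x) = σ (C y)`, so `C x = C y`, use `φ`.
`Equiv.ofBijective`.
-/

namespace Pool.Agent.KWG

theorem glue_iso {V W Λ : Type} (G : SimpleGraph V) (H : SimpleGraph W)
    (ℓ : V → Λ) (ℓ' : W → Λ) (σ : G.ConnectedComponent ≃ H.ConnectedComponent)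
    (h : ∀ C, ∃ v w, G.connectedComponentMk v = C ∧ H.connectedComponentMk w = σ C ∧
      LIso G H ℓ ℓ' v w) : Nonempty (G ≃g H) := by
  unfold LIso at h
  choose v w hv hw φ h0 h1 h2 h3 h4 using h
  have hr : ∀ x, G.Reachable (v (G.connectedComponentMk x)) x := fun x =>
    SimpleGraph.ConnectedComponent.exact (hv _)
  have hΦ : ∀ x, H.connectedComponentMk (φ (G.connectedComponentMk x) x) =
      σ (G.connectedComponentMk x) := fun x => by
    rw [← hw, SimpleGraph.ConnectedComponent.eq]
    exact (h1 _ x (hr x)).1.symm
  have hC : ∀ x y, H.connectedComponentMk (φ (G.connectedComponentMk x) x) =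
      H.connectedComponentMk (φ (G.connectedComponentMk y) y) →
      G.connectedComponentMk x = G.connectedComponentMk y := fun x y hxy => by
    rw [hΦ, hΦ] at hxy
    exact σ.injective hxy
  have hinj : Function.Injective (fun x => φ (G.connectedComponentMk x) x) := by
    intro x y hxy
    have hxy' : φ (G.connectedComponentMk x) x = φ (G.connectedComponentMk y) y := hxy
    have hc := hC x y (congrArg _ hxy')
    refine h2 (G.connectedComponentMk x) x y (hr x) ?_ ?_
    · rw [hc]
      exact hr y
    · rw [hxy', hc]
  have hsurj : Function.Surjective (fun x => φ (G.connectedComponentMk x) x) := by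
    intro z
    have hz : H.Reachable (w (σ.symm (H.connectedComponentMk z))) z :=
      SimpleGraph.ConnectedComponent.exact (by rw [hw, Equiv.apply_symm_apply])
    obtain ⟨x, hx, hxz⟩ := h3 _ z hz
    refine ⟨x, ?_⟩
    have hc : G.connectedComponentMk x = σ.symm (H.connectedComponentMk z) := by
      rw [← hv (σ.symm (H.connectedComponentMk z)), SimpleGraph.ConnectedComponent.eq]
      exact hx.symm
    show φ (G.connectedComponentMk x) x = z
    rw [hc, hxz]
  refine ⟨⟨Equiv.ofBijective _ ⟨hinj, hsurj⟩, ?_⟩⟩
  intro x y
  show H.Adj (φ (G.connectedComponentMk x) x) (φ (G.connectedComponentMk y) y) ↔ G.Adj x y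
  by_cases hc : G.connectedComponentMk x = G.connectedComponentMk y
  · have h5 := h4 (G.connectedComponentMk x) x y (hr x) (by rw [hc]; exact hr y)
    rw [h5, ← hc]
  · constructor
    · intro ha
      exact absurd (hC x y (SimpleGraph.ConnectedComponent.sound ha.reachable)) hc
    · intro ha
      exact absurd (SimpleGraph.ConnectedComponent.sound ha.reachable) hc

end Pool.Agent.KWG
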