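import Pool.Agent.KWG.C7a
import Pool.Agent.KWG.C5
import Pool.Agent.KWG.C6

/-!
# [KWG-C7] equal numbers of words of every type give isomorphic graphs

`gr_iso`: labels `ℓ w = Ts α m n (ext w)`, `ℓ' w = Ts β m n (ext w)`; `hc` is the hypothesis on `nT`
(`Nat.card` of a subtype = card of the filter); `match_comps`, then `glue_iso` with `rooted_iso`.
-/

namespace Pool.Agent.KWG

open Finset
open scoped symmDiff

theorem gr_iso {α β : ℕ → Bool} {m n : ℕ} (h : ∀ T, nT α m n T = nT β m n T) :
    Nonempty (Gr α m n ≃g Gr β m n) := by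
  have key : ∀ (γ : ℕ → Bool) (x : Finset (Finset ℤ × ℤ)),
      Nat.card {v : Fin n → Bool // Ts γ m n (ext v) = x} = nT γ m n x := by
    intro γ x
    classical
    rw [Nat.card_eq_fintype_card, Fintype.card_subtype]
    unfold nT
    rfl
  obtain ⟨σ, hσ⟩ := match_comps (Gr α m n) (Gr β m n) (fun w => Ts α m n (ext w))
    (fun w => Ts β m n (ext w)) (fun x => by rw [key, key, h x]) (fun v w hvw => rooted_iso hvw)
  refine glue_iso (Gr α m n) (Gr β m n) (fun w => Ts α m n (ext w)) (fun w => Ts β m n (ext w)) σ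
    fun C => ?_
  obtain ⟨v, w, hv, hw, hvw⟩ := hσ C
  exact ⟨v, w, hv, hw, rooted_iso hvw⟩

end Pool.Agent.KWG
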