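import Pool.Agent.KWG.C3

/-!
# [KWG-C7a] isomorphic components from equal types

`rooted_iso`: if `Ts α m n (ext w) = Ts β m n (ext w')` then `LIso` between the component of `w` in
`Gr α m n` and the component of `w'` in `Gr β m n`, with the labels `Ts`.
Proof.  First, the reachable states are the same for (`α`, `w`) and (`β`, `w'`): `mem_Rset`,
`Rset_eq_Sta` (both are `Sta` of the common type).  Define `φ x = stw m w' F` if `x = stw m w F` with `F`
reachable (`Classical`; unique by `stw_inj`, `Rch_sub`) and `φ x = w'` otherwise.  `φ w = w'` (`F = ∅`,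
`stw_empty`).  For `x = stw m w F`: `φ x` is reachable from `w'` (`gr_reach`), and the labels agree by
`Ts_shift` on both sides.  Injective and surjective on the components: `gr_reach`, `stw_inj`.
Adjacency: `gr_adj` on both sides (`F, G` reachable): `(∃ p ∈ Wi, G = F ∆ {p} ∧ p available in the state F)`
is, by `mem_Ts`, `∃ p, G = F ∆ {p} ∧ (F, p) ∈ Ts`, the same condition for both.
-/

namespace Pool.Agent.KWG

open Finset
open scoped symmDiff

theorem rooted_iso {α β : ℕ → Bool} {m n : ℕ} {w w' : Fin n → Bool}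
    (h : Ts α m n (ext w) = Ts β m n (ext w')) :
    LIso (Gr α m n) (Gr β m n) (fun x => Ts α m n (ext x)) (fun x => Ts β m n (ext x)) w w' := by
  classical
  have hR : ∀ F, Rch α m n (ext w) F ↔ Rch β m n (ext w') F := by
    intro F
    rw [← mem_Rset, ← mem_Rset, Rset_eq_Sta, Rset_eq_Sta, h]
  let φ : (Fin n → Bool) → (Fin n → Bool) := fun x =>
    if hx : ∃ F, Rch α m n (ext w) F ∧ x = stw m w F then stw m w' (Classical.choose hx) else w'
  have hφ : ∀ F, Rch α m n (ext w) F → φ (stw m w F) = stw m w' F := by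
    intro F hF
    have hx : ∃ F', Rch α m n (ext w) F' ∧ stw m w F = stw m w F' := ⟨F, hF, rfl⟩
    have e : φ (stw m w F) = stw m w' (Classical.choose hx) := dif_pos hx
    have hs := Classical.choose_spec hx
    rw [e, ← stw_inj (Rch_sub hF) (Rch_sub hs.1) hs.2]
  refine ⟨φ, ?_, ?_, ?_, ?_, ?_⟩
  · have e := hφ ∅ Rch.zero
    rw [stw_empty, stw_empty] at e
    exact e
  · intro x hx
    obtain ⟨F, hF, e⟩ := (gr_reach w x).1 hx
    subst e
    rw [hφ F hF]
    refine ⟨(gr_reach w' _).2 ⟨F, (hR F).1 hF, rfl⟩, ?_⟩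
    ext y
    have e1 := Ts_shift hF y
    have e2 := Ts_shift ((hR F).1 hF) y
    rw [← h] at e2
    exact e2.trans e1.symm
  · intro x y hx hy hxy
    obtain ⟨F, hF, e⟩ := (gr_reach w x).1 hx
    obtain ⟨G, hG, e'⟩ := (gr_reach w y).1 hy
    subst e
    subst e'
    rw [hφ F hF, hφ G hG] at hxy
    rw [stw_inj (Rch_sub hF) (Rch_sub hG) hxy]
  · intro z hz
    obtain ⟨F, hF, e⟩ := (gr_reach w' z).1 hz
    refine ⟨stw m w F, (gr_reach w _).2 ⟨F, (hR F).2 hF, rfl⟩, ?_⟩
    rw [hφ F ((hR F).2 hF), e]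
  · intro x y hx hy
    obtain ⟨F, hF, e⟩ := (gr_reach w x).1 hx
    obtain ⟨G, hG, e'⟩ := (gr_reach w y).1 hy
    subst e
    subst e'
    rw [hφ F hF, hφ G hG, gr_adj (Rch_sub hF) (Rch_sub hG), gr_adj (Rch_sub hF) (Rch_sub hG)]
    have hF' := (hR F).1 hF
    constructor
    · rintro ⟨p, hp, h1, h2⟩
      have hm : (F, p) ∈ Ts α m n (ext w) := mem_Ts.2 ⟨hF, hp, h2⟩
      rw [h] at hm
      exact ⟨p, hp, h1, (mem_Ts.1 hm).2.2⟩
    · rintro ⟨p, hp, h1, h2⟩
      have hm : (F, p) ∈ Ts β m n (ext w') := mem_Ts.2 ⟨hF', hp, h2⟩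
      rw [← h] at hm
      exact ⟨p, hp, h1, (mem_Ts.1 hm).2.2⟩

end Pool.Agent.KWG
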