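import Pool.Agent.KWG.Base

/-!
# [KWG] keyword substitution graphs: definitions

Part A: see Base.
Part B: difference words.  A word is a function on the integers; `At α m X p` says that the letters
`p, ..., p+m-1` of `X` are `α 0, ..., α (m-1)` (the window `p` is available);  `fl m p X` flips the
two letters `p-1` and `p+m` next to the window.
-/

namespace Pool.Agent.KWG

open Finset
open scoped symmDiff

/-! ## Part B: words on the integers -/

/-- window `p` of the word `X` carries `α` -/
def At (α : ℕ → Bool) (m : ℕ) (X : ℤ → Bool) (p : ℤ) : Prop := ∀ j : ℕ, j < m → X (p + j) = α j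

/-- indicator of the two letters `p-1`, `p+m` flipped by the window `p` -/
def eps (m : ℕ) (p t : ℤ) : Bool := decide (t + 1 = p) ^^ decide (t - m = p)

/-- flip the two letters next to the window `p` -/
def fl (m : ℕ) (p : ℤ) (X : ℤ → Bool) : ℤ → Bool := fun t => X t ^^ eps m p t

/-- indicator of the letters flipped after using every window of `F` once -/
def epsF (m : ℕ) (F : Finset ℤ) (t : ℤ) : Bool := decide (t + 1 ∈ F) ^^ decide (t - m ∈ F)

/-- the state `F` of the word `X` -/
def st (m : ℕ) (X : ℤ → Bool) (F : Finset ℤ) : ℤ → Bool := fun t => X t ^^ epsF m F t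

/-- `d` is a period of the word `α 0 ... α (m-1)` (trivially true for `d ≥ m`) -/
def Per (α : ℕ → Bool) (m d : ℕ) : Prop := ∀ j, j + d < m → α j = α (j + d)

/-- the corner relation: `a < b` are borders (possibly `a = 0`), `a + b + g = m`, and `α` differs from
its shift by `b - a` exactly at the two indices `a` and `a + g - 1` -/
def GsAt (α : ℕ → Bool) (m a b g : ℕ) : Prop :=
  2 ≤ g ∧ a < b ∧ a + b + g = m ∧ Per α m (m - a) ∧ Per α m (m - b) ∧
    ∀ j, j + (b - a) < m → (α j ≠ α (j + (b - a)) ↔ (j = a ∨ j + 1 = a + g))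

def Gs (α : ℕ → Bool) (m g : ℕ) : Prop := ∃ a b, GsAt α m a b g

/-- list of moves: every window lies in `I` and is available when its turn comes -/
def Val (α : ℕ → Bool) (m : ℕ) (I : Set ℤ) : (ℤ → Bool) → List ℤ → Prop
  | _, [] => True
  | X, r :: l => r ∈ I ∧ At α m X r ∧ Val α m I (fl m r X) l

/-- the word after the moves of the list -/
def fin (m : ℕ) : (ℤ → Bool) → List ℤ → (ℤ → Bool)
  | X, [] => X
  | X, r :: l => fin m (fl m r X) l

/-! ## Part C: finite words -/

/-- a finite word as a function on the integers -/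
def ext {n : ℕ} (w : Fin n → Bool) : ℤ → Bool := fun t =>
  if h : 0 ≤ t ∧ t < n then w ⟨t.toNat, by omega⟩ else false

/-- the admissible windows `0 ≤ p`, `p + m < n` -/
noncomputable def Wi (n m : ℕ) : Finset ℤ := Finset.Ico 0 ((n : ℤ) - m)

/-- state `F` of a finite word -/
def stw {n : ℕ} (m : ℕ) (w : Fin n → Bool) (F : Finset ℤ) : Fin n → Bool :=
  fun t => w t ^^ epsF m F ((t : ℕ) : ℤ)

/-- the graph of difference words: `x α y -- x' α y'` -/
def Gr (α : ℕ → Bool) (m n : ℕ) : SimpleGraph (Fin n → Bool) where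
  Adj w w' := w ≠ w' ∧ ∃ p ∈ Wi n m,
    (At α m (ext w) p ∧ w' = stw m w {p}) ∨ (At α m (ext w') p ∧ w = stw m w' {p})
  symm := ⟨by
    rintro u v ⟨h, p, hp, h'⟩
    exact ⟨h.symm, p, hp, h'.symm⟩⟩
  loopless := ⟨fun _ h => h.1 rfl⟩

/-- states reachable from the word `X` -/
inductive Rch (α : ℕ → Bool) (m n : ℕ) (X : ℤ → Bool) : Finset ℤ → Prop
  | zero : Rch α m n X ∅
  | step {F : Finset ℤ} {p : ℤ} : Rch α m n X F → p ∈ Wi n m → At α m (st m X F) p →
      Rch α m n X (F ∆ {p})

/-- the pointed type of a word: all (reachable state, available window) -/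
noncomputable def Ts (α : ℕ → Bool) (m n : ℕ) (X : ℤ → Bool) : Finset (Finset ℤ × ℤ) := by
  classical
  exact ((Wi n m).powerset ×ˢ Wi n m).filter (fun x => Rch α m n X x.1 ∧ At α m (st m X x.1) x.2)

/-- the finite set of reachable states -/
noncomputable def Rset (α : ℕ → Bool) (m n : ℕ) (X : ℤ → Bool) : Finset (Finset ℤ) := by
  classical
  exact (Wi n m).powerset.filter (fun F => Rch α m n X F)

/-- words on which all windows of `Y` are available -/
noncomputable def Sol (α : ℕ → Bool) (m n : ℕ) (Y : Finset (Finset ℤ × ℤ)) : Finset (Fin n → Bool) := by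
  classical
  exact Finset.univ.filter (fun w => ∀ x ∈ Y, At α m (st m (ext w) x.1) x.2)

/-- `Y` and `α`: the number of words satisfying `Y` on which no window of `E` is available -/
noncomputable def cnt (α : ℕ → Bool) (m n : ℕ) (Y E : Finset (Finset ℤ × ℤ)) : ℕ := by
  classical
  exact ((Sol α m n Y).filter (fun w => ∀ x ∈ E, ¬ At α m (st m (ext w) x.1) x.2)).card

/-- the number of words of pointed type `T` -/
noncomputable def nT (α : ℕ → Bool) (m n : ℕ) (T : Finset (Finset ℤ × ℤ)) : ℕ := by
  classical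
  exact (Finset.univ.filter (fun w : Fin n → Bool => Ts α m n (ext w) = T)).card

/-- states reachable inside an abstract type -/
inductive RT (T : Finset (Finset ℤ × ℤ)) : Finset ℤ → Prop
  | zero : RT T ∅
  | step {F : Finset ℤ} {p : ℤ} : RT T F → (F, p) ∈ T → RT T (F ∆ {p})

/-- closed and connected types -/
def Good (m n : ℕ) (T : Finset (Finset ℤ × ℤ)) : Prop :=
  ∀ x ∈ T, x.1 ⊆ Wi n m ∧ x.2 ∈ Wi n m ∧ (x.1 ∆ {x.2}, x.2) ∈ T ∧ RT T x.1

/-- the states of a type -/
def Sta (T : Finset (Finset ℤ × ℤ)) : Finset (Finset ℤ) := insert ∅ (T.image Prod.fst)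

/-- the complementary events of a type -/
noncomputable def Ev (m n : ℕ) (T : Finset (Finset ℤ × ℤ)) : Finset (Finset ℤ × ℤ) := (Sta T ×ˢ Wi n m) \ T

/-- conflict-only types: two windows available in the same state are at distance at most `m` -/
def CO (m : ℕ) (T : Finset (Finset ℤ × ℤ)) : Prop :=
  ∀ (F : Finset ℤ) (l r : ℤ), (F, l) ∈ T → (F, r) ∈ T → l < r → r ≤ l + m

/-- the four states of a square -/
def S4 (l r : ℤ) : Finset (Finset ℤ) := {∅, {l}, {r}, {l, r}}

/-- the type of a square -/
def T4 (l r : ℤ) : Finset (Finset ℤ × ℤ) := S4 l r ×ˢ {l, r}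

/-- the events that must not happen at the corner `F` of a square -/
noncomputable def EFs (m n : ℕ) (l r ka kb : ℤ) (F : Finset ℤ) : Finset (Finset ℤ × ℤ) :=
  (S4 l r ×ˢ Wi n m) \ (T4 l r ∪ S4 l r ×ˢ {kb} ∪ {(F ∆ {l, r}, ka)})

/-- the type of an isolated edge -/
def T2 (l : ℤ) : Finset (Finset ℤ × ℤ) := {(∅, l), ({l}, l)}

/-- `E k l`: number of words of length `l + m + k` whose type is the edge at the window `l` -/
noncomputable def E (α : ℕ → Bool) (m k l : ℕ) : ℕ := nT α m (l + m + k) (T2 l)

/-- number of words lying in components with exactly `s` vertices -/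
noncomputable def Wn (α : ℕ → Bool) (m n s : ℕ) : ℕ := by
  classical
  exact (Finset.univ.filter (fun w : Fin n → Bool => (Rset α m n (ext w)).card = s)).card

/-! ## Part D: counting words avoiding `α` -/

/-- number of words of length `M` avoiding `α 0 ... α (m-1)` -/
noncomputable def fA (α : ℕ → Bool) (m M : ℕ) : ℕ := by
  classical
  exact (Finset.univ.filter (fun w : Fin M → Bool =>
    ∀ p : ℕ, p + m ≤ M → ¬ At α m (ext w) p)).card

/-- the word `w` followed by `α` -/
def cat {k : ℕ} (α : ℕ → Bool) (w : Fin k → Bool) : ℤ → Bool := fun t =>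
  if t < k then ext w t else α (t - k).toNat

/-- number of words `w` of length `k` such that `w α` contains `α` only at its end -/
noncomputable def gA (α : ℕ → Bool) (m k : ℕ) : ℕ := by
  classical
  exact (Finset.univ.filter (fun w : Fin k → Bool =>
    ∀ p : ℕ, p < k → ¬ At α m (cat α w) p)).card

/-- coefficients of the product of the generating functions of `gA α` and `gA β` -/
noncomputable def hh (α β : ℕ → Bool) (m j : ℕ) : ℕ :=
  ∑ x ∈ Finset.HasAntidiagonal.antidiagonal j, gA α m x.1 * gA β m x.2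

/-- indicator of the periods -/
noncomputable def pe (α : ℕ → Bool) (m d : ℕ) : ℤ := by
  classical
  exact if Per α m d then 1 else 0

/-! ## Part E: blocks and context words -/

/-- the word `α 0 ... α (m-1)` followed by `y` -/
def catR {k : ℕ} (α : ℕ → Bool) (m : ℕ) (y : Fin k → Bool) : ℤ → Bool := fun t =>
  if t < m then α t.toNat else ext y (t - m)

/-- number of left contexts `x` of length `l`: neither `x α` nor `x' α` (last letter of `x` flipped)
contains `α` at a position `< l` -/
noncomputable def aL (α : ℕ → Bool) (m l : ℕ) : ℕ := by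
  classical
  exact (Finset.univ.filter (fun x : Fin l → Bool =>
    ∀ p : ℕ, p < l → ¬ At α m (cat α x) p ∧ ¬ At α m (fl m l (cat α x)) p)).card

/-- number of right contexts `y` of length `k` -/
noncomputable def aR (α : ℕ → Bool) (m k : ℕ) : ℕ := by
  classical
  exact (Finset.univ.filter (fun y : Fin k → Bool =>
    ∀ p : ℕ, 1 ≤ p → p < k → ¬ At α m (catR α m y) p ∧ ¬ At α m (fl m 0 (catR α m y)) p)).card

/-- number of words of length `l + B + k` carrying the block `bl 0 ... bl (B-1)` at `l`, without
window to the left of `l` (before and after the move `l`) and without admissible window to the right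
of `l + B - m` (before and after the move `l + B - m`) -/
noncomputable def blkN (α : ℕ → Bool) (m l B k : ℕ) (bl : ℕ → Bool) : ℕ := by
  classical
  exact (Finset.univ.filter (fun w : Fin (l + B + k) → Bool =>
    (∀ i : ℕ, i < B → ext w (l + i) = bl i) ∧
    (∀ p : ℕ, p < l → ¬ At α m (ext w) p ∧ ¬ At α m (fl m l (ext w)) p) ∧
    (∀ p : ℕ, l + B < p + m → p + m < l + B + k →
      ¬ At α m (ext w) p ∧ ¬ At α m (fl m ((l : ℤ) + B - m) (ext w)) p))).card

/-- the block of length `2 m + g` carrying `α` at `0`, `m - a` and `m + g` -/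
def bword (α : ℕ → Bool) (m a g : ℕ) : ℕ → Bool := fun i =>
  if i < m then α i else if i < m + g then α (i - m + a) else α (i - m - g)

/-! ## Part F: mirror images, walks in a type, component isomorphisms -/

def mirA (m : ℕ) (α : ℕ → Bool) : ℕ → Bool := fun j => α (m - 1 - j)

def mirX (X : ℤ → Bool) : ℤ → Bool := fun t => X (-1 - t)

/-- mirror image of a window -/
def mirp (m : ℕ) (p : ℤ) : ℤ := -p - m

/-- walks inside an abstract type -/
def VT (T : Finset (Finset ℤ × ℤ)) : Finset ℤ → List ℤ → Prop
  | _, [] => True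
  | F, r :: l => (F, r) ∈ T ∧ VT T (F ∆ {r}) l

/-- end of a walk -/
def fT : Finset ℤ → List ℤ → Finset ℤ
  | F, [] => F
  | F, r :: l => fT (F ∆ {r}) l

/-- `D` takes the same value at the letter `t` for all windows of `Y` covering `t` -/
def Cpt (D : ℕ → Bool) (m : ℕ) (Y : Finset (Finset ℤ × ℤ)) : Prop :=
  ∀ x ∈ Y, ∀ y ∈ Y, ∀ t : ℤ, x.2 ≤ t → t < x.2 + m → y.2 ≤ t → t < y.2 + m →
    D (t - x.2).toNat = D (t - y.2).toNat

/-- label preserving isomorphism between the component of `v` and the component of `w`, as a map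
defined everywhere and relevant on the component of `v` only -/
def LIso {V W Λ : Type} (G : SimpleGraph V) (H : SimpleGraph W) (ℓ : V → Λ) (ℓ' : W → Λ)
    (v : V) (w : W) : Prop :=
  ∃ φ : V → W, φ v = w ∧
    (∀ x, G.Reachable v x → H.Reachable w (φ x) ∧ ℓ' (φ x) = ℓ x) ∧
    (∀ x y, G.Reachable v x → G.Reachable v y → φ x = φ y → x = y) ∧
    (∀ z, H.Reachable w z → ∃ x, G.Reachable v x ∧ φ x = z) ∧
    (∀ x y, G.Reachable v x → G.Reachable v y → (G.Adj x y ↔ H.Adj (φ x) (φ y)))

/-- difference word of a keyword of length `m+1` -/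
def dif (m : ℕ) (a : Fin (m + 1) → Bool) : ℕ → Bool := fun j =>
  if h : j < m then a ⟨j, by omega⟩ ^^ a ⟨j + 1, by omega⟩ else false

/-- difference word of a finite word (the last letter is kept) -/
def dw {n : ℕ} (u : Fin n → Bool) : Fin n → Bool := fun t =>
  if h : (t : ℕ) + 1 < n then u t ^^ u ⟨(t : ℕ) + 1, h⟩ else u t

end Pool.Agent.KWG
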