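import Pool.Agent.KWG.C1

/-!
# [KWG-F1] words avoiding α

`fA_small`: for `M < m` there is no `p` with `p + m ≤ M`; all `2 ^ M` words count.

`fA_rec` (`m ≥ 1`, `M + 1 ≥ m`; `k = M + 1 - m`): `fA (M + 1) + gA k = 2 * fA M`.
Proof.  Consider the words of length `M + 1` whose prefix of length `M` avoids `α`: `2 * fA M` of them
(`Fin.snoc`, `Fin.snocEquiv`; the conditions for `p + m ≤ M` read only the first `M` letters).  Such a word
either avoids `α` (counted by `fA (M + 1)`) or contains `α` at the position `k` (the only new position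
`p + m = M + 1`).  The words of the second kind are `w α` with `w` of length `k`, without `α` at the
positions `p < k` (`p + m ≤ M` iff `p < k`): `gA k` of them (`w` = restriction to the first `k` letters;
`ext` of the word and `cat α w` agree on the letters `0, ..., M`).

`fA_zero_m`: for `m = 0` the window `p = 0` is always available: `fA α 0 M = 0`.
`fA_pos`: for `m ≥ 1` the constant word with letter `! α 0` avoids `α`.
-/

namespace Pool.Agent.KWG

private theorem f1_ext_nat {n : ℕ} (w : Fin n → Bool) (t : ℕ) (h : t < n) :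
    ext w (t : ℤ) = w ⟨t, h⟩ := ext_in w ⟨t, h⟩

theorem fA_small {α : ℕ → Bool} {m M : ℕ} (h : M < m) : fA α m M = 2 ^ M := by
  classical
  unfold fA
  rw [Finset.filter_true_of_mem]
  · rw [Finset.card_univ, Fintype.card_fun, Fintype.card_bool, Fintype.card_fin]
  · intro w _ p hp
    omega

/-- the words whose prefix avoids the keyword -/
private noncomputable def f1U (α : ℕ → Bool) (m M : ℕ) : Finset (Fin (M + 1) → Bool) := by
  classical
  exact Finset.univ.filter (fun w : Fin (M + 1) → Bool =>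
    ∀ p : ℕ, p + m ≤ M → ¬ At α m (ext w) p)

private theorem f1_mem_U {α : ℕ → Bool} {m M : ℕ} {w : Fin (M + 1) → Bool} :
    w ∈ f1U α m M ↔ ∀ p : ℕ, p + m ≤ M → ¬ At α m (ext w) p := by
  classical
  unfold f1U
  exact ⟨fun h => (Finset.mem_filter.1 h).2, fun h => Finset.mem_filter.2 ⟨Finset.mem_univ _, h⟩⟩

private theorem f1_init {α : ℕ → Bool} {m M : ℕ} (w : Fin (M + 1) → Bool) (p : ℕ)
    (hp : p + m ≤ M) :
    At α m (ext (fun j : Fin M => w j.castSucc)) p ↔ At α m (ext w) p := by
  refine At_congr fun t ht1 ht2 => ?_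
  obtain ⟨u, rfl⟩ := Int.eq_ofNat_of_zero_le (show 0 ≤ t by omega)
  have hu : u < M := by omega
  rw [f1_ext_nat _ u hu, f1_ext_nat w u (by omega)]
  rfl

private theorem f1_card_U (α : ℕ → Bool) (m M : ℕ) : (f1U α m M).card = 2 * fA α m M := by
  classical
  have h2 : 2 * fA α m M = ((Finset.univ.filter (fun w : Fin M → Bool =>
      ∀ p : ℕ, p + m ≤ M → ¬ At α m (ext w) p)) ×ˢ (Finset.univ : Finset Bool)).card := by
    rw [Finset.card_product, Finset.card_univ, Fintype.card_bool, mul_comm]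
    unfold fA
    rfl
  rw [h2]
  refine Finset.card_nbij' (fun w => ((fun j : Fin M => w j.castSucc), w (Fin.last M)))
    (fun x => Fin.snoc (α := fun _ => Bool) x.1 x.2) ?_ ?_ ?_ ?_
  · intro w hw
    have hw' := f1_mem_U.1 (Finset.mem_coe.1 hw)
    refine Finset.mem_coe.2 (Finset.mem_product.2 ⟨?_, Finset.mem_univ _⟩)
    rw [Finset.mem_filter]
    refine ⟨Finset.mem_univ _, fun p hp => ?_⟩
    rw [f1_init w p hp]
    exact hw' p hp
  · intro x hx
    have hx' := (Finset.mem_filter.1 (Finset.mem_product.1 (Finset.mem_coe.1 hx)).1).2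
    refine Finset.mem_coe.2 (f1_mem_U.2 fun p hp => ?_)
    rw [← f1_init _ p hp]
    simp only [Fin.snoc_castSucc]
    exact hx' p hp
  · intro w _
    exact Fin.snoc_init_self w
  · intro x _
    simp only [Fin.snoc_castSucc, Fin.snoc_last]

private theorem f1_cat {α : ℕ → Bool} {m M k : ℕ} (hk : k + m = M + 1) (w : Fin (M + 1) → Bool)
    (hw : At α m (ext w) k) {t : ℤ} (h0 : 0 ≤ t) (h1 : t < M + 1) :
    cat α (fun j : Fin k => w ⟨j, by omega⟩) t = ext w t := by
  obtain ⟨u, rfl⟩ := Int.eq_ofNat_of_zero_le h0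
  unfold cat
  by_cases hu : (u : ℤ) < k
  · rw [if_pos hu, f1_ext_nat _ u (by omega), f1_ext_nat w u (by omega)]
  · rw [if_neg hu]
    have h2 := hw (u - k) (by omega)
    have e1 : (k : ℤ) + ((u - k : ℕ) : ℤ) = (u : ℤ) := by omega
    have e2 : ((u : ℤ) - k).toNat = u - k := by omega
    rw [e1] at h2
    rw [e2, h2]

private theorem f1_ext_cat {α : ℕ → Bool} {M k : ℕ} (x : Fin k → Bool) {t : ℤ}
    (h0 : 0 ≤ t) (h1 : t < M + 1) :
    ext (fun j : Fin (M + 1) => cat α x ((j : ℕ) : ℤ)) t = cat α x t := by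
  obtain ⟨u, rfl⟩ := Int.eq_ofNat_of_zero_le h0
  rw [f1_ext_nat _ u (by omega)]

open Classical in
private theorem f1_card_B {α : ℕ → Bool} {m M k : ℕ} (hm : 1 ≤ m) (hk : k + m = M + 1) :
    ((f1U α m M).filter (fun w => At α m (ext w) k)).card = gA α m k := by
  unfold gA
  refine Finset.card_nbij' (fun w => (fun j : Fin k => w ⟨j, by omega⟩))
    (fun x => (fun j : Fin (M + 1) => cat α x ((j : ℕ) : ℤ))) ?_ ?_ ?_ ?_
  · intro w hw
    have hw' := Finset.mem_filter.1 (Finset.mem_coe.1 hw)
    refine Finset.mem_coe.2 (Finset.mem_filter.2 ⟨Finset.mem_univ _, fun p hp hA => ?_⟩)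
    refine f1_mem_U.1 hw'.1 p (by omega) ?_
    refine (At_congr fun t ht1 ht2 => ?_).1 hA
    exact f1_cat hk w hw'.2 (by omega) (by omega)
  · intro x hx
    have hx' := (Finset.mem_filter.1 (Finset.mem_coe.1 hx)).2
    refine Finset.mem_coe.2 (Finset.mem_filter.2 ⟨f1_mem_U.2 fun p hp hA => ?_, ?_⟩)
    · refine hx' p (by omega) ?_
      refine (At_congr fun t ht1 ht2 => ?_).1 hA
      exact f1_ext_cat x (by omega) (by omega)
    · have h3 : At α m (cat α x) k := by
        intro j hj
        unfold cat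
        rw [if_neg (by omega)]
        have e2 : ((k : ℤ) + (j : ℤ) - k).toNat = j := by omega
        rw [e2]
      refine (At_congr fun t ht1 ht2 => ?_).1 h3
      exact (f1_ext_cat x (by omega) (by omega)).symm
  · intro w hw
    have hw' := Finset.mem_filter.1 (Finset.mem_coe.1 hw)
    funext j
    have h3 := f1_cat hk w hw'.2 (t := ((j : ℕ) : ℤ)) (by omega) (by have := j.2; omega)
    simp only
    rw [h3, ext_in]
  · intro x _
    funext j
    simp only
    unfold cat
    have hj := j.2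
    rw [if_pos (by omega), ext_in]

theorem fA_rec {α : ℕ → Bool} {m M : ℕ} (hm : 1 ≤ m) (h : m ≤ M + 1) :
    fA α m (M + 1) + gA α m (M + 1 - m) = 2 * fA α m M := by
  classical
  have hk : (M + 1 - m) + m = M + 1 := by omega
  rw [← f1_card_U, ← f1_card_B hm hk,
    ← Finset.card_filter_add_card_filter_not (s := f1U α m M)
      (fun w => At α m (ext w) ((M + 1 - m : ℕ) : ℤ)), add_comm]
  congr 1
  unfold fA
  congr 1
  ext w
  constructor
  · intro h0
    have h1 := (Finset.mem_filter.1 h0).2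
    exact Finset.mem_filter.2 ⟨f1_mem_U.2 fun p hp => h1 p (by omega), h1 _ (by omega)⟩
  · intro h0
    have h1 := f1_mem_U.1 (Finset.mem_filter.1 h0).1
    have h2 := (Finset.mem_filter.1 h0).2
    refine Finset.mem_filter.2 ⟨Finset.mem_univ _, fun p hp => ?_⟩
    rcases Nat.lt_or_ge M (p + m) with h3 | h3
    · have h4 : p = M + 1 - m := by omega
      rw [h4]
      exact h2
    · exact h1 p h3

private theorem f1_zero (α : ℕ → Bool) {m : ℕ} (M : ℕ) (hm : m = 0) : fA α m M = 0 := by
  classical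
  unfold fA
  refine Finset.card_eq_zero.2 (Finset.eq_empty_of_forall_notMem fun w hw => ?_)
  refine (Finset.mem_filter.1 hw).2 0 (by omega) ?_
  intro j hj
  omega

theorem fA_zero_m (α : ℕ → Bool) (M : ℕ) : fA α 0 M = 0 := f1_zero α M rfl

theorem fA_pos {α : ℕ → Bool} {m M : ℕ} (hm : 1 ≤ m) : 1 ≤ fA α m M := by
  classical
  unfold fA
  rw [Nat.one_le_iff_ne_zero, ← Nat.pos_iff_ne_zero, Finset.card_pos]
  refine ⟨fun _ => !(α 0), ?_⟩
  rw [Finset.mem_filter]
  refine ⟨Finset.mem_univ _, fun p hp hA => ?_⟩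
  have h1 := hA 0 (by omega)
  have e1 : (p : ℤ) + ((0 : ℕ) : ℤ) = (p : ℤ) := by omega
  rw [e1, f1_ext_nat _ p (by omega)] at h1
  revert h1
  cases α 0 <;> simp

end Pool.Agent.KWG
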