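import Pool.Agent.KWG.C1

/-!
# [KWG-F10b] the words 0^m and 1 0^(m-1)

`Z = fun _ => false`, `O = fun j => decide (j = 0)`.
* `fA_O_mono` (`1 ≤ m₁ ≤ m₂`): a word avoiding `O 0 ... O (m₁ - 1)` avoids `O 0 ... O (m₂ - 1)`.
* `fA_Z_lt` (`1 ≤ m ≤ M`): `fA Z m M < fA O (m + 1) M`: a word avoiding `0^m` avoids `1 0^m`
  (an occurrence of `O` at `p` gives an occurrence of `Z` at `p + 1`, `p + 1 + m ≤ M`), and the word
  `0^M` avoids `1 0^m` but not `0^m`: strict inclusion of the finsets (`Finset.card_lt_card`).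
-/

namespace Pool.Agent.KWG

theorem fA_O_mono {m₁ m₂ : ℕ} (h : m₁ ≤ m₂) (M : ℕ) :
    fA (fun j => decide (j = 0)) m₁ M ≤ fA (fun j => decide (j = 0)) m₂ M := by
  classical
  unfold fA
  apply Finset.card_le_card
  intro w hw
  rw [Finset.mem_filter] at hw ⊢
  refine ⟨Finset.mem_univ _, fun p hp hAt => ?_⟩
  exact hw.2 p (by omega) (fun j hj => hAt j (by omega))

theorem fA_Z_lt {m M : ℕ} (h : m ≤ M) :
    fA (fun _ => false) m M < fA (fun j => decide (j = 0)) (m + 1) M := by
  classical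
  unfold fA
  apply Finset.card_lt_card
  rw [Finset.ssubset_iff_of_subset]
  · refine ⟨fun _ => false, ?_, ?_⟩
    · rw [Finset.mem_filter]
      refine ⟨Finset.mem_univ _, fun p hp hAt => ?_⟩
      have h1 := hAt 0 (by omega)
      have h2 : ext (fun _ : Fin M => false) ((p : ℤ) + ((0 : ℕ) : ℤ)) = false := by
        unfold ext
        split_ifs <;> rfl
      rw [h2] at h1
      simp at h1
    · rw [Finset.mem_filter]
      rintro ⟨-, h1⟩
      apply h1 0 (by omega)
      intro j hj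
      unfold ext
      split_ifs <;> rfl
  · intro w hw
    rw [Finset.mem_filter] at hw ⊢
    refine ⟨Finset.mem_univ _, fun p hp hAt => ?_⟩
    apply hw.2 (p + 1) (by omega)
    intro j hj
    have h1 := hAt (j + 1) (by omega)
    have h2 : ((p : ℤ) + ((j + 1 : ℕ) : ℤ)) = (((p + 1 : ℕ) : ℤ) + (j : ℤ)) := by
      push_cast
      ring
    rw [h2] at h1
    rw [h1]
    simp

end Pool.Agent.KWG
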