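import Pool.Agent.KWG.F10a
import Pool.Agent.KWG.F10b
import Pool.Agent.KWG.F1

/-!
# [KWG-F10] what the numbers fA determine

* `fd_len` (`1 ≤ m < m'`, `m ≤ M`): `fA α m M ≤ fA Z m M < fA O (m + 1) M ≤ fA O m' M ≤ fA β m' M`.

`fd_final`: suppose `fA α m M = fA β m' M`.  If `m < m'`: if `m ≤ M` contradiction to `fd_len`, so
`M < m < m'`: first alternative.  `m' < m` symmetric.  `m = m'`: if some `d` with `d + m ≤ M` has
`Per α m d ≠ Per β m d`, take the least one (`Nat.find`) and apply `fd_strict` (to `α, β` or `β, α`).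
-/

namespace Pool.Agent.KWG

theorem fd_len {α β : ℕ → Bool} {m m' M : ℕ} (hm : 1 ≤ m) (h : m < m') (hM : m ≤ M) :
    fA α m M < fA β m' M := by
  calc fA α m M ≤ fA (fun _ => false) m M := fA_le_Z α hm M
    _ < fA (fun j => decide (j = 0)) (m + 1) M := fA_Z_lt hM
    _ ≤ fA (fun j => decide (j = 0)) m' M := fA_O_mono h M
    _ ≤ fA β m' M := fA_ge_O β (by omega) M

theorem fd_final {α β : ℕ → Bool} {m m' M : ℕ} (hm : 1 ≤ m) (hm' : 1 ≤ m')
    (h : fA α m M = fA β m' M) :
    (M < m ∧ M < m') ∨ (m = m' ∧ ∀ d, d + m ≤ M → (Per α m d ↔ Per β m d)) := by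
  rcases lt_trichotomy m m' with h1 | h1 | h1
  · by_cases h2 : m ≤ M
    · exact absurd h (fd_len hm h1 h2).ne
    · exact Or.inl ⟨by omega, by omega⟩
  · subst h1
    refine Or.inr ⟨rfl, ?_⟩
    by_contra hcon
    push Not at hcon
    have hex : ∃ d, d + m ≤ M ∧ ¬ (Per α m d ↔ Per β m d) := by
      by_contra h2
      push Not at h2
      obtain ⟨d, hd, hd2⟩ := hcon
      have h3 := h2 d hd
      tauto
    classical
    obtain ⟨h3, h4⟩ := Nat.find_spec hex
    have h5 : ∀ d, d < Nat.find hex → (Per α m d ↔ Per β m d) := by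
      intro d hd
      have h6 := Nat.find_min hex hd
      by_contra h7
      exact h6 ⟨by omega, h7⟩
    by_cases h6 : Per α m (Nat.find hex)
    · have h7 : ¬ Per β m (Nat.find hex) := fun h8 => h4 ⟨fun _ => h8, fun _ => h6⟩
      exact absurd h (fd_strict h3 h6 h7 h5).ne'
    · have h7 : Per β m (Nat.find hex) := by
        by_contra h8
        exact h4 ⟨fun h9 => absurd h9 h6, fun h9 => absurd h9 h8⟩
      exact absurd h (fd_strict h3 h7 h6 fun d hd => (h5 d hd).symm).ne
  · by_cases h2 : m' ≤ M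
    · exact absurd h (fd_len (α := β) (β := α) hm' h1 h2).ne'
    · exact Or.inl ⟨by omega, by omega⟩

end Pool.Agent.KWG
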