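import Pool.Agent.KWG.F8

/-!
# [KWG-F9b] first difference, case B

`fd_strict`

See the proof in the header of F8:

`fd_strict`: `d₀ + m ≤ M`, `d₀` a period of `α`, not of `β`, agreement below `d₀`: `fA β m M < fA α m M`.
Proof.  `d₀ < m` (for `d ≥ m` everything is a period), `d₀ ≥ 1`, so `m ≥ 2`.  Put `j₀ = M - m - d₀`.  By `fA_diff`
`fA α M - fA β M = ∑ d (pe α d - pe β d) hh (M - m - d)` over `d < m`, `d + m ≤ M`; the terms `d < d₀` vanish,
the term `d₀` is `hh j₀`, and for `d > d₀` the term is `≥ - [d period of β and not of α] hh (j₀ - (d - d₀))`.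
Let `e` be the least period `≥ 1` of `β` (`e ≤ m`, as `m` is a period: `Nat.find`).
`fd_B` (case `d₀ + e < m`).  By `nt_lt` `d₀ < e`.  If `d₀ = 1` then all `d` are periods of `α` (`nt_one`) and no
term is negative: the total is `≥ hh j₀ ≥ 1` (`hh_mono`, `hh_zero`).  Otherwise `d₀ ≥ 2`, `e ≥ 3`,
`m ≥ d₀ + e + 1 ≥ 6`, and `1`, `2` are not periods of `β`.  A period `d > d₀` of `β` is either `e`
(`i = d - d₀ ≥ 1`) or `> e`, and then `i = d - d₀ ≥ 3` (`nt_gap`); there is none in `(d₀, e)`.  The negative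
terms have different `i`, `1 ≤ i ≤ j₀`, at most one of them is `< 3`: so their sum is at most
`[1 ≤ j₀] hh (j₀ - 1) + ∑ i ∈ Ico 3 (j₀ + 1), hh (j₀ - i) < hh j₀` (`hh_mono` for the term `d = e`),
by `hh_pos_B`.
-/

namespace Pool.Agent.KWG

open Finset

private theorem f9b_pe_one {α : ℕ → Bool} {m d : ℕ} (h : Per α m d) : pe α m d = 1 := by
  unfold pe
  rw [if_pos h]

private theorem f9b_pe_zero {α : ℕ → Bool} {m d : ℕ} (h : ¬ Per α m d) : pe α m d = 0 := by
  unfold pe
  rw [if_neg h]

private theorem f9b_pe_nonneg (α : ℕ → Bool) (m d : ℕ) : 0 ≤ pe α m d := by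
  by_cases h : Per α m d
  · rw [f9b_pe_one h]
    norm_num
  · rw [f9b_pe_zero h]

private theorem f9b_pe_le (α : ℕ → Bool) (m d : ℕ) : pe α m d ≤ 1 := by
  by_cases h : Per α m d
  · rw [f9b_pe_one h]
  · rw [f9b_pe_zero h]
    norm_num

theorem fd_B {α β : ℕ → Bool} {m M d₀ e : ℕ} (hM : d₀ + m ≤ M) (h1 : Per α m d₀)
    (h2 : ¬ Per β m d₀) (h3 : ∀ d, d < d₀ → (Per α m d ↔ Per β m d)) (he : 1 ≤ e)
    (he' : Per β m e) (hmin : ∀ d, 1 ≤ d → d < e → ¬ Per β m d) (hlt : d₀ + e < m) :
    fA β m M < fA α m M := by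
  classical
  have hm : 1 ≤ m := by omega
  have hd0 : 1 ≤ d₀ := by
    rcases Nat.eq_zero_or_pos d₀ with h | h
    · exfalso
      apply h2
      rw [h]
      intro j _
      rw [Nat.add_zero]
    · exact h
  have hdiff := fA_diff α β hm M
  have hH : ∀ x, (0 : ℤ) ≤ (hh α β m x : ℤ) := fun x => Int.natCast_nonneg _
  suffices hpos : (0 : ℤ) < ∑ d ∈ (range m).filter (fun d => d + m ≤ M),
      (pe α m d - pe β m d) * (hh α β m (M - m - d) : ℤ) by
    rw [← hdiff] at hpos
    omega
  have hmem : d₀ ∈ (range m).filter (fun d => d + m ≤ M) := by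
    rw [Finset.mem_filter, Finset.mem_range]
    exact ⟨by omega, hM⟩
  have hterm : (pe α m d₀ - pe β m d₀) * (hh α β m (M - m - d₀) : ℤ) =
      (hh α β m (M - m - d₀) : ℤ) := by
    rw [f9b_pe_one h1, f9b_pe_zero h2]
    ring
  rcases Nat.lt_or_ge 1 d₀ with hd2 | hd2
  · have hde : d₀ < e := nt_lt h1 h2 h3 he he' hmin hlt
    have hB := hh_pos_B (α := α) (β := β) (m := m) (by omega) (hmin 1 le_rfl (by omega))
      (hmin 2 (by omega) (by omega)) (M - m - d₀)
    have hmono := hh_mono α β hm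
    rw [← Finset.add_sum_erase _ _ hmem, hterm]
    have hle : ∀ d ∈ ((range m).filter (fun d => d + m ≤ M)).erase d₀,
        -((if d = e then (if 1 ≤ M - m - d₀ then (hh α β m (M - m - d₀ - 1) : ℤ) else 0) else 0) +
          (if d₀ + 3 ≤ d then (hh α β m (M - m - d) : ℤ) else 0)) ≤
        (pe α m d - pe β m d) * (hh α β m (M - m - d) : ℤ) := by
      intro d hd
      rw [Finset.mem_erase, Finset.mem_filter, Finset.mem_range] at hd
      obtain ⟨hne, hdm, hdM⟩ := hd
      have hx : (0 : ℤ) ≤ (if d = e then (if 1 ≤ M - m - d₀ then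
          (hh α β m (M - m - d₀ - 1) : ℤ) else 0) else 0) := by
        split_ifs <;> simp
      have hy : (0 : ℤ) ≤ (if d₀ + 3 ≤ d then (hh α β m (M - m - d) : ℤ) else 0) := by
        split_ifs <;> simp
      by_cases hb : Per β m d
      · rcases Nat.lt_or_ge d d₀ with hlt' | hge'
        · rw [f9b_pe_one hb, f9b_pe_one ((h3 d hlt').2 hb)]
          simp only [sub_self, zero_mul]
          linarith
        · have hde' : e ≤ d := by
            by_contra hcon
            exact hmin d (by omega) (by omega) hb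
          rw [f9b_pe_one hb]
          have hA := f9b_pe_nonneg α m d
          have hA' : -(hh α β m (M - m - d) : ℤ) ≤
              (pe α m d - 1) * (hh α β m (M - m - d) : ℤ) := by
            have := mul_nonneg hA (hH (M - m - d))
            linarith
          rcases Nat.eq_or_lt_of_le hde' with heq | hgt
          · have h5 : 1 ≤ M - m - d₀ := by omega
            have h6 : hh α β m (M - m - d) ≤ hh α β m (M - m - d₀ - 1) := hmono (by omega)
            have h7 : (hh α β m (M - m - d) : ℤ) ≤ (hh α β m (M - m - d₀ - 1) : ℤ) := by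
              exact_mod_cast h6
            rw [if_pos heq.symm, if_pos h5]
            linarith
          · have h5 := nt_gap h1 h2 h3 he he' hmin hlt hgt hb
            rw [if_pos h5]
            linarith
      · rw [f9b_pe_zero hb]
        have := mul_nonneg (f9b_pe_nonneg α m d) (hH (M - m - d))
        linarith
    have hsum := Finset.sum_le_sum hle
    rw [Finset.sum_neg_distrib, Finset.sum_add_distrib] at hsum
    have hs1 : ∑ d ∈ ((range m).filter (fun d => d + m ≤ M)).erase d₀,
        (if d = e then (if 1 ≤ M - m - d₀ then (hh α β m (M - m - d₀ - 1) : ℤ) else 0) else 0) ≤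
        (if 1 ≤ M - m - d₀ then (hh α β m (M - m - d₀ - 1) : ℤ) else 0) := by
      rw [Finset.sum_ite_eq']
      have hx : (0 : ℤ) ≤ (if 1 ≤ M - m - d₀ then
          (hh α β m (M - m - d₀ - 1) : ℤ) else 0) := by
        split_ifs <;> simp
      split_ifs <;> simp
    have hs2 : ∑ d ∈ ((range m).filter (fun d => d + m ≤ M)).erase d₀,
        (if d₀ + 3 ≤ d then (hh α β m (M - m - d) : ℤ) else 0) ≤
        ∑ i ∈ Ico 3 (M - m - d₀ + 1), (hh α β m (M - m - d₀ - i) : ℤ) := by
      have e1 : ∑ i ∈ Ico 3 (M - m - d₀ + 1), (hh α β m (M - m - d₀ - i) : ℤ) =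
          ∑ i ∈ Ico 3 (M - m - d₀ + 1), (fun x => (hh α β m (M - m - x) : ℤ)) (i + d₀) := by
        refine Finset.sum_congr rfl fun i _ => ?_
        have : M - m - d₀ - i = M - m - (i + d₀) := by omega
        simp only [this]
      rw [e1, Finset.sum_Ico_add' (fun x => (hh α β m (M - m - x) : ℤ)), ← Finset.sum_filter]
      refine Finset.sum_le_sum_of_subset_of_nonneg ?_ fun i _ _ => hH _
      intro d hd
      rw [Finset.mem_filter, Finset.mem_erase, Finset.mem_filter, Finset.mem_range] at hd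
      rw [Finset.mem_Ico]
      omega
    have hB' : (if 1 ≤ M - m - d₀ then (hh α β m (M - m - d₀ - 1) : ℤ) else 0) +
        ∑ i ∈ Ico 3 (M - m - d₀ + 1), (hh α β m (M - m - d₀ - i) : ℤ) <
        (hh α β m (M - m - d₀) : ℤ) := by
      have := Int.ofNat_lt.2 hB
      push_cast at this
      exact this
    linarith
  · have hd1 : d₀ = 1 := by omega
    have hall : ∀ d, pe α m d = 1 := fun d => f9b_pe_one (nt_one (hd1 ▸ h1) d)
    have hnn : ∀ d ∈ (range m).filter (fun d => d + m ≤ M),
        0 ≤ (pe α m d - pe β m d) * (hh α β m (M - m - d) : ℤ) := by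
      intro d _
      refine mul_nonneg ?_ (hH _)
      rw [hall d]
      have := f9b_pe_le β m d
      linarith
    have hle := Finset.single_le_sum hnn hmem
    rw [hterm] at hle
    have h5 : hh α β m 0 ≤ hh α β m (M - m - d₀) := hh_mono α β hm (Nat.zero_le _)
    rw [hh_zero] at h5
    have h6 : (1 : ℤ) ≤ (hh α β m (M - m - d₀) : ℤ) := by exact_mod_cast h5
    linarith

end Pool.Agent.KWG
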