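import Pool.Agent.KWG.F9a
import Pool.Agent.KWG.F9b

/-!
# [KWG-F10a] the first difference decides; extreme words

`fd_strict`: from `fd_A`, `fd_B` with `e` the least period `≥ 1` of `β` (`Nat.find`; `m` itself is one, so
`e ≤ m`; `m ≥ 1` because `d₀ < m`).

Different lengths.  `Z = fun _ => false`, `O = fun j => decide (j = 0)`.
* `fA_le_Z` (`m ≥ 1`): `fA α m M ≤ fA Z m M`: `fA_diff Z α`: all the terms are `≥ 0` since every `d` is a
  period of `Z`, `pe α ≤ 1`, `hh ≥ 0`.
* `fA_ge_O` (`m ≥ 1`): `fA O m M ≤ fA β m M`: `fA_diff β O`: `pe O m d = 0` for `1 ≤ d < m` (`O 0 ≠ O d`), and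
  for `d = 0` both are 1.
-/

namespace Pool.Agent.KWG

theorem fd_strict {α β : ℕ → Bool} {m M d₀ : ℕ} (hM : d₀ + m ≤ M) (h1 : Per α m d₀)
    (h2 : ¬ Per β m d₀) (h3 : ∀ d, d < d₀ → (Per α m d ↔ Per β m d)) :
    fA β m M < fA α m M := by
  have hd : d₀ < m := by
    by_contra h
    exact h2 (fun j hj => absurd hj (by omega))
  classical
  have hex : ∃ d, 1 ≤ d ∧ Per β m d := ⟨m, by omega, fun j hj => absurd hj (by omega)⟩
  have he := Nat.find_spec hex
  have hem : Nat.find hex ≤ m := Nat.find_min' hex ⟨by omega, fun j hj => absurd hj (by omega)⟩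
  have hmin : ∀ d, 1 ≤ d → d < Nat.find hex → ¬ Per β m d := fun d h4 h5 h6 =>
    Nat.find_min hex h5 ⟨h4, h6⟩
  by_cases hle : m ≤ d₀ + Nat.find hex
  · exact fd_A hM h1 h2 h3 he.1 hem hmin hle
  · exact fd_B hM h1 h2 h3 he.1 he.2 hmin (by omega)

theorem fA_le_Z (α : ℕ → Bool) {m : ℕ} (hm : 1 ≤ m) (M : ℕ) :
    fA α m M ≤ fA (fun _ => false) m M := by
  have h1 := fA_diff (fun _ => false) α hm M
  have h2 : (0 : ℤ) ≤ (fA (fun _ => false) m M : ℤ) - fA α m M := by
    rw [h1]
    refine Finset.sum_nonneg fun d _ => mul_nonneg ?_ (Int.natCast_nonneg _)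
    have h3 : pe (fun _ => false) m d = 1 := by
      unfold pe
      exact if_pos (fun j _ => rfl)
    rw [h3]
    unfold pe
    split_ifs <;> norm_num
  have h3 : (fA α m M : ℤ) ≤ fA (fun _ => false) m M := by linarith
  exact_mod_cast h3

theorem fA_ge_O (β : ℕ → Bool) {m : ℕ} (hm : 1 ≤ m) (M : ℕ) :
    fA (fun j => decide (j = 0)) m M ≤ fA β m M := by
  have h1 := fA_diff β (fun j => decide (j = 0)) hm M
  have h2 : (0 : ℤ) ≤ (fA β m M : ℤ) - fA (fun j => decide (j = 0)) m M := by
    rw [h1]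
    refine Finset.sum_nonneg fun d hd => mul_nonneg ?_ (Int.natCast_nonneg _)
    rw [Finset.mem_filter, Finset.mem_range] at hd
    by_cases h0 : d = 0
    · subst h0
      have h3 : pe β m 0 = 1 := by
        unfold pe
        exact if_pos (fun j _ => rfl)
      have h4 : pe (fun j => decide (j = 0)) m 0 = 1 := by
        unfold pe
        exact if_pos (fun j _ => rfl)
      rw [h3, h4, sub_self]
    · have h4 : pe (fun j => decide (j = 0)) m d = 0 := by
        unfold pe
        refine if_neg (fun h => ?_)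
        have h5 := h 0 (by omega)
        simp at h5
        exact h0 h5
      rw [h4, sub_zero]
      unfold pe
      split_ifs <;> norm_num
  have h3 : (fA (fun j => decide (j = 0)) m M : ℤ) ≤ fA β m M := by linarith
  exact_mod_cast h3

end Pool.Agent.KWG
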