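import Pool.Agent.KWG.C2

/-!
# [KWG-F1b] isolated vertices

`Wn_one` (`n ≥ 1`): `Wn α m n 1 = 2 * fA α m (n - 1)`.
Proof.  `(Rset α m n (ext w)).card = 1` iff no `p ∈ Wi n m` is available in `ext w`: `∅ ∈ Rset` always; if `p`
is available then `{p} ∈ Rset` (`mem_Rset`, `Rch.step`, `st_empty`); if no `p` is available, `Rch F` implies
`F = ∅` (induction).  The condition says: `α` does not occur at `p` for `p + m < n`, i.e. `p + m ≤ n - 1`, and
it does not involve the last letter `n - 1` of `w`: `2 *` (number of words of length `n - 1` avoiding `α`).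
-/

namespace Pool.Agent.KWG

theorem f1b_card {α : ℕ → Bool} {m n : ℕ} (w : Fin n → Bool) :
    (Rset α m n (ext w)).card = 1 ↔ ∀ p : ℕ, p + m < n → ¬ At α m (ext w) p := by
  have h0 : (∅ : Finset ℤ) ∈ Rset α m n (ext w) := mem_Rset.2 Rch.zero
  constructor
  · intro h p hp hA
    obtain ⟨F, hF⟩ := Finset.card_eq_one.1 h
    have h1 : (∅ : Finset ℤ) = F := by
      rw [hF] at h0
      exact Finset.mem_singleton.1 h0
    have h2 : Rch α m n (ext w) (symmDiff (∅ : Finset ℤ) {(p : ℤ)}) :=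
      Rch.step Rch.zero (mem_Wi.2 ⟨by omega, by omega⟩) (by rw [st_empty]; exact hA)
    rw [← Finset.bot_eq_empty, bot_symmDiff] at h2
    have h3 := mem_Rset.2 h2
    rw [hF, Finset.mem_singleton, ← h1] at h3
    exact Finset.singleton_ne_empty _ h3
  · intro h
    rw [Finset.card_eq_one]
    refine ⟨∅, ?_⟩
    rw [Finset.eq_singleton_iff_unique_mem]
    refine ⟨h0, fun F hF => ?_⟩
    have hF' := mem_Rset.1 hF
    clear hF
    induction hF' with
    | zero => rfl
    | @step F p hF hp hAt ih =>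
      exfalso
      rw [ih, st_empty] at hAt
      have hp' := mem_Wi.1 hp
      obtain ⟨k, rfl⟩ := Int.eq_ofNat_of_zero_le hp'.1
      exact h k (by omega) hAt

theorem f1b_snoc {α : ℕ → Bool} {m N : ℕ} (w : Fin N → Bool) (b : Bool) :
    (∀ p : ℕ, p + m < N + 1 → ¬ At α m (ext (Fin.snoc w b : Fin (N + 1) → Bool)) p) ↔
      ∀ p : ℕ, p + m ≤ N → ¬ At α m (ext w) p := by
  have h1 : ∀ p : ℕ, p + m ≤ N → (At α m (ext (Fin.snoc w b : Fin (N + 1) → Bool)) p ↔
      At α m (ext w) p) := by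
    intro p hp
    refine At_congr fun t ht1 ht2 => ?_
    obtain ⟨k, rfl⟩ := Int.eq_ofNat_of_zero_le (show (0 : ℤ) ≤ t by omega)
    have hk : k < N := by omega
    have e1 := ext_in w ⟨k, hk⟩
    have e2 := ext_in (Fin.snoc w b : Fin (N + 1) → Bool) (Fin.castSucc ⟨k, hk⟩)
    rw [Fin.snoc_castSucc] at e2
    exact e2.trans e1.symm
  constructor
  · intro h p hp hA
    exact h p (by omega) ((h1 p hp).2 hA)
  · intro h p hp hA
    exact h p (by omega) ((h1 p (by omega)).1 hA)

theorem Wn_one (α : ℕ → Bool) (m : ℕ) {n : ℕ} (hn : 1 ≤ n) :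
    Wn α m n 1 = 2 * fA α m (n - 1) := by
  classical
  obtain ⟨N, rfl⟩ : ∃ N, n = N + 1 := ⟨n - 1, by omega⟩
  rw [Nat.add_sub_cancel]
  have h3 : 2 * fA α m N = ((Finset.univ.filter (fun w : Fin N → Bool =>
      ∀ p : ℕ, p + m ≤ N → ¬ At α m (ext w) p)) ×ˢ (Finset.univ : Finset Bool)).card := by
    rw [Finset.card_product, Finset.card_univ, Fintype.card_bool, mul_comm]
    unfold fA
    rfl
  rw [h3]
  unfold Wn
  symm
  refine Finset.card_nbij' (fun z => (Fin.snoc z.1 z.2 : Fin (N + 1) → Bool))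
    (fun x => (Fin.init x, x (Fin.last N))) ?_ ?_ ?_ ?_
  · intro z hz
    rw [Finset.mem_coe, Finset.mem_product, Finset.mem_filter] at hz
    rw [Finset.mem_coe, Finset.mem_filter]
    exact ⟨Finset.mem_univ _, (f1b_card _).2 ((f1b_snoc z.1 z.2).2 hz.1.2)⟩
  · intro x hx
    rw [Finset.mem_coe, Finset.mem_filter] at hx
    rw [Finset.mem_coe, Finset.mem_product, Finset.mem_filter]
    refine ⟨⟨Finset.mem_univ _, ?_⟩, Finset.mem_univ _⟩
    have h4 := (f1b_card x).1 hx.2
    have h5 := f1b_snoc (α := α) (m := m) (Fin.init x) (x (Fin.last N))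
    rw [Fin.snoc_init_self] at h5
    exact h5.1 h4
  · intro z _
    refine Prod.ext ?_ ?_
    · exact Fin.init_snoc (α := fun _ => Bool) _ _
    · exact Fin.snoc_last (α := fun _ => Bool) _ _
  · intro x _
    exact Fin.snoc_init_self x

end Pool.Agent.KWG
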