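import Pool.Agent.KWG.C1

/-!
# [KWG-F2] first occurrence decomposition

`fA α m M = ∑ over the periods i < m, i ≤ M, of gA α m (M - i)`.

Proof.  Let `w` be a word of length `M` avoiding `α`.  In `cat α w` the word `α` occurs at the position `M`;
let `p ≤ M` be its first occurrence (`p : ℕ`).  `p + m > M` because `w` avoids `α`, so `i = M - p < m`,
`i ≤ M`.  `α` occurs at `p` and at `p + i = M`: `i` is a period (`per_of_At`).  Let `u` be the prefix of `w` of
length `p`.  Then `w = u α[0, i)`, and `cat α w` agrees with `cat α u` on the letters `0, ..., M + m - i - 1`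
(letters `≥ p`: both are `α (t - p)` for `t < p + m`; for `p ≤ t < p + m`, `cat α w t = α (t - p)` since `α`
occurs there).  So `u` is counted by `gA (M - i)`.
Conversely let `i < m`, `i ≤ M` be a period, `p = M - i`, and let `u` (length `p`) be counted by `gA p`.  Put
`w t = u t` (`t < p`), `w t = α (t - p)` (`p ≤ t < M`).  Then `cat α w t = α (t - p)` for `p ≤ t < p + m`
(for `t ≥ M`: `cat α w t = α (t - M)` and `α (t - M) = α (t - M + i)` as `i` is a period), so `cat α w` agrees
with `cat α u` on the letters `< p + m`; hence the first occurrence of `α` in `cat α w` is at `p`, and `w`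
avoids `α` (an occurrence at `p'` with `p' + m ≤ M` would have `p' ≤ M - m < p`).
So the words counted by `fA M` are partitioned according to `i`
(`Finset.card_eq_sum_card_fiberwise` or `Finset.card_biUnion`), and the class of `i` is in bijection with
the words counted by `gA (M - i)`.
-/

namespace Pool.Agent.KWG

open Finset

theorem F2_cat_lt {k : ℕ} (α : ℕ → Bool) (w : Fin k → Bool) (t : ℕ) (h : t < k) :
    cat α w (t : ℤ) = w ⟨t, h⟩ := by
  unfold cat
  rw [if_pos (by exact_mod_cast h)]
  exact ext_in w ⟨t, h⟩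

theorem F2_cat_ge {k : ℕ} (α : ℕ → Bool) (w : Fin k → Bool) (t : ℕ) (h : k ≤ t) :
    cat α w (t : ℤ) = α (t - k) := by
  unfold cat
  rw [if_neg (by
    have : (k : ℤ) ≤ t := by exact_mod_cast h
    omega)]
  congr 1
  omega

theorem F2_agree {α : ℕ → Bool} {m M p : ℕ} (hM : p ≤ M) (w : Fin M → Bool) (u : Fin p → Bool)
    (hu : ∀ t (ht : t < p), u ⟨t, ht⟩ = w ⟨t, lt_of_lt_of_le ht hM⟩)
    (hA : At α m (cat α w) p) (t : ℕ) (ht : t < p + m) :
    cat α w (t : ℤ) = cat α u (t : ℤ) := by
  by_cases h : t < p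
  · rw [F2_cat_lt α w t (lt_of_lt_of_le h hM), F2_cat_lt α u t h, hu t h]
  · have h1 := hA (t - p) (by omega)
    have h2 : (p : ℤ) + ((t - p : ℕ) : ℤ) = (t : ℤ) := by omega
    rw [h2] at h1
    rw [h1, F2_cat_ge α u t (by omega)]

theorem F2_At_iff {α : ℕ → Bool} {m p : ℕ} {X Y : ℤ → Bool}
    (h : ∀ t : ℕ, t < p + m → X (t : ℤ) = Y (t : ℤ)) (q : ℕ) (hq : q ≤ p) :
    At α m X q ↔ At α m Y q := by
  refine At_congr ?_
  intro t h0 h1
  obtain ⟨t', rfl⟩ := Int.eq_ofNat_of_zero_le (by omega : 0 ≤ t)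
  exact h t' (by omega)

theorem F2_fiber (α : ℕ → Bool) {m M p i : ℕ} (hM : M = p + i) (hi : i < m)
    (hper : Per α m i) (s : Finset (Fin M → Bool))
    (hs : ∀ w, w ∈ s ↔ (∀ q : ℕ, q < p → ¬ At α m (cat α w) q) ∧ At α m (cat α w) p) :
    s.card = gA α m p := by
  classical
  unfold gA
  have hpM : p ≤ M := by omega
  refine Finset.card_bij (fun w _ => fun t : Fin p => w ⟨t, lt_of_lt_of_le t.2 hpM⟩) ?_ ?_ ?_
  · intro w hw
    obtain ⟨h1, h2⟩ := (hs w).1 hw
    rw [Finset.mem_filter]
    refine ⟨Finset.mem_univ _, ?_⟩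
    intro q hq hA
    refine h1 q hq ?_
    exact (F2_At_iff (fun t ht => F2_agree hpM w _ (fun t ht => rfl) h2 t ht) q hq.le).2 hA
  · intro w hw w' hw' hww
    obtain ⟨_, h2⟩ := (hs w).1 hw
    obtain ⟨_, h2'⟩ := (hs w').1 hw'
    funext t
    by_cases ht : (t : ℕ) < p
    · exact congrFun hww ⟨t, ht⟩
    · have e : ∀ v : Fin M → Bool, At α m (cat α v) p → v t = α (t - p) := by
        intro v hv
        have h3 := hv (t - p) (by have := t.2; omega)
        have h4 : (p : ℤ) + (((t : ℕ) - p : ℕ) : ℤ) = ((t : ℕ) : ℤ) := by omega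
        rw [h4, F2_cat_lt α v t t.2] at h3
        exact h3
      rw [e w h2, e w' h2']
  · intro u hu
    rw [Finset.mem_filter] at hu
    have hu2 := hu.2
    let w : Fin M → Bool := fun t => if h : (t : ℕ) < p then u ⟨t, h⟩ else α (t - p)
    have hwu : ∀ t (ht : t < p), u ⟨t, ht⟩ = w ⟨t, lt_of_lt_of_le ht hpM⟩ := by
      intro t ht
      simp only [w, ht, dif_pos]
    have hA : At α m (cat α w) p := by
      intro j hj
      have e : (p : ℤ) + (j : ℤ) = ((p + j : ℕ) : ℤ) := by push_cast; ring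
      rw [e]
      by_cases h : p + j < M
      · rw [F2_cat_lt α w (p + j) h]
        simp only [w]
        rw [dif_neg (by omega)]
        congr 1
        omega
      · rw [F2_cat_ge α w (p + j) (by omega)]
        have h3 := hper (p + j - M) (by omega)
        rw [h3]
        congr 1
        omega
    refine ⟨w, ?_, ?_⟩
    · rw [hs]
      refine ⟨?_, hA⟩
      intro q hq hq'
      refine hu2 q hq ?_
      exact (F2_At_iff (fun t ht => F2_agree hpM w u hwu hA t ht) q hq.le).1 hq'
    · funext t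
      exact (hwu t t.2).symm

theorem fA_conv (α : ℕ → Bool) {m : ℕ} (hm : 1 ≤ m) (M : ℕ) :
    (fA α m M : ℤ) = ∑ i ∈ (range m).filter (fun i => i ≤ M), pe α m i * (gA α m (M - i) : ℤ) := by
  classical
  have hAM : ∀ w : Fin M → Bool, At α m (cat α w) M := by
    intro w j hj
    have e : (M : ℤ) + (j : ℤ) = ((M + j : ℕ) : ℤ) := by push_cast; ring
    rw [e, F2_cat_ge α w (M + j) (by omega)]
    congr 1
    omega
  have hex : ∀ w : Fin M → Bool, ∃ p : ℕ, At α m (cat α w) p := fun w => ⟨M, hAM w⟩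
  let f : (Fin M → Bool) → ℕ := fun w => M - Nat.find (hex w)
  have hfind : ∀ w, Nat.find (hex w) ≤ M := fun w => Nat.find_min' _ (hAM w)
  set FA : Finset (Fin M → Bool) := Finset.univ.filter (fun w : Fin M → Bool =>
    ∀ p : ℕ, p + m ≤ M → ¬ At α m (ext w) p) with hFA
  have hav : ∀ (w : Fin M → Bool) (q : ℕ), q + m ≤ M →
      (At α m (ext w) q ↔ At α m (cat α w) q) := by
    intro w q hq
    refine At_congr ?_
    intro t h0 h1
    unfold cat
    rw [if_pos (by omega)]
  have hlt : ∀ w ∈ FA, M < Nat.find (hex w) + m := by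
    intro w hw
    rw [hFA, Finset.mem_filter] at hw
    by_contra hcon
    have h1 := Nat.find_spec (hex w)
    exact hw.2 _ (not_lt.1 hcon) ((hav w _ (not_lt.1 hcon)).2 h1)
  have hmaps : ∀ w ∈ FA, f w ∈ (range m).filter (fun i => i ≤ M) := by
    intro w hw
    have h1 := hlt w hw
    have h2 := hfind w
    rw [Finset.mem_filter, Finset.mem_range]
    simp only [f]
    omega
  have hcard : fA α m M = FA.card := by
    unfold fA
    rfl
  rw [hcard, Finset.card_eq_sum_card_fiberwise hmaps]
  push_cast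
  refine Finset.sum_congr rfl ?_
  intro i hi
  rw [Finset.mem_filter, Finset.mem_range] at hi
  have hmemf : ∀ w, w ∈ FA.filter (fun w => f w = i) ↔
      (∀ q : ℕ, q < M - i → ¬ At α m (cat α w) q) ∧ At α m (cat α w) ((M - i : ℕ) : ℤ) := by
    intro w
    rw [Finset.mem_filter]
    constructor
    · rintro ⟨_, h2⟩
      have h3 : Nat.find (hex w) = M - i := by
        have := hfind w
        simp only [f] at h2
        omega
      obtain ⟨h4, h5⟩ := (Nat.find_eq_iff (hex w)).1 h3
      exact ⟨h5, h4⟩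
    · rintro ⟨h1, h2⟩
      have h3 : Nat.find (hex w) = M - i := (Nat.find_eq_iff (hex w)).2 ⟨h2, h1⟩
      refine ⟨?_, ?_⟩
      · rw [hFA, Finset.mem_filter]
        refine ⟨Finset.mem_univ _, ?_⟩
        intro q hq hA
        exact h1 q (by omega) ((hav w q hq).1 hA)
      · simp only [f]
        rw [h3]
        omega
  by_cases hper : Per α m i
  · have h1 := F2_fiber α (M := M) (p := M - i) (i := i) (by omega) hi.1 hper _ hmemf
    rw [h1]
    unfold pe
    rw [if_pos hper, one_mul]
  · have h1 : FA.filter (fun w => f w = i) = ∅ := by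
      rw [Finset.eq_empty_iff_forall_notMem]
      intro w hw
      obtain ⟨_, h2⟩ := (hmemf w).1 hw
      apply hper
      refine per_of_At h2 ?_
      have e : (((M - i : ℕ) : ℤ) + (i : ℤ)) = (M : ℤ) := by omega
      rw [e]
      exact hAM w
    rw [h1]
    unfold pe
    rw [if_neg hper]
    simp

end Pool.Agent.KWG
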