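import Pool.Agent.KWG.C1

/-!
# [KWG-F3] recursion for `gA`

Let `x` be a word of length `k + 1` and `x₁` its tail (length `k`).  `cat α x (t + 1) = cat α x₁ t` for
`t ≥ 0`, so the conditions of `gA` for `x` at the positions `p + 1` are the conditions for `x₁` at `p`.
There are `2 * gA k` words `x` of length `k + 1` satisfying the conditions at `1 ≤ p ≤ k`
(`Fin.consEquiv`); those not counted by `gA (k + 1)` have `α` at the position `0` of `cat α x`; let `bad` be
their number: `2 * gA k = gA (k + 1) + bad`.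
* `k + 1 < m`, `α` at `0`: `x i = α i` (`i ≤ k`) and `α (k + 1 + j) = cat α x (k + 1 + j) = α j` for
  `j + (k + 1) < m`: `k + 1` is a period.  So `bad = 0` if `k + 1` is not a period.
* `k + 1 ≤ m`: `x i = α i` for all `i ≤ k`: `bad ≤ 1`.
* `k + 1 ≥ m`: `x` begins with `α`; its suffix `x'' i = x (m + i)` of length `k + 1 - m` is counted by `gA`
  (positions `p + m ≥ 1` of `cat α x`, as `m ≥ 1`), and `x` is determined by `x''`: `bad ≤ gA (k + 1 - m)`.
`gA_zero`: no condition, one word.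
-/

namespace Pool.Agent.KWG

theorem f3_cat {α : ℕ → Bool} {N M c : ℕ} (hN : N = c + M) {x : Fin N → Bool} {y : Fin M → Bool}
    (hy : ∀ (i : Fin M) (h : c + (i : ℕ) < N), x ⟨c + i, h⟩ = y i) {t : ℤ} (ht : 0 ≤ t) :
    cat α x (t + c) = cat α y t := by
  unfold cat
  by_cases h : t < M
  · rw [if_pos (by omega), if_pos h]
    obtain ⟨k, rfl⟩ := Int.eq_ofNat_of_zero_le ht
    have hk : k < M := by omega
    have e1 := ext_in y ⟨k, hk⟩
    have e2 := ext_in x ⟨c + k, by omega⟩
    have e3 := hy ⟨k, hk⟩ (by simp only; omega)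
    have e4 : ((k : ℤ) + c) = ((c + k : ℕ) : ℤ) := by push_cast; ring
    simp only at e1 e2 e3
    rw [e4, e2, e3, e1]
  · rw [if_neg (by omega), if_neg h]
    congr 1
    omega

theorem f3_At {α : ℕ → Bool} {m N M c : ℕ} (hN : N = c + M) {x : Fin N → Bool} {y : Fin M → Bool}
    (hy : ∀ (i : Fin M) (h : c + (i : ℕ) < N), x ⟨c + i, h⟩ = y i) {p : ℤ} (hp : 0 ≤ p) :
    At α m (cat α x) (p + c) ↔ At α m (cat α y) p := by
  unfold At
  refine forall_congr' fun j => imp_congr_right fun _ => ?_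
  have e : p + c + (j : ℤ) = (p + j) + c := by ring
  rw [e, f3_cat hN hy (by omega)]

theorem f3_two (α : ℕ → Bool) (m k : ℕ) [DecidablePred fun w : Fin (k + 1) → Bool =>
    ∀ p : ℕ, 1 ≤ p → p < k + 1 → ¬ At α m (cat α w) p] :
    (Finset.univ.filter (fun w : Fin (k + 1) → Bool =>
      ∀ p : ℕ, 1 ≤ p → p < k + 1 → ¬ At α m (cat α w) p)).card = 2 * gA α m k := by
  classical
  have h1 : ∀ (b : Bool) (w : Fin k → Bool), (∀ p : ℕ, 1 ≤ p → p < k + 1 →
      ¬ At α m (cat α (Fin.cons b w : Fin (k + 1) → Bool)) p) ↔ ∀ p : ℕ, p < k → ¬ At α m (cat α w) p := by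
    intro b w
    have h2 : ∀ p : ℕ, At α m (cat α (Fin.cons b w : Fin (k + 1) → Bool)) ((p : ℤ) + (1 : ℕ)) ↔
        At α m (cat α w) p := by
      intro p
      refine f3_At (by omega) (fun i hi => ?_) (by omega)
      have e : (⟨1 + (i : ℕ), hi⟩ : Fin (k + 1)) = i.succ := Fin.ext (by simp only [Fin.val_succ]; omega)
      rw [e, Fin.cons_succ]
    constructor
    · intro h p hp hA
      refine h (p + 1) (by omega) (by omega) ?_
      have e : (((p + 1 : ℕ)) : ℤ) = (p : ℤ) + (1 : ℕ) := by push_cast; ring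
      rw [e, h2]
      exact hA
    · intro h p hp1 hp2 hA
      refine h (p - 1) (by omega) ?_
      rw [← h2]
      have e : (((p - 1 : ℕ)) : ℤ) + (1 : ℕ) = (p : ℤ) := by omega
      rw [e]
      exact hA
  have h3 : 2 * gA α m k = ((Finset.univ : Finset Bool) ×ˢ (Finset.univ.filter (fun w : Fin k → Bool =>
      ∀ p : ℕ, p < k → ¬ At α m (cat α w) p))).card := by
    rw [Finset.card_product, Finset.card_univ, Fintype.card_bool]
    unfold gA
    rfl
  rw [h3]
  symm
  refine Finset.card_nbij' (fun z => (Fin.cons z.1 z.2 : Fin (k + 1) → Bool))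
    (fun x => (x 0, Fin.tail x)) ?_ ?_ ?_ ?_
  · intro z hz
    rw [Finset.mem_coe, Finset.mem_product, Finset.mem_filter] at hz
    rw [Finset.mem_coe, Finset.mem_filter]
    exact ⟨Finset.mem_univ _, (h1 z.1 z.2).2 hz.2.2⟩
  · intro x hx
    rw [Finset.mem_coe, Finset.mem_filter] at hx
    rw [Finset.mem_coe, Finset.mem_product, Finset.mem_filter]
    refine ⟨Finset.mem_univ _, Finset.mem_univ _, ?_⟩
    have h4 := (h1 (x 0) (Fin.tail x))
    rw [Fin.cons_self_tail] at h4
    exact h4.1 hx.2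
  · intro z _
    exact Prod.ext rfl rfl
  · intro x _
    exact Fin.cons_self_tail x

/-- the words whose only forbidden window is the first one -/
noncomputable def f3_bad (α : ℕ → Bool) (m k : ℕ) : Finset (Fin (k + 1) → Bool) := by
  classical
  exact Finset.univ.filter (fun w : Fin (k + 1) → Bool =>
    (∀ p : ℕ, 1 ≤ p → p < k + 1 → ¬ At α m (cat α w) p) ∧ At α m (cat α w) (0 : ℕ))

theorem f3_mem {α : ℕ → Bool} {m k : ℕ} {w : Fin (k + 1) → Bool} : w ∈ f3_bad α m k ↔
    (∀ p : ℕ, 1 ≤ p → p < k + 1 → ¬ At α m (cat α w) p) ∧ At α m (cat α w) (0 : ℕ) := by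
  classical
  unfold f3_bad
  rw [Finset.mem_filter]
  exact ⟨fun h => h.2, fun h => ⟨Finset.mem_univ _, h⟩⟩

theorem f3_le (α : ℕ → Bool) (m k : ℕ) : 2 * gA α m k ≤ gA α m (k + 1) + (f3_bad α m k).card := by
  classical
  rw [← f3_two]
  unfold gA
  refine (Finset.card_le_card ?_).trans (Finset.card_union_le _ _)
  intro w hw
  rw [Finset.mem_filter] at hw
  rw [Finset.mem_union, Finset.mem_filter, f3_mem]
  by_cases h0 : At α m (cat α w) (0 : ℕ)
  · exact Or.inr ⟨hw.2, h0⟩
  · refine Or.inl ⟨Finset.mem_univ _, fun p hp => ?_⟩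
    rcases Nat.eq_zero_or_pos p with h1 | h1
    · rw [h1]; exact h0
    · exact hw.2 p h1 hp

theorem f3_read {α : ℕ → Bool} {m k : ℕ} {w : Fin (k + 1) → Bool} (h : At α m (cat α w) (0 : ℕ))
    (i : Fin (k + 1)) (hi : (i : ℕ) < m) : w i = α i := by
  have h1 := h i hi
  have h2 : ((0 : ℕ) : ℤ) + ((i : ℕ) : ℤ) = ((i : ℕ) : ℤ) := by push_cast; ring
  rw [h2] at h1
  have hi2 := i.2
  unfold cat at h1
  rw [if_pos (by omega), ext_in] at h1
  exact h1

theorem gA_zero (α : ℕ → Bool) (m : ℕ) : gA α m 0 = 1 := by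
  classical
  unfold gA
  rw [Finset.filter_true_of_mem (fun w _ p hp => absurd hp (Nat.not_lt_zero p)), Finset.card_univ]
  rfl

theorem gA_dbl {α : ℕ → Bool} {m k : ℕ} (h : k + 1 < m) (hp : ¬ Per α m (k + 1)) :
    2 * gA α m k ≤ gA α m (k + 1) := by
  have h1 := f3_le α m k
  have h2 : f3_bad α m k = ∅ := by
    rw [Finset.eq_empty_iff_forall_notMem]
    intro w hw
    apply hp
    intro j hj
    have h3 := (f3_mem.1 hw).2 (j + (k + 1)) hj
    unfold cat at h3
    rw [if_neg (by push_cast; omega)] at h3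
    have h4 : (((0 : ℕ) : ℤ) + ((j + (k + 1) : ℕ) : ℤ) - ((k + 1 : ℕ) : ℤ)).toNat = j := by omega
    rw [h4] at h3
    exact h3
  rw [h2, Finset.card_empty, add_zero] at h1
  exact h1

theorem gA_one {α : ℕ → Bool} {m k : ℕ} (h : k + 1 ≤ m) :
    2 * gA α m k ≤ gA α m (k + 1) + 1 := by
  refine (f3_le α m k).trans (Nat.add_le_add_left ?_ _)
  rw [Finset.card_le_one]
  intro x hx y hy
  funext i
  have hi := i.2
  rw [f3_read (f3_mem.1 hx).2 i (by omega), f3_read (f3_mem.1 hy).2 i (by omega)]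

theorem gA_far {α : ℕ → Bool} {m k : ℕ} (hm : 1 ≤ m) (h : m ≤ k + 1) :
    2 * gA α m k ≤ gA α m (k + 1) + gA α m (k + 1 - m) := by
  classical
  refine (f3_le α m k).trans (Nat.add_le_add_left ?_ _)
  unfold gA
  refine Finset.card_le_card_of_injOn
    (fun x => fun i : Fin (k + 1 - m) => x ⟨m + i, by have := i.2; omega⟩) ?_ ?_
  · intro x hx
    rw [Finset.mem_coe, f3_mem] at hx
    rw [Finset.mem_coe, Finset.mem_filter]
    refine ⟨Finset.mem_univ _, fun p hp hA => ?_⟩
    refine hx.1 (p + m) (by omega) (by omega) ?_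
    have e : ((p + m : ℕ) : ℤ) = (p : ℤ) + (m : ℕ) := by push_cast; ring
    rw [e]
    exact (f3_At (by omega) (fun i hi => rfl) (by omega)).2 hA
  · intro x hx y hy hxy
    rw [Finset.mem_coe, f3_mem] at hx hy
    funext i
    have hi := i.2
    by_cases him : (i : ℕ) < m
    · rw [f3_read hx.2 i him, f3_read hy.2 i him]
    · have h1 := congrFun hxy ⟨(i : ℕ) - m, by omega⟩
      simp only at h1
      have h2 : (⟨m + ((i : ℕ) - m), by omega⟩ : Fin (k + 1)) = i := Fin.ext (by simp only; omega)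
      rw [h2] at h1
      exact h1

end Pool.Agent.KWG
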