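import Pool.Agent.KWG.F1
import Pool.Agent.KWG.F2
import Pool.Agent.KWG.F3

/-!
# [KWG-F4] the difference of `fA` for two words of the same length

Power series over `ℤ` (`PowerSeries ℤ`, `PowerSeries.mk`, `PowerSeries.ext`, `PowerSeries.coeff_mul`,
`PowerSeries.coeff_X_pow_mul'`).  For `γ = α, β` let `Fγ = mk (fun M => fA γ m M)`,
`Gγ = mk (fun k => gA γ m k)`, `Cγ = mk (fun i => if i < m then pe γ m i else 0)`.
(1) `(1 - 2 X) Fγ + X ^ m Gγ = 1`: coefficient of `X ^ 0`: `fA γ m 0 = 1` (`fA_small`, `m ≥ 1`).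
    Coefficient of `X ^ (M + 1)`: `fA (M + 1) - 2 fA M + [m ≤ M + 1] gA (M + 1 - m) = 0` by `fA_rec`, and by
    `fA_small` if `M + 1 < m`.
(2) `Fγ = Cγ * Gγ`: `fA_conv` and `PowerSeries.coeff_mul` (antidiagonal sum; only `i < m`, `i ≤ M`).
(3) Hence `Gγ * ((1 - 2 X) Cγ + X ^ m) = 1`, and
    `Fα - Fβ = X ^ m * (Cα - Cβ) * Gα * Gβ`:
    `Cα Gα = Cα Gα * (Gβ ((1 - 2 X) Cβ + X ^ m))`, `Cβ Gβ = Cβ Gβ * (Gα ((1 - 2 X) Cα + X ^ m))`, subtract
    (`linear_combination`).
(4) Coefficient of `X ^ M`: `coeff (Gα * Gβ) j = hh α β m j`, so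
    `fA α M - fA β M = [m ≤ M] ∑ d + j = M - m, (Cα d - Cβ d) hh j`.
-/

namespace Pool.Agent.KWG

open Finset

open PowerSeries in
theorem f4_one (γ : ℕ → Bool) {m : ℕ} (hm : 1 ≤ m) :
    (PowerSeries.mk (fun M => (fA γ m M : ℤ)) : PowerSeries ℤ) - 2 * (X * PowerSeries.mk (fun M => (fA γ m M : ℤ))) +
      X ^ m * PowerSeries.mk (fun k => (gA γ m k : ℤ)) = 1 := by
  ext k
  cases k with
  | zero =>
    rw [map_add, map_sub, coeff_mk, ← map_ofNat (C (R := ℤ)) 2, coeff_C_mul, coeff_zero_X_mul,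
      coeff_X_pow_mul', if_neg (by omega), coeff_zero_one, fA_small (by omega)]
    norm_num
  | succ M =>
    rw [map_add, map_sub, coeff_mk, ← map_ofNat (C (R := ℤ)) 2, coeff_C_mul, coeff_succ_X_mul,
      coeff_X_pow_mul', coeff_mk, coeff_one, if_neg (Nat.succ_ne_zero M)]
    by_cases h : m ≤ M + 1
    · rw [if_pos h, coeff_mk]
      have h1 := fA_rec (α := γ) hm h
      have h2 : (fA γ m (M + 1) : ℤ) + (gA γ m (M + 1 - m) : ℤ) = 2 * (fA γ m M : ℤ) := by
        exact_mod_cast h1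
      linarith
    · rw [if_neg h, fA_small (by omega), fA_small (by omega)]
      push_cast
      ring

/-- indicator sums -/
theorem f4_sum (c : ℕ → ℤ) (f : ℕ → ℤ) (m N : ℕ) :
    ∑ k ∈ range (N + 1), (if k < m then c k else 0) * f (N - k) =
      ∑ i ∈ (range m).filter (fun i => i ≤ N), c i * f (N - i) := by
  have h1 : (range m).filter (fun i => i ≤ N) = (range (N + 1)).filter (fun i => i < m) := by
    ext i
    rw [Finset.mem_filter, Finset.mem_filter, Finset.mem_range, Finset.mem_range]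
    omega
  rw [h1, Finset.sum_filter]
  refine Finset.sum_congr rfl fun k _ => ?_
  by_cases h : k < m
  · rw [if_pos h, if_pos h]
  · rw [if_neg h, if_neg h, zero_mul]

open PowerSeries in
theorem f4_two (γ : ℕ → Bool) {m : ℕ} (hm : 1 ≤ m) :
    (PowerSeries.mk (fun M => (fA γ m M : ℤ)) : PowerSeries ℤ) =
      PowerSeries.mk (fun i => if i < m then pe γ m i else 0) * PowerSeries.mk (fun k => (gA γ m k : ℤ)) := by
  ext M
  rw [coeff_mk, coeff_mul, fA_conv γ hm M]
  simp only [coeff_mk]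
  rw [Finset.Nat.sum_antidiagonal_eq_sum_range_succ
    (fun a b => (if a < m then pe γ m a else 0) * (gA γ m b : ℤ)) M]
  exact (f4_sum (pe γ m) (fun j => (gA γ m j : ℤ)) m M).symm

open PowerSeries in
theorem f4_hh (α β : ℕ → Bool) (m j : ℕ) :
    coeff j ((PowerSeries.mk (fun k => (gA α m k : ℤ)) : PowerSeries ℤ) * PowerSeries.mk (fun k => (gA β m k : ℤ))) =
      (hh α β m j : ℤ) := by
  rw [coeff_mul]
  unfold hh
  rw [Nat.cast_sum]
  refine Finset.sum_congr rfl fun x _ => ?_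
  rw [coeff_mk, coeff_mk, Nat.cast_mul]

theorem fA_diff (α β : ℕ → Bool) {m : ℕ} (hm : 1 ≤ m) (M : ℕ) :
    (fA α m M : ℤ) - fA β m M =
      ∑ d ∈ (range m).filter (fun d => d + m ≤ M),
        (pe α m d - pe β m d) * (hh α β m (M - m - d) : ℤ) := by
  have a1 := f4_one α hm
  have a2 := f4_two α hm
  have b1 := f4_one β hm
  have b2 := f4_two β hm
  have hhj := f4_hh α β m
  have hFa : PowerSeries.coeff M (PowerSeries.mk (fun M => (fA α m M : ℤ))) = (fA α m M : ℤ) :=
    PowerSeries.coeff_mk _ _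
  have hFb : PowerSeries.coeff M (PowerSeries.mk (fun M => (fA β m M : ℤ))) = (fA β m M : ℤ) :=
    PowerSeries.coeff_mk _ _
  have hC : ∀ i, PowerSeries.coeff i ((PowerSeries.mk (fun i => if i < m then pe α m i else 0) :
      PowerSeries ℤ) - PowerSeries.mk (fun i => if i < m then pe β m i else 0)) =
      if i < m then pe α m i - pe β m i else 0 := by
    intro i
    rw [map_sub, PowerSeries.coeff_mk, PowerSeries.coeff_mk]
    by_cases h : i < m
    · rw [if_pos h, if_pos h, if_pos h]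
    · rw [if_neg h, if_neg h, if_neg h, sub_zero]
  rw [← hFa, ← hFb, ← map_sub]
  generalize (PowerSeries.mk (fun M => (fA α m M : ℤ)) : PowerSeries ℤ) = Fa at a1 a2 ⊢
  generalize (PowerSeries.mk (fun M => (fA β m M : ℤ)) : PowerSeries ℤ) = Fb at b1 b2 ⊢
  generalize (PowerSeries.mk (fun k => (gA α m k : ℤ)) : PowerSeries ℤ) = Ga at a1 a2 hhj ⊢
  generalize (PowerSeries.mk (fun k => (gA β m k : ℤ)) : PowerSeries ℤ) = Gb at b1 b2 hhj ⊢
  generalize (PowerSeries.mk (fun i => if i < m then pe α m i else 0) : PowerSeries ℤ) = Ca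
    at a2 hC ⊢
  generalize (PowerSeries.mk (fun i => if i < m then pe β m i else 0) : PowerSeries ℤ) = Cb
    at b2 hC ⊢
  have key : Fa - Fb = PowerSeries.X ^ m * ((Ca - Cb) * (Ga * Gb)) := by
    have a3 : Ga * ((1 - 2 * PowerSeries.X) * Ca + PowerSeries.X ^ m) = 1 := by
      rw [a2] at a1
      linear_combination a1
    have b3 : Gb * ((1 - 2 * PowerSeries.X) * Cb + PowerSeries.X ^ m) = 1 := by
      rw [b2] at b1
      linear_combination b1
    rw [a2, b2]
    linear_combination (-(Ca * Ga)) * b3 + (Cb * Gb) * a3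
  rw [key, PowerSeries.coeff_X_pow_mul']
  by_cases hM : m ≤ M
  · rw [if_pos hM, PowerSeries.coeff_mul]
    have h1 : ∀ x : ℕ × ℕ, PowerSeries.coeff x.1 (Ca - Cb) * PowerSeries.coeff x.2 (Ga * Gb) =
        (if x.1 < m then pe α m x.1 - pe β m x.1 else 0) * (hh α β m x.2 : ℤ) := by
      intro x
      rw [hC, hhj]
    rw [Finset.sum_congr rfl fun x _ => h1 x,
      Finset.Nat.sum_antidiagonal_eq_sum_range_succ
        (fun a b => (if a < m then pe α m a - pe β m a else 0) * (hh α β m b : ℤ)) (M - m)]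
    rw [show (M - m).succ = M - m + 1 from rfl,
      f4_sum (fun d => pe α m d - pe β m d) (fun j => (hh α β m j : ℤ)) m (M - m)]
    refine Finset.sum_congr ?_ fun d _ => rfl
    ext i
    rw [Finset.mem_filter, Finset.mem_filter]
    constructor <;> rintro ⟨h1, h2⟩ <;> exact ⟨h1, by omega⟩
  · rw [if_neg hM]
    symm
    refine Finset.sum_eq_zero fun d hd => ?_
    rw [Finset.mem_filter] at hd
    omega

end Pool.Agent.KWG
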