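import Mathlib

/-!
# [KWG-F5a] sequences (pure arithmetic)

`seqG`.  `u` is monotone and `≥ 1`: strong induction; `k + 1 ≤ m`: `u (k + 1) ≥ 2 u k - 1 ≥ u k`;
`m ≤ k + 1`: `u (k + 1 - m) ≤ u k` (`m ≥ 1`), `u (k + 1) ≥ u k`.
Claim `2 u k ≤ u (k + 1) + [K ≤ k] u (k - K)` (`K + 1 ≤ e ≤ m`): `k + 1 < e`: `h1`.  `e ≤ k + 1 ≤ m`: `K ≤ k`,
`u (k - K) ≥ 1`, `h2`.  `k + 1 > m`: `k + 1 - m ≤ k - K`, monotone, `h3`.
-/

namespace Pool.Agent.KWG

open Finset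

theorem seqG_aux {u : ℕ → ℕ} {m : ℕ} (h0 : u 0 = 1) (hm : 1 ≤ m)
    (h2 : ∀ k, k + 1 ≤ m → 2 * u k ≤ u (k + 1) + 1)
    (h3 : ∀ k, m ≤ k + 1 → 2 * u k ≤ u (k + 1) + u (k + 1 - m)) (n : ℕ) :
    1 ≤ u n ∧ ∀ k, k ≤ n → u k ≤ u n := by
  induction n with
  | zero =>
    refine ⟨by omega, fun k hk => ?_⟩
    have : k = 0 := by omega
    subst this; exact le_rfl
  | succ n ih =>
    obtain ⟨h1, hmono⟩ := ih
    have key : u n ≤ u (n + 1) := by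
      rcases Nat.lt_or_ge m (n + 1) with h | h
      · have := h3 n h.le
        have := hmono (n + 1 - m) (by omega)
        omega
      · have := h2 n h
        omega
    refine ⟨by omega, fun k hk => ?_⟩
    rcases Nat.lt_or_ge n k with h | h
    · have : k = n + 1 := by omega
      subst this; exact le_rfl
    · exact (hmono k h).trans key

theorem seqG_mono {u : ℕ → ℕ} {m : ℕ} (h0 : u 0 = 1) (hm : 1 ≤ m)
    (h2 : ∀ k, k + 1 ≤ m → 2 * u k ≤ u (k + 1) + 1)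
    (h3 : ∀ k, m ≤ k + 1 → 2 * u k ≤ u (k + 1) + u (k + 1 - m)) : Monotone u := by
  intro a b hab
  exact (seqG_aux h0 hm h2 h3 b).2 a hab

theorem seqG {u : ℕ → ℕ} {m e K : ℕ} (h0 : u 0 = 1) (hem : e ≤ m) (hK : K + 1 ≤ e)
    (h1 : ∀ k, k + 1 < e → 2 * u k ≤ u (k + 1)) (h2 : ∀ k, k + 1 ≤ m → 2 * u k ≤ u (k + 1) + 1)
    (h3 : ∀ k, m ≤ k + 1 → 2 * u k ≤ u (k + 1) + u (k + 1 - m)) (k : ℕ) :
    2 * u k ≤ u (k + 1) + (if K ≤ k then u (k - K) else 0) := by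
  have hm : 1 ≤ m := by omega
  rcases Nat.lt_or_ge (k + 1) e with h | h
  · have := h1 k h
    omega
  · have hk : K ≤ k := by omega
    rw [if_pos hk]
    rcases Nat.lt_or_ge m (k + 1) with h' | h'
    · have e1 := h3 k h'.le
      have e2 := (seqG_aux h0 hm h2 h3 (k - K)).2 (k + 1 - m) (by omega)
      omega
    · have e1 := h2 k h'
      have e2 := (seqG_aux h0 hm h2 h3 (k - K)).1
      omega

end Pool.Agent.KWG
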