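import Pool.Agent.KWG.F5a

/-!
# [KWG-F5b] sequences, second type (pure arithmetic)

`seqB` (`m ≥ 6`, `u 0 = 1`, `2 u 0 ≤ u 1`, `2 u 1 ≤ u 2`).
Growth: `3 u k ≤ 2 u (k + 1)` for all `k`, by strong induction: `k = 0`: `u 1 ≥ 2`.  `k ≥ 1`, `k + 1 ≤ m`:
`2 u (k + 1) ≥ 4 u k - 2 ≥ 3 u k` because `u k ≥ 2`.  `k + 1 > m`: `2 u (k + 1) ≥ 4 u k - 2 u (k + 1 - m)` and
`u k ≥ 2 u (k + 1 - m)` by the growth over `m - 1 ≥ 5` steps (`9 u (k - 2) ≤ 4 u k`, and
`u (k + 1 - m) ≤ u (k - 2)` by monotonicity, suffices).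
Claim: `k = 0`: `2 u 0 ≤ u 1`.  `k = 1`: `2 u 1 ≤ u 2 ≤ u 2 + u 0`.  `k ≥ 2`: to show
`2 u k + u (k - 2) ≤ u (k + 1) + u (k - 1)`.  `k + 1 ≤ m`: `2 u k ≤ u (k + 1) + 1` and
`u (k - 1) ≥ u (k - 2) + 1` (growth and `u (k - 2) ≥ 1`).  `k + 1 > m`: `2 u k ≤ u (k + 1) + u (k + 1 - m)`,
`u (k + 1 - m) ≤ u (k - 5)` (monotone, `m ≥ 6`; `k ≥ 5` since `k + 1 > m ≥ 6`), and
`u (k - 1) - u (k - 2) ≥ u (k - 2) / 2 ≥ (27 / 16) u (k - 5)`.
-/

namespace Pool.Agent.KWG

open Finset

theorem seqB {u : ℕ → ℕ} {m : ℕ} (h0 : u 0 = 1) (hm : 6 ≤ m) (h01 : 2 * u 0 ≤ u 1)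
    (h12 : 2 * u 1 ≤ u 2) (h2 : ∀ k, k + 1 ≤ m → 2 * u k ≤ u (k + 1) + 1)
    (h3 : ∀ k, m ≤ k + 1 → 2 * u k ≤ u (k + 1) + u (k + 1 - m)) (k : ℕ) :
    2 * u k + (if 2 ≤ k then u (k - 2) else 0) ≤ u (k + 1) + (if 1 ≤ k then u (k - 1) else 0) := by
  have G : ∀ k, 3 * u k ≤ 2 * u (k + 1) := by
    intro k
    induction k using Nat.strong_induction_on with
    | _ k ih =>
      have mono : ∀ i j, i ≤ j → j ≤ k → u i ≤ u j := by
        intro i j hij
        induction j, hij using Nat.le_induction with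
        | base =>
          intro _
          exact le_rfl
        | succ j hj ihj =>
          intro hk
          have h4 := ih j (by omega)
          have h5 := ihj (by omega)
          omega
      rcases Nat.eq_zero_or_pos k with rfl | hk
      · simp only [Nat.zero_add]
        omega
      · have h4 : u 1 ≤ u k := mono 1 k hk le_rfl
        rcases le_or_gt (k + 1) m with hkm | hkm
        · have h5 := h2 k hkm
          omega
        · have h5 := h3 k hkm.le
          have h6 := ih (k - 2) (by omega)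
          have h7 := ih (k - 1) (by omega)
          have e1 : k - 2 + 1 = k - 1 := by omega
          have e2 : k - 1 + 1 = k := by omega
          rw [e1] at h6
          rw [e2] at h7
          have h8 : u (k + 1 - m) ≤ u (k - 2) := mono _ _ (by omega) (by omega)
          omega
  have mono : ∀ i j, i ≤ j → u i ≤ u j := by
    intro i j hij
    induction j, hij using Nat.le_induction with
    | base => exact le_rfl
    | succ j hj ihj =>
      have h4 := G j
      omega
  rcases k with _ | _ | j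
  · simp
    omega
  · have h4 := h12
    simp
    omega
  · have e1 : j + 1 + 1 - 2 = j := by omega
    have e2 : j + 1 + 1 - 1 = j + 1 := by omega
    rw [if_pos (by omega), if_pos (by omega), e1, e2]
    have hj0 : u 0 ≤ u j := mono 0 j (Nat.zero_le _)
    have hG := G j
    rcases le_or_gt (j + 3) m with hkm | hkm
    · have h5 := h2 (j + 1 + 1) (by omega)
      omega
    · have h5 := h3 (j + 1 + 1) (by omega)
      have h6 := G (j - 3)
      have h7 := G (j - 2)
      have h8 := G (j - 1)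
      have e3 : j - 3 + 1 = j - 2 := by omega
      have e4 : j - 2 + 1 = j - 1 := by omega
      have e5 : j - 1 + 1 = j := by omega
      rw [e3] at h6
      rw [e4] at h7
      rw [e5] at h8
      have h9 : u (j + 1 + 1 + 1 - m) ≤ u (j - 3) := mono _ _ (by omega)
      omega

end Pool.Agent.KWG
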