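import Mathlib

/-!
# [KWG-F5c] convolutions (pure arithmetic)

`convA`, `convB`: the hypothesis for `v` passes to the convolution
`h j = ∑ x ∈ antidiagonal j, u x.1 * v x.2` (`u ≥ 0` arbitrary).  Write
`h j = ∑ i ∈ range (j + 1), u i * v (j - i)` (`Finset.Nat.sum_antidiagonal_eq_sum_range_succ`).  Then
`h (j + 1) = (∑ i ∈ range (j + 1), u i * v (j + 1 - i)) + u (j + 1) * v 0`, and for `i ≤ j` apply the
hypothesis for `v` at `j - i`: `2 v (j - i) ≤ v (j + 1 - i) + [K ≤ j - i] v (j - i - K)`.  The sum over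
`i ≤ j` of `[K ≤ j - i] u i * v (j - i - K)` is `[K ≤ j] h (j - K)`.  `convB` in the same way: the terms
`[2 ≤ j - i] v (j - i - 2)` sum to `[2 ≤ j] h (j - 2)`, the terms `[1 ≤ j - i] v (j - i - 1)` to
`[1 ≤ j] h (j - 1)`.
`conv_mono`: if `v` is monotone then so is `h`.
-/

namespace Pool.Agent.KWG

open Finset

theorem conv_range (u v : ℕ → ℕ) (j : ℕ) :
    (∑ x ∈ HasAntidiagonal.antidiagonal j, u x.1 * v x.2) =
      ∑ i ∈ range (j + 1), u i * v (j - i) := by
  rw [Finset.Nat.sum_antidiagonal_eq_sum_range_succ (fun a b => u a * v b) j]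

/-- the terms with `K ≤ j - i` -/
theorem conv_shift (u v : ℕ → ℕ) (j K : ℕ) :
    (∑ i ∈ range (j + 1), u i * (if K ≤ j - i then v (j - i - K) else 0)) =
      (if K ≤ j then ∑ x ∈ HasAntidiagonal.antidiagonal (j - K), u x.1 * v x.2 else 0) := by
  by_cases hK : K ≤ j
  · rw [if_pos hK, conv_range]
    have hsub : range (j - K + 1) ⊆ range (j + 1) := by
      intro i hi; rw [mem_range] at *; omega
    rw [← Finset.sum_subset hsub]
    · apply Finset.sum_congr rfl
      intro i hi
      rw [mem_range] at hi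
      rw [if_pos (by omega)]
      congr 2
      omega
    · intro i hi hi'
      rw [mem_range] at hi hi'
      by_cases hc : K ≤ j - i
      · exfalso; omega
      · rw [if_neg hc, Nat.mul_zero]
  · rw [if_neg hK]
    apply Finset.sum_eq_zero
    intro i _
    rw [if_neg (by omega), Nat.mul_zero]

theorem conv_succ (u v : ℕ → ℕ) (j : ℕ) :
    (∑ i ∈ range (j + 1), u i * v (j - i + 1)) ≤
      (∑ x ∈ HasAntidiagonal.antidiagonal (j + 1), u x.1 * v x.2) := by
  rw [conv_range, Finset.sum_range_succ (n := j + 1)]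
  refine le_trans (le_of_eq ?_) (Nat.le_add_right _ _)
  apply Finset.sum_congr rfl
  intro i hi
  rw [mem_range] at hi
  congr 2
  omega

theorem convA {u v : ℕ → ℕ} {K : ℕ}
    (h : ∀ j, 2 * v j ≤ v (j + 1) + (if K ≤ j then v (j - K) else 0)) (j : ℕ) :
    2 * (∑ x ∈ HasAntidiagonal.antidiagonal j, u x.1 * v x.2) ≤
      (∑ x ∈ HasAntidiagonal.antidiagonal (j + 1), u x.1 * v x.2) +
      (if K ≤ j then ∑ x ∈ HasAntidiagonal.antidiagonal (j - K), u x.1 * v x.2 else 0) := by
  rw [← conv_shift u v j K]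
  refine le_trans ?_ (Nat.add_le_add_right (conv_succ u v j) _)
  rw [conv_range, Finset.mul_sum, ← Finset.sum_add_distrib]
  apply Finset.sum_le_sum
  intro i _
  have := h (j - i)
  nlinarith [Nat.mul_le_mul_left (u i) this]

theorem convB {u v : ℕ → ℕ}
    (h : ∀ j, 2 * v j + (if 2 ≤ j then v (j - 2) else 0) ≤
      v (j + 1) + (if 1 ≤ j then v (j - 1) else 0)) (j : ℕ) :
    2 * (∑ x ∈ HasAntidiagonal.antidiagonal j, u x.1 * v x.2) +
      (if 2 ≤ j then ∑ x ∈ HasAntidiagonal.antidiagonal (j - 2), u x.1 * v x.2 else 0) ≤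
      (∑ x ∈ HasAntidiagonal.antidiagonal (j + 1), u x.1 * v x.2) +
      (if 1 ≤ j then ∑ x ∈ HasAntidiagonal.antidiagonal (j - 1), u x.1 * v x.2 else 0) := by
  rw [← conv_shift u v j 2, ← conv_shift u v j 1]
  refine le_trans ?_ (Nat.add_le_add_right (conv_succ u v j) _)
  rw [conv_range, Finset.mul_sum, ← Finset.sum_add_distrib, ← Finset.sum_add_distrib]
  apply Finset.sum_le_sum
  intro i _
  have := h (j - i)
  nlinarith [Nat.mul_le_mul_left (u i) this]

theorem conv_mono {u v : ℕ → ℕ} (hv : Monotone v) :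
    Monotone (fun j => ∑ x ∈ HasAntidiagonal.antidiagonal j, u x.1 * v x.2) := by
  apply monotone_nat_of_le_succ
  intro j
  refine le_trans ?_ (conv_succ u v j)
  rw [conv_range]
  apply Finset.sum_le_sum
  intro i _
  exact Nat.mul_le_mul_left _ (hv (by omega))

end Pool.Agent.KWG
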