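import Pool.Agent.KWG.W1

/-!
# [KWG-F7] periods of two words with first difference `d₀` (pure, Fine and Wilf)

`d₀` is a period of `α` and not of `β`, smaller periods agree; `e` is the least period `≥ 1` of `β`,
`d₀ + e < m`.

`nt_lt`: `d₀ < e`.  Proof: `e ≠ d₀`.  Suppose `e < d₀`.  Then `e` is a period of `α`, and `d₀` too; `d₀ + e ≤ m`,
so `c = gcd d₀ e` is a period of `α` (`per_gcd`), `1 ≤ c ≤ e < d₀`, so `c` is a period of `β`, so `c ≥ e`,
`c = e`, `e ∣ d₀`, and `d₀` is a period of `β` (`per_mul`): contradiction.  (Note `d₀ ≥ 1` since `0` is always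
a period.)

`nt_gap`: every period `d` of `β` with `e < d` satisfies `d ≥ d₀ + 3`.  Proof: `e ≥ 2` because `e > d₀ ≥ 1`.
If `e ∣ d` then `d ≥ 2 e ≥ d₀ + 1 + e ≥ d₀ + 3`.  Otherwise `d + e ≥ m + 2`: if `d + e ≤ m + 1` then
`d + e ≤ m + gcd d e`, so `gcd d e` is a period of `β` (`per_gcd`), `≥ 1`, hence `≥ e`, so `gcd d e = e`
(`Nat.gcd_dvd_right`, `Nat.le_of_dvd`) and `e ∣ d`.  So `d ≥ m + 2 - e ≥ (d₀ + e + 1) + 2 - e = d₀ + 3`.

`nt_one`: if `d₀ = 1` then every `d` is a period of `α` (`per_mul`).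
-/

namespace Pool.Agent.KWG

theorem per_zero' (α : ℕ → Bool) (m : ℕ) : Per α m 0 := fun _ _ => rfl

theorem nt_pos' {β : ℕ → Bool} {m d₀ : ℕ} (h2 : ¬ Per β m d₀) : 1 ≤ d₀ := by
  rcases Nat.eq_zero_or_pos d₀ with h | h
  · subst h; exact absurd (per_zero' β m) h2
  · exact h

theorem nt_lt {α β : ℕ → Bool} {m d₀ e : ℕ} (h1 : Per α m d₀) (h2 : ¬ Per β m d₀)
    (h3 : ∀ d, d < d₀ → (Per α m d ↔ Per β m d)) (he : 1 ≤ e) (he' : Per β m e)
    (hmin : ∀ d, 1 ≤ d → d < e → ¬ Per β m d) (hlt : d₀ + e < m) : d₀ < e := by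
  by_contra hcon
  have hne : e ≠ d₀ := by
    intro h; rw [h] at he'; exact h2 he'
  have hlt2 : e < d₀ := by omega
  have hea : Per α m e := (h3 e hlt2).2 he'
  have hg : Per α m (Nat.gcd d₀ e) := per_gcd h1 hea (by omega)
  have hgpos : 0 < Nat.gcd d₀ e := Nat.gcd_pos_of_pos_right _ (by omega)
  have hgle : Nat.gcd d₀ e ≤ e := Nat.le_of_dvd (by omega) (Nat.gcd_dvd_right _ _)
  have hgb : Per β m (Nat.gcd d₀ e) := (h3 _ (by omega)).1 hg
  have hge : Nat.gcd d₀ e = e := by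
    by_contra hne2
    exact hmin _ hgpos (by omega) hgb
  have hdvd : e ∣ d₀ := by rw [← hge]; exact Nat.gcd_dvd_left _ _
  obtain ⟨k, hk⟩ := hdvd
  apply h2
  rw [hk, Nat.mul_comm]
  exact per_mul he' k

theorem nt_gap {α β : ℕ → Bool} {m d₀ e : ℕ} (h1 : Per α m d₀) (h2 : ¬ Per β m d₀)
    (h3 : ∀ d, d < d₀ → (Per α m d ↔ Per β m d)) (he : 1 ≤ e) (he' : Per β m e)
    (hmin : ∀ d, 1 ≤ d → d < e → ¬ Per β m d) (hlt : d₀ + e < m) {d : ℕ} (hd : e < d)
    (hd' : Per β m d) : d₀ + 3 ≤ d := by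
  have h0 : 1 ≤ d₀ := nt_pos' h2
  have hde : d₀ < e := nt_lt h1 h2 h3 he he' hmin hlt
  by_cases hdvd : e ∣ d
  · obtain ⟨k, hk⟩ := hdvd
    have hk2 : 2 ≤ k := by
      by_contra hc
      have : k = 0 ∨ k = 1 := by omega
      rcases this with h | h
      · subst h; omega
      · subst h; omega
    have : e * 2 ≤ e * k := Nat.mul_le_mul_left _ hk2
    omega
  · by_contra hcon
    have hgpos : 0 < Nat.gcd d e := Nat.gcd_pos_of_pos_right _ (by omega)
    have hg : Per β m (Nat.gcd d e) := per_gcd hd' he' (by omega)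
    have hgle : Nat.gcd d e ≤ e := Nat.le_of_dvd (by omega) (Nat.gcd_dvd_right _ _)
    have hge : Nat.gcd d e = e := by
      by_contra hne2
      exact hmin _ hgpos (by omega) hg
    apply hdvd
    rw [← hge]
    exact Nat.gcd_dvd_left _ _

theorem nt_one {α : ℕ → Bool} {m : ℕ} (h1 : Per α m 1) (d : ℕ) : Per α m d := by
  have := per_mul h1 d
  rwa [Nat.mul_one] at this

end Pool.Agent.KWG
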