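import Mathlib

/-!
# [KWG-V3b] telescoping (pure arithmetic)

`telA`.  `B j = u j - ∑_{i < K} [i + 1 ≤ j] u (j - 1 - i)` (integers).  `B 0 = u 0 ≥ 1` and
`B (j + 1) - B j = u (j + 1) - 2 u j + [K ≤ j] u (j - K) ≥ 0` (the sum for `j + 1` is
`u j + (the sum for j) - [K ≤ j] u (j - K)` if `K ≥ 1`; `K = 0`: `B (j+1) - B j = u (j+1) - u j` and the
hypothesis says `2 u j ≤ u (j + 1) + u j`).  A uniform way: the sum is `∑_{i ∈ range K, i < j} u (j - 1 - i)` =
`∑ s ∈ Ico (j - K) j, u s` (truncated subtraction); for `j + 1`: `∑ s ∈ Ico (j + 1 - K) (j + 1), u s`.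

`telB`.  `B j = u j - [1 ≤ j] u (j - 1) - ∑_{i = 3}^{j} u (j - i)`, the last sum is
`∑ s ∈ range (j - 2), u s`.  `B 0 = u 0`, and
`B (j + 1) - B j = u (j + 1) - 2 u j + [1 ≤ j] u (j - 1) - [2 ≤ j] u (j - 2) ≥ 0`.
-/

namespace Pool.Agent.KWG

open Finset

theorem telA {u : ℕ → ℕ} {K : ℕ} (h0 : 1 ≤ u 0)
    (h : ∀ j, 2 * u j ≤ u (j + 1) + (if K ≤ j then u (j - K) else 0)) (j : ℕ) :
    ∑ i ∈ range K, (if i + 1 ≤ j then u (j - 1 - i) else 0) < u j := by
  induction j with
  | zero =>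
    have h1 : ∑ i ∈ range K, (if i + 1 ≤ 0 then u (0 - 1 - i) else 0) = 0 :=
      Finset.sum_eq_zero fun i _ => if_neg (by omega)
    rw [h1]
    exact h0
  | succ j ih =>
    have h1 := Finset.sum_range_succ (fun i => if i ≤ j then u (j - i) else 0) K
    have h2 := Finset.sum_range_succ' (fun i => if i ≤ j then u (j - i) else 0) K
    have h3 : ∑ i ∈ range K, (if i + 1 ≤ j then u (j - (i + 1)) else 0) =
        ∑ i ∈ range K, (if i + 1 ≤ j then u (j - 1 - i) else 0) := by
      refine Finset.sum_congr rfl fun i _ => ?_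
      have e : j - (i + 1) = j - 1 - i := by omega
      rw [e]
    have h4 : ∑ i ∈ range K, (if i + 1 ≤ j + 1 then u (j + 1 - 1 - i) else 0) =
        ∑ i ∈ range K, (if i ≤ j then u (j - i) else 0) := by
      refine Finset.sum_congr rfl fun i _ => ?_
      have e : j + 1 - 1 - i = j - i := by omega
      rw [e]
      by_cases hi : i ≤ j
      · rw [if_pos hi, if_pos (by omega)]
      · rw [if_neg hi, if_neg (by omega)]
    rw [h4]
    rw [h3, if_pos (Nat.zero_le j), Nat.sub_zero] at h2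
    have h5 := h j
    omega

theorem telB {u : ℕ → ℕ} (h0 : 1 ≤ u 0)
    (h : ∀ j, 2 * u j + (if 2 ≤ j then u (j - 2) else 0) ≤
      u (j + 1) + (if 1 ≤ j then u (j - 1) else 0)) (j : ℕ) :
    (if 1 ≤ j then u (j - 1) else 0) + ∑ i ∈ Ico 3 (j + 1), u (j - i) < u j := by
  induction j with
  | zero =>
    have h1 : ∑ i ∈ Ico 3 (0 + 1), u (0 - i) = 0 := by
      rw [Finset.Ico_eq_empty (by omega)]
      rfl
    rw [h1, if_neg (by omega)]
    exact h0
  | succ j ih =>
    have h1 : ∑ i ∈ Ico 3 (j + 1 + 1), u (j + 1 - i) =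
        (if 2 ≤ j then u (j - 2) else 0) + ∑ i ∈ Ico 3 (j + 1), u (j - i) := by
      rw [Finset.sum_Ico_eq_sum_range, Finset.sum_Ico_eq_sum_range]
      by_cases hj : 2 ≤ j
      · have e : j + 1 + 1 - 3 = (j + 1 - 3) + 1 := by omega
        have e2 : ∑ i ∈ range (j + 1 - 3), u (j + 1 - (3 + (i + 1))) =
            ∑ i ∈ range (j + 1 - 3), u (j - (3 + i)) := by
          refine Finset.sum_congr rfl fun i _ => ?_
          congr 1
          omega
        have e3 : j + 1 - (3 + 0) = j - 2 := by omega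
        rw [e, Finset.sum_range_succ', if_pos hj, add_comm, e2, e3]
      · have e : j + 1 + 1 - 3 = 0 := by omega
        have e' : j + 1 - 3 = 0 := by omega
        rw [e, e', if_neg hj]
        rfl
    rw [h1, if_pos (by omega)]
    have h5 := h j
    have e : j + 1 - 1 = j := by omega
    rw [e]
    omega

end Pool.Agent.KWG
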