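import Pool.Agent.KWG.F4
import Pool.Agent.KWG.F5b
import Pool.Agent.KWG.F5c
import Pool.Agent.KWG.F7
import Pool.Agent.KWG.V3b

/-!
# [KWG-F8] the first difference of the periods decides

`hh_pos_A`: let `e ≤ m` and no `1 ≤ d < e` be a period of `β`, `K + 1 ≤ e`.  Then
`∑ i ∈ range K, [i + 1 ≤ j] hh α β m (j - 1 - i) < hh α β m j` for all `j`.
Proof: `seqG` for `u = gA β m` (`gA_zero`, `gA_dbl`, `gA_one`, `gA_far`), `convA` (with `u = gA α m`,
`v = gA β m`), `telA` (`hh α β m 0 = 1`).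

`hh_pos_B`: `m ≥ 6` and `1`, `2` are not periods of `β`:
`[1 ≤ j] hh (j - 1) + ∑ i ∈ Ico 3 (j + 1), hh (j - i) < hh j`.  Proof: `seqB`, `convB`, `telB`.

`hh_mono`: `seqG_mono`, `conv_mono`.

`fd_strict`: `d₀ + m ≤ M`, `d₀` a period of `α`, not of `β`, agreement below `d₀`: `fA β m M < fA α m M`.
Proof.  `d₀ < m` (for `d ≥ m` everything is a period), `d₀ ≥ 1`, so `m ≥ 2`.  Put `j₀ = M - m - d₀`.  By `fA_diff`
`fA α M - fA β M = ∑ d (pe α d - pe β d) hh (M - m - d)` over `d < m`, `d + m ≤ M`; the terms `d < d₀` vanish,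
the term `d₀` is `hh j₀`, and for `d > d₀` the term is `≥ - pe β d (1 - pe α d) hh (j₀ - (d - d₀))`.
Let `e` be the least period `≥ 1` of `β` (`e ≤ m`, as `m` is a period: `Nat.find`).
Case A: `m ≤ d₀ + e`.  `K = m - 1 - d₀`, `K + 1 = m - d₀ ≤ e`.  The sum of the terms `d₀ < d < m` is
`≥ - ∑ i ∈ range K, [i + 1 ≤ j₀] hh (j₀ - 1 - i) > - hh j₀` (`d = d₀ + 1 + i`), by `hh_pos_A`.
Case B: `d₀ + e < m`.  By `nt_lt` `d₀ < e`.  If `d₀ = 1` then all `d` are periods of `α` (`nt_one`) and no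
term is negative: the total is `≥ hh j₀ ≥ 1` (`hh_mono`, `hh 0 = 1`).  Otherwise `d₀ ≥ 2`, `e ≥ 3`,
`m ≥ d₀ + e + 1 ≥ 6`, and `1`, `2` are not periods of `β`.  A period `d > d₀` of `β` is either `e`
(`i = d - d₀ ≥ 1`) or `> e`, and then `i = d - d₀ ≥ 3` (`nt_gap`); there is none in `(d₀, e)`.  The negative
terms have different `i`, `1 ≤ i ≤ j₀`, at most one of them is `< 3`: so their sum is at most
`[1 ≤ j₀] hh (j₀ - 1) + ∑ i ∈ Ico 3 (j₀ + 1), hh (j₀ - i) < hh j₀` (`hh_mono` for the term `d = e`),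
by `hh_pos_B`.
-/

namespace Pool.Agent.KWG

open Finset

theorem hh_zero (α β : ℕ → Bool) (m : ℕ) : hh α β m 0 = 1 := by
  unfold hh
  rw [Finset.Nat.antidiagonal_zero, Finset.sum_singleton, gA_zero, gA_zero]

theorem hh_mono (α β : ℕ → Bool) {m : ℕ} (hm : 1 ≤ m) : Monotone (hh α β m) := by
  have h1 : Monotone (gA β m) := seqG_mono (m := m) (gA_zero β m) hm
    (fun k hk => gA_one hk) (fun k hk => gA_far hm hk)
  exact conv_mono (u := gA α m) h1

theorem hh_pos_A {α β : ℕ → Bool} {m e K : ℕ} (hem : e ≤ m)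
    (hmin : ∀ d, 1 ≤ d → d < e → ¬ Per β m d) (hK : K + 1 ≤ e) (j : ℕ) :
    ∑ i ∈ range K, (if i + 1 ≤ j then hh α β m (j - 1 - i) else 0) < hh α β m j := by
  have h1 : ∀ k, 2 * gA β m k ≤ gA β m (k + 1) + (if K ≤ k then gA β m (k - K) else 0) :=
    seqG (m := m) (e := e) (gA_zero β m) hem hK
      (fun k hk => gA_dbl (by omega) (hmin (k + 1) (by omega) hk))
      (fun k hk => gA_one hk) (fun k hk => gA_far (by omega) hk)
  exact telA (u := hh α β m) (hh_zero α β m).ge (fun j => convA (u := gA α m) h1 j) j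

theorem hh_pos_B {α β : ℕ → Bool} {m : ℕ} (hm : 6 ≤ m) (h1 : ¬ Per β m 1) (h2 : ¬ Per β m 2)
    (j : ℕ) :
    (if 1 ≤ j then hh α β m (j - 1) else 0) + ∑ i ∈ Ico 3 (j + 1), hh α β m (j - i) <
      hh α β m j := by
  have hB : ∀ k, 2 * gA β m k + (if 2 ≤ k then gA β m (k - 2) else 0) ≤
      gA β m (k + 1) + (if 1 ≤ k then gA β m (k - 1) else 0) :=
    seqB (m := m) (gA_zero β m) hm (gA_dbl (by omega) h1) (gA_dbl (by omega) h2)
      (fun k hk => gA_one hk) (fun k hk => gA_far (by omega) hk)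
  exact telB (u := hh α β m) (hh_zero α β m).ge (fun j => convB (u := gA α m) hB j) j

end Pool.Agent.KWG
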