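import Pool.Agent.KWG.F8

/-!
# [KWG-F9a] first difference, case A

`fd_strict`

See the proof in the header of F8:

`fd_strict`: `d₀ + m ≤ M`, `d₀` a period of `α`, not of `β`, agreement below `d₀`: `fA β m M < fA α m M`.
Proof.  `d₀ < m` (for `d ≥ m` everything is a period), `d₀ ≥ 1`, so `m ≥ 2`.  Put `j₀ = M - m - d₀`.  By `fA_diff`
`fA α M - fA β M = ∑ d (pe α d - pe β d) hh (M - m - d)` over `d < m`, `d + m ≤ M`; the terms `d < d₀` vanish,
the term `d₀` is `hh j₀`, and for `d > d₀` the term is `≥ - [d period of β and not of α] hh (j₀ - (d - d₀))`.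
Let `e` be the least period `≥ 1` of `β` (`e ≤ m`, as `m` is a period: `Nat.find`).
`fd_A` (case `m ≤ d₀ + e`).  `K = m - 1 - d₀`, `K + 1 = m - d₀ ≤ e`.  The sum of the terms `d₀ < d < m` is
`≥ - ∑ i ∈ range K, [i + 1 ≤ j₀] hh (j₀ - 1 - i) > - hh j₀` (`d = d₀ + 1 + i`), by `hh_pos_A`.
-/

namespace Pool.Agent.KWG

theorem F9a_pe_le (α : ℕ → Bool) (m d : ℕ) : pe α m d ≤ 1 := by
  unfold pe; split_ifs <;> norm_num

theorem F9a_pe_nonneg (α : ℕ → Bool) (m d : ℕ) : 0 ≤ pe α m d := by
  unfold pe; split_ifs <;> norm_num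

theorem F9a_pe_one {α : ℕ → Bool} {m d : ℕ} (h : Per α m d) : pe α m d = 1 := by
  unfold pe; exact if_pos h

theorem F9a_pe_zero {α : ℕ → Bool} {m d : ℕ} (h : ¬ Per α m d) : pe α m d = 0 := by
  unfold pe; exact if_neg h

theorem fd_A {α β : ℕ → Bool} {m M d₀ e : ℕ} (hM : d₀ + m ≤ M) (h1 : Per α m d₀)
    (h2 : ¬ Per β m d₀) (h3 : ∀ d, d < d₀ → (Per α m d ↔ Per β m d)) (he : 1 ≤ e) (hem : e ≤ m)
    (hmin : ∀ d, 1 ≤ d → d < e → ¬ Per β m d) (hle : m ≤ d₀ + e) : fA β m M < fA α m M := by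
  have hdm : d₀ < m := by
    by_contra hc
    apply h2
    intro j hj
    omega
  have hd1 : 1 ≤ d₀ := by
    by_contra hc
    have : d₀ = 0 := by omega
    subst this
    apply h2
    intro j hj
    rfl
  have hm : 1 ≤ m := by omega
  have key := hh_pos_A (α := α) hem hmin (K := m - 1 - d₀) (by omega) (M - m - d₀)
  have hdiff := fA_diff α β hm M
  set T := (Finset.range m).filter (fun d => d + m ≤ M) with hT
  have hmem : d₀ ∈ T := by rw [hT, Finset.mem_filter, Finset.mem_range]; omega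
  rw [← Finset.add_sum_erase _ _ hmem, F9a_pe_one h1, F9a_pe_zero h2] at hdiff
  have hlow : -(∑ i ∈ Finset.range (m - 1 - d₀),
      ((if i + 1 ≤ M - m - d₀ then hh α β m (M - m - d₀ - 1 - i) else 0 : ℕ) : ℤ)) ≤
      ∑ d ∈ T.erase d₀, (pe α m d - pe β m d) * (hh α β m (M - m - d) : ℤ) := by
    have e1 : ∑ i ∈ Finset.range (m - 1 - d₀),
        ((if i + 1 ≤ M - m - d₀ then hh α β m (M - m - d₀ - 1 - i) else 0 : ℕ) : ℤ) =
        ∑ d ∈ (T.erase d₀).filter (fun d => d₀ < d), (hh α β m (M - m - d) : ℤ) := by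
      push_cast
      rw [← Finset.sum_filter]
      refine Finset.sum_nbij' (fun i => d₀ + 1 + i) (fun d => d - (d₀ + 1)) ?_ ?_ ?_ ?_ ?_
      · intro i hi
        simp only [Finset.mem_filter, Finset.mem_range, Finset.mem_erase, hT] at hi ⊢
        omega
      · intro i hi
        simp only [Finset.mem_filter, Finset.mem_range, Finset.mem_erase, hT] at hi ⊢
        omega
      · intro i hi
        simp only [Finset.mem_filter, Finset.mem_range, Finset.mem_erase, hT] at hi ⊢
        omega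
      · intro i hi
        simp only [Finset.mem_filter, Finset.mem_range, Finset.mem_erase, hT] at hi ⊢
        omega
      · intro i hi
        rw [show M - m - d₀ - 1 - i = M - m - (d₀ + 1 + i) by omega]
    rw [e1, Finset.sum_filter, ← Finset.sum_neg_distrib]
    refine Finset.sum_le_sum fun d hd => ?_
    have hh0 : (0 : ℤ) ≤ (hh α β m (M - m - d) : ℤ) := Int.natCast_nonneg _
    rcases Nat.lt_or_ge d₀ d with h | h
    · rw [if_pos h]
      have a1 := F9a_pe_le β m d
      have a2 := F9a_pe_nonneg α m d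
      nlinarith
    · rw [if_neg (by omega)]
      have hlt : d < d₀ := by
        have := (Finset.mem_erase.1 hd).1
        omega
      have : pe α m d = pe β m d := by
        by_cases hp : Per α m d
        · rw [F9a_pe_one hp, F9a_pe_one ((h3 d hlt).1 hp)]
        · rw [F9a_pe_zero hp, F9a_pe_zero (fun hq => hp ((h3 d hlt).2 hq))]
      rw [this]
      simp
  have key' : (∑ i ∈ Finset.range (m - 1 - d₀),
      ((if i + 1 ≤ M - m - d₀ then hh α β m (M - m - d₀ - 1 - i) else 0 : ℕ) : ℤ)) <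
      (hh α β m (M - m - d₀) : ℤ) := by
    exact_mod_cast key
  have : (0 : ℤ) < (fA α m M : ℤ) - fA β m M := by
    rw [hdiff]
    linarith
  omega

end Pool.Agent.KWG
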