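import Pool.Agent.KWG.C1

/-!
# [KWG-M2b] the keyword condition in terms of the difference word

`i + m < n`.  The letters `i, ..., i + m - 1` of `dw u` are `u t ^^ u (t + 1)` (as `t + 1 ≤ i + m < n`), and
`ext (dw u) (i + j) = dw u ⟨i + j, _⟩` (`ext_in`).
(→) if `u (i + j) = a j` for all `j ≤ m` (or `= ! a j` for all `j`), then
`u (i + j) ^^ u (i + j + 1) = a j ^^ a (j + 1) = dif m a j`.
(←) if `u (i + j) ^^ u (i + j + 1) = a j ^^ a (j + 1)` for all `j < m` then `u (i + j) ^^ a j` is constant
for `j ≤ m` (induction on `j`): equal to `u i ^^ a 0`.  If it is `false`: first alternative; if `true`: the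
second one.
-/

namespace Pool.Agent.KWG

theorem kw_iff {n m i : ℕ} (hi : i + m < n) (a : Fin (m + 1) → Bool) (u : Fin n → Bool) :
    ((∀ (j : Fin (m + 1)) (h : i + j < n), u ⟨i + j, h⟩ = a j) ∨
      (∀ (j : Fin (m + 1)) (h : i + j < n), u ⟨i + j, h⟩ = !(a j))) ↔
    At (dif m a) m (ext (dw u)) i := by
  have hL : ∀ (j : ℕ) (hj : j < m), ext (dw u) ((i : ℤ) + (j : ℤ)) =
      (u ⟨i + j, by omega⟩ ^^ u ⟨i + (j + 1), by omega⟩) := by
    intro j hj
    have h1 := ext_in (dw u) ⟨i + j, by omega⟩
    have h2 : (((⟨i + j, by omega⟩ : Fin n) : ℕ) : ℤ) = (i : ℤ) + (j : ℤ) := Nat.cast_add i j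
    rw [h2] at h1
    rw [h1]
    unfold dw
    exact dif_pos (show i + j + 1 < n by omega)
  have hR : ∀ (j : ℕ) (hj : j < m), dif m a j =
      (a ⟨j, by omega⟩ ^^ a ⟨j + 1, by omega⟩) := fun j hj => dif_pos hj
  constructor
  · intro h j hj
    rw [hL j hj, hR j hj]
    rcases h with h | h
    · have h1 := h ⟨j, by omega⟩ (show i + j < n by omega)
      have h2 := h ⟨j + 1, by omega⟩ (show i + (j + 1) < n by omega)
      change u ⟨i + j, _⟩ = _ at h1
      change u ⟨i + (j + 1), _⟩ = _ at h2
      rw [h1, h2]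
    · have h1 := h ⟨j, by omega⟩ (show i + j < n by omega)
      have h2 := h ⟨j + 1, by omega⟩ (show i + (j + 1) < n by omega)
      change u ⟨i + j, _⟩ = _ at h1
      change u ⟨i + (j + 1), _⟩ = _ at h2
      rw [h1, h2]
      generalize a ⟨j, _⟩ = p
      generalize a ⟨j + 1, _⟩ = q
      revert p q
      decide
  · intro h
    have hc : ∀ (j : ℕ) (hj : j ≤ m), (u ⟨i + j, by omega⟩ ^^ a ⟨j, by omega⟩) =
        (u ⟨i + 0, by omega⟩ ^^ a ⟨0, by omega⟩) := by
      intro j
      induction j with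
      | zero => intro _; rfl
      | succ j ih =>
        intro hj
        have h1 := h j (by omega)
        rw [hL j (by omega), hR j (by omega)] at h1
        have h2 := ih (by omega)
        rw [← h2]
        revert h1
        generalize u ⟨i + j, _⟩ = p
        generalize u ⟨i + (j + 1), _⟩ = q
        generalize a ⟨j, _⟩ = r
        generalize a ⟨j + 1, _⟩ = s
        revert p q r s
        decide
    cases hb : (u ⟨i + 0, by omega⟩ ^^ a ⟨0, by omega⟩) with
    | false =>
      left
      rintro ⟨j, hj⟩ hjn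
      have h1 := hc j (by omega)
      rw [hb] at h1
      show u ⟨i + j, _⟩ = a ⟨j, hj⟩
      revert h1
      generalize u ⟨i + j, _⟩ = p
      generalize a ⟨j, _⟩ = q
      revert p q
      decide
    | true =>
      right
      rintro ⟨j, hj⟩ hjn
      have h1 := hc j (by omega)
      rw [hb] at h1
      show u ⟨i + j, _⟩ = !(a ⟨j, hj⟩)
      revert h1
      generalize u ⟨i + j, _⟩ = p
      generalize a ⟨j, _⟩ = q
      revert p q
      decide

end Pool.Agent.KWG
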