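import Pool.Agent.KWG.M2a
import Pool.Agent.KWG.M2b

/-!
# [KWG-M2] the graph of the problem and the graph of difference words

The isomorphism is `dw` (`dw_bij`, `Equiv.ofBijective`).  Adjacency.  `KG`: `u ≠ v` and
`v = phi n m a i u` for some `i` with `i + m < n`.  If the keyword condition fails, `phi` does nothing
(`phi_neg`) and `v = u`: impossible.  Otherwise `phi_pos`, `dw_flip`: `dw v = stw m (dw u) {i}`, and by
`kw_iff` the window `i` is available in `dw u`: first alternative of `Gr` with `p = i ∈ Wi n m`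
(`mem_Wi`).
Conversely let `p ∈ Wi n m`, `p = i` a natural number (`Int.toNat`), `i + m < n`.  If `At (dif m a) m (ext (dw u)) p` and
`dw v = stw m (dw u) {p}`: the keyword condition holds (`kw_iff`), so `dw (phi n m a i u) = stw m (dw u) {i} =
dw v`, and `v = phi n m a i u` by injectivity.  In the second alternative (with `u`, `v` exchanged)
`u = phi n m a i v`, so `v = phi n m a i u` by `phi_phi`.
-/

namespace Pool.Agent.KWG

theorem dw_phi {n m i : ℕ} (h : i + m < n) (a : Fin (m + 1) → Bool) (u : Fin n → Bool)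
    (hat : At (dif m a) m (ext (dw u)) i) : dw (phi n m a i u) = stw m (dw u) {(i : ℤ)} := by
  rw [phi_pos n m a i u ((kw_iff h a u).2 hat)]
  exact dw_flip h u

theorem kg_adj {n m : ℕ} (a : Fin (m + 1) → Bool) (u v : Fin n → Bool) :
    (Gr (dif m a) m n).Adj (dw u) (dw v) ↔ (KG n m a).Adj u v := by
  have hinj : Function.Injective (dw : (Fin n → Bool) → (Fin n → Bool)) := (dw_bij n).1
  constructor
  · rintro ⟨hne, p, hp, h⟩
    have hne' : u ≠ v := fun h => hne (by rw [h])
    rw [mem_Wi] at hp
    obtain ⟨i, rfl⟩ := Int.eq_ofNat_of_zero_le hp.1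
    have hi : i + m < n := by omega
    refine ⟨hne', i, hi, ?_⟩
    rcases h with ⟨hat, he⟩ | ⟨hat, he⟩
    · apply hinj
      rw [he, dw_phi hi a u hat]
    · have hu : u = phi n m a i v := by
        apply hinj
        rw [he, dw_phi hi a v hat]
      rw [hu, phi_phi]
  · rintro ⟨hne, i, hi, hv⟩
    refine ⟨fun h => hne (hinj h), (i : ℤ), ?_, ?_⟩
    · rw [mem_Wi]; constructor <;> omega
    · left
      have hat : At (dif m a) m (ext (dw u)) i := by
        by_contra hcon
        rw [← kw_iff hi a u] at hcon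
        apply hne
        rw [hv, phi_neg n m a i u hcon]
      refine ⟨hat, ?_⟩
      rw [hv, dw_phi hi a u hat]

theorem kg_iso (n m : ℕ) (a : Fin (m + 1) → Bool) : Nonempty (KG n m a ≃g Gr (dif m a) m n) := by
  refine ⟨⟨Equiv.ofBijective _ (dw_bij n), ?_⟩⟩
  intro u v
  exact kg_adj a u v

end Pool.Agent.KWG
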