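import Pool.Agent.KWG.C1

/-!
# [KWG-M2a] the difference word determines the word

`dw u t = u t ^^ u (t + 1)` for `t + 1 < n`, `dw u (n - 1) = u (n - 1)`.  Injective: if `dw u = dw v` then
`u t = v t` for all `t < n` by downward induction on `t` (induction on `n - 1 - t`).  A map of a finite type
into itself which is injective is bijective (`Finite.injective_iff_bijective`).

`dw_flip` (`i + m < n`): flipping the letters `i, ..., i + m` of `u` flips exactly the letters `i - 1` (if
`i ≥ 1`) and `i + m` of `dw u`: for `t + 1 < n` both or none of `u t`, `u (t + 1)` are flipped unless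
`t + 1 = i` or `t = i + m`; for `t = n - 1` the letter `u t` is flipped iff `t ≤ i + m` and `i ≤ t`, i.e. iff
`t = i + m` (as `i + m ≤ n - 1`), and `t + 1 = n ≠ i`.  This is
`epsF m {i} t = decide (t + 1 = i) ^^ decide (t - m = i)`.
-/

namespace Pool.Agent.KWG

theorem dw_bij (n : ℕ) : Function.Bijective (dw : (Fin n → Bool) → (Fin n → Bool)) := by
  refine Finite.injective_iff_bijective.1 fun u v huv => ?_
  have key : ∀ k : ℕ, ∀ t : Fin n, n - 1 - (t : ℕ) = k → u t = v t := by
    intro k
    induction k with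
    | zero =>
      intro t ht
      have ht2 := t.2
      have h1 : ¬ (t : ℕ) + 1 < n := by omega
      have h2 := congrFun huv t
      unfold dw at h2
      rw [dif_neg h1, dif_neg h1] at h2
      exact h2
    | succ k ih =>
      intro t ht
      have ht2 := t.2
      have h1 : (t : ℕ) + 1 < n := by omega
      have h2 := congrFun huv t
      unfold dw at h2
      rw [dif_pos h1, dif_pos h1] at h2
      have h3 := ih ⟨(t : ℕ) + 1, h1⟩ (by simp only; omega)
      rw [h3] at h2
      exact Bool.xor_left_inj.1 h2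
  funext t
  exact key _ t rfl

theorem dw_flip {n m i : ℕ} (h : i + m < n) (u : Fin n → Bool) :
    dw (fun t : Fin n => if i ≤ (t : ℕ) ∧ (t : ℕ) ≤ i + m then !(u t) else u t) =
      stw m (dw u) {(i : ℤ)} := by
  funext t
  have ht := t.2
  have e1 : decide (((t : ℕ) : ℤ) + 1 ∈ ({(i : ℤ)} : Finset ℤ)) = decide ((t : ℕ) + 1 = i) :=
    decide_eq_decide.2 (by rw [Finset.mem_singleton]; omega)
  have e2 : decide (((t : ℕ) : ℤ) - m ∈ ({(i : ℤ)} : Finset ℤ)) = decide ((t : ℕ) = i + m) :=
    decide_eq_decide.2 (by rw [Finset.mem_singleton]; omega)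
  unfold stw epsF
  rw [e1, e2]
  unfold dw
  by_cases h1 : (t : ℕ) + 1 < n
  · rw [dif_pos h1, dif_pos h1]
    simp only
    generalize u t = x
    generalize u ⟨(t : ℕ) + 1, h1⟩ = y
    by_cases h3 : (t : ℕ) + 1 = i
    · have h5 : ¬ (i ≤ (t : ℕ) ∧ (t : ℕ) ≤ i + m) := by omega
      have h6 : i ≤ (t : ℕ) + 1 ∧ (t : ℕ) + 1 ≤ i + m := by omega
      have h7 : ¬ (t : ℕ) = i + m := by omega
      rw [if_neg h5, if_pos h6, decide_eq_true h3, decide_eq_false h7]
      cases x <;> cases y <;> rfl
    · by_cases h4 : (t : ℕ) = i + m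
      · have h5 : i ≤ (t : ℕ) ∧ (t : ℕ) ≤ i + m := by omega
        have h6 : ¬ (i ≤ (t : ℕ) + 1 ∧ (t : ℕ) + 1 ≤ i + m) := by omega
        rw [if_pos h5, if_neg h6, decide_eq_false h3, decide_eq_true h4]
        cases x <;> cases y <;> rfl
      · rw [decide_eq_false h3, decide_eq_false h4]
        by_cases h5 : i ≤ (t : ℕ) ∧ (t : ℕ) ≤ i + m
        · have h6 : i ≤ (t : ℕ) + 1 ∧ (t : ℕ) + 1 ≤ i + m := by omega
          rw [if_pos h5, if_pos h6]
          cases x <;> cases y <;> rfl
        · have h6 : ¬ (i ≤ (t : ℕ) + 1 ∧ (t : ℕ) + 1 ≤ i + m) := by omega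
          rw [if_neg h5, if_neg h6]
          cases x <;> cases y <;> rfl
  · rw [dif_neg h1, dif_neg h1]
    simp only
    generalize u t = x
    have h3 : ¬ (t : ℕ) + 1 = i := by omega
    by_cases h4 : (t : ℕ) = i + m
    · have h5 : i ≤ (t : ℕ) ∧ (t : ℕ) ≤ i + m := by omega
      rw [if_pos h5, decide_eq_false h3, decide_eq_true h4]
      cases x <;> rfl
    · have h5 : ¬ (i ≤ (t : ℕ) ∧ (t : ℕ) ≤ i + m) := by omega
      rw [if_neg h5, decide_eq_false h3, decide_eq_false h4]
      cases x <;> rfl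

end Pool.Agent.KWG
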