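import Pool.Agent.KWG.V6b

/-!
# [KWG-V6] equal numbers in components of size 4 force equal corner relations

`gs_of_W4`: take the least `g` where the relations differ (`Nat.find`), and apply `one_sided` to `α, β` or
to `β, α`.
-/

namespace Pool.Agent.KWG

open Finset

theorem gs_of_W4 {α β : ℕ → Bool} {m n : ℕ}
    (hper : ∀ d, d + m + 1 ≤ n → (Per α m d ↔ Per β m d)) (h4 : Wn α m n 4 = Wn β m n 4) :
    ∀ g, 2 ≤ g → g + 2 * m + 1 ≤ n → (Gs α m g ↔ Gs β m g) := by
  classical
  by_contra hcon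
  have hex : ∃ g, 2 ≤ g ∧ g + 2 * m + 1 ≤ n ∧ ¬ (Gs α m g ↔ Gs β m g) := by
    by_contra h
    apply hcon
    intro g h2 h3
    by_contra h5
    exact h ⟨g, h2, h3, h5⟩
  obtain ⟨h2, hn, hne⟩ := Nat.find_spec hex
  have hmin : ∀ g, 2 ≤ g → g < Nat.find hex → (Gs α m g ↔ Gs β m g) := by
    intro g hg hlt
    by_contra h5
    exact Nat.find_min hex hlt ⟨hg, by omega, h5⟩
  by_cases hα : Gs α m (Nat.find hex)
  · have hβ : ¬ Gs β m (Nat.find hex) := fun h => hne ⟨fun _ => h, fun _ => hα⟩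
    exact one_sided hper h2 hn hα hβ hmin h4
  · have hβ : Gs β m (Nat.find hex) := by
      by_contra h
      exact hne ⟨fun h' => absurd h' hα, fun h' => absurd h' h⟩
    exact one_sided (fun d hd => (hper d hd).symm) h2 hn hβ hα
      (fun g hg hlt => (hmin g hg hlt).symm) h4.symm

end Pool.Agent.KWG
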