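import Pool.Agent.KWG.C4
import Pool.Agent.KWG.A1
import Pool.Agent.KWG.F1b
import Pool.Agent.KWG.C7
import Pool.Agent.KWG.F10
import Pool.Agent.KWG.M2
import Pool.Agent.KWG.V6

/-!
# [KWG-M3] the main theorem

`gr_noedge`: for `n ≤ m`, `n ≤ m'` the sets `Wi n m`, `Wi n m'` are empty and both graphs have no edges.
`gr_zero`: for `m = 0` every window is available (`At` is an empty condition), so the two graphs are equal.

`gr_main`: `n ≥ 1`, `classCount (Gr α m n) s = classCount (Gr β m' n) s` for `s = 1, 4`.  Then the graphs are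
isomorphic.  Proof.  By `Wn_eq` `Wn α m n 1 = Wn β m' n 1`, `Wn α m n 4 = Wn β m' n 4`; by `Wn_one`
`fA α m (n - 1) = fA β m' (n - 1)`.
* `m = 0`: then `fA = 0` (`fA_zero_m`), so `m' = 0` (`fA_pos`): `gr_zero`.  Same if `m' = 0`.
* `m, m' ≥ 1`: `fd_final` with `M = n - 1`: either `n ≤ m`, `n ≤ m'`: `gr_noedge`; or `m = m'` (`subst`) and the
  periods `d` with `d + m ≤ n - 1`, i.e. `d + m + 1 ≤ n`, agree.  `gs_of_W4`, `thmA`, `gr_iso`.

`kwg_main`: `kg_iso`, `classCount_iso`, `gr_main`.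
-/

namespace Pool.Agent.KWG

theorem gr_noedge {α β : ℕ → Bool} {m m' n : ℕ} (h : n ≤ m) (h' : n ≤ m') :
    Nonempty (Gr α m n ≃g Gr β m' n) := by
  refine ⟨⟨Equiv.refl _, ?_⟩⟩
  intro a b
  constructor
  · rintro ⟨_, p, hp, _⟩
    rw [mem_Wi] at hp
    omega
  · rintro ⟨_, p, hp, _⟩
    rw [mem_Wi] at hp
    omega

theorem gr_zero (α β : ℕ → Bool) (n : ℕ) : Nonempty (Gr α 0 n ≃g Gr β 0 n) := by
  have key : ∀ γ : ℕ → Bool, ∀ (X : ℤ → Bool) (p : ℤ), At γ 0 X p := by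
    intro γ X p j hj
    omega
  refine ⟨⟨Equiv.refl _, ?_⟩⟩
  intro a b
  constructor
  · rintro ⟨hne, p, hp, h⟩
    refine ⟨hne, p, hp, ?_⟩
    rcases h with ⟨_, h⟩ | ⟨_, h⟩
    · exact Or.inl ⟨key _ _ _, h⟩
    · exact Or.inr ⟨key _ _ _, h⟩
  · rintro ⟨hne, p, hp, h⟩
    refine ⟨hne, p, hp, ?_⟩
    rcases h with ⟨_, h⟩ | ⟨_, h⟩
    · exact Or.inl ⟨key _ _ _, h⟩
    · exact Or.inr ⟨key _ _ _, h⟩

theorem gr_main {α β : ℕ → Bool} {m m' n : ℕ} (hn : 1 ≤ n)
    (h1 : classCount (Gr α m n) 1 = classCount (Gr β m' n) 1)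
    (h4 : classCount (Gr α m n) 4 = classCount (Gr β m' n) 4) :
    Nonempty (Gr α m n ≃g Gr β m' n) := by
  have w1 : Wn α m n 1 = Wn β m' n 1 := by rw [Wn_eq, Wn_eq, h1]
  have w4 : Wn α m n 4 = Wn β m' n 4 := by rw [Wn_eq, Wn_eq, h4]
  have f : fA α m (n - 1) = fA β m' (n - 1) := by
    have e1 := Wn_one α m hn
    have e2 := Wn_one β m' hn
    omega
  rcases Nat.eq_zero_or_pos m with hm | hm
  · rcases Nat.eq_zero_or_pos m' with hm' | hm'
    · subst hm; subst hm'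
      exact gr_zero α β n
    · subst hm
      have := fA_pos (α := β) (m := m') (M := n - 1) hm'
      rw [fA_zero_m] at f
      omega
  · rcases Nat.eq_zero_or_pos m' with hm' | hm'
    · subst hm'
      have := fA_pos (α := α) (m := m) (M := n - 1) hm
      rw [fA_zero_m] at f
      omega
    · rcases fd_final hm hm' f with ⟨a1, a2⟩ | ⟨rfl, hper⟩
      · exact gr_noedge (by omega) (by omega)
      · have hper' : ∀ d, d + m + 1 ≤ n → (Per α m d ↔ Per β m d) := by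
          intro d hd
          exact hper d (by omega)
        exact gr_iso (thmA hper' (gs_of_W4 hper' w4))

theorem kwg_main {n m m' : ℕ} (hn : 1 ≤ n) (a : Fin (m + 1) → Bool) (b : Fin (m' + 1) → Bool)
    (h1 : classCount (KG n m a) 1 = classCount (KG n m' b) 1)
    (h4 : classCount (KG n m a) 4 = classCount (KG n m' b) 4) :
    Nonempty (KG n m a ≃g KG n m' b) := by
  obtain ⟨e⟩ := kg_iso n m a
  obtain ⟨e'⟩ := kg_iso n m' b
  obtain ⟨f⟩ : Nonempty (Gr (dif m a) m n ≃g Gr (dif m' b) m' n) := by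
    apply gr_main hn
    · rw [← classCount_iso e, ← classCount_iso e', h1]
    · rw [← classCount_iso e, ← classCount_iso e', h4]
  exact ⟨(e.trans f).trans e'.symm⟩

end Pool.Agent.KWG
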