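import Pool.Agent.KWG.W0

/-!
# [KWG-P0] lists of moves

All by induction on the (first) list, with `X` general.
* `fin_perm`: the moves commute (`fl_comm`); induction on `List.Perm`.
* `Val_swap`: `b` is far from `a`, so `At (fl a X) b ↔ At X b` and `At (fl b X) a ↔ At X a` (`At_fl_far`);
  the rest of the list starts from the same word (`fl_comm`).
* `Val_cancel`: `fl_fl`.
* `Val_rev`, `fin_rev`: induction; `(a :: l).reverse = l.reverse ++ [a]`, use `Val_append`, `fin_append`,
  `At_fl_self`, `fl_fl`.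
* `Val_move`: move `a` behind the list `R` all of whose elements are far from `a`: induction on `R` with
  `Val_swap`.
* `Val_mem`: every element of a valid list lies in `I`.
* `Val_split`: for `L = L1 ++ r :: L2` valid: `r` is available in `fin m X L1` and `L2` is valid from
  `fl m r (fin m X L1)` (`Val_append`).
-/

namespace Pool.Agent.KWG

theorem Val_append {α : ℕ → Bool} {m : ℕ} {I : Set ℤ} {X : ℤ → Bool} {l₁ l₂ : List ℤ} :
    Val α m I X (l₁ ++ l₂) ↔ Val α m I X l₁ ∧ Val α m I (fin m X l₁) l₂ := by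
  induction l₁ generalizing X with
  | nil => exact ⟨fun h => ⟨trivial, h⟩, fun h => h.2⟩
  | cons r l ih =>
    constructor
    · rintro ⟨h1, h2, h3⟩
      have h4 := ih.1 h3
      exact ⟨⟨h1, h2, h4.1⟩, h4.2⟩
    · rintro ⟨⟨h1, h2, h3⟩, h4⟩
      exact ⟨h1, h2, ih.2 ⟨h3, h4⟩⟩

theorem fin_append (m : ℕ) (X : ℤ → Bool) (l₁ l₂ : List ℤ) :
    fin m X (l₁ ++ l₂) = fin m (fin m X l₁) l₂ := by
  induction l₁ generalizing X with
  | nil => rfl
  | cons r l ih => exact ih (fl m r X)

theorem fin_perm (m : ℕ) {l₁ l₂ : List ℤ} (h : l₁.Perm l₂) (X : ℤ → Bool) :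
    fin m X l₁ = fin m X l₂ := by
  induction h generalizing X with
  | nil => rfl
  | cons x _ ih => exact ih (fl m x X)
  | swap x y l =>
    show fin m (fl m x (fl m y X)) l = fin m (fl m y (fl m x X)) l
    rw [fl_comm]
  | trans _ _ ih1 ih2 => exact (ih1 X).trans (ih2 X)

theorem fin_fl (m : ℕ) (X : ℤ → Bool) (r : ℤ) (l : List ℤ) :
    fin m (fl m r X) l = fl m r (fin m X l) := by
  induction l generalizing X with
  | nil => rfl
  | cons a l ih =>
    show fin m (fl m a (fl m r X)) l = fl m r (fin m (fl m a X) l)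
    rw [fl_comm, ih]

theorem Val_swap {α : ℕ → Bool} {m : ℕ} {I : Set ℤ} {X : ℤ → Bool} {a b : ℤ} {l : List ℤ}
    (hf : a + m < b ∨ b + m < a) (h : Val α m I X (a :: b :: l)) : Val α m I X (b :: a :: l) := by
  obtain ⟨h1, h2, h3, h4, h5⟩ := h
  refine ⟨h3, (At_fl_far hf).1 h4, h1, (At_fl_far hf.symm).2 h2, ?_⟩
  rw [fl_comm]
  exact h5

theorem Val_cancel {α : ℕ → Bool} {m : ℕ} {I : Set ℤ} {X : ℤ → Bool} {a : ℤ} {l : List ℤ}
    (h : Val α m I X (a :: a :: l)) : Val α m I X l := by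
  obtain ⟨_, _, _, _, h5⟩ := h
  rwa [fl_fl] at h5

theorem fin_cancel (m : ℕ) (X : ℤ → Bool) (a : ℤ) (l : List ℤ) :
    fin m X (a :: a :: l) = fin m X l := by
  show fin m (fl m a (fl m a X)) l = fin m X l
  rw [fl_fl]

theorem fin_rev (m : ℕ) (X : ℤ → Bool) (l : List ℤ) : fin m (fin m X l) l.reverse = X := by
  induction l generalizing X with
  | nil => rfl
  | cons a l ih =>
    rw [List.reverse_cons, fin_append]
    show fin m (fin m (fin m (fl m a X) l) l.reverse) [a] = X
    rw [ih]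
    show fl m a (fl m a X) = X
    rw [fl_fl]

theorem Val_rev {α : ℕ → Bool} {m : ℕ} {I : Set ℤ} {X : ℤ → Bool} {l : List ℤ} (h : Val α m I X l) :
    Val α m I (fin m X l) l.reverse := by
  induction l generalizing X with
  | nil => exact trivial
  | cons a l ih =>
    obtain ⟨h1, h2, h3⟩ := h
    rw [List.reverse_cons, Val_append]
    refine ⟨ih h3, ?_⟩
    show Val α m I (fin m (fin m (fl m a X) l) l.reverse) [a]
    rw [fin_rev]
    exact ⟨h1, At_fl_self.2 h2, trivial⟩

theorem Val_move {α : ℕ → Bool} {m : ℕ} {I : Set ℤ} {X : ℤ → Bool} {a : ℤ} {R S : List ℤ}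
    (hf : ∀ b ∈ R, a + m < b ∨ b + m < a) (h : Val α m I X (a :: (R ++ S))) :
    Val α m I X (R ++ a :: S) := by
  induction R generalizing X with
  | nil => exact h
  | cons b R ih =>
    obtain ⟨h1, h2, h3⟩ := Val_swap (hf b List.mem_cons_self) h
    exact ⟨h1, h2, ih (fun c hc => hf c (List.mem_cons_of_mem b hc)) h3⟩

theorem Val_mem {α : ℕ → Bool} {m : ℕ} {I : Set ℤ} {X : ℤ → Bool} {l : List ℤ} (h : Val α m I X l)
    {r : ℤ} (hr : r ∈ l) : r ∈ I := by
  induction l generalizing X with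
  | nil => exact absurd hr List.not_mem_nil
  | cons a l ih =>
    obtain ⟨h1, h2, h3⟩ := h
    rcases List.mem_cons.1 hr with h4 | h4
    · rw [h4]
      exact h1
    · exact ih h3 h4

theorem Val_split {α : ℕ → Bool} {m : ℕ} {I : Set ℤ} {X : ℤ → Bool} {l₁ l₂ : List ℤ} {r : ℤ}
    (h : Val α m I X (l₁ ++ r :: l₂)) :
    Val α m I X l₁ ∧ r ∈ I ∧ At α m (fin m X l₁) r ∧ Val α m I (fl m r (fin m X l₁)) l₂ :=
  Val_append.1 h

end Pool.Agent.KWG
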