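import Pool.Agent.KWG.P0

/-!
# [KWG-P0b] separation of a list of moves avoiding a letter

Let `t` be a letter and suppose that no window of the valid list `L` covers `t`: every element `x` is of
left type (`x + m ≤ t`) or of right type (`t < x`).  A left type window `x` and a right type window `y` are
far: `x + m ≤ t < y`.  So `L` can be reordered as (left types, then right types) and as (right types, then
left types), keeping the order inside the two classes (`List.filter`).

Proof by induction on `L`, `X` general.  `L = a :: L'`, the induction hypothesis applies to `fl m a X`, `L'`.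
If `a` is of left type: the first claim is immediate, for the second one use `Val_move` (`a` is far from
all the elements of `L'.filter (t < ·)`).  If `a` is of right type: symmetric.

`filter_perm`: the concatenation of the two filtered lists is a permutation of `L`
(`List.filter_append_perm` with the predicate `x + m ≤ t`, whose negation is `t < x` on `L`:
for `x ∈ L` exactly one of the two holds because `x + m ≤ t` implies `x ≤ t`).
-/

namespace Pool.Agent.KWG

theorem filter_perm {m : ℕ} {t : ℤ} {L : List ℤ} (hL : ∀ x ∈ L, x + m ≤ t ∨ t < x) :
    (L.filter (fun x => decide (x + m ≤ t)) ++ L.filter (fun x => decide (t < x))).Perm L := by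
  induction L with
  | nil => exact List.Perm.refl _
  | cons a L ih =>
    have ih' := ih (fun x hx => hL x (List.mem_cons_of_mem _ hx))
    rcases hL a List.mem_cons_self with h | h
    · have h' : ¬ (t < a) := by omega
      rw [List.filter_cons_of_pos (by simpa using h), List.filter_cons_of_neg (by simpa using h')]
      exact ih'.cons a
    · have h' : ¬ (a + m ≤ t) := by omega
      rw [List.filter_cons_of_neg (by simpa using h'), List.filter_cons_of_pos (by simpa using h)]
      exact List.perm_middle.trans (ih'.cons a)

theorem Val_sep {α : ℕ → Bool} {m : ℕ} {I : Set ℤ} {X : ℤ → Bool} {t : ℤ} {L : List ℤ}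
    (h : Val α m I X L) (hL : ∀ x ∈ L, x + m ≤ t ∨ t < x) :
    Val α m I X (L.filter (fun x => decide (x + m ≤ t)) ++ L.filter (fun x => decide (t < x))) ∧
    Val α m I X (L.filter (fun x => decide (t < x)) ++ L.filter (fun x => decide (x + m ≤ t))) := by
  induction L generalizing X with
  | nil => exact ⟨h, h⟩
  | cons a L ih =>
    have hv := h.2.2
    obtain ⟨ih1, ih2⟩ := ih hv (fun x hx => hL x (List.mem_cons_of_mem _ hx))
    rcases hL a List.mem_cons_self with ha | ha
    · have ha' : ¬ (t < a) := by omega
      rw [List.filter_cons_of_pos (by simpa using ha), List.filter_cons_of_neg (by simpa using ha')]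
      refine ⟨⟨h.1, h.2.1, ih1⟩, Val_move (fun b hb => ?_) ⟨h.1, h.2.1, ih2⟩⟩
      have hb' := List.of_mem_filter hb
      simp only [decide_eq_true_eq] at hb'
      left
      omega
    · have ha' : ¬ (a + m ≤ t) := by omega
      rw [List.filter_cons_of_neg (by simpa using ha'), List.filter_cons_of_pos (by simpa using ha)]
      refine ⟨Val_move (fun b hb => ?_) ⟨h.1, h.2.1, ih1⟩, ⟨h.1, h.2.1, ih2⟩⟩
      have hb' := List.of_mem_filter hb
      simp only [decide_eq_true_eq] at hb'
      right
      omega

end Pool.Agent.KWG
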