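import Pool.Agent.KWG.W1

/-!
# [KWG-W2] the core lemma on two overlaps

Proof.  Let `L = d - 1` and `f = α` on `[0, L)`.
* `e` is a period of `α` on `[0, L)`: `j + e < L` gives `j + e < m`.
* `d - e` is a period on `[0, L)`: `j + (d - e) < d - 1` means `j + 1 < e`, which is `h2`.
* `e + (d - e) = d ≤ (d - 1) + gcd e (d - e)` since the gcd is at least 1.
`fw_eq` gives `α i = α j` for `i, j < d - 1` congruent modulo `g = gcd e (d - e)`.
Finally `α (d - 1) = α (d - 1 - e)` because `Per α m e` and `(d - 1 - e) + e = d - 1 < m`, and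
`e - 1 ≡ d - 1 - e` modulo `g` (the difference is `2 e - d = e - (d - e)`), both are `< d - 1`
(as `1 ≤ e < d`).  So `α (e - 1) = α (d - 1 - e) = α (d - 1)`.
-/

namespace Pool.Agent.KWG

theorem coreA {α : ℕ → Bool} {m e d : ℕ} (he : 1 ≤ e) (hed : e < d) (hdm : d ≤ m) (h1 : Per α m e)
    (h2 : ∀ j, j + 1 < e → α j = α (j + (d - e))) : α (e - 1) = α (d - 1) := by
  have hg1 : 1 ≤ Nat.gcd e (d - e) := Nat.gcd_pos_of_pos_left _ he
  have hA : ∀ i, i + e < d - 1 → α i = α (i + e) := fun i hi => h1 i (by omega)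
  have hB : ∀ i, i + (d - e) < d - 1 → α i = α (i + (d - e)) := fun i hi => h2 i (by omega)
  have hmod : e - 1 ≡ d - 1 - e [MOD Nat.gcd e (d - e)] := by
    have hd1 : Nat.gcd e (d - e) ∣ e := Nat.gcd_dvd_left _ _
    have hd2 : Nat.gcd e (d - e) ∣ d - e := Nat.gcd_dvd_right _ _
    have h3 : e - 1 + (d - e) ≡ e - 1 + 0 [MOD Nat.gcd e (d - e)] :=
      Nat.ModEq.add_left _ ((Nat.modEq_zero_iff_dvd).2 hd2)
    have h4 : d - 1 - e + e ≡ d - 1 - e + 0 [MOD Nat.gcd e (d - e)] :=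
      Nat.ModEq.add_left _ ((Nat.modEq_zero_iff_dvd).2 hd1)
    have h5 : e - 1 + (d - e) = d - 1 - e + e := by omega
    rw [add_zero] at h3 h4
    rw [h5] at h3
    exact h3.symm.trans h4
  have h6 : α (e - 1) = α (d - 1 - e) :=
    fw_eq α (d - 1) e (d - e) hA hB (by omega) (e - 1) (d - 1 - e) (by omega) (by omega) hmod
  have h7 : α (d - 1 - e) = α (d - 1 - e + e) := h1 (d - 1 - e) (by omega)
  have h8 : d - 1 - e + e = d - 1 := by omega
  rw [h8] at h7
  rw [h6, h7]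

end Pool.Agent.KWG
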