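import Pool.Agent.KWG.W0
import Pool.Agent.KWG.W2

/-!
# [KWG-W3] a move creates nothing on the side of an available conflicting window

`p < q ≤ p + m`, the windows `p` and `q` are available in `X`, `r < q ≤ r + m`.  Then the window `r` is
not available in `fl m q X`.

Proof.  Suppose it is.  The move `q` flips the letters `q - 1` (inside the window `r`) and `q + m`
(outside the window `r`).  Write `q = r + d`, `q = p + e` with natural numbers `1 ≤ d ≤ m`,
`1 ≤ e ≤ m` (`Int.toNat`, `obtain ⟨d, hd⟩ := Int.eq_ofNat_of_zero_le ..`).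
 (i) `X (r + j) = α j` for `j < m`, `j ≠ d - 1`, and `X (q - 1) = ! α (d - 1)`.
 (ii) `X (p + j) = α j` for `j < m`; in particular `X (q - 1) = α (e - 1)`.
 (iii) `X (q + j) = α j` for `j < m`.
From (i), (ii): `α (e - 1) ≠ α (d - 1)`, so `e ≠ d`.
`Per α m e` by (ii), (iii) (`per_of_At`).  `Per α m d`: for `j + d < m`, `j + d ≠ d - 1`, so
`α (j + d) = X (r + d + j) = X (q + j) = α j`.
* Case `e < d` (i.e. `r < p`): for `j + 1 < e`: `X (p + j) = α j` and `p + j = r + (j + (d - e))` with
  `j + (d - e) < d - 1`, so `X (p + j) = α (j + (d - e))` by (i).  `coreA` with `Per α m e` gives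
  `α (e - 1) = α (d - 1)`: contradiction.
* Case `d < e` (i.e. `p < r`): for `j + 1 < d`: `X (r + j) = α j` by (i), and `r + j = p + (j + (e - d))`,
  so `α j = α (j + (e - d))`.  `coreA` with the roles of `d` and `e` exchanged (and `Per α m d`) gives
  `α (d - 1) = α (e - 1)`: contradiction.
-/

namespace Pool.Agent.KWG

theorem noLeft {α : ℕ → Bool} {m : ℕ} {X : ℤ → Bool} {p q r : ℤ} (hp : At α m X p) (hq : At α m X q)
    (h1 : p < q) (h2 : q ≤ p + m) (h3 : r < q) (h4 : q ≤ r + m) : ¬ At α m (fl m q X) r := by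
  intro hr
  obtain ⟨d, hd⟩ : ∃ d : ℕ, q = r + d := ⟨(q - r).toNat, by omega⟩
  obtain ⟨e, he⟩ : ∃ e : ℕ, q = p + e := ⟨(q - p).toNat, by omega⟩
  have hd1 : 1 ≤ d := by omega
  have he1 : 1 ≤ e := by omega
  have hdm : d ≤ m := by omega
  have hem : e ≤ m := by omega
  -- (i)
  have i1 : ∀ j : ℕ, j < m → j + 1 ≠ d → X (r + j) = α j := by
    intro j hj hjd
    have := hr j hj
    rw [fl_of_ne (by omega) (by omega)] at this
    exact this
  have i2 : (!(X (q - 1))) = α (d - 1) := by
    have := hr (d - 1) (by omega)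
    have e1 : r + ((d - 1 : ℕ) : ℤ) = q - 1 := by omega
    rw [e1, fl_left] at this
    exact this
  have i3 : X (q - 1) = α (e - 1) := by
    have := hp (e - 1) (by omega)
    have e1 : p + ((e - 1 : ℕ) : ℤ) = q - 1 := by omega
    rw [e1] at this
    exact this
  have hne : α (e - 1) ≠ α (d - 1) := by
    intro h
    rw [← h, ← i3] at i2
    cases hx : X (q - 1) <;> rw [hx] at i2 <;> exact absurd i2 (by decide)
  have hpe : Per α m e := per_of_At hp (by rw [← he]; exact hq)
  have hpd : Per α m d := by
    intro j hj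
    have a1 := i1 (j + d) hj (by omega)
    have a2 := hq j (by omega)
    rw [← a1, ← a2]
    congr 1
    push_cast
    omega
  rcases lt_trichotomy e d with h | h | h
  · refine hne (coreA he1 h hdm hpe fun j hj => ?_)
    have a1 := i1 (j + (d - e)) (by omega) (by omega)
    have a2 := hp j (by omega)
    rw [← a1, ← a2]
    congr 1
    omega
  · exact hne (by rw [h])
  · refine hne (coreA hd1 h hem hpd fun j hj => ?_).symm
    have a1 := i1 j (by omega) (by omega)
    have a2 := hp (j + (e - d)) (by omega)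
    rw [← a1, ← a2]
    congr 1
    omega

end Pool.Agent.KWG
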