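import Pool.Agent.KWG.W0m
import Pool.Agent.KWG.W3

/-!
# [KWG-W4] mirror image of W3

`p < q ≤ p + m`, both available in `X`, `p < r ≤ p + m`: the window `r` is not available in `fl m p X`.

Proof: apply `noLeft` to `mirA m α`, `mirX X` and the windows `mirp m q < mirp m p` (roles: `p := mirp m q`,
`q := mirp m p`, `r := mirp m r`), using `At_mir` and `fl_mir`.
-/

namespace Pool.Agent.KWG

theorem noRight {α : ℕ → Bool} {m : ℕ} {X : ℤ → Bool} {p q r : ℤ} (hp : At α m X p) (hq : At α m X q)
    (h1 : p < q) (h2 : q ≤ p + m) (h3 : p < r) (h4 : r ≤ p + m) : ¬ At α m (fl m p X) r := by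
  intro h
  have hp' : At (mirA m α) m (mirX X) (mirp m p) := At_mir.2 hp
  have hq' : At (mirA m α) m (mirX X) (mirp m q) := At_mir.2 hq
  have h' : At (mirA m α) m (fl m (mirp m p) (mirX X)) (mirp m r) := by
    rw [← fl_mir]
    exact At_mir.2 h
  refine noLeft hq' hp' ?_ ?_ ?_ ?_ h'
  · unfold mirp; omega
  · unfold mirp; omega
  · unfold mirp; omega
  · unfold mirp; omega

end Pool.Agent.KWG
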