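import Pool.Agent.KWG.P0
import Pool.Agent.KWG.W4

/-!
# [KWG-P1] descending chains

`s` is available in `X`, `L ≠ []` is a valid list.  Then (1) `s :: L` is a chain of windows going down with
consecutive conflicts, or (2) there is a strictly shorter valid list with the same end, or (3) `L` can be
reordered (valid, same end by `fin_perm`) such that its first window `x` does not satisfy `x < s ≤ x + m`.

Proof by induction on `L`, `X` and `s` general.  `L = r :: L₁`.
If not (`r < s ∧ s ≤ r + m`): (3) with `x = r`.  So assume `r < s ≤ r + m`.
If `L₁ = []`: (1).  Otherwise apply the induction hypothesis to `fl m r X`, `r` (available there by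
`At_fl_self`) and `L₁`:
 (1') `r :: L₁` is such a chain: then so is `s :: r :: L₁`: (1).
 (2') a shorter `L₁'`: then `r :: L₁'`: (2).
 (3') `x :: L₁'` is a permutation of `L₁`, valid from `fl m r X`, and not (`x < r ∧ r ≤ x + m`).
   - `x = r`: the list `r :: r :: L₁'` is valid from `X` and has the same end as `L`; cancel
     (`Val_cancel`, `fin_cancel`, `fin_perm`): (2).
   - `r < x ≤ r + m`: impossible by `noRight` (`r < s ≤ r + m`, both available in `X`).
   - `r + m < x`: far, so `x :: r :: L₁'` is valid from `X` (`Val_swap`), a permutation of `L`, and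
     `x > r + m ≥ s`: (3).
   - `x < r`: then `x + m < r` (by (3')), far, `x :: r :: L₁'` is valid, and `x + m < r < s`: (3).
-/

namespace Pool.Agent.KWG

theorem desc {α : ℕ → Bool} {m : ℕ} {I : Set ℤ} (L : List ℤ) (X : ℤ → Bool) (s : ℤ)
    (hs : At α m X s) (hL : Val α m I X L) (hne : L ≠ []) :
    List.IsChain (fun x y : ℤ => y < x ∧ x ≤ y + m) (s :: L) ∨
    (∃ L' : List ℤ, Val α m I X L' ∧ fin m X L' = fin m X L ∧ L'.length < L.length) ∨
    (∃ (x : ℤ) (L' : List ℤ), (x :: L').Perm L ∧ Val α m I X (x :: L') ∧ ¬ (x < s ∧ s ≤ x + m)) := by
  induction L generalizing X s with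
  | nil => exact absurd rfl hne
  | cons r L₁ ih =>
    obtain ⟨h1, h2, h3⟩ : r ∈ I ∧ At α m X r ∧ Val α m I (fl m r X) L₁ := hL
    by_cases hc : r < s ∧ s ≤ r + m
    · by_cases hL1 : L₁ = []
      · subst hL1
        left
        exact List.isChain_cons_cons.2 ⟨hc, List.isChain_singleton _⟩
      · rcases ih (fl m r X) r (At_fl_self.2 h2) h3 hL1 with h | ⟨L', hv, hf, hl⟩ |
          ⟨x, L', hperm, hval, hnot⟩
        · left
          exact List.isChain_cons_cons.2 ⟨hc, h⟩
        · right; left
          refine ⟨r :: L', ⟨h1, h2, hv⟩, hf, ?_⟩
          rw [List.length_cons, List.length_cons]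
          omega
        · obtain ⟨hx1, hx2, hx3⟩ : x ∈ I ∧ At α m (fl m r X) x ∧
            Val α m I (fl m x (fl m r X)) L' := hval
          have hV : Val α m I X (r :: x :: L') := ⟨h1, h2, hx1, hx2, hx3⟩
          have hP : (x :: r :: L').Perm (r :: L₁) :=
            (List.Perm.swap r x L').trans (hperm.cons r)
          rcases lt_trichotomy x r with hx | hx | hx
          · right; right
            have h4 : x + m < r := by
              by_contra h5
              exact hnot ⟨hx, by omega⟩
            refine ⟨x, r :: L', hP, Val_swap (Or.inr h4) hV, ?_⟩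
            omega
          · right; left
            subst hx
            refine ⟨L', Val_cancel hV, ?_, ?_⟩
            · rw [← fin_cancel m X x L']
              exact fin_perm m hP X
            · have h5 := hperm.length_eq
              rw [List.length_cons] at h5
              rw [List.length_cons]
              omega
          · right; right
            by_cases hxm : x ≤ r + m
            · exact absurd hx2 (noRight h2 hs hc.1 hc.2 hx hxm)
            · refine ⟨x, r :: L', hP, Val_swap (Or.inl (by omega)) hV, ?_⟩
              omega
    · right; right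
      exact ⟨r, L₁, List.Perm.refl _, ⟨h1, h2, h3⟩, hc⟩

end Pool.Agent.KWG
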