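import Pool.Agent.KWG.P0
import Pool.Agent.KWG.W4

/-!
# [KWG-P1b] ascending chains (mirror image of P1)

Same proof as for `desc` (file P1) with left and right exchanged and `noLeft` instead of `noRight`:

`s` is available in `X`, `L ≠ []` is a valid list.  Then (1) `s :: L` is a chain of windows going up with
consecutive conflicts, or (2) there is a strictly shorter valid list with the same end, or (3) `L` can be
reordered (valid, same end by `fin_perm`) such that its first window `x` does not satisfy `s < x ≤ s + m`.

Proof by induction on `L`, `X` and `s` general.  `L = r :: L₁`.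
If not (`s < r ∧ r ≤ s + m`): (3) with `x = r`.  So assume `s < r ≤ s + m`.
If `L₁ = []`: (1).  Otherwise apply the induction hypothesis to `fl m r X`, `r` and `L₁`:
 (1') `r :: L₁` is such a chain: then so is `s :: r :: L₁`: (1).
 (2') a shorter `L₁'`: then `r :: L₁'`: (2).
 (3') `x :: L₁'` is a permutation of `L₁`, valid from `fl m r X`, and not (`r < x ∧ x ≤ r + m`).
   - `x = r`: cancel: (2).
   - `x < r ≤ x + m`: impossible by `noLeft` (`s < r ≤ s + m`, both available in `X`; it says that the
     window `x` is not available in `fl m r X`).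
   - `x + m < r`: far, `x :: r :: L₁'` is valid; `x < s` since `x + m < r ≤ s + m`: (3).
   - `r < x`: then `r + m < x` by (3'), far, `x :: r :: L₁'` is valid and `x > r + m > s + m`: (3).
-/

namespace Pool.Agent.KWG

theorem asc {α : ℕ → Bool} {m : ℕ} {I : Set ℤ} (L : List ℤ) (X : ℤ → Bool) (s : ℤ)
    (hs : At α m X s) (hL : Val α m I X L) (hne : L ≠ []) :
    List.IsChain (fun x y : ℤ => x < y ∧ y ≤ x + m) (s :: L) ∨
    (∃ L' : List ℤ, Val α m I X L' ∧ fin m X L' = fin m X L ∧ L'.length < L.length) ∨
    (∃ (x : ℤ) (L' : List ℤ), (x :: L').Perm L ∧ Val α m I X (x :: L') ∧ ¬ (s < x ∧ x ≤ s + m)) := by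
  induction L generalizing X s with
  | nil => exact absurd rfl hne
  | cons r L₁ ih =>
    obtain ⟨h1, h2, h3⟩ := hL
    by_cases hr : s < r ∧ r ≤ s + m
    swap
    · exact Or.inr (Or.inr ⟨r, L₁, List.Perm.refl _, ⟨h1, h2, h3⟩, hr⟩)
    by_cases hnil : L₁ = []
    · subst hnil
      exact Or.inl (List.IsChain.cons_cons hr (List.isChain_singleton r))
    rcases ih (fl m r X) r (At_fl_self.2 h2) h3 hnil with hc | ⟨L', hv, hf, hl⟩ | ⟨x, L', hp, hv, hx⟩
    · exact Or.inl (List.IsChain.cons_cons hr hc)
    · refine Or.inr (Or.inl ⟨r :: L', ⟨h1, h2, hv⟩, hf, ?_⟩)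
      rw [List.length_cons, List.length_cons]
      omega
    · have hperm : (r :: x :: L').Perm (r :: L₁) := hp.cons r
      have hval : Val α m I X (r :: x :: L') := ⟨h1, h2, hv⟩
      have hfar : (r + m < x ∨ x + m < r) → ¬ (s < x ∧ x ≤ s + m) →
          ∃ (x : ℤ) (L'' : List ℤ), (x :: L'').Perm (r :: L₁) ∧ Val α m I X (x :: L'') ∧
            ¬ (s < x ∧ x ≤ s + m) := by
        intro hf hns
        exact ⟨x, r :: L', (List.Perm.swap r x L').trans hperm, Val_swap hf hval, hns⟩
      rcases lt_trichotomy x r with hxr | hxr | hxr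
      · by_cases hfx : x + m < r
        · exact Or.inr (Or.inr (hfar (Or.inr hfx) (by omega)))
        · exact absurd hv.2.1 (noLeft hs h2 hr.1 hr.2 hxr (by omega))
      · subst hxr
        refine Or.inr (Or.inl ⟨L', Val_cancel hval, ?_, ?_⟩)
        · rw [← fin_cancel m X x L', fin_perm m hperm X]
        · have := hp.length_eq
          rw [List.length_cons] at this
          rw [List.length_cons]
          omega
      · exact Or.inr (Or.inr (hfar (Or.inl (by omega)) (by omega)))

end Pool.Agent.KWG
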