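import Pool.Agent.KWG.P0b
import Pool.Agent.KWG.P1

/-!
# [KWG-P2a] in a shortest counterexample the left part has at most one move

Definition `Clm α m I D t N`: the claim '`D (t - p) = D (t - q)`' for all valid lists of length `< N`.

Setting of `left_le_one`: `A` = moves of left type (`x + m ≤ t`), `R` = moves of right type; both orders
`A ++ R` and `R ++ A` are valid from `X`; `p` available in `X`, `q` available in the end word; both windows
cover `t`.  Every `x ∈ A` satisfies `x < p` and `x < q` (as `x + m ≤ t < p + m`).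
Conclusion: `D (t - p) = D (t - q)`, or `A = []`, or `A = [a]` and `a` is in conflict with `p` and `q`.

Proof.  Assume `A ≠ []`.
Step 1.  `Val X A` (`Val_append`).  Apply `desc` to `A, X, p`.
 (2) a shorter `A'` with `fin A' = fin A`: `A' ++ R` is valid from `X`, shorter than `A ++ R`, same end:
     the hypothesis `Clm` gives the claim.
 (3) `x :: A'` a permutation of `A`, valid, and not (`x < p ≤ x + m`): as `x ∈ A`, `x < p`, hence
     `x + m < p`: far, so `p` is available in `fl m x X`; the list `A' ++ R` is valid from `fl m x X`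
     (`fin m X (x :: A') = fin m X A` by `fin_perm`), has the same end, and is shorter: `Clm` applied to
     `fl m x X` gives the claim.
 (1) `p :: A` is a descending chain.
Step 2.  Let `Y = fin m X (A ++ R)` (`= fin m X (R ++ A)`, `fin_perm`).  The list
`(R ++ A).reverse = A.reverse ++ R.reverse` is valid from `Y` (`Val_rev`) and ends at `X` (`fin_rev`).
Apply `desc` to `A.reverse, Y, q`:
 (2) a shorter `A'` with the same end as `A.reverse`: `A' ++ R.reverse` is valid from `Y`, ends at `X`,
     shorter: `Clm` with the roles of `p, q` and `X, Y` exchanged.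
 (3) `x :: A'` permutation of `A.reverse`, `x < q`, so far from `q`: `q` is available in `fl m x Y`;
     `Clm` for `fl m x Y`, `A' ++ R.reverse`, windows `q` and `p`.
 (1) `q :: A.reverse` is a descending chain.
Step 3.  `A` is strictly decreasing (pairwise, from the chain) and so is `A.reverse`: `A.length ≤ 1`
(if `A = a₁ :: a₂ :: A''` then `a₂ < a₁`; in `A.reverse` the last two elements are `a₂, a₁`, so
`a₁ < a₂`).  So `A = [a]`, and the two chains give `a < p ≤ a + m`, `a < q ≤ a + m`.
-/

namespace Pool.Agent.KWG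

/-- the claim for all valid lists of length `< N` -/
def Clm (α : ℕ → Bool) (m : ℕ) (I : Set ℤ) (D : ℕ → Bool) (t : ℤ) (N : ℕ) : Prop :=
  ∀ (X : ℤ → Bool) (L : List ℤ) (p q : ℤ), L.length < N → Val α m I X L → p ∈ I → q ∈ I →
    At α m X p → At α m (fin m X L) q → p ≤ t → t < p + m → q ≤ t → t < q + m →
    D (t - p).toNat = D (t - q).toNat

theorem p2a_step {α : ℕ → Bool} {m : ℕ} {I : Set ℤ} {D : ℕ → Bool} {t : ℤ} {A R : List ℤ}
    (hC : Clm α m I D t (A ++ R).length) {X : ℤ → Bool} {p q : ℤ}
    (h1 : Val α m I X (A ++ R)) (hp : p ∈ I) (hq : q ∈ I)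
    (hX : At α m X p) (hY : At α m (fin m X (A ++ R)) q) (hA : ∀ x ∈ A, x + m ≤ t)
    (h3 : p ≤ t) (h4 : t < p + m) (h5 : q ≤ t) (h6 : t < q + m) (hne : A ≠ []) :
    D (t - p).toNat = D (t - q).toNat ∨
      List.IsChain (fun x y : ℤ => y < x ∧ x ≤ y + m) (p :: A) := by
  have hv := Val_append.1 h1
  rw [fin_append] at hY
  rcases desc A X p hX hv.1 hne with h | ⟨A', ha, hf, hl⟩ | ⟨x, A', hperm, ha, hn⟩
  · exact Or.inr h
  · left
    refine hC X (A' ++ R) p q ?_ (Val_append.2 ⟨ha, ?_⟩) hp hq hX ?_ h3 h4 h5 h6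
    · rw [List.length_append, List.length_append]
      omega
    · rw [hf]
      exact hv.2
    · rw [fin_append, hf]
      exact hY
  · left
    have hx : x + m ≤ t := hA x (hperm.mem_iff.1 List.mem_cons_self)
    have hfar : x + m < p := by
      by_contra hcon
      exact hn ⟨by omega, by omega⟩
    have hlen := hperm.length_eq
    rw [List.length_cons] at hlen
    have hfin : fin m (fl m x X) A' = fin m X A := fin_perm m hperm X
    refine hC (fl m x X) (A' ++ R) p q ?_ (Val_append.2 ⟨ha.2.2, ?_⟩) hp hq
      ((At_fl_far (Or.inl hfar)).2 hX) ?_ h3 h4 h5 h6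
    · rw [List.length_append, List.length_append]
      omega
    · rw [hfin]
      exact hv.2
    · rw [fin_append, hfin]
      exact hY

theorem left_le_one {α : ℕ → Bool} {m : ℕ} {I : Set ℤ} {D : ℕ → Bool} {t : ℤ} {A R : List ℤ}
    (hC : Clm α m I D t (A ++ R).length) {X : ℤ → Bool} {p q : ℤ}
    (h1 : Val α m I X (A ++ R)) (h2 : Val α m I X (R ++ A)) (hp : p ∈ I) (hq : q ∈ I)
    (hX : At α m X p) (hY : At α m (fin m X (A ++ R)) q) (hA : ∀ x ∈ A, x + m ≤ t)
    (h3 : p ≤ t) (h4 : t < p + m) (h5 : q ≤ t) (h6 : t < q + m) :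
    D (t - p).toNat = D (t - q).toNat ∨ A = [] ∨
      ∃ a, A = [a] ∧ a < p ∧ p ≤ a + m ∧ a < q ∧ q ≤ a + m := by
  by_cases hne : A = []
  · exact Or.inr (Or.inl hne)
  have hperm : (A ++ R).Perm (R ++ A) := List.perm_append_comm
  rcases p2a_step hC h1 hp hq hX hY hA h3 h4 h5 h6 hne with h | hch
  · exact Or.inl h
  have hr := Val_rev h2
  rw [List.reverse_append, ← fin_perm m hperm X] at hr
  have hf : fin m (fin m X (A ++ R)) (A.reverse ++ R.reverse) = X := by
    rw [← List.reverse_append, fin_perm m hperm X, fin_rev]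
  have hlen : (A.reverse ++ R.reverse).length = (A ++ R).length := by
    rw [List.length_append, List.length_append, List.length_reverse, List.length_reverse]
  have hC' : Clm α m I D t (A.reverse ++ R.reverse).length := by
    rw [hlen]
    exact hC
  rcases p2a_step hC' hr hq hp hY (by rw [hf]; exact hX)
    (fun x hx => hA x (List.mem_reverse.1 hx)) h5 h6 h3 h4
    (fun h => hne (List.reverse_eq_nil_iff.1 h)) with h | hch'
  · exact Or.inl h.symm
  right; right
  match A, hne, hch, hch' with
  | [], hne, _, _ => exact absurd rfl hne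
  | [a], _, hch, hch' =>
    have e1 := (List.isChain_cons_cons.1 hch).1
    have e2 : List.IsChain (fun x y : ℤ => y < x ∧ x ≤ y + m) (q :: [a]) := hch'
    have e3 := (List.isChain_cons_cons.1 e2).1
    exact ⟨a, rfl, e1.1, e1.2, e3.1, e3.2⟩
  | a₁ :: a₂ :: A'', _, hch, hch' =>
    exfalso
    have e1 := (List.isChain_cons_cons.1 (List.isChain_cons_cons.1 hch).2).1
    have e2 := hch'.tail
    rw [List.tail_cons, List.isChain_reverse] at e2
    have e3 := (List.isChain_cons_cons.1 e2).1
    have e4 : a₁ < a₂ := e3.1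
    have e5 : a₂ < a₁ := e1.1
    omega

end Pool.Agent.KWG
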