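import Pool.Agent.KWG.P0b
import Pool.Agent.KWG.P1b
import Pool.Agent.KWG.P2a

/-!
# [KWG-P2b] in a shortest counterexample the right part has at most one move (mirror image of P2a)

Same proof as for `left_le_one` with left and right exchanged and `asc` instead of `desc`.  Every `y ∈ R`
satisfies `p < y` and `q < y` (as `p ≤ t < y`).

Proof.  Assume `R ≠ []`.
Step 1.  `Val X R` (from `h2`).  Apply `asc` to `R, X, p`.
 (2) a shorter `R'` with the same end as `R`: `R' ++ A` is valid from `X`, shorter, same end as `R ++ A`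
     (and as `A ++ R` by `fin_perm`): `Clm` gives the claim.
 (3) `x :: R'` a permutation of `R`, valid, not (`p < x ≤ p + m`): as `p < x`, `p + m < x`: far, so `p` is
     available in `fl m x X`; the list `R' ++ A` is valid from `fl m x X`, same end, shorter: `Clm`.
 (1) `p :: R` is an ascending chain.
Step 2.  Let `Y = fin m X (A ++ R)`.  The list `(A ++ R).reverse = R.reverse ++ A.reverse` is valid from
`Y` (`Val_rev`) and ends at `X` (`fin_rev`).  Apply `asc` to `R.reverse, Y, q` in the same way (with the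
roles of `p, q` and `X, Y` exchanged in `Clm`): `q :: R.reverse` is an ascending chain.
Step 3.  `R` and `R.reverse` are strictly increasing, so `R.length ≤ 1`: `R = [b]`, and the chains give
`p < b ≤ p + m`, `q < b ≤ q + m`.
-/

namespace Pool.Agent.KWG

theorem p2b_step {α : ℕ → Bool} {m : ℕ} {I : Set ℤ} {D : ℕ → Bool} {t : ℤ} {A R : List ℤ} {N : ℕ}
    (hC : Clm α m I D t N) (hN : A.length + R.length ≤ N) {X : ℤ → Bool} {p q : ℤ}
    (h2 : Val α m I X (R ++ A)) (hp : p ∈ I) (hq : q ∈ I)
    (hX : At α m X p) (hY : At α m (fin m X (R ++ A)) q) (hR : ∀ y ∈ R, t < y)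
    (h3 : p ≤ t) (h4 : t < p + m) (h5 : q ≤ t) (h6 : t < q + m) (hne : R ≠ []) :
    List.IsChain (fun x y : ℤ => x < y ∧ y ≤ x + m) (p :: R) ∨
      D (t - p).toNat = D (t - q).toNat := by
  obtain ⟨hVR, hVA⟩ := Val_append.1 h2
  rcases asc R X p hX hVR hne with h | ⟨L', hv, hf, hl⟩ | ⟨x, L', hperm, hval, hnot⟩
  · exact Or.inl h
  · right
    refine hC X (L' ++ A) p q ?_ ?_ hp hq hX ?_ h3 h4 h5 h6
    · rw [List.length_append]
      omega
    · refine Val_append.2 ⟨hv, ?_⟩
      rw [hf]
      exact hVA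
    · rw [fin_append, hf, ← fin_append]
      exact hY
  · right
    have hxR : x ∈ R := hperm.subset List.mem_cons_self
    have hxt := hR x hxR
    have hfar : p + m < x := by
      by_contra h7
      exact hnot ⟨by omega, by omega⟩
    obtain ⟨hx1, hx2, hx3⟩ : x ∈ I ∧ At α m X x ∧ Val α m I (fl m x X) L' := hval
    have hf : fin m (fl m x X) L' = fin m X R := fin_perm m hperm X
    have hlen := hperm.length_eq
    rw [List.length_cons] at hlen
    refine hC (fl m x X) (L' ++ A) p q ?_ ?_ hp hq ((At_fl_far (Or.inr hfar)).2 hX) ?_ h3 h4 h5 h6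
    · rw [List.length_append]
      omega
    · refine Val_append.2 ⟨hx3, ?_⟩
      rw [hf]
      exact hVA
    · rw [fin_append, hf, ← fin_append]
      exact hY

theorem right_le_one {α : ℕ → Bool} {m : ℕ} {I : Set ℤ} {D : ℕ → Bool} {t : ℤ} {A R : List ℤ}
    (hC : Clm α m I D t (A ++ R).length) {X : ℤ → Bool} {p q : ℤ}
    (h1 : Val α m I X (A ++ R)) (h2 : Val α m I X (R ++ A)) (hp : p ∈ I) (hq : q ∈ I)
    (hX : At α m X p) (hY : At α m (fin m X (A ++ R)) q) (hR : ∀ y ∈ R, t < y)
    (h3 : p ≤ t) (h4 : t < p + m) (h5 : q ≤ t) (h6 : t < q + m) :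
    D (t - p).toNat = D (t - q).toNat ∨ R = [] ∨
      ∃ b, R = [b] ∧ p < b ∧ b ≤ p + m ∧ q < b ∧ b ≤ q + m := by
  by_cases hne : R = []
  · exact Or.inr (Or.inl hne)
  have hfin : fin m X (R ++ A) = fin m X (A ++ R) := fin_perm m List.perm_append_comm X
  have hlen : (A ++ R).length = A.length + R.length := List.length_append
  have s1 := p2b_step hC (A := A) (R := R) hlen.ge h2 hp hq hX (by rw [hfin]; exact hY) hR
    h3 h4 h5 h6 hne
  rcases s1 with s1 | s1
  swap
  · exact Or.inl s1
  have hrev : (A ++ R).reverse = R.reverse ++ A.reverse := List.reverse_append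
  have hV2 : Val α m I (fin m X (A ++ R)) (R.reverse ++ A.reverse) := by
    rw [← hrev]
    exact Val_rev h1
  have hF2 : fin m (fin m X (A ++ R)) (R.reverse ++ A.reverse) = X := by
    rw [← hrev]
    exact fin_rev m X (A ++ R)
  have hlen2 : A.reverse.length + R.reverse.length ≤ (A ++ R).length := by
    rw [List.length_reverse, List.length_reverse, hlen]
  have s2 := p2b_step hC (A := A.reverse) (R := R.reverse) hlen2 hV2 hq hp hY
    (by rw [hF2]; exact hX) (fun y hy => hR y (List.mem_reverse.1 hy)) h5 h6 h3 h4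
    (fun h => hne (List.reverse_eq_nil_iff.1 h))
  rcases s2 with s2 | s2
  swap
  · exact Or.inl s2.symm
  right; right
  match R, s1, s2, hne with
  | [], _, _, hne => exact absurd rfl hne
  | [b], s1, s2, _ =>
    have k1 := (List.isChain_cons_cons.1 s1).1
    have k2 := (List.isChain_cons_cons.1 s2).1
    exact ⟨b, rfl, k1.1, k1.2, k2.1, k2.2⟩
  | b₁ :: b₂ :: R', s1, s2, _ =>
    exfalso
    have k1 := (List.isChain_cons_cons.1 (List.isChain_cons_cons.1 s1).2).1
    have k2 : List.IsChain (fun x y : ℤ => x < y ∧ y ≤ x + m) (b₁ :: b₂ :: R').reverse := by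
      have h := s2.tail
      exact h
    rw [List.isChain_reverse] at k2
    have k3 := (List.isChain_cons_cons.1 k2).1
    have k4 : b₂ < b₁ := k3.1
    have k5 : b₁ < b₂ := k1.1
    omega

end Pool.Agent.KWG
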