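import Pool.Agent.KWG.P0
import Pool.Agent.KWG.W4

/-!
# [KWG-P3a] lists whose consecutive moves are in conflict

`L` is valid from `X`, consecutive windows of `L` are in conflict.  If `s` is available in `X` and the first
window `r` of `L` satisfies `r < s ≤ r + m`, then the whole list `s :: L` goes down.

Proof by induction on `L` (`X, s` general).  `L = r :: L'`; if `L' = []` nothing is left.  If
`L' = r' :: L''`: `r'` is available in `fl m r X` and in conflict with `r`; by `noRight` (`r < s ≤ r + m`,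
both available in `X`) not `r < r' ≤ r + m`, so `r' < r ≤ r' + m`; apply the induction hypothesis to
`fl m r X`, `r`, `L'` (`At_fl_self`).
`ascT`: mirror image, with `noLeft` (`s < r ≤ s + m`, both available in `X`, so the window `r'` with
`r' < r ≤ r' + m` is not available in `fl m r X`).
-/

namespace Pool.Agent.KWG

theorem descT {α : ℕ → Bool} {m : ℕ} {I : Set ℤ} (L : List ℤ) (X : ℤ → Bool) (s : ℤ)
    (hs : At α m X s) (hL : Val α m I X L)
    (hc : List.IsChain (fun x y : ℤ => (x < y ∧ y ≤ x + m) ∨ (y < x ∧ x ≤ y + m)) L)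
    (hr : ∀ r L', L = r :: L' → r < s ∧ s ≤ r + m) :
    List.IsChain (fun x y : ℤ => y < x ∧ x ≤ y + m) (s :: L) := by
  induction L generalizing X s with
  | nil => exact List.IsChain.singleton s
  | cons r L ih =>
    have h0 := hr r L rfl
    rw [List.isChain_cons_cons]
    refine ⟨h0, ih (fl m r X) r (At_fl_self.2 hL.2.1) hL.2.2 hc.tail ?_⟩
    rintro r' L' rfl
    have h1 := (List.isChain_cons_cons.1 hc).1
    have h2 : At α m (fl m r X) r' := hL.2.2.2.1
    rcases h1 with h1 | h1
    · exact absurd h2 (noRight hL.2.1 hs h0.1 h0.2 h1.1 h1.2)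
    · exact h1

theorem ascT {α : ℕ → Bool} {m : ℕ} {I : Set ℤ} (L : List ℤ) (X : ℤ → Bool) (s : ℤ)
    (hs : At α m X s) (hL : Val α m I X L)
    (hc : List.IsChain (fun x y : ℤ => (x < y ∧ y ≤ x + m) ∨ (y < x ∧ x ≤ y + m)) L)
    (hr : ∀ r L', L = r :: L' → s < r ∧ r ≤ s + m) :
    List.IsChain (fun x y : ℤ => x < y ∧ y ≤ x + m) (s :: L) := by
  induction L generalizing X s with
  | nil => exact List.IsChain.singleton s
  | cons r L ih =>
    have h0 := hr r L rfl
    rw [List.isChain_cons_cons]
    refine ⟨h0, ih (fl m r X) r (At_fl_self.2 hL.2.1) hL.2.2 hc.tail ?_⟩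
    rintro r' L' rfl
    have h1 := (List.isChain_cons_cons.1 hc).1
    have h2 : At α m (fl m r X) r' := hL.2.2.2.1
    rcases h1 with h1 | h1
    · exact h1
    · exact absurd h2 (noLeft hs hL.2.1 h0.1 h0.2 h1.1 h1.2)

end Pool.Agent.KWG
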