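import Pool.Agent.KWG.P2
import Pool.Agent.KWG.P3a

/-!
# [KWG-P3] propagation of `D` along lists whose consecutive moves are in conflict (only `H1` is needed)

Proof by strong induction on `L.length` (`X, L, p, q` general, `t` fixed).
(a) `L = []`: `zeroP`.
(b) If some `r ∈ L` covers `t` (`r ≤ t < r + m`): write `L = L1 ++ r :: L2` (`List.append_of_mem`); `L1` and
    `L2` are shorter, valid (`Val_split`) and have consecutive conflicts; the induction hypothesis gives
    `D (t - p) = D (t - r)` (from `X`, `L1`) and `D (t - r) = D (t - q)` (from `fl m r (fin m X L1)`, `L2`,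
    where `r` is available).
(c) Let `r` be the first window.  If `p = r`, or `p` is far from `r` (`p + m < r` or `r + m < p`), then `p`
    is available in `fl m r X` and the induction hypothesis applies to the tail.  In the same way with the
    last window `r'` and `q`: `L = L1 ++ [r']`; `fin m X L = fl m r' (fin m X L1)`; if `q = r'` or `q` is far
    from `r'` then `q` is available in `fin m X L1` (`At_fl_self`, `At_fl_far`).
(d) Now `r` (first) is in conflict with `p`, `r'` (last) is in conflict with `q`, and every element of `L`
    is of left type (`x + m ≤ t`) or right type (`t < x`).  A left type and a right type window are far, so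
    by the chain condition all the elements have the same type.
    All left: all elements are `< p` and `< q`.  `descT` gives that `p :: L` is a descending chain; `descT`
    applied to the end word `Y = fin m X L`, the reversed list (`Val_rev`; the conflict relation is
    symmetric so the reversed list has consecutive conflicts) and `q` gives that `q :: L.reverse` is a
    descending chain.  So `L` and `L.reverse` are strictly decreasing and `L = [r]`.  Then
    `r < p ≤ r + m`, both available in `X`, and `r < q ≤ r + m`, `q` available in `fl m r X`: contradiction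
    to `noRight`.
    All right: symmetric, with `ascT` and `noLeft`.
-/

namespace Pool.Agent.KWG

theorem p3_left {m : ℕ} {t : ℤ} : ∀ L : List ℤ,
    List.IsChain (fun x y : ℤ => (x < y ∧ y ≤ x + m) ∨ (y < x ∧ x ≤ y + m)) L →
    (∀ x ∈ L, x + m ≤ t ∨ t < x) → (∀ r L', L = r :: L' → r + m ≤ t) → ∀ x ∈ L, x + m ≤ t
  | [], _, _, _ => fun x hx => absurd hx List.not_mem_nil
  | [a], _, _, h => fun x hx => by
    rw [List.mem_singleton.1 hx]
    exact h a [] rfl
  | a :: b :: L, hc, h2, h => fun x hx => by
    have ha := h a _ rfl
    rcases List.mem_cons.1 hx with hx | hx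
    · rw [hx]; exact ha
    · have hc1 := (List.isChain_cons_cons.1 hc).1
      refine p3_left (b :: L) (List.isChain_cons_cons.1 hc).2
        (fun y hy => h2 y (List.mem_cons_of_mem _ hy)) (fun r L' e => ?_) x hx
      have hb := h2 b (List.mem_cons_of_mem _ List.mem_cons_self)
      have e1 : b = r := (List.cons.inj e).1
      subst e1
      omega

theorem p3_right {m : ℕ} {t : ℤ} : ∀ L : List ℤ,
    List.IsChain (fun x y : ℤ => (x < y ∧ y ≤ x + m) ∨ (y < x ∧ x ≤ y + m)) L →
    (∀ x ∈ L, x + m ≤ t ∨ t < x) → (∀ r L', L = r :: L' → t < r) → ∀ x ∈ L, t < x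
  | [], _, _, _ => fun x hx => absurd hx List.not_mem_nil
  | [a], _, _, h => fun x hx => by
    rw [List.mem_singleton.1 hx]
    exact h a [] rfl
  | a :: b :: L, hc, h2, h => fun x hx => by
    have ha := h a _ rfl
    rcases List.mem_cons.1 hx with hx | hx
    · rw [hx]; exact ha
    · have hc1 := (List.isChain_cons_cons.1 hc).1
      refine p3_right (b :: L) (List.isChain_cons_cons.1 hc).2
        (fun y hy => h2 y (List.mem_cons_of_mem _ hy)) (fun r L' e => ?_) x hx
      have hb := h2 b (List.mem_cons_of_mem _ List.mem_cons_self)
      have e1 : b = r := (List.cons.inj e).1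
      subst e1
      omega

/-- a chain going down in both directions has at most one element -/
theorem p3_single {R : ℤ → ℤ → Prop} (hR : ∀ x y, R x y → R y x → False) {L : List ℤ} {p q : ℤ}
    (h1 : List.IsChain R (p :: L)) (h2 : List.IsChain R (q :: L.reverse)) :
    L = [] ∨ ∃ r, L = [r] := by
  match L, h1, h2 with
  | [], _, _ => exact Or.inl rfl
  | [r], _, _ => exact Or.inr ⟨r, rfl⟩
  | a :: b :: L, h1, h2 =>
    exfalso
    have k1 : R a b := (List.isChain_cons_cons.1 (List.isChain_cons_cons.1 h1).2).1
    have k2 : List.IsChain R (a :: b :: L).reverse := h2.tail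
    rw [List.isChain_reverse] at k2
    exact hR a b k1 (List.isChain_cons_cons.1 k2).1

theorem treeP {α : ℕ → Bool} {m : ℕ} {I : Set ℤ} {D : ℕ → Bool}
    (H1 : ∀ (Y : ℤ → Bool) (p : ℤ) (d : ℕ), p ∈ I → p + d ∈ I → At α m Y p → At α m Y (p + d) →
      1 ≤ d → d ≤ m → Per D m d)
    {X : ℤ → Bool} {L : List ℤ} (hL : Val α m I X L)
    (hc : List.IsChain (fun x y : ℤ => (x < y ∧ y ≤ x + m) ∨ (y < x ∧ x ≤ y + m)) L)
    {p q t : ℤ} (hp : p ∈ I) (hq : q ∈ I) (hX : At α m X p) (hY : At α m (fin m X L) q)
    (h3 : p ≤ t) (h4 : t < p + m) (h5 : q ≤ t) (h6 : t < q + m) :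
    D (t - p).toNat = D (t - q).toNat := by
  have main : ∀ n : ℕ, ∀ (L : List ℤ) (X : ℤ → Bool) (p q : ℤ), L.length = n →
      Val α m I X L →
      List.IsChain (fun x y : ℤ => (x < y ∧ y ≤ x + m) ∨ (y < x ∧ x ≤ y + m)) L →
      p ∈ I → q ∈ I → At α m X p → At α m (fin m X L) q → p ≤ t → t < p + m → q ≤ t →
      t < q + m → D (t - p).toNat = D (t - q).toNat := by
    intro n
    induction n using Nat.strong_induction_on with
    | _ n ih =>
    intro L X p q hn hL hc hp hq hX hY h3 h4 h5 h6
    by_cases hnil : L = []
    · subst hnil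
      exact zeroP H1 hp hq hX hY h3 h4 h5 h6
    by_cases hcov : ∃ r ∈ L, r ≤ t ∧ t < r + m
    · obtain ⟨r, hr, hr1, hr2⟩ := hcov
      obtain ⟨L1, L2, rfl⟩ := List.append_of_mem hr
      obtain ⟨v1, v2, v3, v4⟩ := Val_split hL
      rw [List.length_append, List.length_cons] at hn
      have e1 := ih L1.length (by omega) L1 X p r rfl v1 hc.left_of_append hp v2 hX v3 h3 h4 hr1 hr2
      have hY' : At α m (fin m (fl m r (fin m X L1)) L2) q := by
        rw [fin_append] at hY
        exact hY
      have e2 := ih L2.length (by omega) L2 (fl m r (fin m X L1)) r q rfl v4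
        hc.right_of_append.tail v2 hq (At_fl_self.2 v3) hY' hr1 hr2 h5 h6
      rw [e1, e2]
    by_cases hfirst : ∀ r L', L = r :: L' → (p < r ∧ r ≤ p + m) ∨ (r < p ∧ p ≤ r + m)
    swap
    · push Not at hfirst
      obtain ⟨r, L', rfl, hf1, hf2⟩ := hfirst
      obtain ⟨v1, v2, v3⟩ : r ∈ I ∧ At α m X r ∧ Val α m I (fl m r X) L' := hL
      have hX' : At α m (fl m r X) p := by
        rcases lt_trichotomy p r with h | h | h
        · exact (At_fl_far (Or.inr (hf1 h))).2 hX
        · subst h
          exact At_fl_self.2 hX
        · exact (At_fl_far (Or.inl (hf2 h))).2 hX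
      rw [List.length_cons] at hn
      exact ih L'.length (by omega) L' (fl m r X) p q rfl v3 hc.tail hp hq hX' hY h3 h4 h5 h6
    by_cases hlast : ∀ r L', L.reverse = r :: L' → (q < r ∧ r ≤ q + m) ∨ (r < q ∧ q ≤ r + m)
    swap
    · push Not at hlast
      obtain ⟨r, L', hL', hf1, hf2⟩ := hlast
      have e1 : L = L'.reverse ++ [r] := by
        have e2 := congrArg List.reverse hL'
        rw [List.reverse_reverse, List.reverse_cons] at e2
        exact e2
      rw [e1] at hL hc hY hn
      obtain ⟨v1, v2, v3, v4⟩ := Val_split hL
      rw [fin_append] at hY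
      have hY1 : At α m (fl m r (fin m X L'.reverse)) q := hY
      have hY' : At α m (fin m X L'.reverse) q := by
        rcases lt_trichotomy q r with h | h | h
        · exact (At_fl_far (Or.inr (hf1 h))).1 hY1
        · subst h
          exact At_fl_self.1 hY1
        · exact (At_fl_far (Or.inl (hf2 h))).1 hY1
      rw [List.length_append, List.length_singleton] at hn
      exact ih L'.reverse.length (by omega) L'.reverse X p q rfl v1 hc.left_of_append hp hq hX hY'
        h3 h4 h5 h6
    -- now the final contradiction
    exfalso
    have htype : ∀ x ∈ L, x + m ≤ t ∨ t < x := by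
      intro x hx
      by_contra h
      exact hcov ⟨x, hx, by omega, by omega⟩
    have hcr : List.IsChain (fun x y : ℤ => (x < y ∧ y ≤ x + m) ∨ (y < x ∧ x ≤ y + m))
        L.reverse := by
      rw [List.isChain_reverse]
      refine hc.imp fun x y h => ?_
      exact h.symm
    have hVr : Val α m I (fin m X L) L.reverse := Val_rev hL
    obtain ⟨r, L', hr⟩ := List.exists_cons_of_ne_nil hnil
    have hrL : r ∈ L := by
      rw [hr]
      exact List.mem_cons_self
    have hmem : ∀ r' L'', L.reverse = r' :: L'' → r' ∈ L := fun r' L'' e => by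
      rw [← List.mem_reverse, e]
      exact List.mem_cons_self
    rcases htype r hrL with hrt | hrt
    · have hall : ∀ x ∈ L, x + m ≤ t := p3_left L hc htype fun r' L'' e => by
        rw [hr] at e
        rw [← (List.cons.inj e).1]
        exact hrt
      have c1 := descT L X p hX hL hc fun r' L'' e => by
        have h7 := hfirst r' L'' e
        have h8 := hall r' (by rw [e]; exact List.mem_cons_self)
        omega
      have c2 := descT L.reverse (fin m X L) q hY hVr hcr fun r' L'' e => by
        have h7 := hlast r' L'' e
        have h8 := hall r' (hmem r' L'' e)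
        omega
      rcases p3_single (fun x y h h' => by omega) c1 c2 with h7 | ⟨a, h7⟩
      · exact hnil h7
      · subst h7
        have k1 := (List.isChain_cons_cons.1 c1).1
        have k2 : a < q ∧ q ≤ a + m := (List.isChain_cons_cons.1 c2).1
        have hva : At α m X a := (show a ∈ I ∧ At α m X a ∧ Val α m I (fl m a X) [] from hL).2.1
        exact noRight hva hX k1.1 k1.2 k2.1 k2.2 hY
    · have hall : ∀ x ∈ L, t < x := p3_right L hc htype fun r' L'' e => by
        rw [hr] at e
        rw [← (List.cons.inj e).1]
        exact hrt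
      have c1 := ascT L X p hX hL hc fun r' L'' e => by
        have h7 := hfirst r' L'' e
        have h8 := hall r' (by rw [e]; exact List.mem_cons_self)
        omega
      have c2 := ascT L.reverse (fin m X L) q hY hVr hcr fun r' L'' e => by
        have h7 := hlast r' L'' e
        have h8 := hall r' (hmem r' L'' e)
        omega
      rcases p3_single (fun x y h h' => by omega) c1 c2 with h7 | ⟨a, h7⟩
      · exact hnil h7
      · subst h7
        have k1 := (List.isChain_cons_cons.1 c1).1
        have k2 : q < a ∧ a ≤ q + m := (List.isChain_cons_cons.1 c2).1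
        have hva : At α m X a := (show a ∈ I ∧ At α m X a ∧ Val α m I (fl m a X) [] from hL).2.1
        exact noLeft hX hva k1.1 k1.2 k2.1 k2.2 hY
  exact main L.length L X p q rfl hL hc hp hq hX hY h3 h4 h5 h6

end Pool.Agent.KWG
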