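import Pool.Agent.KWG.P2

/-!
# [KWG-P4] propagation of `D` inside a square

`oneP`: one move `r`.  If `p = r` or `p` far from `r`: `p` is available in `fl m r X`: `zeroP` there.  If
`q = r` or `q` far from `r`: `q` is available in `X` (`At_fl_self`, `At_fl_far`): `zeroP` in `X`.  Otherwise
`p` and `q` are in conflict with `r`.  If `p < r` (so `p < r ≤ p + m`, both available in `X`): by `noLeft`
not `q < r ≤ q + m`, so `r < q ≤ r + m`.  Then `p < r < q`, and `t` is covered by `r`
(`r < q ≤ t < p + m < r + m`): `zeroP` in `X` for `p, r` and in `fl m r X` for `r, q`.  If `r < p`: by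
`noRight` `q < r`, and `q < r < p`, again `t` is covered by `r`.

`sqP`: the far moves `l`, `r` (`l + m < r`), `p` available in `X`, `q` available in
`Y = fl m r (fl m l X)`.  `l` and `r` are available in `X`, `fl m l X`, `fl m r X`, `Y` (`At_fl_self`,
`At_fl_far`).
 * If `p = l` or `p` far from `l`: `p` is available in `fl m l X`; `oneP` from `fl m l X` with the move `r`.
   If `p = r` or `p` far from `r`: `p` is available in `fl m r X`; `oneP` from `fl m r X` with the move `l`
   (`fl_comm`).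
 * If `q = r` or `q` far from `r`: `q` is available in `fl m l X`: `oneP` from `X` with the move `l`.
   If `q = l` or `q` far from `l`: `q` is available in `fl m r X`: `oneP` from `X` with the move `r`.
 * Otherwise `p` and `q` are in conflict with both `l` and `r`; as `l + m < r` this forces `l < p < r`,
   `l < q < r`, `p, q ≤ l + m`, `r ≤ p + m`, `r ≤ q + m`.
   - `t < l + m`: `t` is covered by `l`: `zeroP` in `X` (`p, l`) and in `Y` (`l, q`).
   - `r ≤ t`: `t` is covered by `r`: same.
   - otherwise: `p = q` trivial; `r = l + m + 1`: the words `X` and `Y` agree on the letters of the window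
     `q` (flipped letters: `l - 1 < q`, `l + m` twice, `r + m ≥ q + m`), so `q` is available in `X`: `zeroP`;
     `r ≥ l + m + 2`: `H2` or `H2'`.
-/

namespace Pool.Agent.KWG

theorem p4_keep {α : ℕ → Bool} {m : ℕ} {X : ℤ → Bool} {r p : ℤ}
    (h : p = r ∨ r + m < p ∨ p + m < r) : At α m (fl m r X) p ↔ At α m X p := by
  rcases h with h | h
  · rw [h]
    exact At_fl_self
  · exact At_fl_far h

theorem oneP {α : ℕ → Bool} {m : ℕ} {I : Set ℤ} {D : ℕ → Bool}
    (H1 : ∀ (Y : ℤ → Bool) (p : ℤ) (d : ℕ), p ∈ I → p + d ∈ I → At α m Y p → At α m Y (p + d) →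
      1 ≤ d → d ≤ m → Per D m d)
    {X : ℤ → Bool} {r p q t : ℤ} (hr : r ∈ I) (hp : p ∈ I) (hq : q ∈ I) (hXr : At α m X r)
    (hX : At α m X p) (hY : At α m (fl m r X) q)
    (h3 : p ≤ t) (h4 : t < p + m) (h5 : q ≤ t) (h6 : t < q + m) :
    D (t - p).toNat = D (t - q).toNat := by
  by_cases a1 : p = r ∨ r + m < p ∨ p + m < r
  · exact zeroP H1 hp hq ((p4_keep a1).2 hX) hY h3 h4 h5 h6
  by_cases a2 : q = r ∨ r + m < q ∨ q + m < r
  · exact zeroP H1 hp hq hX ((p4_keep a2).1 hY) h3 h4 h5 h6
  rcases lt_trichotomy p r with h | h | h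
  · have h7 : r < q := by
      by_contra hcon
      exact noLeft hX hXr h (by omega) (by omega) (by omega) hY
    exact (zeroP H1 hp hr hX hXr h3 h4 (by omega) (by omega)).trans
      (zeroP H1 hr hq (At_fl_self.2 hXr) hY (by omega) (by omega) h5 h6)
  · exact absurd (Or.inl h) a1
  · have h7 : q < r := by
      by_contra hcon
      exact noRight hXr hX h (by omega) (by omega) (by omega) hY
    exact (zeroP H1 hp hr hX hXr h3 h4 (by omega) (by omega)).trans
      (zeroP H1 hr hq (At_fl_self.2 hXr) hY (by omega) (by omega) h5 h6)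

theorem sqP {α : ℕ → Bool} {m : ℕ} {I : Set ℤ} {D : ℕ → Bool}
    (H1 : ∀ (Y : ℤ → Bool) (p : ℤ) (d : ℕ), p ∈ I → p + d ∈ I → At α m Y p → At α m Y (p + d) →
      1 ≤ d → d ≤ m → Per D m d)
    {X : ℤ → Bool} {l r p q t : ℤ} (hl : l ∈ I) (hr : r ∈ I) (hp : p ∈ I) (hq : q ∈ I)
    (hlr : l + m < r) (hXl : At α m X l) (hXr : At α m X r) (hX : At α m X p)
    (hY : At α m (fl m r (fl m l X)) q)
    (H2 : ∀ δ : ℕ, p = q + δ → 1 ≤ δ → l < q → p ≤ l + m → p < r → r ≤ q + m → l + m + 2 ≤ r →
      Per D m δ)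
    (H2' : ∀ δ : ℕ, q = p + δ → 1 ≤ δ → l < p → q ≤ l + m → q < r → r ≤ p + m → l + m + 2 ≤ r →
      Per D m δ)
    (h3 : p ≤ t) (h4 : t < p + m) (h5 : q ≤ t) (h6 : t < q + m) :
    D (t - p).toNat = D (t - q).toNat := by
  have f1 : At α m (fl m l X) r := (p4_keep (by omega)).2 hXr
  have f2 : At α m (fl m r X) l := (p4_keep (by omega)).2 hXl
  by_cases a1 : p = l ∨ l + m < p ∨ p + m < l
  · exact oneP H1 hr hp hq f1 ((p4_keep a1).2 hX) hY h3 h4 h5 h6
  by_cases a2 : p = r ∨ r + m < p ∨ p + m < r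
  · rw [fl_comm] at hY
    exact oneP H1 hl hp hq f2 ((p4_keep a2).2 hX) hY h3 h4 h5 h6
  by_cases a3 : q = r ∨ r + m < q ∨ q + m < r
  · exact oneP H1 hl hp hq hXl hX ((p4_keep a3).1 hY) h3 h4 h5 h6
  by_cases a4 : q = l ∨ l + m < q ∨ q + m < l
  · rw [fl_comm] at hY
    exact oneP H1 hr hp hq hXr hX ((p4_keep a4).1 hY) h3 h4 h5 h6
  have hYl : At α m (fl m r (fl m l X)) l := (p4_keep (by omega)).2 (At_fl_self.2 hXl)
  have hYr : At α m (fl m r (fl m l X)) r := At_fl_self.2 f1
  by_cases b1 : t < l + m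
  · exact (zeroP H1 hp hl hX hXl h3 h4 (by omega) b1).trans
      (zeroP H1 hl hq hYl hY (by omega) b1 h5 h6)
  by_cases b2 : r ≤ t
  · exact (zeroP H1 hp hr hX hXr h3 h4 b2 (by omega)).trans
      (zeroP H1 hr hq hYr hY b2 (by omega) h5 h6)
  by_cases b3 : r = l + m + 1
  · have hXq : At α m X q := by
      refine (At_congr ?_).1 hY
      intro t' ht1 ht2
      by_cases e : t' = l + m
      · subst e
        have e1 : l + (m : ℤ) = r - 1 := by omega
        rw [e1, fl_left, ← e1, fl_right, Bool.not_not]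
      · rw [fl_of_ne (by omega) (by omega), fl_of_ne (by omega) (by omega)]
    exact zeroP H1 hp hq hX hXq h3 h4 h5 h6
  rcases lt_trichotomy p q with h | h | h
  · have hP := H2' (q - p).toNat (by omega) (by omega) (by omega) (by omega) (by omega) (by omega)
      (by omega)
    have h7 := hP (t - q).toNat (by omega)
    have e : (t - q).toNat + (q - p).toNat = (t - p).toNat := by omega
    rw [e] at h7
    exact h7.symm
  · rw [h]
  · have hP := H2 (p - q).toNat (by omega) (by omega) (by omega) (by omega) (by omega) (by omega)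
      (by omega)
    have h7 := hP (t - p).toNat (by omega)
    have e : (t - p).toNat + (p - q).toNat = (t - q).toNat := by omega
    rw [e] at h7
    exact h7

end Pool.Agent.KWG
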