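import Pool.Agent.KWG.C2

/-!
# [KWG-Q0] squares: finite set facts

`S4 l r = {∅, {l}, {r}, {l, r}}`, `T4 l r = S4 l r ×ˢ {l, r}`.  `S4 l r` is the set of all subsets of
`{l, r}` (`mem_S4`), so it is closed under symmetric differences.  The four elements are different if
`l ≠ r`.  `Sta (T4 l r) = S4 l r`: first components, `∅` is one of them.
`T4_good`: states are subsets of `{l, r} ⊆ Wi`; `(F ∆ {x}, x)` stays in `T4`; `RT`: `∅`, then `{l} = ∅ ∆ {l}`,
`{r} = ∅ ∆ {r}`, `{l, r} = {l} ∆ {r}`.
`T4_not_CO`: the state `∅`, windows `l < r`, not `r ≤ l + m`.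
`T4_inj`: the second components of `T4 l r` are `{l, r}`.
`S4_diff`: two states differ by `∅`, `{l}`, `{r}` or `{l, r}`.
-/

namespace Pool.Agent.KWG

open Finset
open scoped symmDiff

theorem mem_S4 {l r : ℤ} {F : Finset ℤ} : F ∈ S4 l r ↔ F ⊆ {l, r} := by
  unfold S4
  simp only [Finset.mem_insert, Finset.mem_singleton]
  constructor
  · rintro (h | h | h | h)
    · rw [h]
      exact Finset.empty_subset _
    · rw [h]
      intro x hx
      rw [Finset.mem_singleton] at hx
      rw [hx]
      exact Finset.mem_insert_self _ _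
    · rw [h]
      intro x hx
      rw [Finset.mem_singleton] at hx
      rw [hx]
      exact Finset.mem_insert_of_mem (Finset.mem_singleton_self _)
    · rw [h]
  · intro h
    by_cases hl : l ∈ F
    · by_cases hr : r ∈ F
      · right
        right
        right
        refine Finset.Subset.antisymm h ?_
        intro x hx
        rw [Finset.mem_insert, Finset.mem_singleton] at hx
        rcases hx with hx | hx
        · rw [hx]
          exact hl
        · rw [hx]
          exact hr
      · right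
        left
        refine Finset.Subset.antisymm ?_ (Finset.singleton_subset_iff.2 hl)
        intro x hx
        have h1 := h hx
        rw [Finset.mem_insert, Finset.mem_singleton] at h1
        rcases h1 with h1 | h1
        · rw [h1]
          exact Finset.mem_singleton_self _
        · exfalso
          rw [h1] at hx
          exact hr hx
    · by_cases hr : r ∈ F
      · right
        right
        left
        refine Finset.Subset.antisymm ?_ (Finset.singleton_subset_iff.2 hr)
        intro x hx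
        have h1 := h hx
        rw [Finset.mem_insert, Finset.mem_singleton] at h1
        rcases h1 with h1 | h1
        · exfalso
          rw [h1] at hx
          exact hl hx
        · rw [h1]
          exact Finset.mem_singleton_self _
      · left
        refine Finset.eq_empty_of_forall_notMem ?_
        intro x hx
        have h1 := h hx
        rw [Finset.mem_insert, Finset.mem_singleton] at h1
        rcases h1 with h1 | h1
        · rw [h1] at hx
          exact hl hx
        · rw [h1] at hx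
          exact hr hx

theorem S4_symm {l r : ℤ} {F G : Finset ℤ} (hF : F ∈ S4 l r) (hG : G ∈ S4 l r) : F ∆ G ∈ S4 l r := by
  rw [mem_S4] at hF hG ⊢
  intro x hx
  rw [Finset.mem_symmDiff] at hx
  rcases hx with ⟨h, _⟩ | ⟨h, _⟩
  · exact hF h
  · exact hG h

theorem S4_card {l r : ℤ} (h : l ≠ r) : (S4 l r).card = 4 := by
  have h1 : S4 l r = ({l, r} : Finset ℤ).powerset := by
    ext F
    rw [mem_S4, Finset.mem_powerset]
  rw [h1, Finset.card_powerset, Finset.card_pair h]
  norm_num

theorem mem_T4 {l r : ℤ} {x : Finset ℤ × ℤ} : x ∈ T4 l r ↔ x.1 ∈ S4 l r ∧ (x.2 = l ∨ x.2 = r) := by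
  unfold T4
  rw [Finset.mem_product, Finset.mem_insert, Finset.mem_singleton]

private theorem q0_empty (l r : ℤ) : (∅ : Finset ℤ) ∈ S4 l r := mem_S4.2 (Finset.empty_subset _)

theorem Sta_T4 (l r : ℤ) : Sta (T4 l r) = S4 l r := by
  unfold Sta
  ext F
  rw [Finset.mem_insert, Finset.mem_image]
  constructor
  · rintro (h | ⟨x, hx, h⟩)
    · rw [h]
      exact q0_empty l r
    · rw [← h]
      exact (mem_T4.1 hx).1
  · intro h
    right
    exact ⟨(F, l), mem_T4.2 ⟨h, Or.inl rfl⟩, rfl⟩

private theorem q0_single_l (l r : ℤ) : ({l} : Finset ℤ) ∈ S4 l r := by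
  unfold S4
  simp

private theorem q0_single_r (l r : ℤ) : ({r} : Finset ℤ) ∈ S4 l r := by
  unfold S4
  simp

private theorem q0_pair {l r : ℤ} (h : l ≠ r) : ({l} : Finset ℤ) ∆ {r} = {l, r} := by
  ext x
  simp only [Finset.mem_symmDiff, Finset.mem_singleton, Finset.mem_insert]
  omega

private theorem q0_emp (l : ℤ) : (∅ : Finset ℤ) ∆ {l} = {l} := by
  ext x
  simp [Finset.mem_symmDiff]

private theorem q0_RT {l r : ℤ} {F : Finset ℤ} (h : F ∈ S4 l r) : RT (T4 l r) F := by
  have h0 : RT (T4 l r) ∅ := RT.zero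
  have hl : RT (T4 l r) {l} := by
    have h1 := RT.step h0 (mem_T4.2 ⟨q0_empty l r, Or.inl rfl⟩ : ((∅ : Finset ℤ), l) ∈ T4 l r)
    rwa [q0_emp] at h1
  have hr : RT (T4 l r) {r} := by
    have h1 := RT.step h0 (mem_T4.2 ⟨q0_empty l r, Or.inr rfl⟩ : ((∅ : Finset ℤ), r) ∈ T4 l r)
    rwa [q0_emp] at h1
  unfold S4 at h
  simp only [Finset.mem_insert, Finset.mem_singleton] at h
  rcases h with h | h | h | h
  · rw [h]
    exact h0
  · rw [h]
    exact hl
  · rw [h]
    exact hr
  · rw [h]
    by_cases hlr : l = r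
    · have h5 : ({l, r} : Finset ℤ) = {r} := by
        rw [hlr, Finset.pair_eq_singleton]
      rw [h5]
      exact hr
    · have h1 := RT.step hl (mem_T4.2 ⟨q0_single_l l r, Or.inr rfl⟩ : ({l}, r) ∈ T4 l r)
      rwa [q0_pair hlr] at h1

theorem T4_good {m n : ℕ} {l r : ℤ} (hl : l ∈ Wi n m) (hr : r ∈ Wi n m) :
    Good m n (T4 l r) := by
  intro x hx
  rw [mem_T4] at hx
  obtain ⟨h1, h2⟩ := hx
  refine ⟨?_, ?_, ?_, q0_RT h1⟩
  · intro y hy
    have h3 := mem_S4.1 h1 hy
    rw [Finset.mem_insert, Finset.mem_singleton] at h3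
    rcases h3 with h3 | h3
    · rw [h3]
      exact hl
    · rw [h3]
      exact hr
  · rcases h2 with h3 | h3
    · rw [h3]
      exact hl
    · rw [h3]
      exact hr
  · refine mem_T4.2 ⟨S4_symm h1 ?_, h2⟩
    rcases h2 with h3 | h3
    · rw [h3]
      exact q0_single_l l r
    · rw [h3]
      exact q0_single_r l r

theorem T4_not_CO {m : ℕ} {l r : ℤ} (h : l + m < r) : ¬ CO m (T4 l r) := by
  intro hc
  have h1 := hc ∅ l r (mem_T4.2 ⟨q0_empty l r, Or.inl rfl⟩) (mem_T4.2 ⟨q0_empty l r, Or.inr rfl⟩)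
    (by omega)
  omega

theorem T4_inj {l r l' r' : ℤ} (h1 : l < r) (h2 : l' < r') (h : T4 l r = T4 l' r') :
    l = l' ∧ r = r' := by
  have a1 : ((∅ : Finset ℤ), l) ∈ T4 l' r' := by
    rw [← h]
    exact mem_T4.2 ⟨q0_empty l r, Or.inl rfl⟩
  have a2 : ((∅ : Finset ℤ), r) ∈ T4 l' r' := by
    rw [← h]
    exact mem_T4.2 ⟨q0_empty l r, Or.inr rfl⟩
  have b1 := (mem_T4.1 a1).2
  have b2 := (mem_T4.1 a2).2
  simp only at b1 b2
  omega

theorem S4_diff {l r : ℤ} {F G : Finset ℤ} (hF : F ∈ S4 l r) (hG : G ∈ S4 l r) :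
    G = F ∨ G = F ∆ {l} ∨ G = F ∆ {r} ∨ G = F ∆ {l, r} := by
  have h1 := S4_symm hF hG
  have h2 : F ∆ (F ∆ G) = G := symmDiff_symmDiff_cancel_left F G
  unfold S4 at h1
  simp only [Finset.mem_insert, Finset.mem_singleton] at h1
  rcases h1 with h | h | h | h
  · left
    rw [h] at h2
    rw [← h2]
    exact (symmDiff_bot F)
  · right
    left
    rw [← h, h2]
  · right
    right
    left
    rw [← h, h2]
  · right
    right
    right
    rw [← h, h2]

private theorem q0_st_pair {m : ℕ} {X : ℤ → Bool} {l r : ℤ} (h : l ≠ r) :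
    st m X {l, r} = fl m r (fl m l X) := by
  rw [← st_single m X l, fl_st, q0_pair h]

/-- `l` and `r` are available in all four states as soon as they are available in one of them -/
theorem T4_avail {α : ℕ → Bool} {m : ℕ} {X : ℤ → Bool} {l r : ℤ} (hlr : l + m < r)
    (hl : At α m X l) (hr : At α m X r) {F : Finset ℤ} (hF : F ∈ S4 l r) :
    At α m (st m X F) l ∧ At α m (st m X F) r := by
  unfold S4 at hF
  simp only [Finset.mem_insert, Finset.mem_singleton] at hF
  rcases hF with h | h | h | h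
  · rw [h, st_empty]
    exact ⟨hl, hr⟩
  · rw [h, st_single]
    exact ⟨At_fl_self.2 hl, (At_fl_far (Or.inl hlr)).2 hr⟩
  · rw [h, st_single]
    exact ⟨(At_fl_far (Or.inr hlr)).2 hl, At_fl_self.2 hr⟩
  · rw [h, q0_st_pair (by omega : l ≠ r)]
    exact ⟨(At_fl_far (Or.inr hlr)).2 (At_fl_self.2 hl),
      At_fl_self.2 ((At_fl_far (Or.inl hlr)).2 hr)⟩

theorem st_pair {m : ℕ} {X : ℤ → Bool} {l r : ℤ} (h : l ≠ r) :
    st m X {l, r} = fl m r (fl m l X) :=
  q0_st_pair h

end Pool.Agent.KWG
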