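import Pool.Agent.KWG.Q0

/-!
# [KWG-Q1] components with four vertices that are not conflict-only

`sq_type`: if exactly 4 states are reachable and the type is not conflict-only, the type is `T4 l r` with
`l + m < r`.
Proof.  `¬ CO` gives a state `F` and windows `l < r`, `l + m < r`, with `(F, l), (F, r) ∈ Ts`.  By `mem_Ts`,
`At_fl_far`, `At_fl_self`, `fl_st` the states `F`, `F ∆ {l}`, `F ∆ {r}`, `F ∆ {l} ∆ {r}` are reachable and `l`,
`r` are available in all of them.  They are four different states (`l ≠ r`; symmetric difference is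
cancellative), so `Rset` is exactly this set: every reachable state is `F ∆ A` with `A ∈ S4 l r`
(`Finset.eq_of_subset_of_card_le`).  If `(G, p) ∈ Ts` then `G = F ∆ A` and `G ∆ {p} = F ∆ B` are reachable,
so `{p} = A ∆ B ∈ S4 l r` (`S4_symm`), a subset of `{l, r}`: `p = l` or `p = r`.  As `∅` is reachable,
`∅ = F ∆ A`, so `F = A ∈ S4 l r` and the set of reachable states is `S4 l r`.  So `Ts = S4 l r ×ˢ {l, r}`.
-/

namespace Pool.Agent.KWG

open Finset
open scoped symmDiff

theorem sq_type {α : ℕ → Bool} {m n : ℕ} {X : ℤ → Bool} (h4 : (Rset α m n X).card = 4)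
    (hC : ¬ CO m (Ts α m n X)) :
    ∃ l r : ℤ, l ∈ Wi n m ∧ r ∈ Wi n m ∧ l + m < r ∧ Ts α m n X = T4 l r := by
  obtain ⟨F, l, r, h1, h2, hlt, hlr⟩ : ∃ (F : Finset ℤ) (l r : ℤ), (F, l) ∈ Ts α m n X ∧
      (F, r) ∈ Ts α m n X ∧ l < r ∧ l + m < r := by
    by_contra hcon
    apply hC
    intro F l r h1 h2 h3
    by_contra h5
    exact hcon ⟨F, l, r, h1, h2, h3, by omega⟩
  rw [mem_Ts] at h1 h2
  obtain ⟨hF, hlW, hl⟩ : Rch α m n X F ∧ l ∈ Wi n m ∧ At α m (st m X F) l := h1
  obtain ⟨-, hrW, hr⟩ : Rch α m n X F ∧ r ∈ Wi n m ∧ At α m (st m X F) r := h2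
  have hne : l ≠ r := ne_of_lt hlt
  have hav : ∀ A ∈ S4 l r, At α m (st m X (F ∆ A)) l ∧ At α m (st m X (F ∆ A)) r := by
    intro A hA
    have := T4_avail (X := st m X F) hlr hl hr hA
    rw [st_st] at this
    exact this
  have hFl : Rch α m n X (F ∆ {l}) := Rch.step hF hlW hl
  have hFr : Rch α m n X (F ∆ {r}) := Rch.step hF hrW hr
  have hml : ({l} : Finset ℤ) ∈ S4 l r := by
    unfold S4
    simp
  have hlr2 : ({l, r} : Finset ℤ) = {l} ∆ {r} := by
    ext x
    simp only [Finset.mem_insert, Finset.mem_singleton, Finset.mem_symmDiff]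
    constructor
    · rintro (h | h)
      · left
        exact ⟨h, fun h' => hne (h.symm.trans h')⟩
      · right
        exact ⟨h, fun h' => hne (h'.symm.trans h)⟩
    · rintro (h | h)
      · exact Or.inl h.1
      · exact Or.inr h.1
  have hR : ∀ A ∈ S4 l r, Rch α m n X (F ∆ A) := by
    intro A hA
    have hA' : A = ∅ ∨ A = {l} ∨ A = {r} ∨ A = {l, r} := by
      unfold S4 at hA
      simpa using hA
    rcases hA' with rfl | rfl | rfl | rfl
    · have e : F ∆ ∅ = F := symmDiff_bot F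
      rw [e]
      exact hF
    · exact hFl
    · exact hFr
    · rw [hlr2, ← symmDiff_assoc]
      exact Rch.step hFl hrW (hav _ hml).2
  have himg : (S4 l r).image (fun A => F ∆ A) = Rset α m n X := by
    refine Finset.eq_of_subset_of_card_le ?_ ?_
    · intro G hG
      obtain ⟨A, hA, rfl⟩ := Finset.mem_image.1 hG
      exact mem_Rset.2 (hR A hA)
    · rw [h4, Finset.card_image_of_injective _ (symmDiff_right_injective F), S4_card hne]
  have hFS : F ∈ S4 l r := by
    have h5 : (∅ : Finset ℤ) ∈ (S4 l r).image (fun A => F ∆ A) := by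
      rw [himg]
      exact mem_Rset.2 Rch.zero
    obtain ⟨A, hA, h6⟩ := Finset.mem_image.1 h5
    have h7 : F = A := symmDiff_eq_bot.1 h6
    rw [h7]
    exact hA
  have hRS : ∀ G, Rch α m n X G ↔ G ∈ S4 l r := by
    intro G
    constructor
    · intro hG
      have h5 := mem_Rset.2 hG
      rw [← himg] at h5
      obtain ⟨A, hA, rfl⟩ := Finset.mem_image.1 h5
      exact S4_symm hFS hA
    · intro hG
      have h5 := hR (F ∆ G) (S4_symm hFS hG)
      rw [symmDiff_symmDiff_cancel_left] at h5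
      exact h5
  refine ⟨l, r, hlW, hrW, hlr, ?_⟩
  ext ⟨G, p⟩
  rw [mem_Ts, mem_T4]
  constructor
  · rintro ⟨hG, hp, hGp⟩
    have h5 : Rch α m n X (G ∆ {p}) := Rch.step hG hp hGp
    have h6 := (hRS G).1 hG
    have h7 := S4_symm h6 ((hRS _).1 h5)
    rw [symmDiff_symmDiff_cancel_left, mem_S4] at h7
    refine ⟨h6, ?_⟩
    simpa using h7
  · rintro ⟨hG, hp⟩
    have hG' : G ∈ S4 l r := hG
    have h5 := hav (F ∆ G) (S4_symm hFS hG')
    rw [symmDiff_symmDiff_cancel_left] at h5
    refine ⟨(hRS G).2 hG', ?_⟩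
    have hp' : p = l ∨ p = r := hp
    rcases hp' with rfl | rfl
    · exact ⟨hlW, h5.1⟩
    · exact ⟨hrW, h5.2⟩

end Pool.Agent.KWG
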