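import Pool.Agent.KWG.W0

/-!
# [KWG-Q10a] the block carrying the three windows (pure)

Notation: `GsAt α m a b g`, `l k : ℕ`, `k ≥ 1`, `n = l + (2 m + g) + k`, `r = l + m + g`, `ka = l + m - a`,
`kb = l + m - b` (integers).

`bword_facts` (pure): for `X : ℤ → Bool`: (`X (l + i) = bword α m a g i` for all `i < 2 m + g`) iff the windows
`l`, `ka`, `r` are available in `X`.
Proof.  `bword i = α i` (`i < m`), `α (i - m + a)` (`m ≤ i < m + g`), `α (i - m - g)` (`i ≥ m + g`).
(←) the window `l` covers the indices `i < m`, the window `ka` (index `m - a + j`) covers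
`m - a ≤ i < 2 m - a`, which contains `m ≤ i < m + g` (`m + g ≤ 2 m - a`), the window `r` covers `i ≥ m + g`.
(→) window `l`, `r`: clear.  Window `ka`, letter `j < m`, index `i = m - a + j`: if `j < a`: `i < m`,
`bword i = α (m - a + j) = α j` by `Per α m (m - a)`.  If `a ≤ j < a + g`: `m ≤ i < m + g`, `bword i = α j`.  If
`j ≥ a + g`: `bword i = α (j - a - g)` and `Per α m (m - b)`, `m - b = a + g`, gives `α (j - a - g) = α j`.
-/

namespace Pool.Agent.KWG

open Finset
open scoped symmDiff

theorem bword_facts {α : ℕ → Bool} {m a b g : ℕ} (h : GsAt α m a b g) {X : ℤ → Bool} {l : ℤ} :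
    (∀ i : ℕ, i < 2 * m + g → X (l + i) = bword α m a g i) ↔
      (At α m X l ∧ At α m X (l + m - a) ∧ At α m X (l + m + g)) := by
  obtain ⟨hg, hab, hm, hpa, hpb, -⟩ := h
  constructor
  · intro hX
    refine ⟨?_, ?_, ?_⟩
    · intro j hj
      rw [hX j (by omega)]
      unfold bword
      rw [if_pos hj]
    · intro j hj
      have e : l + (m : ℤ) - (a : ℤ) + (j : ℤ) = l + ((m - a + j : ℕ) : ℤ) := by
        have h1 : a ≤ m := by omega
        rw [Nat.cast_add, Nat.cast_sub h1]
        ring
      rw [e, hX (m - a + j) (by omega)]
      unfold bword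
      by_cases h1 : j < a
      · rw [if_pos (by omega), Nat.add_comm]
        exact (hpa j (by omega)).symm
      · rw [if_neg (by omega)]
        by_cases h2 : j < a + g
        · rw [if_pos (by omega)]
          congr 1
          omega
        · rw [if_neg (by omega)]
          have h3 := hpb (j - a - g) (by omega)
          have e1 : m - a + j - m - g = j - a - g := by omega
          have e2 : j - a - g + (m - b) = j := by omega
          rw [e1, h3, e2]
    · intro j hj
      have e : l + (m : ℤ) + (g : ℤ) + (j : ℤ) = l + ((m + g + j : ℕ) : ℤ) := by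
        push_cast
        ring
      rw [e, hX (m + g + j) (by omega)]
      unfold bword
      rw [if_neg (by omega), if_neg (by omega)]
      congr 1
      omega
  · rintro ⟨h1, h2, h3⟩ i hi
    unfold bword
    by_cases hi1 : i < m
    · rw [if_pos hi1]
      exact h1 i hi1
    · rw [if_neg hi1]
      by_cases hi2 : i < m + g
      · rw [if_pos hi2]
        have h4 := h2 (i - m + a) (by omega)
        rw [← h4]
        congr 1
        omega
      · rw [if_neg hi2]
        have h4 := h3 (i - m - g) (by omega)
        rw [← h4]
        congr 1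
        omega

end Pool.Agent.KWG
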