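import Pool.Agent.KWG.C1

/-!
# [KWG-Q8] words with a prescribed block

`bl` is a word of length `B ≥ m` beginning and ending with `α`.  The number `blkN` of words
`x bl y` (`|x| = l`, `|y| = k`) without window left of `l` and right of `l + B - m`, before and after the
corresponding moves, is `aL α m l * aR α m k`.

Proof.  The words `w` of length `l + B + k` with the block `bl` at `l` correspond bijectively to the pairs
`(x, y)`: `x i = w i` (`i < l`), `y i = w (l + B + i)` (`i < k`); inverse: `w i = x i` if `i < l`,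
`w i = bl (i - l)` if `l ≤ i < l + B`, `w i = y (i - l - B)` otherwise.
* Left conditions: for `p < l` the window `p` reads the letters `p, ..., p + m - 1 ≤ l + m - 2`, where
  `ext w t = cat α x t` (for `t < l` both are `x t`; for `l ≤ t < l + m` both are `α (t - l)`, as `bl` begins
  with `α` and `m ≤ B`); the same after the move `fl m l` (it flips the letters `l - 1` and `l + m` of both
  words).  `At_congr`.
* Right conditions: let `s = l + B - m`.  For `p = s + p'`, `1 ≤ p' < k` (this is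
  `l + B < p + m`, `p + m < l + B + k`), the window `p` reads letters `t ≥ s + 1`, where
  `ext w t = catR α m y (t - s)` (for `t < s + m` both are `α (t - s)`, as `bl` ends with `α`; for
  `t ≥ s + m = l + B` both are `y (t - l - B)`; beyond the end of the word both are `false`); the same after
  the moves `fl m s`, `fl m 0` (they flip `s - 1, s + m`, resp. `-1, m`).
So `blkN` = number of pairs `(x, y)` with `x` and `y` as in the definitions of `aL`, `aR`
(`Finset.card_product`, `Finset.card_nbij'`).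
-/

namespace Pool.Agent.KWG

/-- left part -/
def q8x {l B k : ℕ} (w : Fin (l + B + k) → Bool) : Fin l → Bool := fun i => w ⟨i, by omega⟩

/-- right part -/
def q8y {l B k : ℕ} (w : Fin (l + B + k) → Bool) : Fin k → Bool := fun i => w ⟨l + B + i, by omega⟩

/-- the word `x bl y` -/
def q8J {l k : ℕ} (B : ℕ) (bl : ℕ → Bool) (x : Fin l → Bool) (y : Fin k → Bool) :
    Fin (l + B + k) → Bool := fun i =>
  if h : (i : ℕ) < l then x ⟨i, h⟩ else
    if h2 : (i : ℕ) < l + B then bl (i - l) else y ⟨i - (l + B), by omega⟩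

theorem q8_ext_nat {n : ℕ} (w : Fin n → Bool) {t : ℤ} {i : ℕ} (hi : i < n) (ht : t = i) :
    ext w t = w ⟨i, hi⟩ := by
  subst ht
  exact ext_in w ⟨i, hi⟩

theorem q8_left {α : ℕ → Bool} {m l B k : ℕ} {bl : ℕ → Bool} (hB : m ≤ B)
    (h0 : ∀ j, j < m → bl j = α j) {w : Fin (l + B + k) → Bool}
    (hw : ∀ i : ℕ, i < B → ext w (l + i) = bl i) {t : ℤ} (h1 : 0 ≤ t) (h2 : t < l + m) :
    ext w t = cat α (q8x w) t := by
  obtain ⟨i, rfl⟩ : ∃ i : ℕ, t = i := ⟨t.toNat, by omega⟩
  unfold cat
  by_cases h : ((i : ℕ) : ℤ) < l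
  · rw [if_pos h, q8_ext_nat w (i := i) (by omega) rfl, q8_ext_nat (q8x w) (i := i) (by omega) rfl]
    rfl
  · rw [if_neg h]
    have hi : (i : ℤ) = l + ((i - l : ℕ) : ℤ) := by omega
    rw [hi, hw (i - l) (by omega), h0 (i - l) (by omega)]
    congr 1
    omega

theorem q8_right {α : ℕ → Bool} {m l B k : ℕ} {bl : ℕ → Bool} (hB : m ≤ B)
    (h1 : ∀ j, j < m → bl (B - m + j) = α j) {w : Fin (l + B + k) → Bool}
    (hw : ∀ i : ℕ, i < B → ext w (l + i) = bl i) {t : ℤ} (h2 : 0 ≤ t) :
    ext w ((l : ℤ) + B - m + t) = catR α m (q8y w) t := by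
  obtain ⟨i, rfl⟩ : ∃ i : ℕ, t = i := ⟨t.toNat, by omega⟩
  unfold catR
  by_cases h : ((i : ℕ) : ℤ) < m
  · rw [if_pos h]
    have hi : (l : ℤ) + B - m + i = l + ((B - m + i : ℕ) : ℤ) := by omega
    rw [hi, hw (B - m + i) (by omega), h1 i (by omega)]
    congr 1
  · rw [if_neg h]
    by_cases h' : i < m + k
    · rw [q8_ext_nat w (i := l + B + (i - m)) (by omega) (by omega),
        q8_ext_nat (q8y w) (i := i - m) (by omega) (by omega)]
      rfl
    · rw [ext_out w (by omega), ext_out (q8y w) (by omega)]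

theorem q8_shift {α : ℕ → Bool} {m : ℕ} {X Y : ℤ → Bool} {s p p' : ℤ} (hp : p = s + p')
    (h : ∀ t : ℤ, p' ≤ t → X (s + t) = Y t) : At α m X p ↔ At α m Y p' := by
  subst hp
  unfold At
  constructor
  · intro hX j hj
    rw [← h (p' + j) (by omega), ← add_assoc]
    exact hX j hj
  · intro hY j hj
    rw [add_assoc, h (p' + j) (by omega)]
    exact hY j hj

theorem q8_L {α : ℕ → Bool} {m l B k : ℕ} {bl : ℕ → Bool} (hB : m ≤ B)
    (h0 : ∀ j, j < m → bl j = α j) {w : Fin (l + B + k) → Bool}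
    (hw : ∀ i : ℕ, i < B → ext w (l + i) = bl i) :
    (∀ p : ℕ, p < l → ¬ At α m (ext w) p ∧ ¬ At α m (fl m l (ext w)) p) ↔
    (∀ p : ℕ, p < l → ¬ At α m (cat α (q8x w)) p ∧ ¬ At α m (fl m l (cat α (q8x w))) p) := by
  refine forall_congr' fun p => forall_congr' fun hp => ?_
  have e1 : At α m (ext w) p ↔ At α m (cat α (q8x w)) p :=
    At_congr fun t ht1 ht2 => q8_left hB h0 hw (by omega) (by omega)
  have e2 : At α m (fl m l (ext w)) p ↔ At α m (fl m l (cat α (q8x w))) p :=
    At_congr fun t ht1 ht2 => by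
      unfold fl
      rw [q8_left hB h0 hw (by omega) (by omega)]
  rw [e1, e2]

theorem q8_R {α : ℕ → Bool} {m l B k : ℕ} {bl : ℕ → Bool} (hB : m ≤ B)
    (h1 : ∀ j, j < m → bl (B - m + j) = α j) {w : Fin (l + B + k) → Bool}
    (hw : ∀ i : ℕ, i < B → ext w (l + i) = bl i) :
    (∀ p : ℕ, l + B < p + m → p + m < l + B + k →
      ¬ At α m (ext w) p ∧ ¬ At α m (fl m ((l : ℤ) + B - m) (ext w)) p) ↔
    (∀ p : ℕ, 1 ≤ p → p < k →
      ¬ At α m (catR α m (q8y w)) p ∧ ¬ At α m (fl m 0 (catR α m (q8y w))) p) := by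
  have e1 : ∀ p p' : ℕ, p + m = l + B + p' →
      (At α m (ext w) p ↔ At α m (catR α m (q8y w)) p') := fun p p' hpp =>
    q8_shift (s := (l : ℤ) + B - m) (by omega) fun t ht => q8_right hB h1 hw (by omega)
  have e2 : ∀ p p' : ℕ, p + m = l + B + p' →
      (At α m (fl m ((l : ℤ) + B - m) (ext w)) p ↔
        At α m (fl m 0 (catR α m (q8y w))) p') := fun p p' hpp =>
    q8_shift (s := (l : ℤ) + B - m) (by omega) fun t ht => by
      unfold fl
      rw [q8_right hB h1 hw (by omega)]
      congr 1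
      unfold eps
      congr 1
      · congr 1
        apply propext
        constructor <;> intro h <;> omega
      · congr 1
        apply propext
        constructor <;> intro h <;> omega
  constructor
  · intro h p' hp1 hpk
    have hpp : (l + B - m + p') + m = l + B + p' := by omega
    have := h (l + B - m + p') (by omega) (by omega)
    rwa [e1 _ _ hpp, e2 _ _ hpp] at this
  · intro h p hp1 hp2
    have hpp : p + m = l + B + (p + m - (l + B)) := by omega
    have := h (p + m - (l + B)) (by omega) (by omega)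
    rwa [← e1 _ _ hpp, ← e2 _ _ hpp] at this

theorem q8_J_block {l k : ℕ} (B : ℕ) (bl : ℕ → Bool) (x : Fin l → Bool) (y : Fin k → Bool) :
    ∀ i : ℕ, i < B → ext (q8J B bl x y) (l + i) = bl i := by
  intro i hi
  rw [q8_ext_nat (q8J B bl x y) (i := l + i) (by omega) (by omega)]
  unfold q8J
  rw [dif_neg (by simp), dif_pos (by simpa using hi)]
  simp

theorem q8_J_x {l k : ℕ} (B : ℕ) (bl : ℕ → Bool) (x : Fin l → Bool) (y : Fin k → Bool) :
    q8x (q8J B bl x y) = x := by
  funext i
  simp [q8x, q8J]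

theorem q8_J_y {l k : ℕ} (B : ℕ) (bl : ℕ → Bool) (x : Fin l → Bool) (y : Fin k → Bool) :
    q8y (q8J B bl x y) = y := by
  funext i
  unfold q8y q8J
  rw [dif_neg (by simp; omega), dif_neg (by simp)]
  congr 1
  ext
  simp

theorem q8_J_xy {l B k : ℕ} {bl : ℕ → Bool} {w : Fin (l + B + k) → Bool}
    (hw : ∀ i : ℕ, i < B → ext w (l + i) = bl i) : q8J B bl (q8x w) (q8y w) = w := by
  funext i
  unfold q8J
  by_cases h : (i : ℕ) < l
  · rw [dif_pos h]
    rfl
  · rw [dif_neg h]
    by_cases h2 : (i : ℕ) < l + B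
    · rw [dif_pos h2, ← hw (i - l) (by omega), q8_ext_nat w (i := i) i.2 (by omega)]
    · rw [dif_neg h2]
      unfold q8y
      congr 1
      ext
      simp
      omega

theorem blk_count {α : ℕ → Bool} {m l B k : ℕ} {bl : ℕ → Bool} (hB : m ≤ B)
    (h0 : ∀ j, j < m → bl j = α j) (h1 : ∀ j, j < m → bl (B - m + j) = α j) :
    blkN α m l B k bl = aL α m l * aR α m k := by
  classical
  unfold blkN aL aR
  rw [← Finset.card_product]
  refine Finset.card_nbij' (fun w => (q8x w, q8y w)) (fun q => q8J B bl q.1 q.2) ?_ ?_ ?_ ?_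
  · intro w hw
    simp only [Finset.coe_filter, Finset.mem_univ, true_and, Set.mem_ofPred_eq] at hw
    simp only [Finset.coe_product, Finset.coe_filter, Finset.mem_univ, true_and, Set.mem_prod,
      Set.mem_ofPred_eq]
    exact ⟨(q8_L hB h0 hw.1).1 hw.2.1, (q8_R hB h1 hw.1).1 hw.2.2⟩
  · intro q hq
    simp only [Finset.coe_product, Finset.coe_filter, Finset.mem_univ, true_and, Set.mem_prod,
      Set.mem_ofPred_eq] at hq
    simp only [Finset.coe_filter, Finset.mem_univ, true_and, Set.mem_ofPred_eq]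
    have hb := q8_J_block B bl q.1 q.2
    refine ⟨hb, (q8_L hB h0 hb).2 ?_, (q8_R hB h1 hb).2 ?_⟩
    · rw [q8_J_x]
      exact hq.1
    · rw [q8_J_y]
      exact hq.2
  · intro w hw
    simp only [Finset.coe_filter, Finset.mem_univ, true_and, Set.mem_ofPred_eq] at hw
    exact q8_J_xy hw.1
  · intro q _
    simp only [q8_J_x, q8_J_y]

end Pool.Agent.KWG
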