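import Pool.Agent.KWG.W0
import Pool.Agent.KWG.R1

/-!
# [KWG-R4b] corner configurations: converse

`gs_cfg` (converse).  If `GsAt α m a b g`, `r = l + m + g` and the windows `l`, `r` and `l + m - a` are
available in `X`, then the window `q = l + m - b` is available in `Y = fl m r (fl m l X)`.
Proof.  Let `j < m`, `s = q + j`, `δ = b - a`, `p = l + m - a = q + δ`.  `Y s = X s` except for `s = l + m`
(`j = b`) and `s = r - 1` (`j = b + g - 1`), where it is the opposite.
 - `j < δ`: `s < p`, and `l ≤ s < l + m` (as `q > l` because `b < m`): `X s = α (s - l) = α (j + (m - b))` and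
   `α j = α (j + (m - b))` since `m - b` is a period.  (`j < δ ≤ b`, so `j ≠ b, b + g - 1`.)
 - `j ≥ δ`: `s = p + (j - δ)` with `j - δ < m`: `X s = α (j - δ)`.  By `GsAt`, `α (j - δ) ≠ α j` iff
   `j - δ = a` or `j - δ + 1 = a + g`, i.e. iff `j = b` or `j = b + g - 1`: so `Y s = α j` in all cases.

`cfg_once`: a window `k` with `l < k ≤ l + m`, `k < r ≤ k + m`, `l + m + 2 ≤ r`, available in the state `F` of
`X`, `F ∈ S4 l r`, is not available in another state `F' ∈ S4 l r`.
Proof.  `F ∆ F'` is `{l}`, `{r}` or `{l, r}` (finite check; `l ≠ r`), and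
`st m X F' = st m (st m X F) (F ∆ F')`.  On the letters of the window `k` the word `st m Z {l}` differs from
`Z` exactly at `l + m`, `st m Z {r}` exactly at `r - 1`, `st m Z {l, r}` exactly at these two letters.
-/

namespace Pool.Agent.KWG

open Finset
open scoped symmDiff

theorem r4b_fl (m : ℕ) (p : ℤ) (X : ℤ → Bool) (t : ℤ) :
    fl m p X t = (X t ^^ (decide (t + 1 = p) ^^ decide (t - m = p))) := rfl

theorem gs_cfg {α : ℕ → Bool} {m a b g : ℕ} (h : GsAt α m a b g) {X : ℤ → Bool} {l r : ℤ}
    (hlr : r = l + m + g) (hl : At α m X l) (hr : At α m X r) (hp : At α m X (l + m - a)) :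
    At α m (fl m r (fl m l X)) (l + m - b) := by
  obtain ⟨hg, hab, hm, -, hpb, hmis⟩ := h
  intro j hj
  have e1 : decide (l + (m : ℤ) - b + j + 1 = l) = false := decide_eq_false (by omega)
  have e2 : decide (l + (m : ℤ) - b + j - m = l) = decide (j = b) := by
    rw [decide_eq_decide]
    omega
  have e3 : decide (l + (m : ℤ) - b + j + 1 = r) = decide (j + 1 = b + g) := by
    rw [decide_eq_decide]
    omega
  have e4 : decide (l + (m : ℤ) - b + j - m = r) = false := decide_eq_false (by omega)
  rw [r4b_fl, r4b_fl, e1, e2, e3, e4, Bool.false_xor, Bool.xor_false]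
  by_cases hjd : j < b - a
  · have h1 := hl (m - b + j) (by omega)
    have h2 : l + ((m - b + j : ℕ) : ℤ) = l + (m : ℤ) - b + j := by omega
    have h3 := hpb j (by omega)
    have h4 : j + (m - b) = m - b + j := by omega
    rw [h4] at h3
    rw [h2] at h1
    rw [h1, ← h3, decide_eq_false (by omega : ¬ j = b), decide_eq_false (by omega : ¬ j + 1 = b + g),
      Bool.xor_false, Bool.xor_false]
  · have h1 := hp (j - (b - a)) (by omega)
    have h2 : l + (m : ℤ) - a + ((j - (b - a) : ℕ) : ℤ) = l + (m : ℤ) - b + j := by omega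
    rw [h2] at h1
    have h3 := hmis (j - (b - a)) (by omega)
    have h4 : j - (b - a) + (b - a) = j := by omega
    rw [h4] at h3
    rw [h1]
    by_cases c1 : j = b
    · have h5 : α (j - (b - a)) ≠ α j := h3.2 (Or.inl (by omega))
      rw [decide_eq_true c1, decide_eq_false (by omega : ¬ j + 1 = b + g), Bool.xor_false,
        Bool.xor_true]
      revert h5
      cases α (j - (b - a)) <;> cases α j <;> simp
    · by_cases c2 : j + 1 = b + g
      · have h5 : α (j - (b - a)) ≠ α j := h3.2 (Or.inr (by omega))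
        rw [decide_eq_false c1, decide_eq_true c2, Bool.xor_false, Bool.xor_true]
        revert h5
        cases α (j - (b - a)) <;> cases α j <;> simp
      · rw [decide_eq_false c1, decide_eq_false c2, Bool.xor_false, Bool.xor_false]
        by_contra hcon
        have h5 := h3.1 hcon
        omega

theorem r4b_sub {l r : ℤ} {F : Finset ℤ} (hF : F ∈ S4 l r) {x : ℤ} (hx : x ∈ F) :
    x = l ∨ x = r := by
  unfold S4 at hF
  simp only [Finset.mem_insert, Finset.mem_singleton] at hF
  rcases hF with rfl | rfl | rfl | rfl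
  · exact absurd hx (Finset.notMem_empty x)
  · exact Or.inl (Finset.mem_singleton.1 hx)
  · exact Or.inr (Finset.mem_singleton.1 hx)
  · simpa using hx

theorem r4b_epsl {m : ℕ} {l r : ℤ} (h5 : l + m + 2 ≤ r) {F : Finset ℤ} (hF : F ∈ S4 l r) :
    epsF m F (l + m) = decide (l ∈ F) := by
  unfold epsF
  have e1 : decide (l + (m : ℤ) + 1 ∈ F) = false := by
    apply decide_eq_false
    intro h
    rcases r4b_sub hF h with h | h <;> omega
  rw [e1, add_sub_cancel_right, Bool.false_xor]

theorem r4b_epsr {m : ℕ} {l r : ℤ} (h5 : l + m + 2 ≤ r) {F : Finset ℤ} (hF : F ∈ S4 l r) :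
    epsF m F (r - 1) = decide (r ∈ F) := by
  unfold epsF
  have e1 : decide (r - 1 - (m : ℤ) ∈ F) = false := by
    apply decide_eq_false
    intro h
    rcases r4b_sub hF h with h | h <;> omega
  rw [e1, sub_add_cancel, Bool.xor_false]

theorem cfg_once {α : ℕ → Bool} {m : ℕ} {X : ℤ → Bool} {l r k : ℤ} (h1 : l < k) (h2 : k ≤ l + m)
    (h3 : k < r) (h4 : r ≤ k + m) (h5 : l + m + 2 ≤ r) {F F' : Finset ℤ} (hF : F ∈ S4 l r)
    (hF' : F' ∈ S4 l r) (hne : F ≠ F') (hk : At α m (st m X F) k) : ¬ At α m (st m X F') k := by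
  intro hk'
  apply hne
  have key : ∀ t : ℤ, k ≤ t → t < k + m → epsF m F t = epsF m F' t := by
    intro t ht1 ht2
    have a1 := hk (t - k).toNat (by omega)
    have a2 := hk' (t - k).toNat (by omega)
    have e : k + (((t - k).toNat : ℕ) : ℤ) = t := by omega
    rw [e] at a1 a2
    have a3 : st m X F t = st m X F' t := a1.trans a2.symm
    unfold st at a3
    exact Bool.xor_right_inj.1 a3
  have kl := key (l + m) (by omega) (by omega)
  have kr := key (r - 1) (by omega) (by omega)
  rw [r4b_epsl h5 hF, r4b_epsl h5 hF', decide_eq_decide] at kl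
  rw [r4b_epsr h5 hF, r4b_epsr h5 hF', decide_eq_decide] at kr
  ext x
  constructor
  · intro hx
    rcases r4b_sub hF hx with h | h
    · rw [h] at hx ⊢
      exact kl.1 hx
    · rw [h] at hx ⊢
      exact kr.1 hx
  · intro hx
    rcases r4b_sub hF' hx with h | h
    · rw [h] at hx ⊢
      exact kl.2 hx
    · rw [h] at hx ⊢
      exact kr.2 hx

end Pool.Agent.KWG
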