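import Pool.Agent.KWG.Q7
import Pool.Agent.KWG.Q8
import Pool.Agent.KWG.Q10a
import Pool.Agent.KWG.R4b

/-!
# [KWG-Q10] the count in sq_diff2

Notation: `GsAt α m a b g`, `l k : ℕ`, `k ≥ 1`, `n = l + (2 m + g) + k`, `r = l + m + g`, `ka = l + m - a`,
`kb = l + m - b` (integers).

`Z_eq`.  A word `w` counted on the left: `l`, `r` available in all states of `S4` (by `T4_avail` iff available
in `∅`), `ka` in the state `∅`, `kb` in the state `{l, r}` (automatic by `gs_cfg`, `st_pair`), and no other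
`(F, p)`, `F ∈ S4`, `p ∈ Wi`, `p ≠ l, r, kb`, `(F, p) ≠ (∅, ka)` (for `F = {l, r}` the opposite corner is
`{l, r} ∆ {l, r} = ∅`).
By `gap` the windows `l < p < r` of this list are never available.  For `p < l` the availability in the
state `F` depends only on whether `l ∈ F`: the move `r` flips the letters `r - 1 ≥ l + m + 1` and `r + m`,
which the window `p` (letters `≤ l + m - 2`) does not read; so the condition is: not available in `ext w`
and not in `fl m l (ext w)`.  For `p > r`: the move `l` flips `l - 1` and `l + m < r`, which the window does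
not read: not available in `ext w` and in `fl m r (ext w)`.  This is the condition in
`blkN α m l (2 m + g) k (bword α m a g)` (with `B = 2 m + g`, `l + B - m = r`).  `blk_count` applies:
`bword j = α j` and `bword (B - m + j) = bword (m + g + j) = α j` for `j < m`.
-/

namespace Pool.Agent.KWG

open Finset
open scoped symmDiff

theorem q10_avail {α : ℕ → Bool} {m a b g : ℕ} (h : GsAt α m a b g) (l : ℕ) (X : ℤ → Bool) :
    (∀ x ∈ (insert (∅, (l : ℤ) + m - a) (insert ({(l : ℤ), (l : ℤ) + m + g}, (l : ℤ) + m - b)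
        (T4 (l : ℤ) ((l : ℤ) + m + g))) : Finset (Finset ℤ × ℤ)), At α m (st m X x.1) x.2) ↔
      (At α m X l ∧ At α m X ((l : ℤ) + m - a) ∧ At α m X ((l : ℤ) + m + g)) := by
  have hg : 2 ≤ g := h.1
  constructor
  · intro hx
    have h1 := hx (∅, (l : ℤ) + m - a) (Finset.mem_insert_self _ _)
    have h2 := hx (∅, (l : ℤ)) (Finset.mem_insert_of_mem (Finset.mem_insert_of_mem
      (mem_T4.2 ⟨mem_S4.2 (Finset.empty_subset _), Or.inl rfl⟩)))
    have h3 := hx (∅, (l : ℤ) + m + g) (Finset.mem_insert_of_mem (Finset.mem_insert_of_mem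
      (mem_T4.2 ⟨mem_S4.2 (Finset.empty_subset _), Or.inr rfl⟩)))
    simp only [st_empty] at h1 h2 h3
    exact ⟨h2, h1, h3⟩
  · rintro ⟨h1, h2, h3⟩ x hx
    have hlr : (l : ℤ) + m < (l : ℤ) + m + g := by omega
    rcases Finset.mem_insert.1 hx with rfl | hx
    · simpa only [st_empty] using h2
    rcases Finset.mem_insert.1 hx with rfl | hx
    · rw [st_pair (by omega)]
      exact gs_cfg h rfl h1 h3 h2
    · obtain ⟨hF, hp⟩ := mem_T4.1 hx
      obtain ⟨a1, a2⟩ := T4_avail hlr h1 h3 hF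
      rcases hp with hp | hp
      · rw [hp]
        exact a1
      · rw [hp]
        exact a2

theorem q10_S4cases {l r : ℤ} {F : Finset ℤ} (hF : F ∈ S4 l r) :
    F = ∅ ∨ F = {l} ∨ F = {r} ∨ F = {l, r} := by
  simpa [S4] using hF

theorem q10_mem {m n : ℕ} {l r ka kb : ℤ} {x : Finset ℤ × ℤ} :
    x ∈ EFs m n l r ka kb {l, r} ↔ x.1 ∈ S4 l r ∧ x.2 ∈ Wi n m ∧ x.2 ≠ l ∧ x.2 ≠ r ∧ x.2 ≠ kb ∧
      ¬ (x.1 = ∅ ∧ x.2 = ka) := by
  unfold EFs
  rw [symmDiff_self]
  simp only [Finset.mem_sdiff, Finset.mem_product, Finset.mem_union, Finset.mem_singleton,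
    mem_T4, not_or, Finset.bot_eq_empty]
  constructor
  · rintro ⟨⟨h1, h2⟩, ⟨h3, h4⟩, h5⟩
    refine ⟨h1, h2, fun e => h3 ⟨h1, Or.inl e⟩, fun e => h3 ⟨h1, Or.inr e⟩, fun e => h4 ⟨h1, e⟩, ?_⟩
    rintro ⟨e1, e2⟩
    exact h5 (Prod.ext e1 e2)
  · rintro ⟨h1, h2, h3, h4, h5, h6⟩
    refine ⟨⟨h1, h2⟩, ⟨?_, ?_⟩, ?_⟩
    · rintro ⟨-, e | e⟩
      · exact h3 e
      · exact h4 e
    · rintro ⟨-, e⟩
      exact h5 e
    · intro e
      exact h6 ⟨congrArg Prod.fst e, congrArg Prod.snd e⟩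

theorem q10_events {α : ℕ → Bool} {m a b g : ℕ} (h : GsAt α m a b g) (l : ℕ) {k : ℕ} (hk : 1 ≤ k)
    {X : ℤ → Bool} (hl : At α m X l) (hka : At α m X ((l : ℤ) + m - a))
    (hr : At α m X ((l : ℤ) + m + g)) :
    (∀ x ∈ EFs m (l + (2 * m + g) + k) (l : ℤ) ((l : ℤ) + m + g) ((l : ℤ) + m - a)
        ((l : ℤ) + m - b) {(l : ℤ), (l : ℤ) + m + g}, ¬ At α m (st m X x.1) x.2) ↔
    ((∀ p : ℕ, p < l → ¬ At α m X p ∧ ¬ At α m (fl m l X) p) ∧
    (∀ p : ℕ, l + (2 * m + g) < p + m → p + m < l + (2 * m + g) + k →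
      ¬ At α m X p ∧ ¬ At α m (fl m ((l : ℤ) + (2 * m + g : ℕ) - m) X) p)) := by
  have hgs : GsAt α m a b g := h
  obtain ⟨hg, hab, habg, -⟩ := h
  have hrr : ((l : ℤ) + (2 * m + g : ℕ) - m) = (l : ℤ) + m + g := by push_cast; ring
  rw [hrr]
  constructor
  · intro hx
    constructor
    · intro p hp
      constructor
      · have := hx (∅, (p : ℤ)) (q10_mem.2 ⟨mem_S4.2 (Finset.empty_subset _),
          mem_Wi.2 ⟨by simp, by simp; omega⟩, by simp; omega, by simp; omega, by simp; omega,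
          by simp; omega⟩)
        simpa only [st_empty] using this
      · have := hx ({(l : ℤ)}, (p : ℤ)) (q10_mem.2 ⟨mem_S4.2 (by simp),
          mem_Wi.2 ⟨by simp, by simp; omega⟩, by simp; omega, by simp; omega, by simp; omega,
          by simp⟩)
        simpa only [st_single] using this
    · intro p hp1 hp2
      constructor
      · have := hx (∅, (p : ℤ)) (q10_mem.2 ⟨mem_S4.2 (Finset.empty_subset _),
          mem_Wi.2 ⟨by simp, by simp; omega⟩, by simp; omega, by simp; omega, by simp; omega,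
          by simp; omega⟩)
        simpa only [st_empty] using this
      · have := hx ({(l : ℤ) + m + g}, (p : ℤ)) (q10_mem.2 ⟨mem_S4.2 (by simp),
          mem_Wi.2 ⟨by simp, by simp; omega⟩, by simp; omega, by simp; omega, by simp; omega,
          by simp⟩)
        simpa only [st_single] using this
  · rintro ⟨hL, hR⟩ ⟨F, p⟩ hx
    obtain ⟨hF, hW, h1, h2, h3, h4⟩ := q10_mem.1 hx
    simp only at hF hW h1 h2 h3 h4 ⊢
    obtain ⟨hW1, hW2⟩ := mem_Wi.1 hW
    rcases lt_trichotomy p (l : ℤ) with hpl | hpl | hpl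
    · -- left
      obtain ⟨q, rfl⟩ : ∃ q : ℕ, p = q := ⟨p.toNat, by omega⟩
      obtain ⟨L1, L2⟩ := hL q (by omega)
      rcases q10_S4cases hF with rfl | rfl | rfl | rfl
      · rwa [st_empty]
      · rwa [st_single]
      · rw [st_single, At_fl_far (by right; omega)]
        exact L1
      · rw [st_pair (by omega), At_fl_far (by right; omega)]
        exact L2
    · exact absurd hpl h1
    · rcases lt_trichotomy p ((l : ℤ) + m + g) with hpr | hpr | hpr
      · exact gap hgs rfl hl hr hka hF hpl hpr h4 (fun hc => h3 hc.2)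
      · exact absurd hpr h2
      · obtain ⟨q, rfl⟩ : ∃ q : ℕ, p = q := ⟨p.toNat, by omega⟩
        obtain ⟨R1, R2⟩ := hR q (by omega) (by push_cast at hW2; omega)
        rcases q10_S4cases hF with rfl | rfl | rfl | rfl
        · rwa [st_empty]
        · rw [st_single, At_fl_far (by left; omega)]
          exact R1
        · rwa [st_single]
        · rw [st_pair (by omega), fl_comm, At_fl_far (by left; omega)]
          exact R2

theorem Z_eq {α : ℕ → Bool} {m a b g : ℕ} (h : GsAt α m a b g) (l : ℕ) {k : ℕ} (hk : 1 ≤ k) :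
    cnt α m (l + (2 * m + g) + k)
      (insert (∅, (l : ℤ) + m - a) (insert ({(l : ℤ), (l : ℤ) + m + g}, (l : ℤ) + m - b)
        (T4 (l : ℤ) ((l : ℤ) + m + g))))
      (EFs m (l + (2 * m + g) + k) (l : ℤ) ((l : ℤ) + m + g) ((l : ℤ) + m - a) ((l : ℤ) + m - b)
        {(l : ℤ), (l : ℤ) + m + g}) = aL α m l * aR α m k := by
  classical
  have hg : 2 ≤ g := h.1
  rw [← blk_count (bl := bword α m a g) (B := 2 * m + g) (by omega) (by
    intro j hj
    unfold bword
    rw [if_pos hj]) (by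
    intro j hj
    unfold bword
    rw [if_neg (by omega), if_neg (by omega)]
    congr 1
    omega)]
  unfold cnt blkN Sol
  rw [Finset.filter_filter]
  congr 1
  ext w
  simp only [Finset.mem_filter, Finset.mem_univ, true_and]
  rw [q10_avail h l (ext w), bword_facts h]
  constructor
  · rintro ⟨⟨h1, h2, h3⟩, h4⟩
    exact ⟨⟨h1, h2, h3⟩, (q10_events h l hk h1 h2 h3).1 h4⟩
  · rintro ⟨⟨h1, h2, h3⟩, h4⟩
    exact ⟨⟨h1, h2, h3⟩, (q10_events h l hk h1 h2 h3).2 h4⟩

end Pool.Agent.KWG
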