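import Pool.Agent.KWG.Q6
import Pool.Agent.KWG.Q10

/-!
# [KWG-Q11] difference of the numbers of squares

`n = l + (2 m + g) + k`, `k ≥ 1`: then `l ∈ Wi n m` and `r = l + m + g ∈ Wi n m`.  `sq_diff2` and `Z_eq`.
-/

namespace Pool.Agent.KWG

theorem sq_diff {α β : ℕ → Bool} {m a b g l k n : ℕ} (hk : 1 ≤ k) (hn : n = l + (2 * m + g) + k)
    (hper : ∀ d, d + m + 1 ≤ n → (Per α m d ↔ Per β m d)) (h : GsAt α m a b g)
    (hβ : ¬ Gs β m g) :
    nT α m n (T4 (l : ℤ) ((l : ℤ) + m + g)) =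
      nT β m n (T4 (l : ℤ) ((l : ℤ) + m + g)) + 4 * (aL α m l * aR α m k) := by
  subst hn
  have hl : (l : ℤ) ∈ Wi (l + (2 * m + g) + k) m := by
    unfold Wi
    rw [Finset.mem_Ico]
    push_cast
    constructor <;> omega
  have hr : (l : ℤ) + m + g ∈ Wi (l + (2 * m + g) + k) m := by
    unfold Wi
    rw [Finset.mem_Ico]
    push_cast
    constructor <;> omega
  rw [sq_diff2 hper h hβ hl hr rfl, Z_eq h l hk]

end Pool.Agent.KWG
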