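import Pool.Agent.KWG.W0

/-!
# [KWG-S1] sizes of solution sets; inclusion-exclusion

`sol_card`: if `Sol α m n Y` and `Sol β m n Y` are nonempty they have the same number of elements.
Proof.  Let `w₀ ∈ Sol α`, `w₁ ∈ Sol β`.  The involution `w ↦ w ^^ w₀ ^^ w₁` (letterwise) maps `Sol α` into
`Sol β` and back: for `w ∈ Sol α`, `x = (F, p) ∈ Y` and `j < m`, with `s = p + j`:
`ext w s ^^ epsF m F s = α j = ext w₀ s ^^ epsF m F s`, so `ext w s = ext w₀ s`, and
`ext (w ^^ w₀ ^^ w₁) s = ext w s ^^ ext w₀ s ^^ ext w₁ s = ext w₁ s` (`ext` of a letterwise xor is the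
letterwise xor, also outside `[0, n)` where everything is `false`), so the window is `β`.
`Finset.card_le_card_of_injOn` in both directions, or `Finset.card_nbij'`.

`cnt_split`: `cnt Y E = cnt Y (insert x E) + cnt (insert x Y) E` (split the words counted by `cnt Y E`
according to whether the window `x` is available).

`cnt_drop`: if no word satisfies `insert x Y` then `cnt Y (insert x E) = cnt Y E` (from `cnt_split`,
`cnt (insert x Y) E = 0`).

`cnt_transfer`: if the solution sets of `α` and `β` have the same size for all `Z` with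
`Y ⊆ Z ⊆ Y ∪ E` then `cnt α Y E = cnt β Y E`.
Proof: induction on the finset `E`, `Y` general.  `E = ∅`: `cnt Y ∅ = (Sol Y).card`.  `insert x E`: by
`cnt_split`, `cnt Y (insert x E) = cnt Y E - cnt (insert x Y) E` for both words, and the induction
hypothesis applies to `Y` and to `insert x Y`.
-/

namespace Pool.Agent.KWG

open Finset

theorem s1_mem {α : ℕ → Bool} {m n : ℕ} {Y : Finset (Finset ℤ × ℤ)} {w : Fin n → Bool} :
    w ∈ Sol α m n Y ↔ ∀ x ∈ Y, At α m (st m (ext w) x.1) x.2 := by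
  unfold Sol
  simp only [Finset.mem_filter, Finset.mem_univ, true_and]

theorem s1_ext {n : ℕ} (w w₀ w₁ : Fin n → Bool) (s : ℤ) :
    ext (fun t => w t ^^ (w₀ t ^^ w₁ t)) s = (ext w s ^^ (ext w₀ s ^^ ext w₁ s)) := by
  unfold ext
  split_ifs with h
  · rfl
  · rfl

theorem s1_le {α β : ℕ → Bool} {m n : ℕ} {Y : Finset (Finset ℤ × ℤ)}
    (h1 : (Sol α m n Y).Nonempty) (h2 : (Sol β m n Y).Nonempty) :
    (Sol α m n Y).card ≤ (Sol β m n Y).card := by
  obtain ⟨w₀, hw₀⟩ := h1
  obtain ⟨w₁, hw₁⟩ := h2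
  rw [s1_mem] at hw₀ hw₁
  refine Finset.card_le_card_of_injOn (fun w t => w t ^^ (w₀ t ^^ w₁ t)) (fun w hw => ?_)
    (fun w _ w' _ hww => ?_)
  · rw [Finset.mem_coe, s1_mem] at hw
    rw [Finset.mem_coe, s1_mem]
    intro x hx j hj
    have a0 := hw₀ x hx j hj
    have a1 := hw₁ x hx j hj
    have a2 := hw x hx j hj
    unfold st at a0 a1 a2 ⊢
    rw [s1_ext]
    revert a0 a1 a2
    generalize ext w₀ (x.2 + j) = x0
    generalize ext w₁ (x.2 + j) = x1
    generalize ext w (x.2 + j) = x2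
    generalize epsF m x.1 (x.2 + j) = x3
    generalize α j = x4
    generalize β j = x5
    revert x0 x1 x2 x3 x4 x5
    decide
  · funext t
    have h3 : (w t ^^ (w₀ t ^^ w₁ t)) = (w' t ^^ (w₀ t ^^ w₁ t)) := congrFun hww t
    revert h3
    generalize w t = x0
    generalize w' t = x1
    generalize w₀ t = x2
    generalize w₁ t = x3
    revert x0 x1 x2 x3
    decide

theorem s1_cnt {α : ℕ → Bool} {m n : ℕ} {Y E : Finset (Finset ℤ × ℤ)} (S : Finset (Fin n → Bool))
    (hS : ∀ w, w ∈ S ↔ w ∈ Sol α m n Y ∧ ∀ x ∈ E, ¬ At α m (st m (ext w) x.1) x.2) :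
    cnt α m n Y E = S.card := by
  classical
  unfold cnt
  congr 1
  ext w
  rw [Finset.mem_filter, hS]

theorem sol_card {α β : ℕ → Bool} {m n : ℕ} {Y : Finset (Finset ℤ × ℤ)}
    (h1 : (Sol α m n Y).Nonempty) (h2 : (Sol β m n Y).Nonempty) :
    (Sol α m n Y).card = (Sol β m n Y).card :=
  le_antisymm (s1_le h1 h2) (s1_le h2 h1)

theorem mem_Sol {α : ℕ → Bool} {m n : ℕ} {Y : Finset (Finset ℤ × ℤ)} {w : Fin n → Bool} :
    w ∈ Sol α m n Y ↔ ∀ x ∈ Y, At α m (st m (ext w) x.1) x.2 := s1_mem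

theorem cnt_split (α : ℕ → Bool) (m n : ℕ) (Y E : Finset (Finset ℤ × ℤ)) (x : Finset ℤ × ℤ) :
    cnt α m n Y E = cnt α m n Y (insert x E) + cnt α m n (insert x Y) E := by
  classical
  have e1 := s1_cnt (α := α) (m := m) (Y := Y) (E := E)
    ((Sol α m n Y).filter (fun w => ∀ y ∈ E, ¬ At α m (st m (ext w) y.1) y.2))
    (fun w => Finset.mem_filter)
  have e2 := s1_cnt (α := α) (m := m) (Y := Y) (E := insert x E)
    (((Sol α m n Y).filter (fun w => ∀ y ∈ E, ¬ At α m (st m (ext w) y.1) y.2)).filter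
      (fun w => ¬ At α m (st m (ext w) x.1) x.2))
    (fun w => by
      rw [Finset.mem_filter, Finset.mem_filter, Finset.forall_mem_insert]
      tauto)
  have e3 := s1_cnt (α := α) (m := m) (Y := insert x Y) (E := E)
    (((Sol α m n Y).filter (fun w => ∀ y ∈ E, ¬ At α m (st m (ext w) y.1) y.2)).filter
      (fun w => At α m (st m (ext w) x.1) x.2))
    (fun w => by
      rw [Finset.mem_filter, Finset.mem_filter, s1_mem, s1_mem, Finset.forall_mem_insert]
      tauto)
  rw [e1, e2, e3, add_comm]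
  exact (Finset.card_filter_add_card_filter_not _).symm

theorem cnt_drop {α : ℕ → Bool} {m n : ℕ} {Y E : Finset (Finset ℤ × ℤ)} {x : Finset ℤ × ℤ}
    (h : Sol α m n (insert x Y) = ∅) : cnt α m n Y (insert x E) = cnt α m n Y E := by
  have e := s1_cnt (α := α) (m := m) (Y := insert x Y) (E := E) ∅ (fun w => by
    rw [h]
    simp)
  rw [cnt_split α m n Y E x, e, Finset.card_empty, add_zero]

theorem cnt_transfer {α β : ℕ → Bool} {m n : ℕ} (E Y : Finset (Finset ℤ × ℤ))
    (h : ∀ Z, Y ⊆ Z → Z ⊆ Y ∪ E → (Sol α m n Z).card = (Sol β m n Z).card) :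
    cnt α m n Y E = cnt β m n Y E := by
  induction E using Finset.induction_on generalizing Y with
  | empty =>
    rw [s1_cnt (α := α) (Sol α m n Y) (fun w => by simp),
      s1_cnt (α := β) (Sol β m n Y) (fun w => by simp)]
    exact h Y (Finset.Subset.refl _) (by simp)
  | insert x E hx ih =>
    have h1 := ih Y (fun Z hZ hZ' => h Z hZ (hZ'.trans
      (Finset.union_subset_union_right (Finset.subset_insert _ _))))
    have h2 := ih (insert x Y) (fun Z hZ hZ' => h Z ((Finset.subset_insert _ _).trans hZ) (by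
      intro y hy
      have := hZ' hy
      simp only [Finset.mem_union, Finset.mem_insert] at this ⊢
      tauto))
    have h3 := cnt_split α m n Y E x
    have h4 := cnt_split β m n Y E x
    omega

/-- the usual way to compare: both solution sets are nonempty together -/
theorem cnt_transfer' {α β : ℕ → Bool} {m n : ℕ} (E Y : Finset (Finset ℤ × ℤ))
    (h : ∀ Z, Y ⊆ Z → Z ⊆ Y ∪ E → ((Sol α m n Z).Nonempty ↔ (Sol β m n Z).Nonempty)) :
    cnt α m n Y E = cnt β m n Y E := by
  refine cnt_transfer E Y fun Z hZ hZ' => ?_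
  by_cases h1 : (Sol α m n Z).Nonempty
  · exact sol_card h1 ((h Z hZ hZ').1 h1)
  · have h2 : ¬ (Sol β m n Z).Nonempty := fun h2 => h1 ((h Z hZ hZ').2 h2)
    rw [Finset.not_nonempty_iff_eq_empty.1 h1, Finset.not_nonempty_iff_eq_empty.1 h2]

end Pool.Agent.KWG
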