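import Pool.Agent.KWG.C2
import Pool.Agent.KWG.S1

/-!
# [KWG-S4] the number of words of a given pointed type

`nT_good`: for a good type `T`: `nT α m n T = cnt α m n T (Ev m n T)`.
Proof: for every word `w`: `Ts α m n (ext w) = T` iff (all windows of `T` are available and none of
`Ev m n T` is).
(→) `x ∈ T = Ts`: available.  `x ∈ Ev T`: `x.1 ∈ Sta T`, `x.2 ∈ Wi`, `x ∉ T`.  `x.1` is reachable (it is `∅` or
the first component of an element of `T = Ts`).  If `x` were available, `x ∈ Ts = T` (`mem_Ts`).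
(←) Suppose all windows of `T` are available and none of `Ev T`.
 * `RT T F → Rch F`: induction on `RT`; in the step `(F, p) ∈ T` is available and `p ∈ Wi` by `Good`.
 * `T ⊆ Ts`: `x ∈ T`: `RT T x.1` (`Good`), so `Rch x.1`; `x.2 ∈ Wi`; available.
 * `Rch F → F ∈ Sta T`: induction; step: `F ∈ Sta T`, `p ∈ Wi`, `p` available in the state `F`; then
   `(F, p) ∈ T` (otherwise it is in `Ev T`), so `(F ∆ {p}, p) ∈ T` by `Good`, so `F ∆ {p} ∈ Sta T`.
 * `Ts ⊆ T`: `x ∈ Ts`: `x.1 ∈ Sta T`, and `x ∈ T`, otherwise `x ∈ Ev T`.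

`good_Ts`: the pointed type of every word is good.  Proof: `x ∈ Ts`: `x.1 ⊆ Wi` (`Rch_sub`), `x.2 ∈ Wi`;
`(x.1 ∆ {x.2}, x.2) ∈ Ts`: reachable by `Rch.step`, available by `fl_st`, `At_fl_self`; `RT Ts x.1`: prove
`Rch F → RT Ts F` by induction.
`nT_bad`: if `T` is not good then `nT = 0`.

`nT_congr`: it is enough to compare `cnt` for good types.
-/

namespace Pool.Agent.KWG

open Finset
open scoped symmDiff

theorem nT_good {α : ℕ → Bool} {m n : ℕ} {T : Finset (Finset ℤ × ℤ)} (hT : Good m n T) :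
    nT α m n T = cnt α m n T (Ev m n T) := by
  classical
  unfold nT cnt
  congr 1
  ext w
  simp only [Finset.mem_filter, Finset.mem_univ, true_and, mem_Sol]
  constructor
  · intro h
    have hav : ∀ x ∈ T, At α m (st m (ext w) x.1) x.2 := by
      intro x hx
      rw [← h] at hx
      exact (mem_Ts.1 hx).2.2
    refine ⟨hav, ?_⟩
    intro x hx hA
    unfold Ev at hx
    rw [mem_sdiff, mem_product] at hx
    have hr : Rch α m n (ext w) x.1 := by
      have h1 := hx.1.1
      unfold Sta at h1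
      rw [mem_insert, mem_image] at h1
      rcases h1 with h1 | ⟨y, hy, hyx⟩
      · rw [h1]
        exact Rch.zero
      · rw [← h] at hy
        rw [← hyx]
        exact (mem_Ts.1 hy).1
    apply hx.2
    rw [← h]
    exact mem_Ts.2 ⟨hr, hx.1.2, hA⟩
  · rintro ⟨h1, h2⟩
    have hRT : ∀ F, RT T F → Rch α m n (ext w) F := by
      intro F hF
      induction hF with
      | zero => exact Rch.zero
      | step hF hp ih => exact Rch.step ih (hT _ hp).2.1 (h1 _ hp)
    have hRch : ∀ F, Rch α m n (ext w) F → F ∈ Sta T := by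
      intro F hF
      induction hF with
      | zero =>
        unfold Sta
        exact mem_insert_self _ _
      | @step F p hF hp hA ih =>
        have hmem : (F, p) ∈ T := by
          by_contra hc
          exact h2 (F, p) (by
            unfold Ev
            exact mem_sdiff.2 ⟨mem_product.2 ⟨ih, hp⟩, hc⟩) hA
        have h3 := (hT _ hmem).2.2.1
        unfold Sta
        exact mem_insert_of_mem (mem_image.2 ⟨_, h3, rfl⟩)
    ext x
    rw [mem_Ts]
    constructor
    · rintro ⟨hr, hw, hA⟩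
      by_contra hc
      exact h2 x (by
        unfold Ev
        exact mem_sdiff.2 ⟨mem_product.2 ⟨hRch _ hr, hw⟩, hc⟩) hA
    · intro hx
      exact ⟨hRT _ (hT x hx).2.2.2, (hT x hx).2.1, h1 x hx⟩

theorem good_Ts (α : ℕ → Bool) (m n : ℕ) (X : ℤ → Bool) : Good m n (Ts α m n X) := by
  intro x hx
  obtain ⟨h1, h2, h3⟩ := mem_Ts.1 hx
  refine ⟨Rch_sub h1, h2, ?_, ?_⟩
  · refine mem_Ts.2 ⟨Rch.step h1 h2 h3, h2, ?_⟩
    simp only
    rw [← fl_st]
    exact At_fl_self.2 h3
  · have : ∀ F, Rch α m n X F → RT (Ts α m n X) F := by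
      intro F hF
      induction hF with
      | zero => exact RT.zero
      | step hF hp hA ih => exact RT.step ih (mem_Ts.2 ⟨hF, hp, hA⟩)
    exact this _ h1

theorem nT_bad {α : ℕ → Bool} {m n : ℕ} {T : Finset (Finset ℤ × ℤ)} (hT : ¬ Good m n T) :
    nT α m n T = 0 := by
  classical
  unfold nT
  rw [Finset.card_eq_zero, Finset.filter_eq_empty_iff]
  intro w _ h
  apply hT
  rw [← h]
  exact good_Ts α m n (ext w)

/-- states and windows of the type together with its events -/
theorem good_union {m n : ℕ} {T : Finset (Finset ℤ × ℤ)} (hT : Good m n T) {x : Finset ℤ × ℤ}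
    (hx : x ∈ T ∪ Ev m n T) : x.2 ∈ Wi n m ∧ RT T x.1 := by
  rw [mem_union] at hx
  rcases hx with hx | hx
  · exact ⟨(hT x hx).2.1, (hT x hx).2.2.2⟩
  · unfold Ev at hx
    rw [mem_sdiff, mem_product] at hx
    refine ⟨hx.1.2, ?_⟩
    have h1 := hx.1.1
    unfold Sta at h1
    rw [mem_insert, mem_image] at h1
    rcases h1 with h1 | ⟨y, hy, hyx⟩
    · rw [h1]
      exact RT.zero
    · rw [← hyx]
      exact (hT y hy).2.2.2

end Pool.Agent.KWG
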