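import Pool.Agent.KWG.Q1
import Pool.Agent.KWG.S4

/-!
# [KWG-Q2] the difference of the numbers of words in components of size 4

`Wn4_diff`: if conflict-only types have equal numbers of words then
`Wn α 4 - Wn β 4 = ∑ over l, r ∈ Wi, l + m < r of (nT α (T4 l r) - nT β (T4 l r))`.
Proof.  Let `U` be the finite set of all `T ⊆ (Wi).powerset ×ˢ Wi` with `(Sta T).card = 4`.  By
`Rset_eq_Sta`, `Wn γ 4 = ∑ T ∈ U, nT γ T` (`Finset.card_eq_sum_card_fiberwise` for the map
`w ↦ Ts γ m n (ext w)`).  In the difference the conflict-only `T` contribute 0.  If `T ∈ U` is not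
conflict-only and not of the form `T4 l r` (`l, r ∈ Wi`, `l + m < r`) then both `nT` are 0 by `sq_type`
(a word of type `T` has `Rset.card = 4`).  The types `T4 l r` are in `U` (`Sta_T4`, `S4_card`), are different
for different pairs (`T4_inj`) and not conflict-only (`T4_not_CO`).  So the sum over `U` is the sum over the
pairs (`Finset.sum_subset`, `Finset.sum_image` over the finset of pairs, `Finset.sum_sigma'`).
-/

namespace Pool.Agent.KWG

open Finset
open scoped symmDiff

theorem Wn_sum (γ : ℕ → Bool) (m n : ℕ) :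
    Wn γ m n 4 = ∑ T ∈ (((Wi n m).powerset ×ˢ Wi n m).powerset.filter (fun T => (Sta T).card = 4)),
      nT γ m n T := by
  classical
  have key : ∀ w : Fin n → Bool, (Rset γ m n (ext w)).card = (Sta (Ts γ m n (ext w))).card := by
    intro w
    rw [Rset_eq_Sta]
  have h := Finset.card_eq_sum_card_fiberwise
    (s := Finset.univ.filter (fun w : Fin n → Bool => (Rset γ m n (ext w)).card = 4))
    (t := (((Wi n m).powerset ×ˢ Wi n m).powerset.filter (fun T => (Sta T).card = 4)))
    (f := fun w => Ts γ m n (ext w)) (by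
      intro w hw
      have hw' : (Rset γ m n (ext w)).card = 4 := by simpa using hw
      rw [Finset.mem_coe, Finset.mem_filter, Finset.mem_powerset]
      refine ⟨?_, by rw [← key, hw']⟩
      intro x hx
      rw [mem_Ts] at hx
      rw [Finset.mem_product, Finset.mem_powerset]
      exact ⟨Rch_sub hx.1, hx.2.1⟩)
  unfold Wn
  convert h using 1
  apply Finset.sum_congr rfl
  intro T hT
  rw [Finset.mem_filter] at hT
  unfold nT
  congr 1
  ext w
  simp only [Finset.mem_filter, Finset.mem_univ, true_and]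
  constructor
  · intro h1
    refine ⟨?_, h1⟩
    rw [key, h1]
    exact hT.2
  · intro h1
    exact h1.2

theorem Wn4_diff {α β : ℕ → Bool} {m n : ℕ} (hco : ∀ T, CO m T → nT α m n T = nT β m n T) :
    (Wn α m n 4 : ℤ) - Wn β m n 4 =
      ∑ l ∈ Wi n m, ∑ r ∈ (Wi n m).filter (fun r => l + m < r),
        ((nT α m n (T4 l r) : ℤ) - nT β m n (T4 l r)) := by
  classical
  have hz : ∀ (γ : ℕ → Bool) (T : Finset (Finset ℤ × ℤ)), (Sta T).card = 4 → ¬ CO m T →
      (¬ ∃ l r : ℤ, l ∈ Wi n m ∧ r ∈ Wi n m ∧ l + m < r ∧ T = T4 l r) → nT γ m n T = 0 := by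
    intro γ T hc hC hno
    unfold nT
    rw [Finset.card_eq_zero, Finset.filter_eq_empty_iff]
    intro w _ hw
    have h4 : (Rset γ m n (ext w)).card = 4 := by rw [Rset_eq_Sta, hw, hc]
    obtain ⟨l, r, hl, hr, hlr, hT⟩ := sq_type (α := γ) (m := m) (n := n) h4 (by rw [hw]; exact hC)
    exact hno ⟨l, r, hl, hr, hlr, by rw [← hw, hT]⟩
  set U := ((Wi n m).powerset ×ˢ Wi n m).powerset.filter (fun T => (Sta T).card = 4) with hU
  have e1 : (Wn α m n 4 : ℤ) - Wn β m n 4 = ∑ T ∈ U, ((nT α m n T : ℤ) - nT β m n T) := by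
    rw [Finset.sum_sub_distrib, Wn_sum α, Wn_sum β]
    push_cast
    rfl
  have e2 : ∑ l ∈ Wi n m, ∑ r ∈ (Wi n m).filter (fun r => l + m < r),
        ((nT α m n (T4 l r) : ℤ) - nT β m n (T4 l r)) =
      ∑ x ∈ (Wi n m ×ˢ Wi n m).filter (fun x : ℤ × ℤ => x.1 + (m : ℤ) < x.2),
        ((nT α m n (T4 x.1 x.2) : ℤ) - nT β m n (T4 x.1 x.2)) := by
    rw [Finset.sum_filter, Finset.sum_product]
    apply Finset.sum_congr rfl
    intro l _
    rw [Finset.sum_filter]
  have e3 : ∑ x ∈ (Wi n m ×ˢ Wi n m).filter (fun x : ℤ × ℤ => x.1 + (m : ℤ) < x.2),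
        ((nT α m n (T4 x.1 x.2) : ℤ) - nT β m n (T4 x.1 x.2)) =
      ∑ T ∈ ((Wi n m ×ˢ Wi n m).filter (fun x : ℤ × ℤ => x.1 + (m : ℤ) < x.2)).image (fun x : ℤ × ℤ => T4 x.1 x.2),
        ((nT α m n T : ℤ) - nT β m n T) := by
    rw [Finset.sum_image]
    intro x hx y hy hxy
    have hx' : x.1 + m < x.2 := by
      have := hx
      simp only [Finset.coe_filter, Finset.mem_product, Set.mem_setOf_eq] at this
      exact this.2
    have hy' : y.1 + m < y.2 := by
      have := hy
      simp only [Finset.coe_filter, Finset.mem_product, Set.mem_setOf_eq] at this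
      exact this.2
    obtain ⟨a1, a2⟩ := T4_inj (by omega) (by omega) hxy
    exact Prod.ext a1 a2
  rw [e1, e2, e3]
  symm
  apply Finset.sum_subset
  · intro T hT
    rw [Finset.mem_image] at hT
    obtain ⟨x, hx, rfl⟩ := hT
    rw [Finset.mem_filter, Finset.mem_product] at hx
    rw [hU, Finset.mem_filter, Finset.mem_powerset]
    refine ⟨?_, by rw [Sta_T4]; exact S4_card (by omega)⟩
    intro y hy
    obtain ⟨b1, b2, _, _⟩ := T4_good hx.1.1 hx.1.2 y hy
    rw [Finset.mem_product, Finset.mem_powerset]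
    exact ⟨b1, b2⟩
  · intro T hT hno
    by_cases hC : CO m T
    · rw [hco T hC]
      ring
    · have hT4 : (Sta T).card = 4 := by
        rw [hU, Finset.mem_filter] at hT
        exact hT.2
      have hno' : ¬ ∃ l r : ℤ, l ∈ Wi n m ∧ r ∈ Wi n m ∧ l + m < r ∧ T = T4 l r := by
        rintro ⟨l, r, hl, hr, hlr, rfl⟩
        apply hno
        rw [Finset.mem_image]
        exact ⟨(l, r), by rw [Finset.mem_filter, Finset.mem_product]; exact ⟨⟨hl, hr⟩, hlr⟩, rfl⟩
      rw [hz α T hT4 hC hno', hz β T hT4 hC hno']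
      simp

end Pool.Agent.KWG
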