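import Pool.Agent.KWG.Q3a

/-!
# [KWG-Q3] squares when the relation agrees

`per_full`: if `l, r ∈ Wi` and `l + m + 2 ≤ r` then `n ≥ 2 m + 3` and the hypothesis on the periods covers
all `d` (for `d ≥ m` everything is a period).

`sq_eq`: equal numbers if the relation `Gs` agrees at `g = r - l - m` (or if `r = l + m + 1`).
Proof: `nT_good` (`T4_good`), `cnt_transfer'`, `sq_sub` in both directions (`Ev m n (T4 l r) ∪ T4 l r ⊆
S4 l r ×ˢ Wi` by `Sta_T4`); the hypothesis `hcr`: `GsAt α m a' b' g` gives `Gs α m g`, so `Gs β m g`, so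
`GsAt β m a' b' g` by `gs_unique`, and `gs_D` gives the period `b' - a' = p - q`.
-/

namespace Pool.Agent.KWG

open Finset
open scoped symmDiff

theorem per_full {α β : ℕ → Bool} {m n : ℕ}
    (hper : ∀ d, d + m + 1 ≤ n → (Per α m d ↔ Per β m d)) (hn : 2 * m + 1 ≤ n) (d : ℕ) :
    Per α m d ↔ Per β m d := by
  by_cases hd : d < m
  · exact hper d (by omega)
  · exact ⟨fun _ j hj => absurd hj (by omega), fun _ j hj => absurd hj (by omega)⟩

theorem q3_sub {α β : ℕ → Bool} {m n : ℕ}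
    (hper : ∀ d, d + m + 1 ≤ n → (Per α m d ↔ Per β m d)) {l r : ℤ} (hl : l ∈ Wi n m)
    (hr : r ∈ Wi n m) (hlr : l + m < r)
    (hgs : l + m + 2 ≤ r → Gs α m (r - l - m).toNat → Gs β m (r - l - m).toNat)
    {Z : Finset (Finset ℤ × ℤ)} (h1 : T4 l r ⊆ Z) (h2 : Z ⊆ T4 l r ∪ Ev m n (T4 l r))
    (hne : (Sol α m n Z).Nonempty) : (Sol β m n Z).Nonempty := by
  have h3 : Z ⊆ S4 l r ×ˢ Wi n m := by
    intro x hx
    rcases Finset.mem_union.1 (h2 hx) with h | h
    · rw [mem_T4] at h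
      rw [Finset.mem_product]
      refine ⟨h.1, ?_⟩
      rcases h.2 with h4 | h4
      · rw [h4]; exact hl
      · rw [h4]; exact hr
    · unfold Ev at h
      rw [Finset.mem_sdiff, Sta_T4] at h
      exact h.1
  refine sq_sub hper hl hr hlr h1 h3 (fun F p q _ _ hqp hlq hpl hpr hrq hlr2 hg => ?_) hne
  have hl' := mem_Wi.1 hl
  have hr' := mem_Wi.1 hr
  have hper' := per_full hper (by omega)
  obtain ⟨a', b', hg'⟩ := hgs hlr2 ⟨_, _, hg⟩
  obtain ⟨e1, e2⟩ := gs_unique hper' hg hg'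
  rw [← e1, ← e2] at hg'
  have h5 := gs_D hg hg'
  have e3 : (l + m - q).toNat - (l + m - p).toNat = (p - q).toNat := by omega
  rw [e3] at h5
  exact h5

theorem sq_eq {α β : ℕ → Bool} {m n : ℕ}
    (hper : ∀ d, d + m + 1 ≤ n → (Per α m d ↔ Per β m d)) {l r : ℤ} (hl : l ∈ Wi n m)
    (hr : r ∈ Wi n m) (hlr : l + m < r)
    (hgs : l + m + 2 ≤ r → (Gs α m (r - l - m).toNat ↔ Gs β m (r - l - m).toNat)) :
    nT α m n (T4 l r) = nT β m n (T4 l r) := by
  have hg := T4_good (m := m) (n := n) hl hr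
  rw [nT_good hg, nT_good hg]
  refine cnt_transfer' _ _ fun Z h1 h2 => ⟨q3_sub hper hl hr hlr (fun h => (hgs h).1) h1 h2,
    q3_sub (fun d hd => (hper d hd).symm) hl hr hlr (fun h => (hgs h).2) h1 h2⟩

end Pool.Agent.KWG
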