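import Pool.Agent.KWG.Q0
import Pool.Agent.KWG.A1a
import Pool.Agent.KWG.P4

/-!
# [KWG-Q3a] transfer of solutions in a square

`sq_sub`: `T4 l r ⊆ Y ⊆ S4 l r ×ˢ Wi`, `w ∈ Sol α Y`.  Suppose that `D = α xor β` has the period `p - q` for
every crossing pair: `(F, p) ∈ Y`, `(F ∆ {l, r}, q) ∈ Y`, `q < p`, in corner position, with `GsAt`.
Then `Sol β Y` is nonempty.
Proof.  By `sol_of_cpt` it is enough to prove `Cpt D m Y`.  Let `x, y ∈ Y`, `t` covered by both; put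
`Z = st m (ext w) x.1`.  `x.1, y.1 ∈ S4 l r`; `l`, `r` are available in all four states (`T4 ⊆ Y`, or
`T4_avail`).  By `S4_diff`:
 - `y.1 = x.1`: `zeroP` (with `h1_of_per`).
 - `y.1 = x.1 ∆ {l}`: `st m (ext w) y.1 = fl m l Z` (`fl_st`): `oneP` with the move `l`; same for `r`.
 - `y.1 = x.1 ∆ {l, r}`: `st m (ext w) y.1 = fl m r (fl m l Z)`: `sqP`.  Its hypothesis `H2`: `p = x.2`,
   `q = y.2`, `p = q + δ`: `cfg_gs` for `Z` gives `GsAt`, and `hcr` with `F = x.1` gives the period.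
   `H2'`: `q = p + δ`: the same with the word `st m (ext w) y.1` (in which `l`, `r`, `y.2` are available and
   `fl m r (fl m l ·)` of it is `Z`), and `hcr` with `F = y.1` (`y.1 ∆ {l, r} = x.1`).
-/

namespace Pool.Agent.KWG

open Finset
open scoped symmDiff

theorem sq_sub {α β : ℕ → Bool} {m n : ℕ}
    (hper : ∀ d, d + m + 1 ≤ n → (Per α m d ↔ Per β m d)) {l r : ℤ} (hl : l ∈ Wi n m)
    (hr : r ∈ Wi n m) (hlr : l + m < r) {Y : Finset (Finset ℤ × ℤ)} (h1 : T4 l r ⊆ Y)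
    (h2 : Y ⊆ S4 l r ×ˢ Wi n m)
    (hcr : ∀ (F : Finset ℤ) (p q : ℤ), (F, p) ∈ Y → (F ∆ {l, r}, q) ∈ Y → q < p → l < q →
      p ≤ l + m → p < r → r ≤ q + m → l + m + 2 ≤ r →
      GsAt α m (l + m - p).toNat (l + m - q).toNat (r - l - m).toNat →
      Per (fun j => α j ^^ β j) m (p - q).toNat)
    (hne : (Sol α m n Y).Nonempty) : (Sol β m n Y).Nonempty := by
  obtain ⟨w, hw⟩ := hne
  have hw' := mem_Sol.1 hw
  have hY : ∀ x ∈ Y, x.1 ∈ S4 l r ∧ x.2 ∈ Wi n m := fun x hx => Finset.mem_product.1 (h2 hx)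
  refine sol_of_cpt (fun x hx => (hY x hx).2) ⟨w, hw⟩ ?_
  have hne' : l ≠ r := by omega
  have hav : ∀ F ∈ S4 l r, At α m (st m (ext w) F) l ∧ At α m (st m (ext w) F) r := by
    intro F hF
    exact ⟨hw' (F, l) (h1 (mem_T4.2 ⟨hF, Or.inl rfl⟩)), hw' (F, r) (h1 (mem_T4.2 ⟨hF, Or.inr rfl⟩))⟩
  have H1 : ∀ (Y : ℤ → Bool) (p : ℤ) (d : ℕ), p ∈ (Wi n m : Set ℤ) → p + d ∈ (Wi n m : Set ℤ) →
      At α m Y p → At α m Y (p + d) → 1 ≤ d → d ≤ m → Per (fun j => α j ^^ β j) m d :=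
    fun Y p d hp hq h1 h2 _ _ => h1_of_per hper Y p d hp hq h1 h2
  intro x hx y hy t h3 h4 h5 h6
  obtain ⟨hx1, hx2⟩ := hY x hx
  obtain ⟨hy1, hy2⟩ := hY y hy
  have hX := hw' x hx
  have hY' := hw' y hy
  obtain ⟨hxl, hxr⟩ := hav x.1 hx1
  obtain ⟨hyl, hyr⟩ := hav y.1 hy1
  rcases S4_diff hx1 hy1 with e | e | e | e
  · rw [e] at hY'
    exact zeroP H1 (Finset.mem_coe.2 hx2) (Finset.mem_coe.2 hy2) hX hY' h3 h4 h5 h6
  · rw [e, ← fl_st] at hY'
    exact oneP H1 (Finset.mem_coe.2 hl) (Finset.mem_coe.2 hx2) (Finset.mem_coe.2 hy2) hxl hX hY'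
      h3 h4 h5 h6
  · rw [e, ← fl_st] at hY'
    exact oneP H1 (Finset.mem_coe.2 hr) (Finset.mem_coe.2 hx2) (Finset.mem_coe.2 hy2) hxr hX hY'
      h3 h4 h5 h6
  · have e1 : st m (ext w) y.1 = fl m r (fl m l (st m (ext w) x.1)) := by
      rw [e, ← st_st, st_pair hne']
    have e2 : st m (ext w) x.1 = fl m r (fl m l (st m (ext w) y.1)) := by
      rw [e1, fl_comm m l r, fl_fl, fl_fl]
    have e3 : y.1 ∆ {l, r} = x.1 := by rw [e, symmDiff_symmDiff_cancel_right]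
    have hY2 : At α m (fl m r (fl m l (st m (ext w) x.1))) y.2 := by
      rw [← e1]
      exact hY'
    have hX2 : At α m (fl m r (fl m l (st m (ext w) y.1))) x.2 := by
      rw [← e2]
      exact hX
    refine sqP H1 (Finset.mem_coe.2 hl) (Finset.mem_coe.2 hr) (Finset.mem_coe.2 hx2)
      (Finset.mem_coe.2 hy2) hlr hxl hxr hX hY2 ?_ ?_ h3 h4 h5 h6
    · intro δ hδ h7 h8 h9 h10 h11 h12
      have hXd : At α m (st m (ext w) x.1) (y.2 + δ) := by
        rw [← hδ]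
        exact hX
      have hg := cfg_gs hxl hxr hXd hY2 h7 h8 (by omega) (by omega) h11 h12
      rw [← hδ] at hg
      have h13 := hcr x.1 x.2 y.2 hx (by rw [← e]; exact hy) (by omega) h8 h9 h10 h11 h12 hg
      have h14 : (x.2 - y.2).toNat = δ := by omega
      rw [h14] at h13
      exact h13
    · intro δ hδ h7 h8 h9 h10 h11 h12
      have hYd : At α m (st m (ext w) y.1) (x.2 + δ) := by
        rw [← hδ]
        exact hY'
      have hg := cfg_gs hyl hyr hYd hX2 h7 h8 (by omega) (by omega) h11 h12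
      rw [← hδ] at hg
      have h13 := hcr y.1 y.2 x.2 hy (by rw [e3]; exact hx) (by omega) h8 h9 h10 h11 h12 hg
      have h14 : (y.2 - x.2).toNat = δ := by omega
      rw [h14] at h13
      exact h13

end Pool.Agent.KWG
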