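import Pool.Agent.KWG.S1
import Pool.Agent.KWG.C1

/-!
# [KWG-Q4] two counting lemmas

`cnt_once`: `K` a set of events no two of which are compatible with `Y`: then every word counted by
`cnt Y E` has no window of `K` available, or exactly one.
Proof: induction on `K` (`E` fixed).  `K = ∅` trivial.  `insert x K`: `cnt_split` for `Y`, `E ∪ K`, `x`:
`cnt Y (E ∪ K) = cnt Y (insert x (E ∪ K)) + cnt (insert x Y) (E ∪ K)`, and
`cnt (insert x Y) (E ∪ K) = cnt (insert x Y) E` because the windows of `K` are never available together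
with `x` and `Y` (`cnt_drop` for each element of `K`, or directly: the two filters are equal).

`cnt_shift`: shift of all the states by `G`.  `w ↦ stw m w G` is an involution (`stw_stw`), and by `At_stw`
the window `(F, p)`, `p ∈ Wi`, of `stw m w G` is the window `(G ∆ F, p)` of `w`.  So it is a bijection between
the words counted on the two sides.
-/

namespace Pool.Agent.KWG

open Finset
open scoped symmDiff

theorem q4_drop {α : ℕ → Bool} {m n : ℕ} {Y : Finset (Finset ℤ × ℤ)}
    (K E : Finset (Finset ℤ × ℤ)) (h : ∀ x ∈ K, Sol α m n (insert x Y) = ∅) :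
    cnt α m n Y (E ∪ K) = cnt α m n Y E := by
  induction K using Finset.induction_on with
  | empty => rw [Finset.union_empty]
  | insert x K hx ih =>
    rw [Finset.union_insert, cnt_drop (h x (Finset.mem_insert_self x K)),
      ih fun y hy => h y (Finset.mem_insert_of_mem hy)]

theorem cnt_once {α : ℕ → Bool} {m n : ℕ} {Y : Finset (Finset ℤ × ℤ)} (K E : Finset (Finset ℤ × ℤ))
    (h : ∀ x ∈ K, ∀ y ∈ K, x ≠ y → Sol α m n (insert x (insert y Y)) = ∅) :
    cnt α m n Y E = cnt α m n Y (E ∪ K) + ∑ x ∈ K, cnt α m n (insert x Y) E := by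
  induction K using Finset.induction_on with
  | empty => rw [Finset.union_empty, Finset.sum_empty, add_zero]
  | insert x K hx ih =>
    have e1 := ih fun a ha b hb hab => h a (Finset.mem_insert_of_mem ha) b
      (Finset.mem_insert_of_mem hb) hab
    have e2 := cnt_split α m n Y (E ∪ K) x
    have e3 : cnt α m n (insert x Y) (E ∪ K) = cnt α m n (insert x Y) E := by
      refine q4_drop K E fun y hy => ?_
      refine h y (Finset.mem_insert_of_mem hy) x (Finset.mem_insert_self x K) ?_
      rintro rfl
      exact hx hy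
    rw [Finset.union_insert, Finset.sum_insert hx]
    omega

theorem cnt_shift {α : ℕ → Bool} {m n : ℕ} {Y E : Finset (Finset ℤ × ℤ)} (G : Finset ℤ)
    (hY : ∀ x ∈ Y, x.2 ∈ Wi n m) (hE : ∀ x ∈ E, x.2 ∈ Wi n m) :
    cnt α m n (Y.image (fun x => (G ∆ x.1, x.2))) (E.image (fun x => (G ∆ x.1, x.2))) =
      cnt α m n Y E := by
  classical
  unfold cnt
  refine Finset.card_nbij' (fun w => stw m w G) (fun w => stw m w G) ?_ ?_ ?_ ?_
  · intro w hw
    rw [Finset.mem_coe, Finset.mem_filter, mem_Sol] at hw
    rw [Finset.mem_coe, Finset.mem_filter, mem_Sol]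
    refine ⟨fun x hx => ?_, fun x hx => ?_⟩
    · exact (At_stw (hY x hx)).2 (hw.1 _ (Finset.mem_image_of_mem _ hx))
    · rw [At_stw (hE x hx)]
      exact hw.2 _ (Finset.mem_image_of_mem _ hx)
  · intro w hw
    rw [Finset.mem_coe, Finset.mem_filter, mem_Sol] at hw
    rw [Finset.mem_coe, Finset.mem_filter, mem_Sol]
    refine ⟨fun x hx => ?_, fun x hx => ?_⟩
    · obtain ⟨y, hy, rfl⟩ := Finset.mem_image.1 hx
      rw [At_stw (hY y hy), ← symmDiff_assoc, symmDiff_self, bot_symmDiff]
      exact hw.1 y hy
    · obtain ⟨y, hy, rfl⟩ := Finset.mem_image.1 hx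
      rw [At_stw (hE y hy), ← symmDiff_assoc, symmDiff_self, bot_symmDiff]
      exact hw.2 y hy
  · intro w _
    dsimp only
    rw [stw_stw, symmDiff_self]
    exact stw_empty m w
  · intro w _
    dsimp only
    rw [stw_stw, symmDiff_self]
    exact stw_empty m w

end Pool.Agent.KWG
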