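import Pool.Agent.KWG.Q3

/-!
# [KWG-Q5b] equality of the counts when no crossing pair occurs

`GsAt α m a b g`, not `Gs β m g`, `r = l + m + g`, `T4 l r ⊆ Y ⊆ S4 ×ˢ Wi`, `E ⊆ S4 ×ˢ Wi`, and no crossing pair
`(F, l + m - a)`, `(F ∆ {l, r}, l + m - b)` lies in `Y ∪ E`.  Then `cnt α Y E = cnt β Y E`.

Proof.  `cnt_transfer'`: let `Y ⊆ Z ⊆ Y ∪ E`; `sq_sub` in both directions.
From `α` to `β`, hypothesis `hcr` of `sq_sub`: `(F, p), (F ∆ {l, r}, q) ∈ Z` with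
`GsAt α m (l + m - p) (l + m - q) g` (`r - l - m = g`): by `gs_unique` (for `α, α`) `l + m - p = a` and
`l + m - q = b` (`p, q ≤ l + m`), so `p = l + m - a`, `q = l + m - b`: a crossing pair in `Z ⊆ Y ∪ E`,
contradiction.
From `β` to `α`: `GsAt β m _ _ g` contradicts `¬ Gs β m g`.
-/

namespace Pool.Agent.KWG

open Finset
open scoped symmDiff

theorem sq_nocross {α β : ℕ → Bool} {m n a b g : ℕ}
    (hper : ∀ d, d + m + 1 ≤ n → (Per α m d ↔ Per β m d)) (h : GsAt α m a b g)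
    (hβ : ¬ Gs β m g) {l r : ℤ} (hl : l ∈ Wi n m) (hr : r ∈ Wi n m) (hlr : r = l + m + g)
    {Y E : Finset (Finset ℤ × ℤ)} (h1 : T4 l r ⊆ Y) (h2 : Y ⊆ S4 l r ×ˢ Wi n m)
    (h3 : E ⊆ S4 l r ×ˢ Wi n m)
    (hno : ∀ F : Finset ℤ, ¬ ((F, l + m - a) ∈ Y ∪ E ∧ (F ∆ {l, r}, l + m - b) ∈ Y ∪ E)) :
    cnt α m n Y E = cnt β m n Y E := by
  have hg2 := h.1
  have eg : (r - l - m).toNat = g := by omega
  refine cnt_transfer' _ _ fun Z hYZ hZ => ?_
  have hZs : Z ⊆ S4 l r ×ˢ Wi n m := hZ.trans (Finset.union_subset h2 h3)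
  constructor
  · refine sq_sub hper hl hr (by omega) (h1.trans hYZ) hZs ?_
    intro F p q hFp hFq hqp hlq hpl hpr hrq hlr2 hg
    exfalso
    rw [eg] at hg
    obtain ⟨e1, e2⟩ := gs_unique (fun _ => Iff.rfl) h hg
    have e3 : p = l + m - a := by omega
    have e4 : q = l + m - b := by omega
    rw [e3] at hFp
    rw [e4] at hFq
    exact hno F ⟨hZ hFp, hZ hFq⟩
  · refine sq_sub (fun d hd => (hper d hd).symm) hl hr (by omega) (h1.trans hYZ) hZs ?_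
    intro F p q hFp hFq hqp hlq hpl hpr hrq hlr2 hg
    exfalso
    rw [eg] at hg
    exact hβ ⟨_, _, hg⟩

end Pool.Agent.KWG
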