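import Pool.Agent.KWG.Q0
import Pool.Agent.KWG.R4
import Pool.Agent.KWG.S1

/-!
# [KWG-Q5c] a crossing pair needs the corner relation

`a < b`, `a + b + g = m`, `g ≥ 2`, `r = l + m + g`, `F ∈ S4 l r`; if some word has all the windows of `T4 l r`,
`(F, l + m - b)` and `(F ∆ {l, r}, l + m - a)` available for `β`, then `Gs β m g`.

Proof.  Let `w` be such a word (`mem_Sol`), `X = st m (ext w) (F ∆ {l, r})`.  `l`, `r` are available in `X`
(`F ∆ {l, r} ∈ S4 l r`), `l + m - a` too, and `l + m - b` is available in `st m (ext w) F = fl m r (fl m l X)`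
(`st_st`, `st_pair`, `F ∆ {l, r} ∆ {l, r} = F`).  `cfg_gs` with `q = l + m - b`, `δ = b - a`
(`q + δ = l + m - a`; `l < q` since `b < m`; `q + δ ≤ l + m`; `q + δ < r`; `r ≤ q + m` since `b + g ≤ m`;
`l + m + 2 ≤ r`) gives `GsAt β m a b g`.
-/

namespace Pool.Agent.KWG

open Finset
open scoped symmDiff

theorem sq_incompat {β : ℕ → Bool} {m n a b g : ℕ} (hg : 2 ≤ g) (hab : a < b) (hm : a + b + g = m)
    (hβ : ¬ Gs β m g) {l r : ℤ} (hlr : r = l + m + g) {F : Finset ℤ} (hF : F ∈ S4 l r) :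
    Sol β m n (insert (F ∆ {l, r}, l + m - a) (insert (F, l + m - b) (T4 l r))) = ∅ := by
  rw [Finset.eq_empty_iff_forall_notMem]
  intro w hw
  rw [mem_Sol] at hw
  apply hβ
  have hG : F ∆ {l, r} ∈ S4 l r := S4_symm hF (mem_S4.2 (Finset.Subset.refl _))
  have e1 := hw (F ∆ {l, r}, l + m - a) (Finset.mem_insert_self _ _)
  have e2 := hw (F, l + m - b) (Finset.mem_insert_of_mem (Finset.mem_insert_self _ _))
  have hl := hw (F ∆ {l, r}, l) (Finset.mem_insert_of_mem (Finset.mem_insert_of_mem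
    (mem_T4.2 ⟨hG, Or.inl rfl⟩)))
  have hr := hw (F ∆ {l, r}, r) (Finset.mem_insert_of_mem (Finset.mem_insert_of_mem
    (mem_T4.2 ⟨hG, Or.inr rfl⟩)))
  dsimp only at e1 e2 hl hr
  have hne : l ≠ r := by omega
  have hst : fl m r (fl m l (st m (ext w) (F ∆ {l, r}))) = st m (ext w) F := by
    rw [← st_pair hne, st_st, symmDiff_assoc, symmDiff_self, symmDiff_bot]
  have hδ : ((b - a : ℕ) : ℤ) = (b : ℤ) - a := by omega
  have hq : (l + m - b : ℤ) + ((b - a : ℕ) : ℤ) = l + m - a := by omega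
  have hp : At β m (st m (ext w) (F ∆ {l, r})) ((l + m - b : ℤ) + ((b - a : ℕ) : ℤ)) := by
    rw [hq]
    exact e1
  have hq2 : At β m (fl m r (fl m l (st m (ext w) (F ∆ {l, r})))) (l + m - b : ℤ) := by
    rw [hst]
    exact e2
  have key := cfg_gs hl hr hp hq2 (by omega) (by omega) (by omega) (by omega) (by omega)
    (by omega)
  have t1 : (l + m - ((l + m - b : ℤ) + ((b - a : ℕ) : ℤ))).toNat = a := by omega
  have t2 : (l + m - (l + m - b : ℤ)).toNat = b := by omega
  have t3 : (r - l - m).toNat = g := by omega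
  rw [t1, t2, t3] at key
  exact ⟨a, b, key⟩

end Pool.Agent.KWG
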