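import Pool.Agent.KWG.Q5a
import Pool.Agent.KWG.Q5b
import Pool.Agent.KWG.Q5c

/-!
# [KWG-Q5] the difference of the numbers of squares, first form

Setting: `GsAt α m a b g`, not `Gs β m g`, equal periods, `r = l + m + g`, `l, r ∈ Wi`,
`ka = l + m - a`, `kb = l + m - b` (so `l < kb < ka < r`, `ka ≤ l + m`, `r ≤ kb + m`, `g ≥ 2`).  For
`F ∈ S4 l r` put `F' = F ∆ {l, r}` (opposite corner), `YF = insert (F', ka) (insert (F, kb) (T4 l r))`,
`EF = EFs m n l r ka kb F = (S4 ×ˢ Wi) \ (T4 ∪ S4 ×ˢ {kb} ∪ {(F', ka)})`.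

Claim: `nT α T4 = nT β T4 + ∑ F ∈ S4, cnt α YF EF`.

Proof.  Let `E' = (S4 ×ˢ Wi) \ (T4 ∪ S4 ×ˢ {kb})`, `γ = α` or `β`.
(1) `sq_once` with `k = kb`: `cnt γ T4 E' = nT γ T4 + ∑ F ∈ S4, cnt γ (insert (F, kb) T4) E'`.
(2) `cnt α T4 E' = cnt β T4 E'` by `sq_nocross`: no window `kb` occurs in `T4 ∪ E'` (`kb ≠ l, r`; for
    `F ∆ {l, r} ∈ S4` it is excluded from `E'`).
(3) For `F ∈ S4` let `Y1 = insert (F, kb) T4`, `z = (F', ka)`.  `z ∈ E'` and `EF = E' \ {z}`, so
    `E' = insert z EF`; `cnt_split`: `cnt γ Y1 EF = cnt γ Y1 E' + cnt γ (insert z Y1) EF`.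
    `cnt β (insert z Y1) EF = 0` by `sq_incompat` (`cnt` is at most `(Sol ..).card`).
    `cnt α Y1 EF = cnt β Y1 EF` by `sq_nocross`: a crossing pair `(F₀, ka)`, `(F₀ ∆ {l, r}, kb)` in `Y1 ∪ EF`:
    the only window `kb` there is `(F, kb)`, so `F₀ = F'`, but `(F', ka) = z` is not in `Y1 ∪ EF`
    (`ka ≠ l, r, kb`).
(4) So `cnt α Y1 E' + cnt α (insert z Y1) EF = cnt β Y1 E'` for each `F`; sum over `F` and use (1), (2).
-/

namespace Pool.Agent.KWG

open Finset
open scoped symmDiff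

theorem sq_diff1 {α β : ℕ → Bool} {m n a b g : ℕ}
    (hper : ∀ d, d + m + 1 ≤ n → (Per α m d ↔ Per β m d)) (h : GsAt α m a b g)
    (hβ : ¬ Gs β m g) {l r : ℤ} (hl : l ∈ Wi n m) (hr : r ∈ Wi n m) (hlr : r = l + m + g) :
    nT α m n (T4 l r) = nT β m n (T4 l r) +
      ∑ F ∈ S4 l r, cnt α m n
        (insert (F ∆ {l, r}, l + m - a) (insert (F, l + m - b) (T4 l r)))
        (EFs m n l r (l + m - a) (l + m - b) F) := by
  classical
  obtain ⟨hg, hab, hm, _, _, _⟩ := id h
  have hwl := mem_Wi.1 hl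
  have hwr := mem_Wi.1 hr
  have hlr5 : l + m + 2 ≤ r := by omega
  have hlrne : l ≠ r := by omega
  set ka : ℤ := l + m - a with hka
  set kb : ℤ := l + m - b with hkb
  have hkaW : ka ∈ Wi n m := mem_Wi.2 ⟨by omega, by omega⟩
  have hkbW : kb ∈ Wi n m := mem_Wi.2 ⟨by omega, by omega⟩
  set E' : Finset (Finset ℤ × ℤ) := (S4 l r ×ˢ Wi n m) \ (T4 l r ∪ S4 l r ×ˢ {kb}) with hE'
  have hT4sub : T4 l r ⊆ S4 l r ×ˢ Wi n m := by
    intro x hx
    obtain ⟨h1, h2⟩ := mem_T4.1 hx
    refine mem_product.2 ⟨h1, ?_⟩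
    rcases h2 with h2 | h2
    · rw [h2]
      exact hl
    · rw [h2]
      exact hr
  have hE'sub : E' ⊆ S4 l r ×ˢ Wi n m := sdiff_subset
  have hE'kb : ∀ F : Finset ℤ, (F, kb) ∉ E' := by
    intro F hF
    rw [hE', mem_sdiff, mem_product, mem_union, mem_product] at hF
    exact hF.2 (Or.inr ⟨hF.1.1, mem_singleton_self _⟩)
  have hT4kb : ∀ F : Finset ℤ, (F, kb) ∉ T4 l r := by
    intro F hF
    rcases (mem_T4.1 hF).2 with h2 | h2
    · simp only at h2
      omega
    · simp only at h2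
      omega
  have hT4ka : ∀ F : Finset ℤ, (F, ka) ∉ T4 l r := by
    intro F hF
    rcases (mem_T4.1 hF).2 with h2 | h2
    · simp only at h2
      omega
    · simp only at h2
      omega
  have hpair : ({l, r} : Finset ℤ) ∈ S4 l r := mem_S4.2 (Finset.Subset.refl _)
  -- (1)
  have h1α := sq_once (γ := α) (m := m) (n := n) (k := kb) hl hr (by omega) (by omega) (by omega)
    (by omega) hlr5
  have h1β := sq_once (γ := β) (m := m) (n := n) (k := kb) hl hr (by omega) (by omega) (by omega)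
    (by omega) hlr5
  rw [← hE'] at h1α h1β
  -- (2)
  have h2 : cnt α m n (T4 l r) E' = cnt β m n (T4 l r) E' := by
    refine sq_nocross hper h hβ hl hr hlr (Finset.Subset.refl _) hT4sub hE'sub ?_
    intro F hF
    rcases mem_union.1 hF.2 with h3 | h3
    · exact hT4kb _ h3
    · exact hE'kb _ h3
  -- (3)
  have h3 : ∀ F ∈ S4 l r, cnt α m n (insert (F, kb) (T4 l r)) E' +
      cnt α m n (insert (F ∆ {l, r}, ka) (insert (F, kb) (T4 l r))) (EFs m n l r ka kb F) =
      cnt β m n (insert (F, kb) (T4 l r)) E' := by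
    intro F hF
    have hF' : F ∆ {l, r} ∈ S4 l r := S4_symm hF hpair
    have hkakb : ka ≠ kb := by omega
    have hzE' : (F ∆ {l, r}, ka) ∈ E' := by
      rw [hE', mem_sdiff, mem_product, mem_union, mem_product]
      refine ⟨⟨hF', hkaW⟩, ?_⟩
      rintro (h4 | h4)
      · exact hT4ka _ h4
      · exact hkakb (mem_singleton.1 h4.2)
    have hEF : EFs m n l r ka kb F = E' \ {(F ∆ {l, r}, ka)} := by
      unfold EFs
      rw [hE', sdiff_sdiff_left]
      rfl
    have hins : insert (F ∆ {l, r}, ka) (EFs m n l r ka kb F) = E' := by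
      rw [hEF, Finset.sdiff_singleton_eq_erase, Finset.insert_erase hzE']
    have s1 := cnt_split α m n (insert (F, kb) (T4 l r)) (EFs m n l r ka kb F) (F ∆ {l, r}, ka)
    have s2 := cnt_split β m n (insert (F, kb) (T4 l r)) (EFs m n l r ka kb F) (F ∆ {l, r}, ka)
    rw [hins] at s1 s2
    have hβ0 : cnt β m n (insert (F ∆ {l, r}, ka) (insert (F, kb) (T4 l r)))
        (EFs m n l r ka kb F) = 0 := by
      have h5 := sq_incompat (n := n) hg hab hm hβ hlr hF
      unfold cnt
      rw [← hka, ← hkb] at h5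
      rw [h5]
      simp
    have hY1 : cnt α m n (insert (F, kb) (T4 l r)) (EFs m n l r ka kb F) =
        cnt β m n (insert (F, kb) (T4 l r)) (EFs m n l r ka kb F) := by
      refine sq_nocross hper h hβ hl hr hlr (Finset.subset_insert _ _) ?_ ?_ ?_
      · intro x hx
        rcases mem_insert.1 hx with h5 | h5
        · rw [h5]
          exact mem_product.2 ⟨hF, hkbW⟩
        · exact hT4sub h5
      · rw [hEF]
        exact sdiff_subset.trans hE'sub
      · rintro F₀ ⟨h5, h6⟩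
        -- `(F₀ ∆ {l, r}, kb)` is `(F, kb)`
        have h7 : F₀ ∆ {l, r} = F := by
          rcases mem_union.1 h6 with h7 | h7
          · rcases mem_insert.1 h7 with h8 | h8
            · exact (Prod.ext_iff.1 h8).1
            · exact absurd h8 (hT4kb _)
          · rw [hEF] at h7
            exact absurd (sdiff_subset h7) (hE'kb _)
        have h8 : F₀ = F ∆ {l, r} := by
          rw [← h7, symmDiff_symmDiff_cancel_right]
        rcases mem_union.1 h5 with h9 | h9
        · rcases mem_insert.1 h9 with h10 | h10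
          · exact hkakb (Prod.ext_iff.1 h10).2
          · exact hT4ka _ h10
        · rw [hEF, mem_sdiff] at h9
          apply h9.2
          rw [mem_singleton, h8]
    omega
  have h4 := Finset.sum_congr rfl h3
  rw [Finset.sum_add_distrib] at h4
  omega

end Pool.Agent.KWG
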