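import Pool.Agent.KWG.Q0
import Pool.Agent.KWG.Q4
import Pool.Agent.KWG.R4b
import Pool.Agent.KWG.S4

/-!
# [KWG-Q5a] separating the events of one window

`k` is a window in corner position (`l < k ≤ l + m`, `k < r ≤ k + m`, `l + m + 2 ≤ r`).  Put
`K = S4 l r ×ˢ {k}`, `E' = (S4 l r ×ˢ Wi) \ (T4 l r ∪ K)`.  Then `Ev m n (T4 l r) = E' ∪ K` (`Sta_T4`;
`K ⊆ S4 ×ˢ Wi` because `l < k < r`; `K` is disjoint from `T4 l r` because `k ≠ l, r`).  `nT_good`
(`T4_good`) gives `nT γ (T4 l r) = cnt γ (T4 l r) (E' ∪ K)`.  Two different elements `(F, k), (F', k)` of `K` are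
never available for the same word (`cfg_once`), so `cnt_once` applies, and the sum over `K` is a sum over
`S4 l r` (`Finset.sum_product`, `Finset.sum_singleton`).
-/

namespace Pool.Agent.KWG

open Finset
open scoped symmDiff

theorem sq_once {γ : ℕ → Bool} {m n : ℕ} {l r k : ℤ} (hl : l ∈ Wi n m) (hr : r ∈ Wi n m)
    (h1 : l < k) (h2 : k ≤ l + m) (h3 : k < r) (h4 : r ≤ k + m) (h5 : l + m + 2 ≤ r) :
    cnt γ m n (T4 l r) ((S4 l r ×ˢ Wi n m) \ (T4 l r ∪ S4 l r ×ˢ {k})) =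
      nT γ m n (T4 l r) + ∑ F ∈ S4 l r, cnt γ m n (insert (F, k) (T4 l r))
        ((S4 l r ×ˢ Wi n m) \ (T4 l r ∪ S4 l r ×ˢ {k})) := by
  classical
  have hk : k ∈ Wi n m := by
    rw [mem_Wi] at *
    omega
  have hdis : ∀ x ∈ S4 l r ×ˢ ({k} : Finset ℤ), x ∉ T4 l r := by
    intro x hx hx'
    rw [mem_product, mem_singleton] at hx
    rw [mem_T4] at hx'
    rcases hx'.2 with h | h <;> omega
  have hEv : Ev m n (T4 l r) =
      ((S4 l r ×ˢ Wi n m) \ (T4 l r ∪ S4 l r ×ˢ {k})) ∪ (S4 l r ×ˢ ({k} : Finset ℤ)) := by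
    unfold Ev
    rw [Sta_T4]
    ext x
    simp only [mem_sdiff, mem_union, mem_product, mem_singleton]
    constructor
    · rintro ⟨⟨ha, hb⟩, hc⟩
      by_cases hx : x.2 = k
      · right; exact ⟨ha, hx⟩
      · left
        refine ⟨⟨ha, hb⟩, ?_⟩
        rintro (h | h)
        · exact hc h
        · exact hx h.2
    · rintro (⟨⟨ha, hb⟩, hc⟩ | ⟨ha, hb⟩)
      · exact ⟨⟨ha, hb⟩, fun h => hc (Or.inl h)⟩
      · refine ⟨⟨ha, by rw [hb]; exact hk⟩, ?_⟩
        exact hdis x (by rw [mem_product, mem_singleton]; exact ⟨ha, hb⟩)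
  rw [nT_good (T4_good hl hr), hEv]
  rw [cnt_once (α := γ) (m := m) (n := n) (Y := T4 l r) (S4 l r ×ˢ ({k} : Finset ℤ))
    ((S4 l r ×ˢ Wi n m) \ (T4 l r ∪ S4 l r ×ˢ {k})) ?_]
  · congr 1
    rw [Finset.sum_product]
    apply Finset.sum_congr rfl
    intro F _
    rw [Finset.sum_singleton]
  · intro x hx y hy hxy
    rw [mem_product, mem_singleton] at hx hy
    rw [Finset.eq_empty_iff_forall_notMem]
    intro w hw
    rw [mem_Sol] at hw
    have hx1 := hw x (by simp)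
    have hy1 := hw y (by simp)
    rw [hx.2] at hx1
    rw [hy.2] at hy1
    have hne : x.1 ≠ y.1 := by
      intro h
      apply hxy
      exact Prod.ext h (by rw [hx.2, hy.2])
    exact cfg_once h1 h2 h3 h4 h5 hx.1 hy.1 hne hx1 hy1

end Pool.Agent.KWG
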