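import Pool.Agent.KWG.Q5

/-!
# [KWG-Q6] the four terms of `sq_diff1` are equal

For `F ∈ S4 l r` let `G = F ∆ {l, r}`, so that `G ∆ {l, r} = F`.  `cnt_shift` with `G` transforms the term of
`{l, r}` into the term of `F`: the image of `(∅, ka)` is `(G, ka)`, the image of `({l, r}, kb)` is
`(F, kb)`, `T4 l r`, `S4 l r ×ˢ Wi` and `S4 l r ×ˢ {kb}` are mapped onto themselves (`S4_symm`), and for `F = {l, r}`
the opposite corner is `∅`.  The map `x ↦ (G ∆ x.1, x.2)` is injective, so it commutes with differences of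
finsets (`Finset.image_sdiff`).  All windows are in `Wi`: `l`, `r` by hypothesis, `ka`, `kb` lie between
them.  Then sum over `S4 l r` with `S4_card`.
-/

namespace Pool.Agent.KWG

open Finset
open scoped symmDiff

theorem q6_img (G : Finset ℤ) (S : Finset (Finset ℤ × ℤ)) (x : Finset ℤ × ℤ) :
    x ∈ S.image (fun x => (G ∆ x.1, x.2)) ↔ (G ∆ x.1, x.2) ∈ S := by
  rw [Finset.mem_image]
  constructor
  · rintro ⟨y, hy, rfl⟩
    show (G ∆ (G ∆ y.1), y.2) ∈ S
    rw [symmDiff_symmDiff_cancel_left]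
    exact hy
  · intro hx
    refine ⟨_, hx, ?_⟩
    show (G ∆ (G ∆ x.1), x.2) = x
    rw [symmDiff_symmDiff_cancel_left]

theorem q6_S4 {l r : ℤ} {G : Finset ℤ} (hG : G ∈ S4 l r) (F : Finset ℤ) :
    G ∆ F ∈ S4 l r ↔ F ∈ S4 l r := by
  constructor
  · intro h
    have := S4_symm hG h
    rw [symmDiff_symmDiff_cancel_left] at this
    exact this
  · exact fun h => S4_symm hG h

theorem q6_term {α : ℕ → Bool} {m n : ℕ} {l r ka kb : ℤ} (hl : l ∈ Wi n m) (hr : r ∈ Wi n m)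
    (hka : ka ∈ Wi n m) (hkb : kb ∈ Wi n m) {F : Finset ℤ} (hF : F ∈ S4 l r) :
    cnt α m n (insert (F ∆ {l, r}, ka) (insert (F, kb) (T4 l r))) (EFs m n l r ka kb F) =
      cnt α m n (insert (∅, ka) (insert ({l, r}, kb) (T4 l r))) (EFs m n l r ka kb {l, r}) := by
  have hlr : ({l, r} : Finset ℤ) ∈ S4 l r := mem_S4.2 (Finset.Subset.refl _)
  have hG : F ∆ {l, r} ∈ S4 l r := S4_symm hF hlr
  have hGF : (F ∆ {l, r}) ∆ {l, r} = F := symmDiff_symmDiff_cancel_right _ _
  rw [← cnt_shift (Y := insert (∅, ka) (insert ({l, r}, kb) (T4 l r)))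
    (E := EFs m n l r ka kb {l, r}) (F ∆ {l, r}) ?_ ?_]
  · congr 1
    · ext x
      rw [q6_img]
      simp only [Finset.mem_insert, mem_T4, q6_S4 hG]
      have e1 : ((F ∆ {l, r}) ∆ x.1, x.2) = (∅, ka) ↔ x = (F ∆ {l, r}, ka) := by
        rw [Prod.ext_iff, Prod.ext_iff]
        show ((F ∆ {l, r}) ∆ x.1 = ∅ ∧ x.2 = ka) ↔ (x.1 = F ∆ {l, r} ∧ x.2 = ka)
        have : (F ∆ {l, r}) ∆ x.1 = ∅ ↔ x.1 = F ∆ {l, r} := by
          rw [← Finset.bot_eq_empty, symmDiff_eq_bot]
          exact eq_comm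
        rw [this]
      have e2 : ((F ∆ {l, r}) ∆ x.1, x.2) = ({l, r}, kb) ↔ x = (F, kb) := by
        rw [Prod.ext_iff, Prod.ext_iff]
        show ((F ∆ {l, r}) ∆ x.1 = {l, r} ∧ x.2 = kb) ↔ (x.1 = F ∧ x.2 = kb)
        have : (F ∆ {l, r}) ∆ x.1 = {l, r} ↔ x.1 = F := by
          constructor
          · intro h
            rw [← symmDiff_symmDiff_cancel_left (F ∆ {l, r}) x.1, h, hGF]
          · intro h
            rw [h, symmDiff_comm]
            exact symmDiff_symmDiff_cancel_left F {l, r}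
        rw [this]
      rw [e1, e2]
    · ext x
      rw [q6_img]
      unfold EFs
      simp only [Finset.mem_sdiff, Finset.mem_product, Finset.mem_union, Finset.mem_singleton, mem_T4,
        q6_S4 hG]
      have e1 : ((F ∆ {l, r}) ∆ x.1, x.2) = (({l, r} : Finset ℤ) ∆ {l, r}, ka) ↔
          x = (F ∆ {l, r}, ka) := by
        rw [Prod.ext_iff, Prod.ext_iff]
        show ((F ∆ {l, r}) ∆ x.1 = ({l, r} : Finset ℤ) ∆ {l, r} ∧ x.2 = ka) ↔
          (x.1 = F ∆ {l, r} ∧ x.2 = ka)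
        have : (F ∆ {l, r}) ∆ x.1 = ({l, r} : Finset ℤ) ∆ {l, r} ↔ x.1 = F ∆ {l, r} := by
          rw [symmDiff_self, symmDiff_eq_bot]
          exact eq_comm
        rw [this]
      rw [e1]
  · intro x hx
    simp only [Finset.mem_insert, mem_T4] at hx
    rcases hx with rfl | rfl | ⟨-, h | h⟩
    · exact hka
    · exact hkb
    · rw [h]
      exact hl
    · rw [h]
      exact hr
  · intro x hx
    unfold EFs at hx
    simp only [Finset.mem_sdiff, Finset.mem_product] at hx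
    exact hx.1.2

theorem sq_diff2 {α β : ℕ → Bool} {m n a b g : ℕ}
    (hper : ∀ d, d + m + 1 ≤ n → (Per α m d ↔ Per β m d)) (h : GsAt α m a b g)
    (hβ : ¬ Gs β m g) {l r : ℤ} (hl : l ∈ Wi n m) (hr : r ∈ Wi n m) (hlr : r = l + m + g) :
    nT α m n (T4 l r) = nT β m n (T4 l r) +
      4 * cnt α m n (insert (∅, l + m - a) (insert ({l, r}, l + m - b) (T4 l r)))
        (EFs m n l r (l + m - a) (l + m - b) {l, r}) := by
  rw [sq_diff1 hper h hβ hl hr hlr]
  obtain ⟨hg, hab, hm, -⟩ := id h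
  have hl' := mem_Wi.1 hl
  have hr' := mem_Wi.1 hr
  have hka : l + m - a ∈ Wi n m := mem_Wi.2 (by constructor <;> omega)
  have hkb : l + m - b ∈ Wi n m := mem_Wi.2 (by constructor <;> omega)
  congr 1
  rw [Finset.sum_congr rfl (fun F hF => q6_term (α := α) hl hr hka hkb hF), Finset.sum_const,
    S4_card (by omega : l ≠ r), smul_eq_mul]

end Pool.Agent.KWG
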