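import Pool.Agent.KWG.Q0
import Pool.Agent.KWG.R4
import Pool.Agent.KWG.R4b
import Pool.Agent.KWG.W4

/-!
# [KWG-Q7] no other window between `l` and `r`

Setting: `GsAt α m a b g`, `r = l + m + g`, `l`, `r`, `ka = l + m - a` available in `X`.  By `gs_cfg` the window
`kb = l + m - b` is available in `X' = fl m r (fl m l X) = st m X {l, r}` (`st_pair`).
Note `l < kb < ka < r`, `ka ≤ l + m`, `r ≤ kb + m`, `g ≥ 2`, `a < b < m`, `g ≤ m`.
Claim: for `F ∈ S4 l r` and `l < p < r`, `p` is not available in the state `F` except `(∅, ka)`, `({l, r}, kb)`.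

Proof.  Suppose `p` is available in `Z = st m X F`.  `l`, `r` are available in `Z` (`T4_avail`).
(i) `p > l + m`: `d = r - p` satisfies `1 ≤ d < g`, and it is a period (`per_of_At`, `r = p + d`); `d < g ≤ m`
    and `gs_le` gives `g ≤ d`: contradiction.
(ii) `p + m < r`: `d = p - l < g`, a period: contradiction as in (i).
(iii) `p ≤ l + m` and `r ≤ p + m`.  By `mem_S4`, `F` is `∅`, `{l, r}`, `{l}` or `{r}`.
   * `F = ∅`, `p ≠ ka`.  If `kb < p`: `cfg_gs` for `X`, `q = kb`, `δ = p - kb` gives
     `GsAt α m (l + m - p) b g`; with `a + b + g = m` this gives `l + m - p = a`, `p = ka`: contradiction.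
     If `p = kb`: available in the states `∅` and `{l, r}`: contradiction to `cfg_once`.
     If `p < kb`: `cfg_gs` for the word `X'` (in which `l`, `r`, `kb` are available; and
     `fl m r (fl m l X') = X`), `q = p`, `δ = kb - p`, gives `GsAt α m b (l + m - p) g`; by `gs_unique` (for
     `α, α`) `b = a`: contradiction to `a < b`.
   * `F = {l, r}`, `p ≠ kb`, `Z = X'`.  If `p < ka`: `cfg_gs` for `X`, `q = p`, `δ = ka - p` gives
     `GsAt α m a (l + m - p) g`, so `l + m - p = b` and `p = kb`: contradiction.
     If `p = ka`: `cfg_once`.  If `p > ka`: `cfg_gs` for `X'`, `q = ka`, `δ = p - ka`, gives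
     `GsAt α m (l + m - p) a g`, so `a = b` by `gs_unique`: contradiction.
   * `F = {l}`: `Z = fl m l X` (`st_single`); `l < ka ≤ l + m` both available in `X`, `l < p ≤ l + m`:
     contradiction to `noRight`.
   * `F = {r}`: `Z = fl m r X`; `ka < r ≤ ka + m`, both available in `X`, `p < r ≤ p + m`: contradiction to
     `noLeft`.
-/

namespace Pool.Agent.KWG

open Finset
open scoped symmDiff

theorem gap {α : ℕ → Bool} {m a b g : ℕ} (h : GsAt α m a b g) {X : ℤ → Bool} {l r : ℤ}
    (hlr : r = l + m + g) (hl : At α m X l) (hr : At α m X r) (hka : At α m X (l + m - a))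
    {F : Finset ℤ} (hF : F ∈ S4 l r) {p : ℤ} (h1 : l < p) (h2 : p < r)
    (hne1 : ¬ (F = ∅ ∧ p = l + m - a)) (hne2 : ¬ (F = {l, r} ∧ p = l + m - b)) :
    ¬ At α m (st m X F) p := by
  intro hA
  have hG : Gs α m g := ⟨a, b, h⟩
  obtain ⟨hg, hab, hm, _, _, _⟩ := id h
  have hgm := gs_le_m hG
  have hlrne : l ≠ r := by omega
  have hlr5 : l + m + 2 ≤ r := by omega
  have hlfar : l + m < r := by omega
  have hmp : 1 ≤ m := by omega
  obtain ⟨hlF, hrF⟩ := T4_avail hlfar hl hr hF
  -- the opposite corner
  have hX' : st m X {l, r} = fl m r (fl m l X) := st_pair hlrne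
  have hkb : At α m (st m X {l, r}) (l + m - b) := by
    rw [hX']
    exact gs_cfg h hlr hl hr hka
  have hpair : ({l, r} : Finset ℤ) ∈ S4 l r := mem_S4.2 (Finset.Subset.refl _)
  have hempty : (∅ : Finset ℤ) ∈ S4 l r := mem_S4.2 (Finset.empty_subset _)
  have hX0 : st m X ∅ = X := st_empty m X
  have hback : fl m r (fl m l (st m X {l, r})) = X := by
    rw [hX', fl_comm m l r, fl_fl, fl_fl]
  have hl2 := (T4_avail hlfar hl hr hpair).1
  have hr2 := (T4_avail hlfar hl hr hpair).2
  -- (i)
  by_cases c1 : l + m < p
  · obtain ⟨d, hd⟩ := Int.eq_ofNat_of_zero_le (by omega : 0 ≤ r - p)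
    have hper : Per α m d := by
      refine per_of_At hA ?_
      have : p + (d : ℤ) = r := by omega
      rw [this]
      exact hrF
    have := gs_le hG (d := d) (by omega) (by omega) hper
    omega
  by_cases c2 : p + m < r
  · obtain ⟨d, hd⟩ := Int.eq_ofNat_of_zero_le (by omega : 0 ≤ p - l)
    have hper : Per α m d := by
      refine per_of_At hlF ?_
      have : l + (d : ℤ) = p := by omega
      rw [this]
      exact hA
    have := gs_le hG (d := d) (by omega) (by omega) hper
    omega
  have hper : ∀ d, Per α m d ↔ Per α m d := fun _ => Iff.rfl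
  have hFc : F = ∅ ∨ F = {l} ∨ F = {r} ∨ F = {l, r} := by
    unfold S4 at hF
    simpa using hF
  rcases hFc with hF0 | hF0 | hF0 | hF0
  · subst hF0
    rw [hX0] at hA
    have hpne : p ≠ l + m - a := fun hh => hne1 ⟨rfl, hh⟩
    rcases lt_trichotomy p (l + m - b) with hlt | heq | hgt
    · -- `p < kb` : the word `X'`
      obtain ⟨δ, hδ⟩ := Int.eq_ofNat_of_zero_le (by omega : 0 ≤ (l + m - b) - p)
      have e1 : p + (δ : ℤ) = l + m - b := by omega
      have hq : At α m (fl m r (fl m l (st m X {l, r}))) p := by
        rw [hback]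
        exact hA
      have hp' : At α m (st m X {l, r}) (p + δ) := by
        rw [e1]
        exact hkb
      have h3 := cfg_gs (q := p) (δ := δ) hl2 hr2 hp' hq (by omega) h1 (by omega) (by omega)
        (by omega) hlr5
      have e3 : (l + m - (p + (δ : ℤ))).toNat = b := by omega
      have e4 : (r - l - m).toNat = g := by omega
      rw [e3, e4] at h3
      have := gs_unique hper h h3
      omega
    · rw [heq] at hA
      refine cfg_once (k := l + m - b) (F := ∅) (F' := {l, r}) (by omega) (by omega) (by omega)
        (by omega) hlr5 hempty hpair ?_ ?_ hkb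
      · intro hh
        have : l ∈ (∅ : Finset ℤ) := by
          rw [hh]
          exact Finset.mem_insert_self _ _
        exact absurd this (Finset.notMem_empty _)
      · rw [hX0]
        exact hA
    · obtain ⟨δ, hδ⟩ := Int.eq_ofNat_of_zero_le (by omega : 0 ≤ p - (l + m - b))
      have e1 : (l + m - b : ℤ) + (δ : ℤ) = p := by omega
      have hp' : At α m X ((l + m - b : ℤ) + δ) := by
        rw [e1]
        exact hA
      have hq : At α m (fl m r (fl m l X)) (l + m - b) := by
        rw [← hX']
        exact hkb
      have h3 := cfg_gs (q := l + m - b) (δ := δ) hl hr hp' hq (by omega) (by omega) (by omega)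
        (by omega) (by omega) hlr5
      obtain ⟨_, _, h4, _⟩ := h3
      omega
  · subst hF0
    rw [st_single] at hA
    exact noRight hl hka (by omega) (by omega) h1 (by omega) hA
  · subst hF0
    rw [st_single] at hA
    exact noLeft hka hr (by omega) (by omega) h2 (by omega) hA
  · subst hF0
    have hpne : p ≠ l + m - b := fun hh => hne2 ⟨rfl, hh⟩
    rcases lt_trichotomy p (l + m - a) with hlt | heq | hgt
    · obtain ⟨δ, hδ⟩ := Int.eq_ofNat_of_zero_le (by omega : 0 ≤ (l + m - a) - p)
      have e1 : p + (δ : ℤ) = l + m - a := by omega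
      have hp' : At α m X (p + δ) := by
        rw [e1]
        exact hka
      have hq : At α m (fl m r (fl m l X)) p := by
        rw [← hX']
        exact hA
      have h3 := cfg_gs (q := p) (δ := δ) hl hr hp' hq (by omega) h1 (by omega) (by omega)
        (by omega) hlr5
      have e3 : (l + m - (p + (δ : ℤ))).toNat = a := by omega
      have e4 : (r - l - m).toNat = g := by omega
      rw [e3, e4] at h3
      have := gs_unique hper h h3
      omega
    · rw [heq] at hA
      refine cfg_once (k := l + m - a) (F := {l, r}) (F' := ∅) (by omega) (by omega) (by omega)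
        (by omega) hlr5 hpair hempty ?_ hA ?_
      · intro hh
        have : l ∈ (∅ : Finset ℤ) := by
          rw [← hh]
          exact Finset.mem_insert_self _ _
        exact absurd this (Finset.notMem_empty _)
      · rw [hX0]
        exact hka
    · obtain ⟨δ, hδ⟩ := Int.eq_ofNat_of_zero_le (by omega : 0 ≤ p - (l + m - a))
      have e1 : (l + m - a : ℤ) + (δ : ℤ) = p := by omega
      have hp' : At α m (st m X {l, r}) ((l + m - a : ℤ) + δ) := by
        rw [e1]
        exact hA
      have hq : At α m (fl m r (fl m l (st m X {l, r}))) (l + m - a) := by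
        rw [hback]
        exact hka
      have h3 := cfg_gs (q := l + m - a) (δ := δ) hl2 hr2 hp' hq (by omega) (by omega) (by omega)
        (by omega) (by omega) hlr5
      have e3 : (l + m - (l + m - (a : ℤ))).toNat = a := by omega
      have e4 : (r - l - m).toNat = g := by omega
      rw [e3, e4] at h3
      have := gs_unique hper h h3
      omega

end Pool.Agent.KWG
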