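import Pool.Agent.KWG.Q8
import Pool.Agent.KWG.S4

/-!
# [KWG-Q9] the numbers `E α m k l`

`T2 l = {(∅, l), ({l}, l)}`, `n = l + m + k`, `k ≥ 1`, so `l ∈ Wi n m`.

`T2_good`, `T2_CO`: clear (the only window is `l`; `RT`: `∅`, `{l}`).
`E_eq`: by `nT_good` `E α m k l = cnt (T2 l) (Ev m n (T2 l))`, `Ev = {∅, {l}} ×ˢ Wi \ T2 l` = all `(F, p)`,
`F ∈ {∅, {l}}`, `p ∈ Wi`, `p ≠ l`.  A word `w` is counted iff `ext w` carries `α` at `l` (then also in the
state `{l}`: `st_single`, `At_fl_self`) and no `p ∈ Wi`, `p ≠ l`, is available in `ext w` and in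
`fl m l (ext w)`.  This is exactly the condition in `blkN α m l m k α` (`B = m`: `l + B - m = l`; the
admissible `p > l` are those with `l + m < p + m`, `p + m < l + m + k`; the `p < l` are admissible as
`p + m < l + m + k`; integers `p ≥ 0` are natural numbers).  Then `blk_count` with `bl = α`.
-/

namespace Pool.Agent.KWG

open Finset
open scoped symmDiff

theorem T2_good {m n : ℕ} {l : ℤ} (hl : l ∈ Wi n m) : Good m n (T2 l) := by
  have e1 : (∅ : Finset ℤ) ∆ {l} = {l} := by
    rw [← Finset.bot_eq_empty, bot_symmDiff]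
  have e2 : ({l} : Finset ℤ) ∆ {l} = ∅ := by
    rw [symmDiff_self, Finset.bot_eq_empty]
  have m1 : ((∅ : Finset ℤ), l) ∈ T2 l := by simp [T2]
  have m2 : (({l} : Finset ℤ), l) ∈ T2 l := by simp [T2]
  intro x hx
  have hx' : x = (∅, l) ∨ x = ({l}, l) := by simpa [T2] using hx
  rcases hx' with rfl | rfl
  · refine ⟨Finset.empty_subset _, hl, ?_, RT.zero⟩
    simp only [e1]
    exact m2
  · refine ⟨by simpa using hl, hl, ?_, ?_⟩
    · simp only [e2]
      exact m1
    · have := RT.step (RT.zero (T := T2 l)) m1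
      rwa [e1] at this

theorem T2_CO (m : ℕ) (l : ℤ) : CO m (T2 l) := by
  intro F a b h1 h2 hab
  have h1' : (F, a) = (∅, l) ∨ (F, a) = ({l}, l) := by simpa [T2] using h1
  have h2' : (F, b) = (∅, l) ∨ (F, b) = ({l}, l) := by simpa [T2] using h2
  have e1 : a = l := by rcases h1' with h | h <;> exact congrArg Prod.snd h
  have e2 : b = l := by rcases h2' with h | h <;> exact congrArg Prod.snd h
  omega

theorem q9_Sta (l : ℤ) : Sta (T2 l) = {∅, {l}} := by
  unfold Sta T2
  ext F
  simp only [Finset.image_insert, Finset.image_singleton, Finset.mem_insert,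
    Finset.mem_singleton]
  tauto

theorem q9_Ev {m n : ℕ} {l : ℤ} {x : Finset ℤ × ℤ} :
    x ∈ Ev m n (T2 l) ↔ (x.1 = ∅ ∨ x.1 = {l}) ∧ x.2 ∈ Wi n m ∧ x.2 ≠ l := by
  unfold Ev
  rw [q9_Sta]
  unfold T2
  simp only [Finset.mem_sdiff, Finset.mem_product, Finset.mem_insert, Finset.mem_singleton]
  constructor
  · rintro ⟨⟨h1, h2⟩, h3⟩
    refine ⟨h1, h2, fun h => h3 ?_⟩
    rcases h1 with h1 | h1
    · exact Or.inl (Prod.ext h1 h)
    · exact Or.inr (Prod.ext h1 h)
  · rintro ⟨h1, h2, h3⟩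
    refine ⟨⟨h1, h2⟩, ?_⟩
    rintro (h | h)
    · exact h3 (congrArg Prod.snd h)
    · exact h3 (congrArg Prod.snd h)

theorem E_eq (α : ℕ → Bool) (m : ℕ) {k l : ℕ} (hk : 1 ≤ k) :
    E α m k l = aL α m l * aR α m k := by
  classical
  have hl : (l : ℤ) ∈ Wi (l + m + k) m := mem_Wi.2 ⟨by simp, by push_cast; omega⟩
  rw [← blk_count (bl := α) (B := m) le_rfl (fun j _ => rfl) (fun j _ => by
    congr 1
    omega)]
  unfold E
  rw [nT_good (T2_good hl)]
  unfold cnt blkN Sol
  rw [Finset.filter_filter]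
  congr 1
  ext w
  simp only [Finset.mem_filter, Finset.mem_univ, true_and]
  have hs : ((l : ℤ) + m - m) = l := by ring
  rw [hs]
  constructor
  · rintro ⟨h1, h2⟩
    have hl0 : At α m (ext w) l := by
      have := h1 (∅, (l : ℤ)) (by simp [T2])
      simpa only [st_empty] using this
    have key : ∀ p : ℕ, (p : ℤ) ≠ l → p + m < l + m + k →
        ¬ At α m (ext w) p ∧ ¬ At α m (fl m l (ext w)) p := by
      intro p hp1 hp2
      have hW : (p : ℤ) ∈ Wi (l + m + k) m := mem_Wi.2 ⟨by simp, by push_cast; omega⟩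
      constructor
      · have := h2 (∅, (p : ℤ)) (q9_Ev.2 ⟨Or.inl rfl, hW, hp1⟩)
        simpa only [st_empty] using this
      · have := h2 ({(l : ℤ)}, (p : ℤ)) (q9_Ev.2 ⟨Or.inr rfl, hW, hp1⟩)
        simpa only [st_single] using this
    refine ⟨fun i hi => hl0 i hi, fun p hp => key p (by omega) (by omega),
      fun p hp1 hp2 => key p (by omega) hp2⟩
  · rintro ⟨h1, h2, h3⟩
    have hl0 : At α m (ext w) l := fun i hi => h1 i hi
    constructor
    · intro x hx
      have hx' : x = (∅, (l : ℤ)) ∨ x = ({(l : ℤ)}, (l : ℤ)) := by simpa [T2] using hx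
      rcases hx' with rfl | rfl
      · simpa only [st_empty] using hl0
      · simp only [st_single]
        exact At_fl_self.2 hl0
    · rintro ⟨F, p⟩ hx
      obtain ⟨hF, hW, hp⟩ := q9_Ev.1 hx
      simp only at hF hW hp ⊢
      obtain ⟨hW1, hW2⟩ := mem_Wi.1 hW
      obtain ⟨q, rfl⟩ : ∃ q : ℕ, p = q := ⟨p.toNat, by omega⟩
      have key : ¬ At α m (ext w) q ∧ ¬ At α m (fl m l (ext w)) q := by
        rcases lt_or_gt_of_ne hp with hlt | hgt
        · exact h2 q (by omega)
        · exact h3 q (by omega) (by push_cast at hW2; omega)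
      rcases hF with rfl | rfl
      · rw [st_empty]
        exact key.1
      · rw [st_single]
        exact key.2

end Pool.Agent.KWG
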