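import Pool.Agent.KWG.Defs

/-!
# [KWG-R0] the structure of the corner relation (pure)

`rel_struct`.  `m = a + g + c + δ`, `g ≥ 2`, `δ ≥ 1`; `m - (a + δ)` and `m - (c + δ)` are periods of `α`; the
indices `j` with `j + δ < m` and `α j ≠ α (j + δ)` are exactly `a` and `a + g - 1`.  Then `c = a`.

Proof.  * Suppose `a < c`.  `m - (c + δ) = a + g`: so `α i = α (i + (a + g))` for `i + a + g < m`.  Take
`j = a`: `α a ≠ α (a + δ)`.  `(a + δ) + (a + g) < m` because `a < c`.  So
`α (2a + g) = α a ≠ α (a + δ) = α (2a + g + δ)`, hence `2a + g ∈ {a, a + g - 1}`: impossible.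
* Suppose `c < a`.  `m - (a + δ) = g + c`: `α i = α (i + (g + c))` for `i + g + c < m`.  Take the mismatch
`a + g - 1`: `α (a + g - 1) ≠ α (a + g - 1 + δ)` (and `a + g - 1 + δ < m`).  With `i = a - 1 - c ≥ 0`:
`i + (g + c) = a + g - 1`, so `α i = α (a + g - 1)`, and `α (i + δ) = α (a + g - 1 + δ)`.  So
`α i ≠ α (i + δ)` with `i = a - 1 - c < a`: not in `{a, a + g - 1}`, contradiction.

`rel_letter`.  For `GsAt α m a b g`: `α b = α (a + g - 1)`.
Proof.  Put `δ = b - a ≥ 1`, `u j = (if α j then 1 else 0 : ℤ)`.  `m - b = a + g` is a period.  Consider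
`S = ∑ i ∈ Ico a (m - δ), (u (i + δ) - u i)`.  Only the terms `i = a` and `i = a + g - 1` are nonzero
(`a + g - 1 < m - δ = 2 a + g`, `a < a + g - 1` or `a = a + g - 1`, the latter is excluded by `g ≥ 2`), so
`S = (u b - u a) + (u (a + g - 1 + δ) - u (a + g - 1))`.  On the other hand `S` telescopes to
`∑ j ∈ Ico (m - δ) m, u j - ∑ j ∈ Ico a (a + δ), u j = 0` because `α j = α (j + (a + g))` for `j < a + δ = b`
and `a + (a + g) = m - δ`.  Hence `u b - u a = u (a + g - 1) - u (a + g - 1 + δ)`; both sides are `±1`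
(mismatches), so `u b = 1` iff `u a = 0` iff `u (a + g - 1) = 1`.
(Induction instead of sums is fine too: the number of ones in the window `[i, i + δ)` changes only at
`i = a` and `i = a + g - 1` and is the same for `i = a` and `i = m - δ`.)
-/

namespace Pool.Agent.KWG

theorem r0_T (u : ℕ → ℤ) (δ i : ℕ) : ∑ j ∈ Finset.range δ, u (i + 1 + j) =
    ∑ j ∈ Finset.range δ, u (i + j) + u (i + δ) - u i := by
  have h1 := Finset.sum_range_succ (fun j => u (i + j)) δ
  have h2 := Finset.sum_range_succ' (fun j => u (i + j)) δ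
  have h3 : ∀ j, u (i + (j + 1)) = u (i + 1 + j) := fun j => by
    congr 1
    omega
  simp only [h3, add_zero] at h2
  linarith

theorem r0_fin (p q r s : Bool) (h1 : p ≠ q) (h2 : r ≠ s)
    (h : (if q then (1 : ℤ) else 0) - (if p then 1 else 0) + ((if s then (1 : ℤ) else 0) -
      (if r then 1 else 0)) = 0) : q = r := by
  cases p <;> cases q <;> cases r <;> cases s <;> simp_all

theorem rel_struct {α : ℕ → Bool} {m a c g δ : ℕ} (hm : a + g + c + δ = m) (hg : 2 ≤ g) (hδ : 1 ≤ δ)
    (hb : Per α m (m - (a + δ))) (hc : Per α m (m - (c + δ)))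
    (hmis : ∀ j, j + δ < m → (α j ≠ α (j + δ) ↔ (j = a ∨ j + 1 = a + g))) : c = a := by
  rcases Nat.lt_trichotomy c a with h | h | h
  · exfalso
    have e1 : m - (a + δ) = g + c := by omega
    rw [e1] at hb
    have h1 := hb (a - 1 - c) (by omega)
    have h2 := hb (a - 1 - c + δ) (by omega)
    have e2 : a - 1 - c + (g + c) = a + g - 1 := by omega
    have e3 : a - 1 - c + δ + (g + c) = a + g - 1 + δ := by omega
    rw [e2] at h1
    rw [e3] at h2
    have h3 := (hmis (a + g - 1) (by omega)).2 (Or.inr (by omega))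
    have h4 : α (a - 1 - c) ≠ α (a - 1 - c + δ) := by
      rw [h1, h2]
      exact h3
    rcases (hmis (a - 1 - c) (by omega)).1 h4 with h5 | h5 <;> omega
  · exact h
  · exfalso
    have e1 : m - (c + δ) = a + g := by omega
    rw [e1] at hc
    have h1 := hc a (by omega)
    have h2 := hc (a + δ) (by omega)
    have e3 : a + δ + (a + g) = a + (a + g) + δ := by omega
    rw [e3] at h2
    have h3 := (hmis a (by omega)).2 (Or.inl rfl)
    have h4 : α (a + (a + g)) ≠ α (a + (a + g) + δ) := by
      rw [← h1, ← h2]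
      exact h3
    rcases (hmis (a + (a + g)) (by omega)).1 h4 with h5 | h5 <;> omega

theorem rel_letter {α : ℕ → Bool} {m a b g : ℕ} (h : GsAt α m a b g) : α b = α (a + g - 1) := by
  obtain ⟨hg, hab, hm, -, hpb, hmis⟩ := h
  let u : ℕ → ℤ := fun j => if α j then 1 else 0
  let T : ℕ → ℤ := fun i => ∑ j ∈ Finset.range (b - a), u (i + j)
  have step : ∀ i, T (i + 1) = T i + u (i + (b - a)) - u i := fun i => r0_T u (b - a) i
  have heq : ∀ i, i + (b - a) < m → i ≠ a → i + 1 ≠ a + g → u (i + (b - a)) = u i := by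
    intro i h1 h2 h3
    have h4 : α i = α (i + (b - a)) := by
      by_contra h5
      rcases (hmis i h1).1 h5 with h6 | h6
      · exact h2 h6
      · exact h3 h6
    show (if α (i + (b - a)) then (1 : ℤ) else 0) = if α i then 1 else 0
    rw [h4]
  have c1 : ∀ k, k + 2 ≤ g → T (a + 1 + k) = T (a + 1) := by
    intro k
    induction k with
    | zero => intro _; rfl
    | succ k ih =>
      intro hk
      have h1 := step (a + 1 + k)
      rw [heq (a + 1 + k) (by omega) (by omega) (by omega)] at h1
      have h2 := ih (by omega)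
      have h3 : T (a + 1 + (k + 1)) = T (a + 1 + k + 1) := rfl
      rw [h3, h1, h2]
      ring
  have c2 : ∀ k, k ≤ a → T (a + g + k) = T (a + g) := by
    intro k
    induction k with
    | zero => intro _; rfl
    | succ k ih =>
      intro hk
      have h1 := step (a + g + k)
      rw [heq (a + g + k) (by omega) (by omega) (by omega)] at h1
      have h2 := ih (by omega)
      have h3 : T (a + g + (k + 1)) = T (a + g + k + 1) := rfl
      rw [h3, h1, h2]
      ring
  have hper : T (a + g + a) = T a := by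
    refine Finset.sum_congr rfl fun j hj => ?_
    rw [Finset.mem_range] at hj
    have h1 := hpb (a + j) (by omega)
    have e : a + j + (m - b) = a + g + a + j := by omega
    rw [e] at h1
    show (if α (a + g + a + j) then (1 : ℤ) else 0) = if α (a + j) then 1 else 0
    rw [h1]
  have s1 := step a
  have s2 := step (a + g - 1)
  have e1 : a + g - 1 + 1 = a + g := by omega
  rw [e1] at s2
  have s3 := c1 (g - 2) (by omega)
  have e2 : a + 1 + (g - 2) = a + g - 1 := by omega
  rw [e2] at s3
  have s4 := c2 a le_rfl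
  have hb : a + (b - a) = b := by omega
  rw [hb] at s1
  have m1 := (hmis a (by omega)).2 (Or.inl rfl)
  have m2 := (hmis (a + g - 1) (by omega)).2 (Or.inr (by omega))
  rw [hb] at m1
  have key : u b - u a + (u (a + g - 1 + (b - a)) - u (a + g - 1)) = 0 := by linarith
  exact r0_fin _ _ _ _ m1 m2 key

end Pool.Agent.KWG
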