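import Pool.Agent.KWG.T1a
import Pool.Agent.KWG.A1a
import Pool.Agent.KWG.P3

/-!
# [KWG-T1] conflict-only types: only the periods matter

`co_nT`: as `thmA`, but with `treeP` instead of `claimP`: for `T` good and conflict-only and
`T ⊆ Y ⊆ T ∪ Ev T`, `Sol α Y` nonempty implies `Sol β Y` nonempty: `Cpt D m Y` for `x, y ∈ Y` by the walk from
`x.1` to `y.1` in `T`, reduced by `reduceT`, and `treeP` with `H1` from `h1_of_per`.
-/

namespace Pool.Agent.KWG

open Finset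
open scoped symmDiff

theorem t1_mono {α β : ℕ → Bool} {m n : ℕ}
    (hper : ∀ d, d + m + 1 ≤ n → (Per α m d ↔ Per β m d))
    {T Y : Finset (Finset ℤ × ℤ)} (hC : CO m T) (hT : Good m n T) (h1 : T ⊆ Y)
    (h2 : Y ⊆ T ∪ Ev m n T) (hne : (Sol α m n Y).Nonempty) : (Sol β m n Y).Nonempty := by
  obtain ⟨w, hw⟩ := id hne
  rw [mem_Sol] at hw
  refine sol_of_cpt (fun x hx => (good_union hT (h2 hx)).1) hne ?_
  intro x hx y hy t ht1 ht2 ht3 ht4
  have hgx := good_union hT (h2 hx)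
  have hgy := good_union hT (h2 hy)
  have hTav : ∀ x ∈ T, x.2 ∈ Wi n m ∧ At α m (st m (ext w) x.1) x.2 := fun x hx =>
    ⟨(good_union hT (Finset.mem_union_left _ hx)).1, hw x (h1 hx)⟩
  obtain ⟨L, v, f⟩ := VT_of_RT hT hgx.2 hgy.2
  obtain ⟨L', v', f', hch⟩ := reduceT hT hC L x.1 v
  obtain ⟨v2, f2⟩ := Val_of_VT hTav L' x.1 v'
  rw [f', f] at f2
  exact treeP (D := fun j => α j ^^ β j) (I := (Wi n m : Set ℤ))
    (fun Y p d hp hq a b _ _ => h1_of_per hper Y p d hp hq a b)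
    v2 hch hgx.1 hgy.1 (hw x hx) (by rw [f2]; exact hw y hy) ht1 ht2 ht3 ht4

theorem co_nT {α β : ℕ → Bool} {m n : ℕ}
    (hper : ∀ d, d + m + 1 ≤ n → (Per α m d ↔ Per β m d))
    {T : Finset (Finset ℤ × ℤ)} (hC : CO m T) : nT α m n T = nT β m n T := by
  by_cases hT : Good m n T
  · rw [nT_good hT, nT_good hT]
    exact cnt_transfer' (Ev m n T) T fun Z hZ hZ' =>
      ⟨t1_mono hper hC hT hZ hZ', t1_mono (fun d h => (hper d h).symm) hC hT hZ hZ'⟩
  · rw [nT_bad hT, nT_bad hT]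

end Pool.Agent.KWG
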