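import Pool.Agent.KWG.S4
import Pool.Agent.KWG.P0

/-!
# [KWG-T1a] walks in a type

`VT T F L`: walk `L` inside the type `T` from the state `F`; `fT F L` its end.

`reduceT`: in a good conflict-only type every walk can be replaced by one with the same end whose
consecutive windows are in conflict.  Proof by induction on `L` (`F` general).  `L = r :: L₁`; replace `L₁`
(a walk from `F ∆ {r}`) by `L₁'` with the property.  `L₁' = []`: `[r]`.  `L₁' = r' :: L₂`:
 - `r' = r`: `L₂` is a walk from `(F ∆ {r}) ∆ {r} = F` with the same end; its consecutive windows are in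
   conflict (tail of a chain).
 - `r' ≠ r`: `(F ∆ {r}, r) ∈ T` by `Good` (applied to `(F, r) ∈ T`) and `(F ∆ {r}, r') ∈ T`; by `CO` applied to
   the smaller and the larger one, `|r - r'| ≤ m`: conflict; so `r :: r' :: L₂` works.

`VT_of_RT`: `RT T F` gives a walk from `∅` to `F` (append at the end), and walks can be reversed
(`Good`: `(F, r) ∈ T → (F ∆ {r}, r) ∈ T`), so between any two states `F, F'` with `RT T F`, `RT T F'` there
is a walk.

`Val_of_VT`: if all windows of `T` are available for `X`, a walk `L` from `F` is a valid list from `st m X F`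
ending at `st m X (fT F L)` (`fl_st`).
-/

namespace Pool.Agent.KWG

open Finset
open scoped symmDiff

theorem VT_append {T : Finset (Finset ℤ × ℤ)} (L L' : List ℤ) (F : Finset ℤ) :
    VT T F (L ++ L') ↔ VT T F L ∧ VT T (fT F L) L' := by
  induction L generalizing F with
  | nil => simp [VT, fT]
  | cons r L ih =>
    simp only [List.cons_append, VT, fT, ih, and_assoc]

theorem fT_append (L L' : List ℤ) (F : Finset ℤ) :
    fT F (L ++ L') = fT (fT F L) L' := by
  induction L generalizing F with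
  | nil => simp [fT]
  | cons r L ih =>
    simp only [List.cons_append, fT, ih]

theorem sd_sd (F : Finset ℤ) (r : ℤ) : (F ∆ {r}) ∆ {r} = F := by
  rw [symmDiff_assoc, symmDiff_self, symmDiff_bot]

theorem reduceT {m n : ℕ} {T : Finset (Finset ℤ × ℤ)} (hT : Good m n T) (hC : CO m T) (L : List ℤ)
    (F : Finset ℤ) (hL : VT T F L) :
    ∃ L' : List ℤ, VT T F L' ∧ fT F L' = fT F L ∧
      List.IsChain (fun x y : ℤ => (x < y ∧ y ≤ x + m) ∨ (y < x ∧ x ≤ y + m)) L' := by
  induction L generalizing F with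
  | nil => exact ⟨[], trivial, rfl, List.IsChain.nil⟩
  | cons r L₁ ih =>
    obtain ⟨h1, h2⟩ := hL
    obtain ⟨L₁', v1, v2, v3⟩ := ih (F ∆ {r}) h2
    cases L₁' with
    | nil =>
      exact ⟨[r], ⟨h1, trivial⟩, v2, List.IsChain.singleton r⟩
    | cons r' L₂ =>
      obtain ⟨w1, w2⟩ := v1
      by_cases hr : r' = r
      · subst hr
        refine ⟨L₂, ?_, ?_, ?_⟩
        · rw [sd_sd] at w2
          exact w2
        · change fT ((F ∆ {r'}) ∆ {r'}) L₂ = fT (F ∆ {r'}) L₁ at v2
          rw [sd_sd] at v2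
          exact v2
        · exact (List.isChain_cons.1 v3).2
      · refine ⟨r :: r' :: L₂, ⟨h1, w1, w2⟩, v2, ?_⟩
        refine List.IsChain.cons_cons ?_ v3
        have g1 : (F ∆ {r}, r) ∈ T := (hT (F, r) h1).2.2.1
        rcases lt_trichotomy r r' with h | h | h
        · exact Or.inl ⟨h, hC _ _ _ g1 w1 h⟩
        · exact absurd h.symm hr
        · exact Or.inr ⟨h, hC _ _ _ w1 g1 h⟩

theorem VT_reverse {m n : ℕ} {T : Finset (Finset ℤ × ℤ)} (hT : Good m n T) (L : List ℤ)
    (F : Finset ℤ) (hL : VT T F L) :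
    VT T (fT F L) L.reverse ∧ fT (fT F L) L.reverse = F := by
  induction L generalizing F with
  | nil => exact ⟨trivial, rfl⟩
  | cons r L ih =>
    obtain ⟨h1, h2⟩ := hL
    obtain ⟨v1, v2⟩ := ih (F ∆ {r}) h2
    have g1 : (F ∆ {r}, r) ∈ T := (hT (F, r) h1).2.2.1
    constructor
    · rw [List.reverse_cons, VT_append]
      refine ⟨v1, ?_⟩
      change VT T (fT (fT (F ∆ {r}) L) L.reverse) [r]
      rw [v2]
      exact ⟨g1, trivial⟩
    · rw [List.reverse_cons, fT_append]
      change fT (fT (fT (F ∆ {r}) L) L.reverse) [r] = F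
      rw [v2]
      exact sd_sd F r

theorem VT_of_RT0 {T : Finset (Finset ℤ × ℤ)} {F : Finset ℤ}
    (h1 : RT T F) : ∃ L : List ℤ, VT T ∅ L ∧ fT ∅ L = F := by
  induction h1 with
  | zero => exact ⟨[], trivial, rfl⟩
  | @step G p h hp ih =>
    obtain ⟨L, l1, l2⟩ := ih
    refine ⟨L ++ [p], ?_, ?_⟩
    · rw [VT_append, l2]
      exact ⟨l1, hp, trivial⟩
    · rw [fT_append, l2]
      rfl

theorem VT_of_RT {m n : ℕ} {T : Finset (Finset ℤ × ℤ)} (hT : Good m n T) {F F' : Finset ℤ}
    (h1 : RT T F) (h2 : RT T F') : ∃ L : List ℤ, VT T F L ∧ fT F L = F' := by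
  obtain ⟨L1, a1, a2⟩ := VT_of_RT0 h1
  obtain ⟨L2, b1, b2⟩ := VT_of_RT0 h2
  obtain ⟨c1, c2⟩ := VT_reverse hT L1 ∅ a1
  rw [a2] at c1 c2
  refine ⟨L1.reverse ++ L2, ?_, ?_⟩
  · rw [VT_append, c2]
    exact ⟨c1, b1⟩
  · rw [fT_append, c2, b2]

theorem Val_of_VT {α : ℕ → Bool} {m n : ℕ} {T : Finset (Finset ℤ × ℤ)} {X : ℤ → Bool}
    (hT : ∀ x ∈ T, x.2 ∈ Wi n m ∧ At α m (st m X x.1) x.2) (L : List ℤ) (F : Finset ℤ)
    (hL : VT T F L) :
    Val α m (Wi n m : Set ℤ) (st m X F) L ∧ fin m (st m X F) L = st m X (fT F L) := by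
  induction L generalizing F with
  | nil => exact ⟨trivial, rfl⟩
  | cons r L ih =>
    obtain ⟨h1, h2⟩ := hL
    obtain ⟨v1, v2⟩ := ih (F ∆ {r}) h2
    have e : fl m r (st m X F) = st m X (F ∆ {r}) := fl_st m X F r
    refine ⟨⟨?_, (hT (F, r) h1).2, ?_⟩, ?_⟩
    · exact_mod_cast (hT (F, r) h1).1
    · rw [e]
      exact v1
    · change fin m (fl m r (st m X F)) L = st m X (fT (F ∆ {r}) L)
      rw [e]
      exact v2

end Pool.Agent.KWG
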