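import Pool.Agent.KWG.C1

/-!
# [KWG-V1] left contexts: recursion for `aL`

`aL_zero`: the empty word is the only word of length 0 and the condition is empty.  `aR_one`: `k = 1`:
no `p` with `1 ≤ p < 1`; 2 words.

`bL α m l`: number of the words `x` of length `l + 1` for which the conditions hold at the positions
`1 ≤ p < l + 1` but fail at the position `0`.
`aL_step`: `2 * aL l = aL (l + 1) + bL l`.
Proof.  The words `x = c x₁` of length `l + 1` (`c` first letter) satisfying the conditions at
`1 ≤ p < l + 1` are those for which `x₁` is counted by `aL l`: for `t ≥ 0`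
`cat α x (t + 1) = cat α x₁ t` and `fl m (l + 1) (cat α x) (t + 1) = fl m l (cat α x₁) t` (the letters
`l`, `l + 1 + m` of the left side are the letters `l - 1`, `l + m` of the right side), so the conditions at
`p + 1` and at `p` are equivalent (`At` at `p ≥ 0` reads only letters `≥ 0`).  There are `2 * aL l` of them
(`Fin.consEquiv`, `Fin.cons`, or `Fin.insertNthEquiv`), and such an `x` is counted either by `aL (l + 1)`
(condition at `p = 0` holds) or by `bL l`.
-/

namespace Pool.Agent.KWG

/-- words failing only at the position `0` -/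
noncomputable def bL (α : ℕ → Bool) (m l : ℕ) : ℕ := by
  classical
  exact (Finset.univ.filter (fun x : Fin (l + 1) → Bool =>
    (∀ p : ℕ, 1 ≤ p → p < l + 1 →
      ¬ At α m (cat α x) p ∧ ¬ At α m (fl m ((l : ℤ) + 1) (cat α x)) p) ∧
    (At α m (cat α x) 0 ∨ At α m (fl m ((l : ℤ) + 1) (cat α x)) 0))).card

private theorem v1_ext_nat {n : ℕ} (w : Fin n → Bool) (t : ℕ) (h : t < n) :
    ext w (t : ℤ) = w ⟨t, h⟩ := ext_in w ⟨t, h⟩

private theorem v1_cat {α : ℕ → Bool} {l : ℕ} (x : Fin (l + 1) → Bool) {t : ℤ} (ht : 0 ≤ t) :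
    cat α x (t + 1) = cat α (fun j : Fin l => x j.succ) t := by
  obtain ⟨u, rfl⟩ := Int.eq_ofNat_of_zero_le ht
  unfold cat
  by_cases hu : u < l
  · rw [if_pos (by omega), if_pos (by omega), v1_ext_nat _ u hu]
    have e1 : (u : ℤ) + 1 = ((u + 1 : ℕ) : ℤ) := by omega
    rw [e1, v1_ext_nat x (u + 1) (by omega)]
    rfl
  · rw [if_neg (by omega), if_neg (by omega)]
    have e1 : ((u : ℤ) + 1 - ((l + 1 : ℕ) : ℤ)).toNat = ((u : ℤ) - l).toNat := by omega
    rw [e1]

private theorem v1_fl {α : ℕ → Bool} {m l : ℕ} (x : Fin (l + 1) → Bool) {t : ℤ} (ht : 0 ≤ t) :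
    fl m ((l : ℤ) + 1) (cat α x) (t + 1) = fl m l (cat α (fun j : Fin l => x j.succ)) t := by
  unfold fl
  rw [v1_cat x ht]
  congr 1
  unfold eps
  have e1 : (t + 1 + 1 = (l : ℤ) + 1) ↔ (t + 1 = (l : ℤ)) := by omega
  have e2 : (t + 1 - (m : ℤ) = (l : ℤ) + 1) ↔ (t - (m : ℤ) = (l : ℤ)) := by omega
  simp only [e1, e2]

private theorem v1_shift {α : ℕ → Bool} {m : ℕ} {X Y : ℤ → Bool} (h : ∀ t : ℤ, 0 ≤ t → X (t + 1) = Y t)
    (p : ℕ) : At α m X ((p : ℤ) + 1) ↔ At α m Y p := by
  constructor
  · intro h1 j hj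
    have h2 := h1 j hj
    have e1 : (p : ℤ) + 1 + (j : ℤ) = ((p : ℤ) + j) + 1 := by ring
    rw [e1, h _ (by omega)] at h2
    exact h2
  · intro h1 j hj
    have h2 := h1 j hj
    have e1 : (p : ℤ) + 1 + (j : ℤ) = ((p : ℤ) + j) + 1 := by ring
    rw [e1, h _ (by omega)]
    exact h2

/-- the conditions at a position -/
private def v1C (α : ℕ → Bool) (m l : ℕ) (x : Fin l → Bool) (p : ℕ) : Prop :=
  ¬ At α m (cat α x) p ∧ ¬ At α m (fl m l (cat α x)) p

private theorem v1_C {α : ℕ → Bool} {m l : ℕ} (x : Fin (l + 1) → Bool) (p : ℕ) :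
    v1C α m (l + 1) x (p + 1) ↔ v1C α m l (fun j : Fin l => x j.succ) p := by
  unfold v1C
  have h1 := v1_shift (α := α) (m := m) (fun t ht => v1_cat (α := α) x ht) p
  have h2 := v1_shift (α := α) (m := m) (fun t ht => v1_fl (α := α) (m := m) x ht) p
  push_cast
  rw [h1, h2]

open Classical in
private noncomputable def v1U (α : ℕ → Bool) (m l : ℕ) : Finset (Fin (l + 1) → Bool) :=
  Finset.univ.filter (fun x => ∀ p : ℕ, p < l → v1C α m (l + 1) x (p + 1))

open Classical in
private theorem v1_aL (α : ℕ → Bool) (m l : ℕ) : aL α m l =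
    (Finset.univ.filter (fun x : Fin l → Bool => ∀ p : ℕ, p < l → v1C α m l x p)).card := by
  unfold aL
  exact congrArg Finset.card (Finset.filter_congr fun x _ => Iff.rfl)

open Classical in
private theorem v1_card_U (α : ℕ → Bool) (m l : ℕ) : (v1U α m l).card = 2 * aL α m l := by
  have h2 : 2 * aL α m l = ((Finset.univ : Finset Bool) ×ˢ
      (Finset.univ.filter (fun x : Fin l → Bool => ∀ p : ℕ, p < l → v1C α m l x p))).card := by
    rw [Finset.card_product, Finset.card_univ, Fintype.card_bool, v1_aL]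
  rw [h2]
  refine Finset.card_nbij' (fun x => (x 0, fun j : Fin l => x j.succ))
    (fun q => Fin.cons (α := fun _ => Bool) q.1 q.2) ?_ ?_ ?_ ?_
  · intro x hx
    have hx' := (Finset.mem_filter.1 (Finset.mem_coe.1 hx)).2
    refine Finset.mem_coe.2 (Finset.mem_product.2 ⟨Finset.mem_univ _, ?_⟩)
    refine Finset.mem_filter.2 ⟨Finset.mem_univ _, fun p hp => ?_⟩
    exact (v1_C x p).1 (hx' p hp)
  · intro q hq
    have hq' := (Finset.mem_filter.1 (Finset.mem_product.1 (Finset.mem_coe.1 hq)).2).2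
    refine Finset.mem_coe.2 (Finset.mem_filter.2 ⟨Finset.mem_univ _, fun p hp => ?_⟩)
    rw [v1_C]
    simp only [Fin.cons_succ]
    exact hq' p hp
  · intro x _
    exact Fin.cons_self_tail x
  · intro q _
    simp only [Fin.cons_zero, Fin.cons_succ]

theorem aL_zero (α : ℕ → Bool) (m : ℕ) : aL α m 0 = 1 := by
  classical
  rw [v1_aL, Finset.filter_true_of_mem]
  · rw [Finset.card_univ]
    simp
  · intro x _ p hp
    omega

theorem aR_one (α : ℕ → Bool) (m : ℕ) : aR α m 1 = 2 := by
  classical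
  unfold aR
  rw [Finset.filter_true_of_mem]
  · rw [Finset.card_univ]
    simp
  · intro x _ p hp hp'
    omega

theorem aL_step (α : ℕ → Bool) (m l : ℕ) : 2 * aL α m l = aL α m (l + 1) + bL α m l := by
  classical
  rw [← v1_card_U, ← Finset.card_filter_add_card_filter_not (s := v1U α m l)
    (fun x => v1C α m (l + 1) x 0)]
  congr 1
  · rw [v1_aL]
    congr 1
    ext x
    constructor
    · intro h0
      have h1 := (Finset.mem_filter.1 (Finset.mem_filter.1 h0).1).2
      have h2 := (Finset.mem_filter.1 h0).2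
      refine Finset.mem_filter.2 ⟨Finset.mem_univ _, fun p hp => ?_⟩
      rcases p with _ | p
      · exact h2
      · exact h1 p (by omega)
    · intro h0
      have h1 := (Finset.mem_filter.1 h0).2
      refine Finset.mem_filter.2 ⟨Finset.mem_filter.2 ⟨Finset.mem_univ _, fun p hp => ?_⟩, ?_⟩
      · exact h1 (p + 1) (by omega)
      · exact h1 0 (by omega)
  · unfold bL
    congr 1
    ext x
    have e0 : ((0 : ℕ) : ℤ) = 0 := rfl
    have e1 : ((l + 1 : ℕ) : ℤ) = (l : ℤ) + 1 := by push_cast; rfl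
    constructor
    · intro h0
      have h1 := (Finset.mem_filter.1 (Finset.mem_filter.1 h0).1).2
      have h2 := (Finset.mem_filter.1 h0).2
      refine Finset.mem_filter.2 ⟨Finset.mem_univ _, fun p hp hp' => ?_, ?_⟩
      · obtain ⟨q, rfl⟩ : ∃ q, p = q + 1 := ⟨p - 1, by omega⟩
        have h3 := h1 q (by omega)
        unfold v1C at h3
        rw [e1] at h3
        exact h3
      · unfold v1C at h2
        rw [e1, e0] at h2
        tauto
    · intro h0
      have h1 := (Finset.mem_filter.1 h0).2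
      refine Finset.mem_filter.2 ⟨Finset.mem_filter.2 ⟨Finset.mem_univ _, fun p hp => ?_⟩, ?_⟩
      · have h3 := h1.1 (p + 1) (by omega) (by omega)
        unfold v1C
        rw [e1]
        exact h3
      · unfold v1C
        rw [e1, e0]
        have h3 := h1.2
        tauto

end Pool.Agent.KWG
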