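import Pool.Agent.KWG.V1

/-!
# [KWG-V2] bounds for `aL`

Let `x` be a word of length `l + 1`, `X = cat α x` (so `X t = x t` for `t ≤ l`, `X t = α (t - l - 1)` for
`t > l`), `X' = fl m (l + 1) X` (letters `l` and `l + 1 + m` flipped).

`aL_dbl` (`l + 1 < m`, `l + 1` not a period): `bL l = 0`.  If `At α m X 0` or `At α m X' 0` then for
`j + (l + 1) < m`: `α (l + 1 + j) = X (l + 1 + j) = α j` (the flipped letters are not of this form:
`l < l + 1 + j < m < l + 1 + m`), so `l + 1` is a period: contradiction.

`aL_two` (`l + 1 ≤ m`): `bL l ≤ 2`: if `At α m X 0` then `x i = α i` for all `i ≤ l`; if `At α m X' 0` then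
`x i = α i` for `i < l` and `x l = ! α l`.  So there are at most two such `x`.

`aL_far` (`m < l + 1`): `bL l ≤ aL (l + 1 - m)`.  The window `0` reads the letters `< m ≤ l`, which are letters
of `x` different from the letter `l`, so `At α m X 0` and `At α m X' 0` are both equivalent to `x i = α i`
for all `i < m`.  Map `x` to its suffix `x'' i = x (m + i)` of length `l + 1 - m ≥ 1`: injective on the set of
these `x`, and `x''` is counted by `aL (l + 1 - m)`: for `p < l + 1 - m` the window `p` of `cat α x''`
(resp. `fl m (l + 1 - m) (cat α x'')`) is the window `p + m` of `X` (resp. `X'`); if `m ≥ 1`, `p + m ≥ 1` and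
`p + m < l + 1`, so it is excluded.  (`m ≥ 1` is a hypothesis.)
All three then follow from `aL_step`.
-/

namespace Pool.Agent.KWG

theorem v2_cat_lt {k : ℕ} (α : ℕ → Bool) (x : Fin k → Bool) (i : ℕ) (hi : i < k) :
    cat α x (i : ℤ) = x ⟨i, hi⟩ := by
  unfold cat
  rw [if_pos (by exact_mod_cast hi)]
  exact ext_in x ⟨i, hi⟩

theorem v2_cat_ge {k : ℕ} (α : ℕ → Bool) (x : Fin k → Bool) (t : ℤ) (j : ℕ) (ht : t = k + j) :
    cat α x t = α j := by
  unfold cat
  rw [if_neg (by omega)]
  congr 1
  omega

theorem aL_dbl {α : ℕ → Bool} {m l : ℕ} (h : l + 1 < m) (hp : ¬ Per α m (l + 1)) :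
    2 * aL α m l ≤ aL α m (l + 1) := by
  have hb : bL α m l = 0 := by
    classical
    unfold bL
    rw [Finset.card_eq_zero, Finset.filter_eq_empty_iff]
    rintro x - ⟨-, h2⟩
    apply hp
    intro j hj
    have e1 : cat α x ((0 : ℤ) + (j + (l + 1) : ℕ)) = α j :=
      v2_cat_ge α x _ j (by push_cast; ring)
    rcases h2 with h2 | h2
    · rw [← h2 (j + (l + 1)) hj, e1]
    · rw [← h2 (j + (l + 1)) hj, fl_of_ne (by omega) (by omega), e1]
  have := aL_step α m l
  omega

theorem aL_two {α : ℕ → Bool} {m l : ℕ} (h : l + 1 ≤ m) :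
    2 * aL α m l ≤ aL α m (l + 1) + 2 := by
  have hb : bL α m l ≤ 2 := by
    classical
    unfold bL
    set x₁ : Fin (l + 1) → Bool := fun i => α i with hx₁
    set x₂ : Fin (l + 1) → Bool := fun i => if (i : ℕ) = l then !(α i) else α i with hx₂
    have hsub : (Finset.univ.filter (fun x : Fin (l + 1) → Bool =>
        (∀ p : ℕ, 1 ≤ p → p < l + 1 →
          ¬ At α m (cat α x) p ∧ ¬ At α m (fl m ((l : ℤ) + 1) (cat α x)) p) ∧
        (At α m (cat α x) 0 ∨ At α m (fl m ((l : ℤ) + 1) (cat α x)) 0))) ⊆ {x₁, x₂} := by
      intro x hx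
      simp only [Finset.mem_filter, Finset.mem_univ, true_and] at hx
      simp only [Finset.mem_insert, Finset.mem_singleton]
      rcases hx.2 with h2 | h2
      · left
        funext i
        have h3 := h2 i (by omega)
        rw [zero_add, v2_cat_lt α x i i.2] at h3
        exact h3
      · right
        funext i
        have h3 := h2 i (by omega)
        rw [zero_add] at h3
        simp only [hx₂]
        by_cases hi : (i : ℕ) = l
        · rw [if_pos hi]
          have e : ((i : ℕ) : ℤ) = ((l : ℤ) + 1) - 1 := by omega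
          rw [e, fl_left, ← e, v2_cat_lt α x i i.2] at h3
          rw [← h3, Bool.not_not]
        · rw [if_neg hi]
          rw [fl_of_ne (by omega) (by omega), v2_cat_lt α x i i.2] at h3
          exact h3
    exact (Finset.card_le_card hsub).trans Finset.card_le_two
  have := aL_step α m l
  omega

theorem v2_shift {α : ℕ → Bool} {m : ℕ} {X Y : ℤ → Bool} {s p p' : ℤ} (hp : p = p' + s)
    (h : ∀ t : ℤ, p' ≤ t → X (t + s) = Y t) : At α m X p ↔ At α m Y p' := by
  subst hp
  unfold At
  constructor
  · intro hX j hj
    rw [← h (p' + j) (by omega), add_right_comm]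
    exact hX j hj
  · intro hY j hj
    rw [add_right_comm, h (p' + j) (by omega)]
    exact hY j hj

theorem aL_far {α : ℕ → Bool} {m l : ℕ} (hm : 1 ≤ m) (h : m < l + 1) :
    2 * aL α m l ≤ aL α m (l + 1) + aL α m (l + 1 - m) := by
  have hb : bL α m l ≤ aL α m (l + 1 - m) := by
    classical
    unfold bL aL
    refine Finset.card_le_card_of_injOn
      (fun x : Fin (l + 1) → Bool => fun i : Fin (l + 1 - m) => x ⟨m + i, by omega⟩) ?_ ?_
    · intro x hx
      simp only [Finset.coe_filter, Finset.mem_univ, true_and, Set.mem_ofPred_eq] at hx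
      simp only [Finset.coe_filter, Finset.mem_univ, true_and, Set.mem_ofPred_eq]
      set y : Fin (l + 1 - m) → Bool := fun i => x ⟨m + i, by omega⟩ with hy
      have hcat : ∀ t : ℤ, 0 ≤ t → cat α x (t + m) = cat α y t := by
        intro t ht
        obtain ⟨i, rfl⟩ : ∃ i : ℕ, t = i := ⟨t.toNat, by omega⟩
        by_cases hi : i < l + 1 - m
        · rw [v2_cat_lt α y i hi]
          have e : ((i : ℤ) + m) = ((m + i : ℕ) : ℤ) := by push_cast; ring
          rw [e, v2_cat_lt α x (m + i) (by omega)]
        · rw [v2_cat_ge α y _ (i - (l + 1 - m)) (by omega),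
            v2_cat_ge α x _ (i - (l + 1 - m)) (by push_cast; omega)]
      intro p hp
      obtain ⟨a1, a2⟩ := hx.1 (p + m) (by omega) (by omega)
      have e1 : At α m (cat α x) ((p + m : ℕ) : ℤ) ↔ At α m (cat α y) p :=
        v2_shift (s := (m : ℤ)) (by push_cast; ring) fun t ht => hcat t (by omega)
      have e2 : At α m (fl m ((l : ℤ) + 1) (cat α x)) ((p + m : ℕ) : ℤ) ↔
          At α m (fl m ((l + 1 - m : ℕ) : ℤ) (cat α y)) p :=
        v2_shift (s := (m : ℤ)) (by push_cast; ring) fun t ht => by
          unfold fl
          rw [hcat t (by omega)]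
          congr 1
          unfold eps
          congr 1
          · congr 1
            apply propext
            constructor <;> intro h <;> omega
          · congr 1
            apply propext
            constructor <;> intro h <;> omega
      rw [← e1, ← e2]
      exact ⟨a1, a2⟩
    · have hfirst : ∀ x : Fin (l + 1) → Bool,
          (At α m (cat α x) 0 ∨ At α m (fl m ((l : ℤ) + 1) (cat α x)) 0) →
          ∀ i : ℕ, (hi : i < m) → x ⟨i, by omega⟩ = α i := by
        intro x hx i hi
        rcases hx with hx | hx
        · have := hx i hi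
          rwa [zero_add, v2_cat_lt α x i (by omega)] at this
        · have := hx i hi
          rwa [zero_add, fl_of_ne (by omega) (by omega), v2_cat_lt α x i (by omega)] at this
      intro x hx y hy hxy
      simp only [Finset.coe_filter, Finset.mem_univ, true_and, Set.mem_ofPred_eq] at hx hy
      funext i
      by_cases hi : (i : ℕ) < m
      · have h1 := hfirst x hx.2 i hi
        have h2 := hfirst y hy.2 i hi
        exact h1.trans h2.symm
      · have h3 := congrFun hxy ⟨(i : ℕ) - m, by omega⟩
        simp only at h3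
        have e : (⟨m + ((i : ℕ) - m), by omega⟩ : Fin (l + 1)) = i := by
          ext
          simp only
          omega
        rw [e] at h3
        exact h3
  have := aL_step α m l
  omega

end Pool.Agent.KWG
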