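import Mathlib

/-!
# [KWG-V3a] sequences (pure arithmetic)

`seqL`.  First `u` is monotone: prove `∀ j, u j ≤ u (j + 1)` by strong induction, together with
`u j ≥ 2` for `j ≥ 1` (`u 1 ≥ 2 * u 0 = 2` because `0 + 1 < e`):
 `j + 1 < e`: `h1`.  `e ≤ j + 1 ≤ m`: `j ≥ 1`, `u (j + 1) ≥ 2 u j - 2 ≥ u j` as `u j ≥ 2`.  `m < j + 1`:
 `u (j + 1 - m) ≤ u j` by induction (`m ≥ 1`), so `u (j + 1) ≥ 2 u j - u j`.
Then the claim: `j + 1 < e`: `h1`.  `e ≤ j + 1 ≤ m`: `K ≤ j` and `j - K ≥ 1` (`K + 2 ≤ e ≤ j + 1`), so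
`u (j - K) ≥ 2` and `h2`.  `m < j + 1`: `K + 1 ≤ m`, so `j + 1 - m ≤ j - K`, `u (j + 1 - m) ≤ u (j - K)`, `h3`.
-/

namespace Pool.Agent.KWG

open Finset

theorem seqL {u : ℕ → ℕ} {m e K : ℕ} (h0 : u 0 = 1) (he : 2 ≤ e) (hem : e ≤ m) (hK : K + 2 ≤ e)
    (h1 : ∀ j, j + 1 < e → 2 * u j ≤ u (j + 1)) (h2 : ∀ j, j + 1 ≤ m → 2 * u j ≤ u (j + 1) + 2)
    (h3 : ∀ j, m < j + 1 → 2 * u j ≤ u (j + 1) + u (j + 1 - m)) (j : ℕ) :
    2 * u j ≤ u (j + 1) + (if K ≤ j then u (j - K) else 0) := by
  have hu1 : 2 ≤ u 1 := by have a := h1 0 (by omega); rw [h0] at a; simpa using a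
  have key : ∀ j, (∀ i, i ≤ j → ∀ i', i' ≤ i → u i' ≤ u i) ∧ (1 ≤ j → 2 ≤ u j) := by
    intro j
    induction j with
    | zero =>
      refine ⟨?_, by omega⟩
      intro i hi i' hi'
      have h1 : i = 0 := by omega
      have h2 : i' = 0 := by omega
      subst h1; subst h2; exact le_refl _
    | succ j ih =>
      obtain ⟨ihm, ih2⟩ := ih
      have hs : u j ≤ u (j + 1) := by
        by_cases hj1 : j + 1 < e
        · have := h1 j hj1; omega
        · by_cases hj2 : j + 1 ≤ m
          · have := h2 j hj2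
            have := ih2 (by omega)
            omega
          · have a := h3 j (by omega)
            have b := ihm j (le_refl _) (j + 1 - m) (by omega)
            omega
      refine ⟨?_, ?_⟩
      · intro i hi i' hi'
        rcases Nat.lt_or_ge i (j + 1) with h | h
        · exact ihm i (by omega) i' hi'
        · have hi2 : i = j + 1 := by omega
          subst hi2
          rcases Nat.lt_or_ge i' (j + 1) with h' | h'
          · exact le_trans (ihm j (le_refl _) i' (by omega)) hs
          · have : i' = j + 1 := by omega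
            subst this; exact le_refl _
      · intro _
        rcases Nat.eq_zero_or_pos j with h | h
        · subst h; simpa using hu1
        · exact le_trans (ih2 h) hs
  by_cases hj1 : j + 1 < e
  · have := h1 j hj1; omega
  · rw [if_pos (by omega : K ≤ j)]
    by_cases hj2 : j + 1 ≤ m
    · have a := h2 j hj2
      have b := (key (j - K)).2 (by omega)
      omega
    · have a := h3 j (by omega)
      have b := (key (j - K)).1 (j - K) (le_refl _) (j + 1 - m) (by omega)
      omega

end Pool.Agent.KWG
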