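import Mathlib

/-!
# [KWG-V3c] convolutions (pure arithmetic)

`conv_lt`.  For `i < K` and `k < M`: `k ∈ range (M - 1 - i)` iff `i + 1 ≤ M - 1 - k`.  So the left side is
`∑ k ∈ range M, v k * ∑ i ∈ range K, (if i + 1 ≤ M - 1 - k then u (M - 1 - k - 1 - i) else 0)`
(`Finset.sum_comm`), each inner sum is `< u (M - 1 - k)` by `hu`, and `v 0 ≥ 1` makes it strict.
-/

namespace Pool.Agent.KWG

open Finset

theorem conv_lt {u v : ℕ → ℕ} {K : ℕ} (hv : 1 ≤ v 0)
    (hu : ∀ j, ∑ i ∈ range K, (if i + 1 ≤ j then u (j - 1 - i) else 0) < u j) {M : ℕ}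
    (hM : 1 ≤ M) :
    ∑ i ∈ range K, (∑ k ∈ range (M - 1 - i), u (M - 1 - i - 1 - k) * v k) <
      ∑ k ∈ range M, u (M - 1 - k) * v k := by
  have e1 : ∀ i ∈ range K, (∑ k ∈ range (M - 1 - i), u (M - 1 - i - 1 - k) * v k) =
      ∑ k ∈ range M, (if i + 1 ≤ M - 1 - k then u (M - 1 - k - 1 - i) else 0) * v k := by
    intro i _
    have hsub : range (M - 1 - i) ⊆ range M := range_subset_range.2 (by omega)
    rw [← sum_subset hsub]
    · refine sum_congr rfl fun k hk => ?_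
      rw [mem_range] at hk
      rw [if_pos (by omega), show M - 1 - i - 1 - k = M - 1 - k - 1 - i by omega]
    · intro k _ hk
      rw [mem_range] at hk
      rw [if_neg (by omega), zero_mul]
  rw [sum_congr rfl e1, sum_comm]
  have e2 : ∀ k, ∑ i ∈ range K, (if i + 1 ≤ M - 1 - k then u (M - 1 - k - 1 - i) else 0) * v k =
      (∑ i ∈ range K, (if i + 1 ≤ M - 1 - k then u (M - 1 - k - 1 - i) else 0)) * v k := by
    intro k; rw [sum_mul]
  rw [sum_congr rfl fun k _ => e2 k]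
  refine sum_lt_sum (fun k _ => Nat.mul_le_mul_right _ (hu _).le) ⟨0, mem_range.2 (by omega), ?_⟩
  exact Nat.mul_lt_mul_of_pos_right (hu _) (by omega)

end Pool.Agent.KWG
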