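import Pool.Agent.KWG.C1

/-!
# [KWG-V4] reindexing the sum over the pairs of far windows (pure)

`l, r ∈ Wi n m`, `l + m < r`: `0 ≤ l`, `r + m < n`.  Put `g = r - l - m ≥ 1` and `k = n - m - r - 1 ≥ 0`
(natural numbers); then `l = n - 2 m - g - 1 - k ≥ 0`, i.e. `g < n - 2 m`, `k < n - 2 m - g`; conversely such
`g, k` give `l`, `r = l + m + g`.  `Finset.sum_bij'` / `Finset.sum_nbij'` on sigma types
(`Finset.sum_sigma'`).  Everything is linear integer arithmetic (`omega`).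
-/

namespace Pool.Agent.KWG

open Finset

theorem W4_reindex (n m : ℕ) (f : ℤ → ℤ → ℤ) :
    ∑ l ∈ Wi n m, ∑ r ∈ (Wi n m).filter (fun r => l + m < r), f l r =
      ∑ g ∈ Ico 1 (n - 2 * m), ∑ k ∈ range (n - 2 * m - g),
        f ((n - 2 * m - g - 1 - k : ℕ) : ℤ) (((n - 2 * m - g - 1 - k : ℕ) : ℤ) + m + g) := by
  rw [Finset.sum_sigma', Finset.sum_sigma']
  refine Finset.sum_nbij'
    (fun x => ⟨(x.2 - x.1 - m).toNat, ((n : ℤ) - m - x.2 - 1).toNat⟩)
    (fun y => ⟨((n - 2 * m - y.1 - 1 - y.2 : ℕ) : ℤ),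
      ((n - 2 * m - y.1 - 1 - y.2 : ℕ) : ℤ) + m + y.1⟩) ?_ ?_ ?_ ?_ ?_
  · rintro ⟨l, r⟩ h
    simp only [Finset.mem_sigma, Finset.mem_filter, Finset.mem_Ico, Finset.mem_range, Wi] at h ⊢
    omega
  · rintro ⟨g, k⟩ h
    simp only [Finset.mem_sigma, Finset.mem_filter, Finset.mem_Ico, Finset.mem_range, Wi] at h ⊢
    omega
  · rintro ⟨l, r⟩ h
    simp only [Finset.mem_sigma, Finset.mem_filter, Finset.mem_Ico, Wi] at h
    have h1 : ((n - 2 * m - (r - l - m).toNat - 1 - ((n : ℤ) - m - r - 1).toNat : ℕ) : ℤ) = l := by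
      omega
    have h2 : l + m + ((r - l - m).toNat : ℤ) = r := by omega
    simp only [h1, h2]
  · rintro ⟨g, k⟩ h
    simp only [Finset.mem_sigma, Finset.mem_Ico, Finset.mem_range] at h
    have h1 : (((n - 2 * m - g - 1 - k : ℕ) : ℤ) + m + g -
        ((n - 2 * m - g - 1 - k : ℕ) : ℤ) - m).toNat = g := by omega
    have h2 : ((n : ℤ) - m - (((n - 2 * m - g - 1 - k : ℕ) : ℤ) + m + g) - 1).toNat = k := by omega
    simp only [h1, h2]
  · rintro ⟨l, r⟩ h
    simp only [Finset.mem_sigma, Finset.mem_filter, Finset.mem_Ico, Wi] at h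
    have h1 : ((n - 2 * m - (r - l - m).toNat - 1 - ((n : ℤ) - m - r - 1).toNat : ℕ) : ℤ) = l := by
      omega
    have h2 : l + m + ((r - l - m).toNat : ℤ) = r := by omega
    simp only [h1, h2]

end Pool.Agent.KWG
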