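import Pool.Agent.KWG.Q2
import Pool.Agent.KWG.Q9
import Pool.Agent.KWG.Q11
import Pool.Agent.KWG.T1
import Pool.Agent.KWG.V2

/-!
# [KWG-V5] the terms of the sum

`aL_eq`, `aR_eq`: `E α m k l = E β m k l` for `k ≥ 1` by `co_nT` (`T2_CO`; `n = l + m + k`), and `E_eq`.
`k = 1`: `aR_one` gives `2 * aL α m l = 2 * aL β m l`.  `l = 0`: `aL_zero` gives `aR α m k = aR β m k`.

`term_agree`: `sq_eq` (for `g = 1` the hypothesis `l + m + 2 ≤ r` is false).  `l, r ∈ Wi n m` as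
`n = l + (2 m + g) + k`, `k ≥ 1`.
`term_alpha`: `sq_diff`.
-/

namespace Pool.Agent.KWG

theorem aL_eq {α β : ℕ → Bool} {m : ℕ} (hper : ∀ d, Per α m d ↔ Per β m d) (l : ℕ) :
    aL α m l = aL β m l := by
  have h := co_nT (n := l + m + 1) (fun d _ => hper d) (T2_CO m (l : ℤ))
  have h1 := E_eq α m (k := 1) (l := l) le_rfl
  have h2 := E_eq β m (k := 1) (l := l) le_rfl
  unfold E at h1 h2
  rw [aR_one] at h1 h2
  rw [h1, h2] at h
  omega

theorem aR_eq {α β : ℕ → Bool} {m : ℕ} (hper : ∀ d, Per α m d ↔ Per β m d) {k : ℕ} (hk : 1 ≤ k) :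
    aR α m k = aR β m k := by
  have h := co_nT (n := 0 + m + k) (fun d _ => hper d) (T2_CO m ((0 : ℕ) : ℤ))
  have h1 := E_eq α m (k := k) (l := 0) hk
  have h2 := E_eq β m (k := k) (l := 0) hk
  unfold E at h1 h2
  rw [aL_zero] at h1 h2
  rw [h1, h2] at h
  omega

theorem term_agree {α β : ℕ → Bool} {m g l k n : ℕ} (hk : 1 ≤ k) (hn : n = l + (2 * m + g) + k)
    (hg : 1 ≤ g) (hper : ∀ d, d + m + 1 ≤ n → (Per α m d ↔ Per β m d))
    (hgs : 2 ≤ g → (Gs α m g ↔ Gs β m g)) :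
    (nT α m n (T4 (l : ℤ) ((l : ℤ) + m + g)) : ℤ) - nT β m n (T4 (l : ℤ) ((l : ℤ) + m + g)) = 0 := by
  have hl : (l : ℤ) ∈ Wi n m := by
    rw [mem_Wi]; constructor <;> (subst hn; push_cast; omega)
  have hr : (l : ℤ) + m + g ∈ Wi n m := by
    rw [mem_Wi]; constructor <;> (subst hn; push_cast; omega)
  have e : ((l : ℤ) + m + g - l - m).toNat = g := by
    have : (l : ℤ) + m + g - l - m = (g : ℤ) := by ring
    rw [this]; simp
  have h := sq_eq hper hl hr (by omega) (by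
    intro h2
    rw [e]
    exact hgs (by omega))
  rw [h]
  ring

theorem term_alpha {α β : ℕ → Bool} {m g l k n : ℕ} (hk : 1 ≤ k) (hn : n = l + (2 * m + g) + k)
    (hper : ∀ d, d + m + 1 ≤ n → (Per α m d ↔ Per β m d)) (h : Gs α m g) (hβ : ¬ Gs β m g) :
    (nT α m n (T4 (l : ℤ) ((l : ℤ) + m + g)) : ℤ) - nT β m n (T4 (l : ℤ) ((l : ℤ) + m + g)) =
      4 * ((aL α m l : ℤ) * aR α m k) := by
  obtain ⟨a, b, hab⟩ := h
  have h := sq_diff hk hn hper hab hβ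
  rw [h]
  push_cast
  ring

end Pool.Agent.KWG
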