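import Pool.Agent.KWG.V2
import Pool.Agent.KWG.V3a
import Pool.Agent.KWG.V3b
import Pool.Agent.KWG.V3c

/-!
# [KWG-V6a] the main term dominates

Put `N = n - 2 m`, `cv M = ∑ k ∈ range M, aL α m (M - 1 - k) * aR α m (k + 1)`.

`cv_lt`: let `e` be the least period `≥ 1` of `α` (`e ≤ m` because `m` is one), `e ≥ 2`, `K + 2 ≤ e`; then for
`M ≥ 1`: `∑ i ∈ range K, cv (M - 1 - i) < cv M`.  Proof: `seqL` (with `u = aL α m`; `h1` from `aL_dbl` since
`j + 1 < e ≤ m` is not a period, `h2` from `aL_two`, `h3` from `aL_far`), `telA`, `conv_lt` with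
`v k = aR α m (k + 1)`, `v 0 = 2` (`aR_one`).
-/

namespace Pool.Agent.KWG

open Finset

theorem cv_lt {α : ℕ → Bool} {m e K M : ℕ} (he : 2 ≤ e) (hem : e ≤ m)
    (hmin : ∀ d, 1 ≤ d → d < e → ¬ Per α m d) (hK : K + 2 ≤ e) (hM : 1 ≤ M) :
    ∑ i ∈ range K, (∑ k ∈ range (M - 1 - i), aL α m (M - 1 - i - 1 - k) * aR α m (k + 1)) <
      ∑ k ∈ range M, aL α m (M - 1 - k) * aR α m (k + 1) := by
  have hv : 1 ≤ (fun k => aR α m (k + 1)) 0 := by
    show 1 ≤ aR α m (0 + 1)
    rw [zero_add, aR_one]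
    omega
  have h0 : aL α m 0 = 1 := aL_zero α m
  have hu : ∀ j, ∑ i ∈ range K, (if i + 1 ≤ j then aL α m (j - 1 - i) else 0) < aL α m j := by
    intro j
    apply telA (u := aL α m) (by omega)
    intro j
    exact seqL (u := aL α m) h0 he hem hK
      (fun j hj => aL_dbl (by omega) (hmin _ (by omega) (by omega)))
      (fun j hj => aL_two (by omega))
      (fun j hj => aL_far (by omega) (by omega)) j
  exact conv_lt (u := aL α m) (v := fun k => aR α m (k + 1)) hv hu hM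

end Pool.Agent.KWG
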