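import Pool.Agent.KWG.V4
import Pool.Agent.KWG.V5
import Pool.Agent.KWG.V6a

/-!
# [KWG-V6b] one-sided difference is impossible

Put `N = n - 2 m`, `cv M = ∑ k ∈ range M, aL α m (M - 1 - k) * aR α m (k + 1)`.

`one_sided`: the case `Gs α m g₀`, `¬ Gs β m g₀`, agreement for `2 ≤ g < g₀`, is impossible if the numbers
agree.  Proof.  `n ≥ 2 m + 1 + g₀` so the periods agree for all `d` (`per_full`).  Let `e` be the least period
`≥ 1` of `α` (and of `β`).  `g₀ ≤ e` (`gs_le` if `e < m`, `gs_le_m` if `e = m`), in the same way every `g` with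
`Gs α m g` or `Gs β m g` is `≤ e`; `e ≥ g₀ ≥ 2`.  By `Wn4_diff` (with `co_nT`) and `W4_reindex`
`0 = ∑ g ∈ Ico 1 N, S g`, `S g = ∑ k ∈ range (N - g), (nT α - nT β)` of the square with
`l = N - g - 1 - k`, `r = l + m + g`, right context of length `k + 1`.
 - `g < g₀` or `g > e` or agreement at `g`: `S g = 0` (`term_agree`).
 - `g = g₀`: `S g₀ = 4 cv (N - g₀)`, `N - g₀ ≥ 1` (`term_alpha`).
 - `g₀ < g ≤ e`: `S g ≥ - 4 cv (N - g)`: it is `0`, or `4 cv (N - g)`, or (`Gs β`, not `Gs α`: `term_alpha` with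
   `α, β` exchanged and `aL_eq`, `aR_eq`) `- 4 cv (N - g)`.
So with `M = N - g₀`, `K = e - g₀` (`K + 2 ≤ e`), `g = g₀ + 1 + i`:
`0 ≥ 4 cv M - 4 ∑ i ∈ range K, cv (M - 1 - i) > 0`, contradiction.  (Terms with `g ≥ N` do not occur in
the sum; there `M - 1 - i = 0` and `cv 0 = 0`.)
-/

namespace Pool.Agent.KWG

open Finset

/-- the convolution -/
noncomputable def v6b_cv (α : ℕ → Bool) (m M : ℕ) : ℕ :=
  ∑ k ∈ range M, aL α m (M - 1 - k) * aR α m (k + 1)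

/-- the difference of the squares with gap `g` -/
noncomputable def v6b_S (α β : ℕ → Bool) (m n g : ℕ) : ℤ :=
  ∑ k ∈ range (n - 2 * m - g),
    ((nT α m n (T4 ((n - 2 * m - g - 1 - k : ℕ) : ℤ)
        (((n - 2 * m - g - 1 - k : ℕ) : ℤ) + m + g)) : ℤ) -
      nT β m n (T4 ((n - 2 * m - g - 1 - k : ℕ) : ℤ)
        (((n - 2 * m - g - 1 - k : ℕ) : ℤ) + m + g)))

theorem v6b_agree {α β : ℕ → Bool} {m n g : ℕ}
    (hper : ∀ d, d + m + 1 ≤ n → (Per α m d ↔ Per β m d)) (hg : 1 ≤ g)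
    (hgs : 2 ≤ g → (Gs α m g ↔ Gs β m g)) : v6b_S α β m n g = 0 := by
  unfold v6b_S
  refine Finset.sum_eq_zero fun k hk => ?_
  rw [Finset.mem_range] at hk
  exact term_agree (l := n - 2 * m - g - 1 - k) (k := k + 1) (n := n) (by omega) (by omega) hg
    hper hgs

theorem v6b_alpha {α β : ℕ → Bool} {m n g : ℕ}
    (hper : ∀ d, d + m + 1 ≤ n → (Per α m d ↔ Per β m d)) (h : Gs α m g) (hβ : ¬ Gs β m g) :
    v6b_S α β m n g = 4 * (v6b_cv α m (n - 2 * m - g) : ℤ) := by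
  unfold v6b_S v6b_cv
  push_cast
  rw [Finset.mul_sum]
  refine Finset.sum_congr rfl fun k hk => ?_
  rw [Finset.mem_range] at hk
  exact term_alpha (l := n - 2 * m - g - 1 - k) (k := k + 1) (n := n) (by omega) (by omega)
    hper h hβ

theorem v6b_neg (α β : ℕ → Bool) (m n g : ℕ) : v6b_S α β m n g = - v6b_S β α m n g := by
  unfold v6b_S
  rw [← Finset.sum_neg_distrib]
  exact Finset.sum_congr rfl fun k _ => by ring

theorem v6b_cv_eq {α β : ℕ → Bool} {m : ℕ} (hper : ∀ d, Per α m d ↔ Per β m d) (M : ℕ) :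
    v6b_cv α m M = v6b_cv β m M := by
  unfold v6b_cv
  refine Finset.sum_congr rfl fun k _ => ?_
  rw [aL_eq hper, aR_eq hper (by omega)]

theorem v6b_lower {α β : ℕ → Bool} {m n g : ℕ}
    (hper : ∀ d, d + m + 1 ≤ n → (Per α m d ↔ Per β m d))
    (hfull : ∀ d, Per α m d ↔ Per β m d) (hg : 1 ≤ g) :
    -(4 * (v6b_cv α m (n - 2 * m - g) : ℤ)) ≤ v6b_S α β m n g := by
  by_cases h1 : Gs α m g <;> by_cases h2 : Gs β m g
  · rw [v6b_agree hper hg (fun _ => iff_of_true h1 h2)]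
    have : (0 : ℤ) ≤ (v6b_cv α m (n - 2 * m - g) : ℤ) := Int.natCast_nonneg _
    linarith
  · rw [v6b_alpha hper h1 h2]
    have : (0 : ℤ) ≤ (v6b_cv α m (n - 2 * m - g) : ℤ) := Int.natCast_nonneg _
    linarith
  · rw [v6b_neg, v6b_alpha (fun d hd => (hper d hd).symm) h2 h1, v6b_cv_eq hfull]
  · rw [v6b_agree hper hg (fun _ => iff_of_false h1 h2)]
    have : (0 : ℤ) ≤ (v6b_cv α m (n - 2 * m - g) : ℤ) := Int.natCast_nonneg _
    linarith

theorem v6b_least {α : ℕ → Bool} {m : ℕ} (hm : 1 ≤ m) :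
    ∃ e, 1 ≤ e ∧ e ≤ m ∧ Per α m e ∧ ∀ d, 1 ≤ d → d < e → ¬ Per α m d := by
  classical
  have hex : ∃ d, 1 ≤ d ∧ Per α m d := ⟨m, hm, fun j hj => absurd hj (by omega)⟩
  refine ⟨Nat.find hex, (Nat.find_spec hex).1, Nat.find_min' hex ⟨hm, fun j hj =>
    absurd hj (by omega)⟩, (Nat.find_spec hex).2, fun d h1 h2 h3 => ?_⟩
  exact Nat.find_min hex h2 ⟨h1, h3⟩

theorem v6b_sum (c : ℕ → ℕ) {N g₀ e : ℕ} :
    ∑ g ∈ Ico (g₀ + 1) N, (if g ≤ e then c (N - g) else 0) ≤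
      ∑ i ∈ range (e - g₀), c (N - g₀ - 1 - i) := by
  have h1 : ∑ i ∈ range (e - g₀), c (N - g₀ - 1 - i) = ∑ g ∈ Ico (g₀ + 1) (e + 1), c (N - g) := by
    rw [Finset.sum_Ico_eq_sum_range]
    have h2 : e + 1 - (g₀ + 1) = e - g₀ := by omega
    rw [h2]
    refine Finset.sum_congr rfl fun i _ => ?_
    congr 1
    omega
  rw [h1, ← Finset.sum_filter]
  refine Finset.sum_le_sum_of_subset ?_
  intro g hg
  rw [Finset.mem_filter, Finset.mem_Ico] at hg
  rw [Finset.mem_Ico]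
  omega

theorem one_sided {α β : ℕ → Bool} {m n g₀ : ℕ}
    (hper : ∀ d, d + m + 1 ≤ n → (Per α m d ↔ Per β m d)) (hg : 2 ≤ g₀)
    (hn : g₀ + 2 * m + 1 ≤ n) (hα : Gs α m g₀) (hβ : ¬ Gs β m g₀)
    (hlow : ∀ g, 2 ≤ g → g < g₀ → (Gs α m g ↔ Gs β m g)) : Wn α m n 4 ≠ Wn β m n 4 := by
  intro hW
  have hfull := per_full hper (by omega)
  have hm : 1 ≤ m := by
    have := gs_le_m hα
    omega
  obtain ⟨e, he1, hem, hpe, hmin⟩ := v6b_least (α := α) hm
  have hle : ∀ g, Gs α m g ∨ Gs β m g → g ≤ e := by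
    intro g hgg
    rcases lt_or_eq_of_le hem with h | h
    · rcases hgg with h1 | h1
      · exact gs_le h1 he1 h hpe
      · exact gs_le h1 he1 h ((hfull e).1 hpe)
    · rw [h]
      rcases hgg with h1 | h1
      · exact gs_le_m h1
      · exact gs_le_m h1
  have hge := hle g₀ (Or.inl hα)
  have hsum : ∑ g ∈ Ico 1 (n - 2 * m), v6b_S α β m n g = 0 := by
    have h1 := Wn4_diff (α := α) (β := β) (m := m) (n := n) (fun T hT => co_nT hper hT)
    rw [hW, sub_self] at h1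
    have h2 := W4_reindex n m (fun l r => (nT α m n (T4 l r) : ℤ) - nT β m n (T4 l r))
    exact h2.symm.trans h1.symm
  have hN : g₀ < n - 2 * m := by omega
  have hsplit : ∑ g ∈ Ico 1 (n - 2 * m), v6b_S α β m n g =
      ∑ g ∈ Ico 1 g₀, v6b_S α β m n g + (v6b_S α β m n g₀ +
        ∑ g ∈ Ico (g₀ + 1) (n - 2 * m), v6b_S α β m n g) := by
    rw [← Finset.sum_Ico_consecutive _ (show 1 ≤ g₀ by omega) (show g₀ ≤ n - 2 * m by omega),
      Finset.sum_eq_sum_Ico_succ_bot hN]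
  have hlow0 : ∑ g ∈ Ico 1 g₀, v6b_S α β m n g = 0 := by
    refine Finset.sum_eq_zero fun g hg' => ?_
    rw [Finset.mem_Ico] at hg'
    exact v6b_agree hper hg'.1 (fun h2 => hlow g h2 hg'.2)
  have hhigh : -(4 * ((∑ g ∈ Ico (g₀ + 1) (n - 2 * m),
      (if g ≤ e then v6b_cv α m (n - 2 * m - g) else 0) : ℕ) : ℤ)) ≤
      ∑ g ∈ Ico (g₀ + 1) (n - 2 * m), v6b_S α β m n g := by
    rw [Nat.cast_sum, Finset.mul_sum, ← Finset.sum_neg_distrib]
    refine Finset.sum_le_sum fun g hg' => ?_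
    rw [Finset.mem_Ico] at hg'
    by_cases h : g ≤ e
    · rw [if_pos h]
      exact v6b_lower hper hfull (by omega)
    · rw [if_neg h, v6b_agree hper (by omega) (fun _ => iff_of_false
        (fun h1 => h (hle g (Or.inl h1))) (fun h1 => h (hle g (Or.inr h1))))]
      norm_num
  have h3 := v6b_sum (v6b_cv α m) (N := n - 2 * m) (g₀ := g₀) (e := e)
  have h4 : ∑ i ∈ range (e - g₀), v6b_cv α m (n - 2 * m - g₀ - 1 - i) <
      v6b_cv α m (n - 2 * m - g₀) :=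
    cv_lt (α := α) (m := m) (e := e) (K := e - g₀) (M := n - 2 * m - g₀) (by omega) hem hmin
      (by omega) (by omega)
  rw [hsum, hlow0, v6b_alpha hper hα hβ] at hsplit
  have h5 : ((∑ g ∈ Ico (g₀ + 1) (n - 2 * m),
      (if g ≤ e then v6b_cv α m (n - 2 * m - g) else 0) : ℕ) : ℤ) <
      (v6b_cv α m (n - 2 * m - g₀) : ℤ) := by
    exact_mod_cast lt_of_le_of_lt h3 h4
  linarith

end Pool.Agent.KWG
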