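import Pool.Agent.KWG.Defs

/-!
# [KWG-W0] basic facts on `fl`, `st`, `At`

All proofs are direct.  `fl m p X t = X t ^^ eps m p t` with
`eps m p t = decide (t + 1 = p) ^^ decide (t - m = p)`: exactly the letters `p - 1` and `p + m` are
flipped (they are different because `m` is a natural number).  The window `r` reads the letters
`r, ..., r + m - 1`.

* `At_fl_far`: if `p + m < r` or `r + m < p` no letter of the window `r` is flipped.
* `At_destroy`: if `r < p ≤ r + m` the letter `p - 1` lies in the window `r` and `p + m` does not, so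
  exactly one letter of the window changes; the same with `p + m` if `p < r ≤ p + m`.
* `epsF m (F ∆ G) t = epsF m F t ^^ epsF m G t` (membership in a symmetric difference is the xor), hence
  `fl_st`, `st_st`.
* `per_of_At`: the letter `p + j + d` of `X` is `α (j + d)` (window `p`) and `α j` (window `p + d`).
-/

namespace Pool.Agent.KWG

open Finset
open scoped symmDiff

theorem fl_of_ne {m : ℕ} {p t : ℤ} {X : ℤ → Bool} (h1 : t + 1 ≠ p) (h2 : t - m ≠ p) :
    fl m p X t = X t := by
  unfold fl eps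
  simp [h1, h2]

theorem fl_left (m : ℕ) (p : ℤ) (X : ℤ → Bool) : fl m p X (p - 1) = !(X (p - 1)) := by
  unfold fl eps
  have h : ¬ (p - 1 - (m : ℤ) = p) := by omega
  have h' : p - 1 + 1 = p := by omega
  simp only [h, h', decide_true, decide_false, Bool.xor_false, Bool.xor_true]

theorem fl_right (m : ℕ) (p : ℤ) (X : ℤ → Bool) : fl m p X (p + m) = !(X (p + m)) := by
  unfold fl eps
  have h : ¬ (p + (m : ℤ) + 1 = p) := by omega
  have h' : p + (m : ℤ) - m = p := by omega
  simp only [h, h', decide_true, decide_false, Bool.xor_true, Bool.not_false]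

theorem fl_fl (m : ℕ) (p : ℤ) (X : ℤ → Bool) : fl m p (fl m p X) = X := by
  funext t
  show ((X t ^^ eps m p t) ^^ eps m p t) = X t
  rw [Bool.xor_assoc, Bool.xor_self, Bool.xor_false]

theorem fl_comm (m : ℕ) (p q : ℤ) (X : ℤ → Bool) : fl m p (fl m q X) = fl m q (fl m p X) := by
  funext t
  show ((X t ^^ eps m q t) ^^ eps m p t) = ((X t ^^ eps m p t) ^^ eps m q t)
  rw [Bool.xor_assoc, Bool.xor_assoc, Bool.xor_comm (eps m q t)]

theorem At_congr {α : ℕ → Bool} {m : ℕ} {p : ℤ} {X Y : ℤ → Bool}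
    (h : ∀ t : ℤ, p ≤ t → t < p + m → X t = Y t) : At α m X p ↔ At α m Y p := by
  constructor
  · intro hX j hj
    rw [← h (p + j) (by omega) (by omega)]
    exact hX j hj
  · intro hY j hj
    rw [h (p + j) (by omega) (by omega)]
    exact hY j hj

theorem At_fl_self {α : ℕ → Bool} {m : ℕ} {p : ℤ} {X : ℤ → Bool} :
    At α m (fl m p X) p ↔ At α m X p := by
  apply At_congr
  intro t h1 h2
  exact fl_of_ne (by omega) (by omega)

theorem At_fl_far {α : ℕ → Bool} {m : ℕ} {p r : ℤ} {X : ℤ → Bool} (h : p + m < r ∨ r + m < p) :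
    At α m (fl m p X) r ↔ At α m X r := by
  apply At_congr
  intro t h1 h2
  exact fl_of_ne (by omega) (by omega)

theorem At_destroy {α : ℕ → Bool} {m : ℕ} {p r : ℤ} {X : ℤ → Bool} (hX : At α m X r)
    (h : (r < p ∧ p ≤ r + m) ∨ (p < r ∧ r ≤ p + m)) : ¬ At α m (fl m p X) r := by
  intro hY
  rcases h with ⟨h1, h2⟩ | ⟨h1, h2⟩
  · obtain ⟨j, hj⟩ : ∃ j : ℕ, r + (j : ℤ) = p - 1 := ⟨(p - 1 - r).toNat, by omega⟩
    have a := hX j (by omega)
    have b := hY j (by omega)
    rw [hj] at a b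
    rw [fl_left, a] at b
    cases h : α j <;> simp [h] at b
  · obtain ⟨j, hj⟩ : ∃ j : ℕ, r + (j : ℤ) = p + m := ⟨(p + m - r).toNat, by omega⟩
    have a := hX j (by omega)
    have b := hY j (by omega)
    rw [hj] at a b
    rw [fl_right, a] at b
    cases h : α j <;> simp [h] at b

theorem st_empty (m : ℕ) (X : ℤ → Bool) : st m X ∅ = X := by
  funext t
  unfold st epsF
  simp

theorem W0_dec {F G : Finset ℤ} (t : ℤ) :
    decide (t ∈ F ∆ G) = (decide (t ∈ F) ^^ decide (t ∈ G)) := by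
  have := Finset.mem_symmDiff (a := t) (s := F) (t := G)
  simp only [this]
  by_cases h1 : t ∈ F <;> by_cases h2 : t ∈ G <;> simp [h1, h2]

theorem W0_epsF (m : ℕ) (F G : Finset ℤ) (t : ℤ) :
    epsF m (F ∆ G) t = (epsF m F t ^^ epsF m G t) := by
  unfold epsF
  rw [W0_dec, W0_dec]
  generalize decide (t + 1 ∈ F) = a
  generalize decide (t + 1 ∈ G) = b
  generalize decide (t - (m : ℤ) ∈ F) = c
  generalize decide (t - (m : ℤ) ∈ G) = d
  cases a <;> cases b <;> cases c <;> cases d <;> rfl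

theorem W0_eps (m : ℕ) (p t : ℤ) : epsF m {p} t = eps m p t := by
  unfold epsF eps
  simp only [Finset.mem_singleton]

theorem fl_st (m : ℕ) (X : ℤ → Bool) (F : Finset ℤ) (p : ℤ) :
    fl m p (st m X F) = st m X (F ∆ {p}) := by
  funext t
  show ((X t ^^ epsF m F t) ^^ eps m p t) = (X t ^^ epsF m (F ∆ {p}) t)
  rw [W0_epsF, W0_eps, Bool.xor_assoc]

theorem st_st (m : ℕ) (X : ℤ → Bool) (F G : Finset ℤ) : st m (st m X F) G = st m X (F ∆ G) := by
  funext t
  show ((X t ^^ epsF m F t) ^^ epsF m G t) = (X t ^^ epsF m (F ∆ G) t)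
  rw [W0_epsF, Bool.xor_assoc]

theorem st_single (m : ℕ) (X : ℤ → Bool) (p : ℤ) : st m X {p} = fl m p X := by
  funext t
  show (X t ^^ epsF m {p} t) = (X t ^^ eps m p t)
  rw [W0_eps]

theorem per_of_At {α : ℕ → Bool} {m d : ℕ} {p : ℤ} {X : ℤ → Bool} (hp : At α m X p)
    (hq : At α m X (p + d)) : Per α m d := by
  intro j hj
  have a := hp (j + d) hj
  have b := hq j (by omega)
  have e : p + ((j + d : ℕ) : ℤ) = p + (d : ℤ) + j := by push_cast; ring
  rw [e] at a
  rw [← a, ← b]

end Pool.Agent.KWG
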