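import Pool.Agent.KWG.W0

/-!
# [KWG-W0m] mirror images

`mirX X t = X (-1 - t)`, `mirA m α j = α (m - 1 - j)`, `mirp m p = -p - m`: the window `p` of `X`
(letters `p, ..., p+m-1`) is the window `-p-m` of the mirror image (letters `-p-m, ..., -1-p`), read
backwards.  The move `p` flips the letters `p-1` and `p+m`, whose images are `-p = (-p-m)+m` and
`-1-p-m = (-p-m)-1`.  Everything follows by unfolding; lists by induction.
-/

namespace Pool.Agent.KWG

theorem mirX_mirX (X : ℤ → Bool) : mirX (mirX X) = X := by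
  funext t
  show X (-1 - (-1 - t)) = X t
  congr 1
  ring

theorem mirp_mirp (m : ℕ) (p : ℤ) : mirp m (mirp m p) = p := by
  unfold mirp
  ring

theorem mirA_mirA (m : ℕ) (α : ℕ → Bool) {j : ℕ} (h : j < m) : mirA m (mirA m α) j = α j := by
  show α (m - 1 - (m - 1 - j)) = α j
  congr 1
  omega

theorem w0m_At {α : ℕ → Bool} {m : ℕ} {X : ℤ → Bool} {p : ℤ} (h : At α m X p) :
    At (mirA m α) m (mirX X) (mirp m p) := by
  intro j hj
  have h1 := h (m - 1 - j) (by omega)
  show X (-1 - (-p - m + j)) = α (m - 1 - j)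
  rw [← h1]
  congr 1
  omega

theorem At_mir {α : ℕ → Bool} {m : ℕ} {X : ℤ → Bool} {p : ℤ} :
    At (mirA m α) m (mirX X) (mirp m p) ↔ At α m X p := by
  refine ⟨fun h => ?_, w0m_At⟩
  have h1 := w0m_At h
  rw [mirX_mirX, mirp_mirp] at h1
  intro j hj
  rw [h1 j hj, mirA_mirA m α hj]

theorem fl_mir (m : ℕ) (X : ℤ → Bool) (p : ℤ) : mirX (fl m p X) = fl m (mirp m p) (mirX X) := by
  funext t
  show (X (-1 - t) ^^ (decide (-1 - t + 1 = p) ^^ decide (-1 - t - m = p))) =
    (X (-1 - t) ^^ (decide (t + 1 = -p - m) ^^ decide (t - m = -p - m)))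
  have e1 : decide (-1 - t + 1 = p) = decide (t - m = -p - (m : ℤ)) := by
    apply decide_eq_decide.2
    constructor <;> intro h <;> omega
  have e2 : decide (-1 - t - m = p) = decide (t + 1 = -p - (m : ℤ)) := by
    apply decide_eq_decide.2
    constructor <;> intro h <;> omega
  rw [e1, e2, Bool.xor_comm (decide (t - m = -p - (m : ℤ)))]

theorem w0m_Per {α : ℕ → Bool} {m d : ℕ} (h : Per α m d) : Per (mirA m α) m d := by
  intro j hj
  have h1 := h (m - 1 - (j + d)) (by omega)
  show α (m - 1 - j) = α (m - 1 - (j + d))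
  rw [h1]
  congr 1
  omega

theorem Per_mir {α : ℕ → Bool} {m d : ℕ} : Per (mirA m α) m d ↔ Per α m d := by
  refine ⟨fun h => ?_, w0m_Per⟩
  have h1 := w0m_Per h
  intro j hj
  have h2 := h1 j hj
  rw [mirA_mirA m α (by omega), mirA_mirA m α (by omega)] at h2
  exact h2

theorem Val_mir {α : ℕ → Bool} {m : ℕ} {I : Set ℤ} {X : ℤ → Bool} {l : List ℤ} :
    Val (mirA m α) m {r | mirp m r ∈ I} (mirX X) (l.map (mirp m)) ↔ Val α m I X l := by
  induction l generalizing X with
  | nil => exact Iff.rfl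
  | cons r l ih =>
    show (mirp m (mirp m r) ∈ I ∧ At (mirA m α) m (mirX X) (mirp m r) ∧
      Val (mirA m α) m {r | mirp m r ∈ I} (fl m (mirp m r) (mirX X)) (l.map (mirp m))) ↔
      (r ∈ I ∧ At α m X r ∧ Val α m I (fl m r X) l)
    rw [mirp_mirp, At_mir, ← fl_mir, ih]

theorem fin_mir (m : ℕ) (X : ℤ → Bool) (l : List ℤ) :
    fin m (mirX X) (l.map (mirp m)) = mirX (fin m X l) := by
  induction l generalizing X with
  | nil => rfl
  | cons r l ih =>
    show fin m (fl m (mirp m r) (mirX X)) (l.map (mirp m)) = mirX (fin m (fl m r X) l)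
    rw [← fl_mir, ih]

end Pool.Agent.KWG
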