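import Pool.Agent.KWG.Defs

/-!
# [KWG-W1] the theorem of Fine and Wilf (pure)

`f : ℕ → Bool` has the periods `p` and `q` on `[0, L)` and `p + q ≤ L + gcd p q`; then it has the period
`gcd p q` on `[0, L)`.

Proof by strong induction on `p + q` (all other variables general).
* If `p = 0` or `q = 0` or `p = q`: the gcd is the other number and the claim is: `f` is constant on the
  residue classes of a period (easy induction: `f i = f (i + k * q)` as long as `i + k * q < L`).
* Otherwise assume `0 < p < q` (the other case is symmetric; `Nat.gcd_comm`).  On the prefix of length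
  `L - p` the word has the periods `p` and `q - p`: for `i + (q - p) < L - p` we have `i + q < L` and
  `f i = f (i + q) = f (i + q - p)`.  As `gcd p (q - p) = gcd p q` and
  `p + (q - p) = q ≤ (L - p) + gcd p q`, the induction hypothesis gives the claim for `i, j < L - p`.
  For `i < L` with `i ≥ L - p`: `L ≥ p + q - gcd ≥ 2 p` because `q - p` is a positive multiple of the gcd,
  so `i ≥ p`, `i - p < L - p`, `f i = f (i - p)`, and `i - p ≡ i` modulo the gcd.
-/

namespace Pool.Agent.KWG

theorem w1_mul (f : ℕ → Bool) (L p : ℕ) (hp : ∀ i, i + p < L → f i = f (i + p)) (k : ℕ) :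
    ∀ i, i + k * p < L → f i = f (i + k * p) := by
  induction k with
  | zero => intro i _; rw [zero_mul, add_zero]
  | succ k ih =>
    intro i hi
    have e : i + (k + 1) * p = i + k * p + p := by ring
    rw [e] at hi ⊢
    rw [ih i (by omega), hp (i + k * p) hi]

theorem w1_le (f : ℕ → Bool) (L p : ℕ) (hp : ∀ i, i + p < L → f i = f (i + p)) (i j : ℕ)
    (hj : j < L) (hle : i ≤ j) (hij : i ≡ j [MOD p]) : f i = f j := by
  obtain ⟨k, hk⟩ := (Nat.modEq_iff_dvd' hle).1 hij
  have e : j = i + k * p := by
    rw [mul_comm k p]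
    omega
  rw [e]
  exact w1_mul f L p hp k i (by rw [← e]; exact hj)

theorem w1_mod (f : ℕ → Bool) (L p : ℕ) (hp : ∀ i, i + p < L → f i = f (i + p)) (i j : ℕ)
    (hi : i < L) (hj : j < L) (hij : i ≡ j [MOD p]) : f i = f j := by
  rcases Nat.le_total i j with h | h
  · exact w1_le f L p hp i j hj h hij
  · exact (w1_le f L p hp j i hi h hij.symm).symm

theorem w1_main (n : ℕ) : ∀ (f : ℕ → Bool) (L p q : ℕ), p + q ≤ n →
    (∀ i, i + p < L → f i = f (i + p)) → (∀ i, i + q < L → f i = f (i + q)) →
    p + q ≤ L + Nat.gcd p q → ∀ i j, i < L → j < L → i ≡ j [MOD Nat.gcd p q] → f i = f j := by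
  induction n with
  | zero =>
    intro f L p q hn hp hq hL i j hi hj hij
    have h1 : p = 0 := by omega
    have h2 : q = 0 := by omega
    subst h1 h2
    exact w1_mod f L 0 hp i j hi hj hij
  | succ n ih =>
    have key : ∀ (f : ℕ → Bool) (L p q : ℕ), p + q ≤ n + 1 → 0 < p → p < q →
        (∀ i, i + p < L → f i = f (i + p)) → (∀ i, i + q < L → f i = f (i + q)) →
        p + q ≤ L + Nat.gcd p q → ∀ i j, i < L → j < L → i ≡ j [MOD Nat.gcd p q] →
          f i = f j := by
      intro f L p q hn hp0 hpq hp hq hL i j hi hj hij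
      have hg : Nat.gcd p (q - p) = Nat.gcd p q := Nat.gcd_sub_self_right hpq.le
      have hgp : Nat.gcd p q ∣ p := Nat.gcd_dvd_left p q
      have hgq : Nat.gcd p q ≤ q - p := by
        rw [← hg]
        exact Nat.gcd_le_right _ (by omega)
      have hgp' : Nat.gcd p q ≤ p := Nat.le_of_dvd hp0 hgp
      have hred : ∀ i, i < L → ∃ i', i' < L - p ∧ f i' = f i ∧ i' ≡ i [MOD Nat.gcd p q] := by
        intro i hi
        by_cases h : i < L - p
        · exact ⟨i, h, rfl, rfl⟩
        · refine ⟨i - p, by omega, ?_, ?_⟩
          · have h1 := hp (i - p) (by omega)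
            rwa [Nat.sub_add_cancel (by omega)] at h1
          · refine (Nat.modEq_iff_dvd' (by omega)).2 ?_
            have e : i - (i - p) = p := by omega
            rw [e]
            exact hgp
      obtain ⟨i', hi', hfi, hmi⟩ := hred i hi
      obtain ⟨j', hj', hfj, hmj⟩ := hred j hj
      rw [← hfi, ← hfj]
      refine ih f (L - p) p (q - p) (by omega) (fun k hk => hp k (by omega)) ?_ (by rw [hg]; omega)
        i' j' hi' hj' ?_
      · intro k hk
        have h1 := hq k (by omega)
        have h2 := hp (k + (q - p)) (by omega)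
        have e : k + (q - p) + p = k + q := by omega
        rw [e] at h2
        rw [h1, h2]
      · rw [hg]
        exact (hmi.trans hij).trans hmj.symm
    intro f L p q hn hp hq hL i j hi hj hij
    by_cases hp0 : p = 0
    · subst hp0
      rw [Nat.gcd_zero_left] at hij
      exact w1_mod f L q hq i j hi hj hij
    · by_cases hq0 : q = 0
      · subst hq0
        rw [Nat.gcd_zero_right] at hij
        exact w1_mod f L p hp i j hi hj hij
      · rcases Nat.lt_trichotomy p q with h | h | h
        · exact key f L p q hn (by omega) h hp hq hL i j hi hj hij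
        · subst h
          rw [Nat.gcd_self] at hij
          exact w1_mod f L p hp i j hi hj hij
        · rw [Nat.gcd_comm] at hL hij
          exact key f L q p (by omega) (by omega) h hq hp (by omega) i j hi hj hij

theorem fw_eq (f : ℕ → Bool) (L p q : ℕ) (hp : ∀ i, i + p < L → f i = f (i + p))
    (hq : ∀ i, i + q < L → f i = f (i + q)) (hL : p + q ≤ L + Nat.gcd p q) (i j : ℕ) (hi : i < L)
    (hj : j < L) (hij : i ≡ j [MOD Nat.gcd p q]) : f i = f j :=
  w1_main (p + q) f L p q le_rfl hp hq hL i j hi hj hij

/-- the gcd of two periods `p, q` with `p + q ≤ m + gcd` is a period -/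
theorem per_gcd {α : ℕ → Bool} {m p q : ℕ} (hp : Per α m p) (hq : Per α m q)
    (hL : p + q ≤ m + Nat.gcd p q) : Per α m (Nat.gcd p q) := by
  intro j hj
  refine fw_eq α m p q hp hq hL j (j + Nat.gcd p q) (by omega) hj ?_
  exact (Nat.add_mod_right j (Nat.gcd p q)).symm

/-- multiples of a period are periods -/
theorem per_mul {α : ℕ → Bool} {m p : ℕ} (hp : Per α m p) (k : ℕ) : Per α m (k * p) :=
  fun j hj => w1_mul α m p hp k j hj

end Pool.Agent.KWG
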